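import Pool.Agent.H685_stab.Growth

/-!
Polynomials bounded, modulo the quadratic module, by powers of the weight function.
-/

set_option linter.unusedSectionVars false

namespace Pool.Agent.H685_stab

open MvPolynomial

lemma sosC {c : ℝ} (hc : 0 ≤ c) : IsSumSq (C c : P2) := by
  have : (C c : P2) = C (Real.sqrt c) * C (Real.sqrt c) := by
    rw [← C_mul, Real.mul_self_sqrt hc]
  rw [this]
  exact IsSumSq.mul_self _

lemma sos_sq (f : P2) : IsSumSq (f ^ 2) := by rw [sq]; exact IsSumSq.mul_self f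

lemma sos_pow {f : P2} (hf : IsSumSq f) (n : ℕ) : IsSumSq (f ^ n) := by
  induction n with
  | zero => rw [pow_zero]; exact IsSumSq.one
  | succ n ih => rw [pow_succ]; exact ih.mul hf

lemma QQ_sos : IsSumSq QQ := by
  rw [QQ]
  exact ((IsSumSq.one.add (sos_sq _)).add (sos_sq _)).add (sos_sq _)

/-- Membership in the quadratic module generated by `gx`. -/
abbrev MM (f : P2) : Prop := InQM gx f

lemma MM.sos {f : P2} (h : IsSumSq f) : MM f := InQM.of_sos h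

lemma MM.sq (f : P2) : MM (f ^ 2) := InQM.of_sos (sos_sq f)

lemma MM.const_mul {c : ℝ} (hc : 0 ≤ c) {f : P2} (h : MM f) : MM (C c * f) :=
  InQM.smul (sosC hc) h

lemma MM.sum {ι : Type*} (s : Finset ι) (F : ι → P2) (h : ∀ i ∈ s, MM (F i)) :
    MM (∑ i ∈ s, F i) := by
  classical
  induction s using Finset.induction_on with
  | empty => rw [Finset.sum_empty]; exact InQM.zero
  | insert a s ha ih =>
    rw [Finset.sum_insert ha]
    exact InQM.add (h a (Finset.mem_insert_self a s))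
      (ih fun i hi => h i (Finset.mem_insert_of_mem hi))

/-- Polynomials whose square is bounded by a multiple of `Q ^ m`. -/
def Bm (m : ℕ) : Submodule ℝ P2 where
  carrier := {f | ∃ c : ℝ, 0 ≤ c ∧ MM (C c * QQ ^ m - f ^ 2)}
  add_mem' := by
    rintro f h ⟨c, hc0, hc⟩ ⟨d, hd0, hd⟩
    refine ⟨2 * c + 2 * d, by positivity, ?_⟩
    have e : C (2 * c + 2 * d) * QQ ^ m - (f + h) ^ 2
        = C 2 * (C c * QQ ^ m - f ^ 2) + C 2 * (C d * QQ ^ m - h ^ 2) + (f - h) ^ 2 := by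
      have h2 : (C 2 : P2) = 2 := map_ofNat C 2
      simp only [C_add, C_mul, h2]; ring
    rw [e]
    exact ((hc.const_mul (by norm_num)).add (hd.const_mul (by norm_num))).add (MM.sq _)
  zero_mem' := ⟨0, le_refl _, by simpa using (InQM.zero : MM 0)⟩
  smul_mem' := by
    rintro r f ⟨c, hc0, hc⟩
    refine ⟨r ^ 2 * c, by positivity, ?_⟩
    have e : C (r ^ 2 * c) * QQ ^ m - (r • f) ^ 2 = C (r ^ 2) * (C c * QQ ^ m - f ^ 2) := by
      rw [smul_eq_C_mul]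
      simp only [C_mul, C_pow]; ring
    rw [e]
    exact hc.const_mul (by positivity)

lemma Bm_mul {m n : ℕ} {f h : P2} (hf : f ∈ Bm m) (hh : h ∈ Bm n) : f * h ∈ Bm (m + n) := by
  obtain ⟨c, hc0, hc⟩ := hf
  obtain ⟨d, hd0, hd⟩ := hh
  refine ⟨c * d, by positivity, ?_⟩
  have e : C (c * d) * QQ ^ (m + n) - (f * h) ^ 2
      = (C d * QQ ^ n) * (C c * QQ ^ m - f ^ 2) + f ^ 2 * (C d * QQ ^ n - h ^ 2) := by
    rw [C_mul, pow_add]; ring
  rw [e]
  exact (InQM.smul ((sosC hd0).mul (sos_pow QQ_sos n)) hc).add (InQM.smul (sos_sq f) hd)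

lemma one_mem_Bm1 : (1 : P2) ∈ Bm 1 := by
  refine ⟨1, by norm_num, ?_⟩
  have e : C 1 * QQ ^ 1 - 1 ^ 2 = pa ^ 2 + pb ^ 2 + pc ^ 2 := by
    rw [C_1, QQ]; ring
  rw [e]
  exact MM.sos (((sos_sq _).add (sos_sq _)).add (sos_sq _))

lemma one_mem_Bm0 : (1 : P2) ∈ Bm 0 := by
  refine ⟨1, by norm_num, ?_⟩
  have e : C 1 * QQ ^ 0 - 1 ^ 2 = 0 := by
    rw [C_1]; ring
  rw [e]
  exact InQM.zero

lemma pa_mem_Bm : pa ∈ Bm 1 := by
  refine ⟨1, by norm_num, ?_⟩
  have e : C 1 * QQ ^ 1 - pa ^ 2 = 1 + pb ^ 2 + pc ^ 2 := by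
    rw [C_1, QQ]; ring
  rw [e]
  exact MM.sos ((IsSumSq.one.add (sos_sq _)).add (sos_sq _))

lemma pb_mem_Bm : pb ∈ Bm 1 := by
  refine ⟨1, by norm_num, ?_⟩
  have e : C 1 * QQ ^ 1 - pb ^ 2 = 1 + pa ^ 2 + pc ^ 2 := by
    rw [C_1, QQ]; ring
  rw [e]
  exact MM.sos ((IsSumSq.one.add (sos_sq _)).add (sos_sq _))

lemma pc_mem_Bm : pc ∈ Bm 1 := by
  refine ⟨1, by norm_num, ?_⟩
  have e : C 1 * QQ ^ 1 - pc ^ 2 = 1 + pa ^ 2 + pb ^ 2 := by
    rw [C_1, QQ]; ring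
  rw [e]
  exact MM.sos ((IsSumSq.one.add (sos_sq _)).add (sos_sq _))

lemma av_mem_Bm (i : Fin 3) : av i ∈ Bm 1 := by
  fin_cases i
  · exact pa_mem_Bm
  · exact pb_mem_Bm
  · exact pc_mem_Bm

lemma Bm_succ {m : ℕ} {f : P2} (hf : f ∈ Bm m) : f ∈ Bm (m + 1) := by
  have := Bm_mul hf one_mem_Bm1
  rwa [mul_one] at this

lemma Bm_mono {m n : ℕ} (h : m ≤ n) : Bm m ≤ Bm n := by
  induction n, h using Nat.le_induction with
  | base => exact le_refl _
  | succ n _ ih => exact fun f hf => Bm_succ (ih hf)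

lemma Bm_pow {m : ℕ} {f : P2} (hf : f ∈ Bm m) (k : ℕ) : f ^ k ∈ Bm (k * m) := by
  induction k with
  | zero => rw [pow_zero, zero_mul]; exact one_mem_Bm0
  | succ k ih =>
    rw [pow_succ]
    have := Bm_mul ih hf
    convert this using 2
    ring

lemma x_eq : vx = pb + pc := by rw [pb]; ring
lemma y_eq : vy = pa + pc := by rw [pa]; ring

lemma vx_mem_Bm : vx ∈ Bm 1 := by rw [x_eq]; exact add_mem pb_mem_Bm pc_mem_Bm
lemma vy_mem_Bm : vy ∈ Bm 1 := by rw [y_eq]; exact add_mem pa_mem_Bm pc_mem_Bm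

lemma An_le_Bm (n : ℕ) : An n ≤ Bm n := by
  rw [An, Submodule.span_le]
  rintro _ ⟨i, j, k, hijk, rfl⟩
  have h1 := Bm_mul (Bm_mul (Bm_pow vx_mem_Bm i) (Bm_pow vy_mem_Bm j)) (Bm_pow pc_mem_Bm k)
  exact Bm_mono (by omega) h1

/-- The gain from the inequality `g ≥ 0`. -/
lemma gain {m : ℕ} {β : P2} (h0 : β ∈ Bm m) (ha : pa * β ∈ Bm m) (hb : pb * β ∈ Bm m)
    (hc : pc * β ∈ Bm m) :
    pa * pb * β ∈ Bm m ∧ pb * pc * β ∈ Bm m ∧ pc * pa * β ∈ Bm m := by
  obtain ⟨c0, hc0, h0⟩ := h0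
  obtain ⟨c1, hc1, h1⟩ := ha
  obtain ⟨c2, hc2, h2⟩ := hb
  obtain ⟨c3, hc3, h3⟩ := hc
  have hC2 : (C 2 : P2) = 2 := map_ofNat C 2
  have key : MM (C (2 * (c0 + c1 + c2 + c3)) * QQ ^ m - EE * β ^ 2) := by
    have e : C (2 * (c0 + c1 + c2 + c3)) * QQ ^ m - EE * β ^ 2
        = C 2 * ((C c0 * QQ ^ m - β ^ 2) + (C c1 * QQ ^ m - (pa * β) ^ 2)
          + (C c2 * QQ ^ m - (pb * β) ^ 2) + (C c3 * QQ ^ m - (pc * β) ^ 2)) + β ^ 2 * gx := by
      simp only [C_mul, C_add, hC2]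
      have : QQ = 1 + pa ^ 2 + pb ^ 2 + pc ^ 2 := rfl
      rw [gx]
      linear_combination (-2 * β ^ 2) * this
    rw [e]
    exact (MM.const_mul (by norm_num) (((h0.add h1).add h2).add h3)).add
      (InQM.smul (sos_sq β) InQM.gen)
  have hpos : 0 ≤ 2 * (c0 + c1 + c2 + c3) := by positivity
  refine ⟨⟨_, hpos, ?_⟩, ⟨_, hpos, ?_⟩, ⟨_, hpos, ?_⟩⟩
  · have e : C (2 * (c0 + c1 + c2 + c3)) * QQ ^ m - (pa * pb * β) ^ 2
        = (C (2 * (c0 + c1 + c2 + c3)) * QQ ^ m - EE * β ^ 2) + (pb * pc * β) ^ 2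
          + (pc * pa * β) ^ 2 := by
      rw [EE]; ring
    rw [e]; exact (key.add (MM.sq _)).add (MM.sq _)
  · have e : C (2 * (c0 + c1 + c2 + c3)) * QQ ^ m - (pb * pc * β) ^ 2
        = (C (2 * (c0 + c1 + c2 + c3)) * QQ ^ m - EE * β ^ 2) + (pa * pb * β) ^ 2
          + (pc * pa * β) ^ 2 := by
      rw [EE]; ring
    rw [e]; exact (key.add (MM.sq _)).add (MM.sq _)
  · have e : C (2 * (c0 + c1 + c2 + c3)) * QQ ^ m - (pc * pa * β) ^ 2
        = (C (2 * (c0 + c1 + c2 + c3)) * QQ ^ m - EE * β ^ 2) + (pa * pb * β) ^ 2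
          + (pb * pc * β) ^ 2 := by
      rw [EE]; ring
    rw [e]; exact (key.add (MM.sq _)).add (MM.sq _)

open Polynomial in
/-- Coefficients of the leading parts of `gg`. -/
noncomputable def kap (s e : ℝ) : Fin 3 → Fin 3 → ℝ :=
  ![![s, e * s, e * s], ![-(e * s), -s, -s], ![e * s, s, s]]

lemma dh_gt (n : ℕ) (l i : Fin 3) : dh ((n + 1 : ℕ) : ℤ) (gt n l i)
    = (if i = l then Polynomial.X ^ n else 0)
      + Polynomial.C (kap (1 / ((n : ℝ) + 1)) ((-1) ^ (n + 1)) l i) * Polynomial.X ^ (n + 1) := by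
  have e : (-uu) ^ (n + 1) = ((-1 : ℝ) ^ (n + 1)) • uu ^ (n + 1) := by
    rw [← neg_one_smul ℝ uu, smul_pow]
  have h1 : dh ((n + 1 : ℕ) : ℤ) (uu ^ (n + 1)) = Polynomial.X ^ (n + 1) := by
    rw [dh_pow uu_mem, dh_uu]
  have h2 : dh ((n + 1 : ℕ) : ℤ) (rr * uu ^ n) = Polynomial.X ^ n := by
    have := dh_mul rr_mem (show uu ^ n ∈ Fl n by simpa using Fl_pow uu_mem n)
    rw [dh_rr, dh_pow uu_mem, dh_uu, one_mul] at this
    rw [← this]; congr 2; push_cast; ring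
  set s := 1 / ((n : ℝ) + 1) with hs
  set ε := (-1 : ℝ) ^ (n + 1) with hε
  fin_cases l <;> fin_cases i
  · change dh _ (rr * uu ^ n + s • uu ^ (n + 1)) = Polynomial.X ^ n + Polynomial.C s * _
    rw [map_add, map_smul, h1, h2, Polynomial.smul_eq_C_mul]
  · change dh _ (s • (-uu) ^ (n + 1)) = 0 + Polynomial.C (ε * s) * _
    rw [e, map_smul, map_smul, h1, smul_smul, Polynomial.smul_eq_C_mul, zero_add, mul_comm s]
  · change dh _ (s • (-uu) ^ (n + 1)) = 0 + Polynomial.C (ε * s) * _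
    rw [e, map_smul, map_smul, h1, smul_smul, Polynomial.smul_eq_C_mul, zero_add, mul_comm s]
  · change dh _ (-(s • (-uu) ^ (n + 1))) = 0 + Polynomial.C (-(ε * s)) * _
    rw [e, map_neg, map_smul, map_smul, h1, smul_smul, Polynomial.smul_eq_C_mul, zero_add,
      mul_comm s, Polynomial.C_neg, neg_mul]
  · change dh _ (rr * uu ^ n - s • uu ^ (n + 1)) = Polynomial.X ^ n + Polynomial.C (-s) * _
    rw [map_sub, map_smul, h1, h2, Polynomial.smul_eq_C_mul, Polynomial.C_neg]; ring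
  · change dh _ (-(s • uu ^ (n + 1))) = 0 + Polynomial.C (-s) * _
    rw [map_neg, map_smul, h1, Polynomial.smul_eq_C_mul, zero_add, Polynomial.C_neg, neg_mul]
  · change dh _ (s • (-uu) ^ (n + 1)) = 0 + Polynomial.C (ε * s) * _
    rw [e, map_smul, map_smul, h1, smul_smul, Polynomial.smul_eq_C_mul, zero_add, mul_comm s]
  · change dh _ (s • uu ^ (n + 1)) = 0 + Polynomial.C s * _
    rw [map_smul, h1, Polynomial.smul_eq_C_mul, zero_add]
  · change dh _ (rr * uu ^ n + s • uu ^ (n + 1)) = Polynomial.X ^ n + Polynomial.C s * _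
    rw [map_add, map_smul, h1, h2, Polynomial.smul_eq_C_mul]

lemma gt_Gr (n : ℕ) (l i : Fin 3) : gt n l i - (if i = l then rr * uu ^ n else 0) ∈ Gr 0 := by
  obtain ⟨κ, hκ⟩ := gt_eq n l i
  rw [hκ, add_sub_cancel_left]
  exact Submodule.smul_mem _ _ (uu_Gr _)

/-- Elements of growth one with known subleading terms. -/
lemma exists_L (n : ℕ) (l : Fin 3) : ∃ L ∈ An (n + 1), L ∈ Vm 1 ∧
    ∀ i, dh ((n + 1 : ℕ) : ℤ) (ph i L) = (if i = l then Polynomial.X ^ n else 0)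
      + Polynomial.C (kap (1 / ((n : ℝ) + 1)) ((-1) ^ (n + 1)) l i) * Polynomial.X ^ (n + 1) := by
  obtain ⟨h, hh, h1⟩ := ML n (fun i => -(ph i (gg n l) - gt n l i))
    (fun i => neg_mem (gg_congr n l i))
  refine ⟨gg n l + h, add_mem (gg_An n l) (An_mono (Nat.le_succ n) hh), ?_, ?_⟩
  · intro i
    have e : ph i (gg n l + h) = (ph i h - -(ph i (gg n l) - gt n l i))
        + (gt n l i - (if i = l then rr * uu ^ n else 0)) + (if i = l then rr * uu ^ n else 0) := by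
      rw [map_add]; ring
    rw [e]
    refine add_mem (add_mem (Gr01 (h1 i)) (Gr01 (gt_Gr n l i))) ?_
    split_ifs
    · have := Gr_mul Grr (uu_Gr n)
      simpa using this
    · exact zero_mem _
  · intro i
    rw [← dh_gt]
    apply dh_congr
    have e : ph i (gg n l + h) - gt n l i = (ph i (gg n l) - gt n l i) + ph i h := by
      rw [map_add]; ring
    rw [e]
    have h2 := ph_An hh i
    have h3 := gg_congr n l i
    have := add_mem h3 h2
    exact FW_mono (by push_cast; omega) this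

end Pool.Agent.H685_stab
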