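import Pool.Agent.H685_stab.Arch

/-!
Every polynomial of growth order at most `m ≥ 2` is bounded by a power of the weight function.
-/

set_option linter.unusedSectionVars false

namespace Pool.Agent.H685_stab

open Polynomial

/-- Top part of `a`. -/
noncomputable def da : Fin 3 → ℝ[X] := ![1 + X, -X, -X]

/-- Top part of `b`. -/
noncomputable def db : Fin 3 → ℝ[X] := ![X, 1 - X, -X]

lemma dh_a (i : Fin 3) : dh 1 (ph i pa) = da i := by
  rw [dh_congr (G := topa i) (FW_mono (by norm_num) (ca i))]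
  fin_cases i
  · change dh 1 (rr + uu) = 1 + X
    rw [map_add, dh_uu, dh_rr]
  · change dh 1 (-uu) = -X
    rw [map_neg, dh_uu]
  · change dh 1 (-uu) = -X
    rw [map_neg, dh_uu]

lemma dh_b (i : Fin 3) : dh 1 (ph i pb) = db i := by
  rw [dh_congr (G := topb i) (FW_mono (by norm_num) (cb i))]
  fin_cases i
  · exact dh_uu
  · change dh 1 (rr - uu) = 1 - X
    rw [map_sub, dh_uu, dh_rr]
  · change dh 1 (-uu) = -X
    rw [map_neg, dh_uu]

/-- The three products. -/
noncomputable def pr : Fin 3 → P2 := ![pa * pb, pb * pc, pc * pa]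

/-- First coefficients of the products. -/
noncomputable def al : Fin 3 → Fin 3 → ℝ := ![![1, -1, 0], ![0, 1, -1], ![-1, 0, -1]]

/-- Second coefficients of the products. -/
noncomputable def be : Fin 3 → ℝ := ![1, -1, -1]

lemma dh_pr (k i : Fin 3) : dh 2 (ph i (pr k)) = C (al k i) * X + C (be k) * X ^ 2 := by
  have hab : ∀ i, dh 2 (ph i (pa * pb)) = da i * db i := by
    intro i
    rw [map_mul]
    have := dh_mul (pha_mem i) (phb_mem i)
    rw [dh_a, dh_b] at this
    exact this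
  have hbc : ∀ i, dh 2 (ph i (pb * pc)) = db i * dc i := by
    intro i
    rw [map_mul]
    have := dh_mul (phb_mem i) (phc_mem i)
    rw [dh_b, dh_c] at this
    exact this
  have hca : ∀ i, dh 2 (ph i (pc * pa)) = dc i * da i := by
    intro i
    rw [map_mul]
    have := dh_mul (phc_mem i) (pha_mem i)
    rw [dh_a, dh_c] at this
    exact this
  fin_cases k <;> fin_cases i
  · change dh 2 (ph 0 (pa * pb)) = C 1 * X + C 1 * X ^ 2
    rw [hab]; change (1 + X) * X = _
    rw [C_1]; ring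
  · change dh 2 (ph 1 (pa * pb)) = C (-1) * X + C 1 * X ^ 2
    rw [hab]; change (-X) * (1 - X) = _
    rw [C_neg, C_1]; ring
  · change dh 2 (ph 2 (pa * pb)) = C 0 * X + C 1 * X ^ 2
    rw [hab]; change (-X) * (-X) = _
    rw [C_0, C_1]; ring
  · change dh 2 (ph 0 (pb * pc)) = C 0 * X + C (-1) * X ^ 2
    rw [hbc]; change X * (-X) = _
    rw [C_neg, C_0, C_1]; ring
  · change dh 2 (ph 1 (pb * pc)) = C 1 * X + C (-1) * X ^ 2
    rw [hbc]; change (1 - X) * X = _
    rw [C_neg, C_1]; ring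
  · change dh 2 (ph 2 (pb * pc)) = C (-1) * X + C (-1) * X ^ 2
    rw [hbc]; change (-X) * (1 + X) = _
    rw [C_neg, C_1]; ring
  · change dh 2 (ph 0 (pc * pa)) = C (-1) * X + C (-1) * X ^ 2
    rw [hca]; change (-X) * (1 + X) = _
    rw [C_neg, C_1]; ring
  · change dh 2 (ph 1 (pc * pa)) = C 0 * X + C (-1) * X ^ 2
    rw [hca]; change X * (-X) = _
    rw [C_neg, C_0, C_1]; ring
  · change dh 2 (ph 2 (pc * pa)) = C (-1) * X + C (-1) * X ^ 2
    rw [hca]; change (1 + X) * (-X) = _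
    rw [C_neg, C_1]; ring

lemma pr_An (k : Fin 3) : pr k ∈ An 2 := by
  have h1 : pa * pb ∈ An (1 + 1) := An_mul pa_mem_An pb_mem_An
  have h2 : pb * pc ∈ An (1 + 1) := An_mul pb_mem_An pc_mem_An
  have h3 : pc * pa ∈ An (1 + 1) := An_mul pc_mem_An pa_mem_An
  fin_cases k
  · exact h1
  · exact h2
  · exact h3

lemma pair_Vm {i j : Fin 3} (h : i ≠ j) : av i * av j ∈ Vm 1 := by
  intro l
  rw [map_mul]
  by_cases hl : l = i
  · have h2 : l ≠ j := by rw [hl]; exact h
    have := Gr_mul (av_Gr1 i l) (av_Gr0 h2)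
    simpa using this
  · have := Gr_mul (av_Gr0 hl) (av_Gr1 j l)
    simpa using this

lemma pr_Vm (k : Fin 3) : pr k ∈ Vm 1 := by
  fin_cases k
  · exact pair_Vm (i := 0) (j := 1) (by decide)
  · exact pair_Vm (i := 1) (j := 2) (by decide)
  · exact pair_Vm (i := 2) (j := 0) (by decide)

lemma coeff_prod (n : ℕ) (α β δ κ : ℝ) :
    ((C α * X + C β * X ^ 2) * (C δ * X ^ n + C κ * X ^ (n + 1)) : ℝ[X]).coeff (n + 1) = α * δ ∧
    ((C α * X + C β * X ^ 2) * (C δ * X ^ n + C κ * X ^ (n + 1)) : ℝ[X]).coeff (n + 2)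
      = α * κ + β * δ := by
  have e : ((C α * X + C β * X ^ 2) * (C δ * X ^ n + C κ * X ^ (n + 1)) : ℝ[X])
      = C (α * δ) * X ^ (n + 1) + C (α * κ + β * δ) * X ^ (n + 2) + C (β * κ) * X ^ (n + 3) := by
    simp only [C_mul, C_add]; ring
  rw [e]
  constructor
  · simp only [coeff_add, coeff_C_mul, coeff_X_pow]
    simp
  · simp only [coeff_add, coeff_C_mul, coeff_X_pow]
    simp

/-- The linear system. -/
lemma linsys {s e : ℝ} (hs : 0 < s) (he : e = 1 ∨ e = -1) (t1 t2 : Fin 3 → ℝ) :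
    ∃ w : Fin 3 → Fin 3 → ℝ, ∀ i : Fin 3,
      (∑ k, ∑ l, w k l * (al k i * (if i = l then 1 else 0)) = t1 i) ∧
      (∑ k, ∑ l, w k l * (al k i * kap s e l i + be k * (if i = l then 1 else 0)) = t2 i) := by
  set p0 := t1 0
  set p1 := t1 1
  set p2 := t1 2
  set A := t2 0 - (s + 1) * p0 - e * s * p1 - e * s * p2 with hA
  set B := t2 1 + e * s * p0 + (s + 1) * p1 with hB
  set D := t2 2 - (s + 1) * p2 with hD
  set w3 := (B - D - e * A) * e / (2 * s + 1) with hw3
  set w1 := 2 * e * w3 - (B - D) / s with hw1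
  set w2 := w3 - e * B / s with hw2
  have hs0 : s ≠ 0 := hs.ne'
  have hs1 : 2 * s + 1 ≠ 0 := by positivity
  have he2 : e * e = 1 := by rcases he with h | h <;> rw [h] <;> norm_num
  have q3 : (2 * s + 1) * w3 = (B - D - e * A) * e := by rw [hw3]; field_simp
  have q1 : s * w1 = 2 * e * s * w3 - (B - D) := by rw [hw1]; field_simp
  have q2 : s * w2 = s * w3 - e * B := by rw [hw2]; field_simp
  refine ⟨![![p0 + w2, -p1 + w1, 0], ![w3, w1, 0], ![w2, 0, -p2]], fun i => ?_⟩
  fin_cases i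
  · refine ⟨?_, ?_⟩
    · simp [Fin.sum_univ_three, al]
      try ring
    · simp only [Fin.sum_univ_three, al, be, kap]
      simp
      linear_combination (-e) * q1 - q3 + (A - 2 * s * w3) * he2 - hA
  · refine ⟨?_, ?_⟩
    · simp [Fin.sum_univ_three, al]
      try ring
    · simp only [Fin.sum_univ_three, al, be, kap]
      simp
      linear_combination (-e) * q2 + B * he2 + hB
  · refine ⟨?_, ?_⟩
    · simp [Fin.sum_univ_three, al]
      try ring
    · simp only [Fin.sum_univ_three, al, be, kap]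
      simp
      linear_combination q1 - e * q2 + B * he2 + hD

/-- The induction step. -/
lemma V2_step {n : ℕ} (ih : ∀ f ∈ An (n + 2), f ∈ Vm 2 → f ∈ Bm 2) {f : P2}
    (hf : f ∈ An (n + 3)) (hV : f ∈ Vm 2) : f ∈ Bm 2 := by
  choose L hLA hLV hLd using exists_L n
  set s : ℝ := 1 / ((n : ℝ) + 1) with hs
  set e : ℝ := (-1) ^ (n + 1) with he
  have hs0 : 0 < s := by positivity
  have he1 : e = 1 ∨ e = -1 := neg_one_pow_eq_or ℝ (n + 1)
  obtain ⟨w, hw⟩ := linsys hs0 he1
    (fun i => (dh ((n + 3 : ℕ) : ℤ) (ph i f)).coeff (n + 1))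
    (fun i => (dh ((n + 3 : ℕ) : ℤ) (ph i f)).coeff (n + 2))
  have hB0 : ∀ l, L l ∈ Bm 2 := fun l =>
    ih _ (An_mono (by omega) (hLA l)) (Vm_mono (by norm_num) (hLV l))
  have hB1 : ∀ l i, av i * L l ∈ Bm 2 := by
    intro l i
    apply ih
    · have := An_mul (av_An i) (hLA l)
      exact An_mono (by omega) this
    · have := Vm_mul (av_Vm i) (hLV l)
      exact this
  have hprB : ∀ k l, pr k * L l ∈ Bm 2 := by
    intro k l
    obtain ⟨h1, h2, h3⟩ := gain (hB0 l) (hB1 l 0) (hB1 l 1) (hB1 l 2)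
    fin_cases k
    · exact h1
    · exact h2
    · exact h3
  set h : P2 := ∑ k, ∑ l, w k l • (pr k * L l) with hh
  have hhB : h ∈ Bm 2 :=
    sum_mem fun k _ => sum_mem fun l _ => Submodule.smul_mem _ _ (hprB k l)
  have hhV : h ∈ Vm 2 :=
    sum_mem fun k _ => sum_mem fun l _ => Submodule.smul_mem _ _ (Vm_mul (pr_Vm k) (hLV l))
  have hhA : h ∈ An (n + 3) :=
    sum_mem fun k _ => sum_mem fun l _ => Submodule.smul_mem _ _
      (An_mono (by omega) (An_mul (pr_An k) (hLA l)))
  have hdh : ∀ i, dh ((n + 3 : ℕ) : ℤ) (ph i h) = ∑ k, ∑ l, w k l •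
      ((C (al k i) * X + C (be k) * X ^ 2) *
        (C (if i = l then 1 else 0) * X ^ n + C (kap s e l i) * X ^ (n + 1))) := by
    intro i
    rw [hh, map_sum, map_sum]
    refine Finset.sum_congr rfl fun k _ => ?_
    rw [map_sum, map_sum]
    refine Finset.sum_congr rfl fun l _ => ?_
    rw [map_smul, map_smul, map_mul]
    congr 1
    have h1 := dh_mul (ph_An (pr_An k) i) (ph_An (hLA l) i)
    have h2 : ((2 : ℕ) : ℤ) + ((n + 1 : ℕ) : ℤ) = ((n + 3 : ℕ) : ℤ) := by push_cast; ring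
    rw [h2] at h1
    rw [h1, hLd l i]
    have h3 := dh_pr k i
    have h4 : ((2 : ℕ) : ℤ) = 2 := rfl
    rw [h4, h3]
    congr 1
    congr 1
    split_ifs <;> simp
  have hc1 : ∀ i, (dh ((n + 3 : ℕ) : ℤ) (ph i h)).coeff (n + 1)
      = (dh ((n + 3 : ℕ) : ℤ) (ph i f)).coeff (n + 1) := by
    intro i
    rw [hdh, finsetSum_coeff, ← (hw i).1]
    refine Finset.sum_congr rfl fun k _ => ?_
    rw [finsetSum_coeff]
    refine Finset.sum_congr rfl fun l _ => ?_
    rw [coeff_smul, (coeff_prod n _ _ _ _).1, smul_eq_mul]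
  have hc2 : ∀ i, (dh ((n + 3 : ℕ) : ℤ) (ph i h)).coeff (n + 2)
      = (dh ((n + 3 : ℕ) : ℤ) (ph i f)).coeff (n + 2) := by
    intro i
    rw [hdh, finsetSum_coeff, ← (hw i).2]
    refine Finset.sum_congr rfl fun k _ => ?_
    rw [finsetSum_coeff]
    refine Finset.sum_congr rfl fun l _ => ?_
    rw [coeff_smul, (coeff_prod n _ _ _ _).2, smul_eq_mul]
  have hdiffV : f - h ∈ Vm 2 := sub_mem hV hhV
  have hdiff : f - h ∈ An (n + 2) := by
    apply lemT (sub_mem hf hhA)
    intro i k hk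
    by_cases hk1 : k ≤ n
    · rw [coeff_dh]
      by_contra hne
      have := hdiffV i _ hne
      simp only [wG] at this
      push_cast at this
      omega
    · rw [map_sub, map_sub, coeff_sub]
      have : k = n + 1 ∨ k = n + 2 := by omega
      have e3 : ((n + 2 + 1 : ℕ) : ℤ) = ((n + 3 : ℕ) : ℤ) := rfl
      rw [e3]
      rcases this with rfl | rfl
      · rw [hc1, sub_self]
      · rw [hc2, sub_self]
  have : f = (f - h) + h := by ring
  rw [this]
  exact add_mem (ih _ hdiff hdiffV) hhB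

lemma V2_aux (n : ℕ) : ∀ f ∈ An n, f ∈ Vm 2 → f ∈ Bm 2 := by
  induction n with
  | zero => intro f hf _; exact Bm_mono (by omega) (An_le_Bm 0 hf)
  | succ n ih =>
    rcases n with _ | _ | n
    · intro f hf _; exact Bm_mono (by omega) (An_le_Bm 1 hf)
    · intro f hf _; exact An_le_Bm 2 hf
    · intro f hf hV; exact V2_step ih hf hV

theorem V2_le : Vm 2 ≤ Bm 2 := by
  intro f hf
  obtain ⟨n, hn⟩ := exists_An f
  exact V2_aux n f hn hf

/-- Peeling off the leading terms on the three tentacles. -/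
lemma peel {m k : ℕ} (hm : 0 < m) {f : P2} (hf : f ∈ Vm ((m + k : ℕ) : ℤ)) :
    ∃ L : Fin 3 → P2, (∀ i, L i ∈ Vm m) ∧ (∀ i, ph i (L i) ∈ Gr m) ∧
      (∀ i j, j ≠ i → ph j (L i) ∈ Gr 0) ∧
      f - ∑ i, av i ^ k * L i ∈ Vm (((m + k : ℕ) : ℤ) - 1) := by
  choose L hLA hLG hLe hLo using fun i =>
    exists_lift (m := m) i (lead ((m + k : ℕ) : ℤ) (ph i f))
  refine ⟨L, ?_, hLG, hLo, ?_⟩
  · intro i j
    by_cases h : j = i
    · subst h; exact hLG j
    · exact FW_mono (by omega) (hLo i j h)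
  · intro j
    apply mem_Gr_pred
    · rw [map_sub, map_sum]
      refine sub_mem (hf j) (sum_mem fun i _ => ?_)
      rw [map_mul, map_pow]
      by_cases h : j = i
      · subst h
        have := Gr_mul (Gr_pow (av_Gr1 j j) k) (hLG j)
        exact FW_mono (by push_cast; omega) this
      · have := Gr_mul (Gr_pow (av_Gr0 h) k) (hLo i j h)
        exact FW_mono (by push_cast; omega) this
    · rw [map_sub, map_sub, map_sum, map_sum, Finset.sum_eq_single j]
      · have h1 : lead ((m + k : ℕ) : ℤ) (ph j (av j ^ k * L j))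
            = lead ((m + k : ℕ) : ℤ) (ph j f) := by
          rw [map_mul, map_pow]
          have h2 := lead_mul (Gr_pow (av_Gr1 j j) k) (hLG j)
          rw [lead_pow (av_Gr1 j j), lead_av_self, one_pow, one_mul,
            lead_lift hm (hLe j)] at h2
          have h3 : ((k : ℤ) * 1 + (m : ℤ)) = ((m + k : ℕ) : ℤ) := by push_cast; ring
          rw [h3] at h2
          exact h2
        rw [h1, sub_self]
      · intro i _ h
        have h' : j ≠ i := fun hh => h hh.symm
        rw [map_mul, map_pow]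
        have := Gr_mul (Gr_pow (av_Gr0 h') k) (hLo i j h')
        exact lead_of_mem this (by push_cast; omega)
      · intro h
        exact absurd (Finset.mem_univ j) h

theorem Vm_le_Bm (m : ℕ) : Vm ((m + 2 : ℕ) : ℤ) ≤ Bm (m + 2) := by
  induction m with
  | zero => exact V2_le
  | succ m ih =>
    intro f hf
    obtain ⟨L, hL, -, -, hd⟩ := peel (m := m + 2) (k := 1) (by omega)
      (f := f) (by convert hf using 2)
    have h1 : f - ∑ i, av i ^ 1 * L i ∈ Bm (m + 1 + 2) := by
      apply Bm_mono (show m + 2 ≤ m + 1 + 2 by omega)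
      apply ih
      apply Vm_mono _ hd
      push_cast; omega
    have h2 : ∑ i, av i ^ 1 * L i ∈ Bm (m + 1 + 2) := by
      refine sum_mem fun i _ => ?_
      have := Bm_mul (Bm_pow (av_mem_Bm i) 1) (ih (hL i))
      apply Bm_mono _ this
      omega
    have : f = (f - ∑ i, av i ^ 1 * L i) + ∑ i, av i ^ 1 * L i := by ring
    rw [this]; exact add_mem h1 h2

end Pool.Agent.H685_stab
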