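import Pool.Agent.H685_stab.Univ

/-!
A perturbed Choi-Lam polynomial: it is not a sum of squares of polynomials in the plane, but over
every strip it has a certificate in the quadratic module of the strip.
-/

namespace Pool.Agent.H685_stab

open Polynomial Filter Topology

lemma isSumSq_map {A B : Type*} [CommRing A] [CommRing B] (φ : A →+* B) {s : A}
    (hs : IsSumSq s) : IsSumSq (φ s) := by
  induction hs with
  | zero => rw [map_zero]; exact IsSumSq.zero
  | sq_add a _ ih => rw [map_add, map_mul]; exact IsSumSq.sq_add _ ih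

/-- The perturbed Choi-Lam polynomial, evaluated in an algebra. -/
noncomputable def CL {A : Type*} [CommRing A] [Algebra ℝ A] (s t : A) : A :=
  s ^ 2 + algebraMap ℝ A (1 / 4) + (s ^ 4 - 3 * s ^ 2 + algebraMap ℝ A (1 / 2)) * t ^ 2 + t ^ 4

lemma inQM_aeval {A : Type*} [CommRing A] [Algebra ℝ A] {g θ s : A} {R : ℝ}
    (h : InQM g (θ ^ 2 * (algebraMap ℝ A (R ^ 2) - s ^ 2))) {f : ℝ[X]}
    (hf : InQM (C (R ^ 2) - X ^ 2 : ℝ[X]) f) : InQM g (θ ^ 2 * aeval s f) := by
  obtain ⟨σ, τ, hσ, hτ, rfl⟩ := hf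
  have h1 : IsSumSq (aeval s σ : A) := isSumSq_map (aeval s : ℝ[X] →ₐ[ℝ] A).toRingHom hσ
  have h2 : IsSumSq (aeval s τ : A) := isSumSq_map (aeval s : ℝ[X] →ₐ[ℝ] A).toRingHom hτ
  have : θ ^ 2 * aeval s (σ + τ * (C (R ^ 2) - X ^ 2))
      = θ * θ * aeval s σ + aeval s τ * (θ ^ 2 * (algebraMap ℝ A (R ^ 2) - s ^ 2)) := by
    simp only [map_add, map_mul, map_sub, aeval_C, map_pow, aeval_X]; ring
  rw [this]
  exact (InQM.of_sos ((IsSumSq.mul_self θ).mul h1)).add (InQM.smul h2 h)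

/-- The certificate over a strip. -/
theorem inQM_CL {A : Type*} [CommRing A] [Algebra ℝ A] {g θ s : A} {R : ℝ} (hR : 0 < R)
    (h : InQM g (θ ^ 2 * (algebraMap ℝ A (R ^ 2) - s ^ 2))) (t : A) :
    InQM g (θ ^ 2 * CL s t) := by
  obtain ⟨lam, hlam⟩ := exists_lam R hR
  have p1 : InQM (C (R ^ 2) - X ^ 2 : ℝ[X]) (X ^ 4 - 3 * X ^ 2 + C (1 / 2) - 2 * lam) := by
    apply pos_interval hR
    intro x hx
    have := (hlam x hx).1
    simpa using this
  have p2 : InQM (C (R ^ 2) - X ^ 2 : ℝ[X]) (X ^ 2 + C (1 / 4) - lam ^ 2) := by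
    apply pos_interval hR
    intro x hx
    have := (hlam x hx).2
    simpa using this
  have q1 := inQM_aeval h p1
  have q2 := inQM_aeval h p2
  have q3 : InQM g (θ ^ 2 * ((t ^ 2 + aeval s lam) * (t ^ 2 + aeval s lam))) := by
    apply InQM.of_sos
    rw [sq]
    exact (IsSumSq.mul_self θ).mul (IsSumSq.mul_self _)
  have q4 := InQM.smul (IsSumSq.mul_self t) q1
  have := (q3.add q4).add q2
  convert this using 1
  simp only [CL, map_add, map_sub, map_mul, map_pow, aeval_X, aeval_C, map_ofNat]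
  ring

lemma natDegree_le_of_sq_le {f Q : ℝ[X]} (hQ : Q ≠ 0)
    (h : ∀ x, (f.eval x) ^ 2 ≤ Q.eval x) : 2 * f.natDegree ≤ Q.natDegree := by
  by_contra hcon
  push Not at hcon
  have hf : f ≠ 0 := by
    rintro rfl
    simp at hcon
  have h2 : (f ^ 2).natDegree = 2 * f.natDegree := natDegree_pow f 2
  have hdeg : Q.degree < (f ^ 2).degree := by
    rw [degree_eq_natDegree hQ, degree_eq_natDegree (pow_ne_zero 2 hf), h2]
    exact_mod_cast hcon
  have ht := abs_div_tendsto_atTop_atTop_of_degree_gt (f ^ 2) Q hdeg hQ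
  have hle : ∀ x, |eval x (f ^ 2) / eval x Q| ≤ 1 := by
    intro x
    rw [eval_pow, abs_div]
    have h3 := h x
    have h4 : |eval x f ^ 2| = eval x f ^ 2 := abs_of_nonneg (sq_nonneg _)
    have h5 : |eval x Q| = eval x Q := abs_of_nonneg (le_trans (sq_nonneg _) h3)
    rw [h4, h5]
    rcases (le_trans (sq_nonneg _) h3).eq_or_lt with h6 | h6
    · rw [← h6]; simp
    · rw [div_le_one h6]; exact h3
  have h7 := (ht.eventually_gt_atTop 1).exists
  obtain ⟨x, hx⟩ := h7
  exact absurd (hle x) (not_le.mpr hx)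

/-- The perturbed Choi-Lam polynomial is not a sum of squares of polynomials. -/
theorem not_sos_CL {ι : Type*} [Fintype ι] (F : ι → ℝ[X][X])
    (h : ∀ s t : ℝ, ∑ r, (evalEval s t (F r)) ^ 2
      = s ^ 2 + 1 / 4 + (s ^ 4 - 3 * s ^ 2 + 1 / 2) * t ^ 2 + t ^ 4) : False := by
  -- degree in `t` is at most two
  have hdeg : ∀ (r : ι) (s : ℝ), ((F r).map (evalRingHom s)).natDegree ≤ 2 := by
    intro r s
    let Q : ℝ[X] := X ^ 4 + C (s ^ 4 - 3 * s ^ 2 + 1 / 2) * X ^ 2 + C (s ^ 2 + 1 / 4)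
    have hQd : Q.natDegree = 4 := by
      simp only [Q]; compute_degree!
    have hQ : Q ≠ 0 := by
      intro h0
      rw [h0] at hQd
      simp at hQd
    have := natDegree_le_of_sq_le (f := (F r).map (evalRingHom s)) hQ ?_
    · omega
    · intro t
      rw [map_evalRingHom_eval]
      have h1 : (evalEval s t (F r)) ^ 2 ≤ ∑ r, (evalEval s t (F r)) ^ 2 :=
        Finset.single_le_sum (f := fun r => (evalEval s t (F r)) ^ 2)
          (fun _ _ => sq_nonneg _) (Finset.mem_univ r)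
      rw [h s t] at h1
      simp only [Q, eval_add, eval_mul, eval_C, eval_pow, eval_X]
      linarith
  have hval : ∀ (r : ι) (s t : ℝ), evalEval s t (F r)
      = ((F r).coeff 0).eval s + ((F r).coeff 1).eval s * t + ((F r).coeff 2).eval s * t ^ 2 := by
    intro r s t
    rw [← map_evalRingHom_eval]
    conv_lhs => rw [((F r).map (evalRingHom s)).as_sum_range' 3 (by have := hdeg r s; omega)]
    simp [Finset.sum_range_succ, coeff_map]
  let a : ι → ℝ[X] := fun r => (F r).coeff 0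
  let b : ι → ℝ[X] := fun r => (F r).coeff 1
  let c : ι → ℝ[X] := fun r => (F r).coeff 2
  have hexp : ∀ s t : ℝ, ∑ r, ((a r).eval s) ^ 2 + (2 * ∑ r, (a r).eval s * (b r).eval s) * t
      + (∑ r, ((b r).eval s) ^ 2 + 2 * ∑ r, (a r).eval s * (c r).eval s) * t ^ 2
      + (2 * ∑ r, (b r).eval s * (c r).eval s) * t ^ 3 + (∑ r, ((c r).eval s) ^ 2) * t ^ 4
      = s ^ 2 + 1 / 4 + (s ^ 4 - 3 * s ^ 2 + 1 / 2) * t ^ 2 + t ^ 4 := by
    intro s t
    rw [← h s t]
    simp only [Finset.mul_sum, Finset.sum_mul, ← Finset.sum_add_distrib]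
    refine Finset.sum_congr rfl fun r _ => ?_
    rw [hval]
    ring
  have hA : ∀ s : ℝ, ∑ r, ((a r).eval s) ^ 2 = s ^ 2 + 1 / 4 := by
    intro s
    have := hexp s 0
    simpa using this
  have hCC : ∀ s : ℝ, ∑ r, ((c r).eval s) ^ 2 = 1 := by
    intro s
    have h0 := hA s
    have h1 := hexp s 1
    have h2 := hexp s (-1)
    have h3 := hexp s 2
    have h4 := hexp s (-2)
    linarith
  have hB : ∀ s : ℝ, ∑ r, ((b r).eval s) ^ 2 + 2 * ∑ r, (a r).eval s * (c r).eval s
      = s ^ 4 - 3 * s ^ 2 + 1 / 2 := by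
    intro s
    have h0 := hA s
    have h1 := hexp s 1
    have h2 := hexp s (-1)
    have h5 := hCC s
    linarith
  have hcdeg : ∀ r, (c r).natDegree = 0 := by
    intro r
    have := natDegree_le_of_sq_le (f := c r) (Q := C 1) (by simp) ?_
    · simpa using this
    · intro s
      rw [eval_C, ← hCC s]
      exact Finset.single_le_sum (f := fun r => ((c r).eval s) ^ 2)
          (fun _ _ => sq_nonneg _) (Finset.mem_univ r)
  have hadeg : ∀ r, (a r).natDegree ≤ 1 := by
    intro r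
    have hQd : (X ^ 2 + C (1 / 4) : ℝ[X]).natDegree = 2 := by compute_degree!
    have := natDegree_le_of_sq_le (f := a r) (Q := X ^ 2 + C (1 / 4)) ?_ ?_
    · omega
    · intro h0
      rw [h0] at hQd
      simp at hQd
    · intro s
      have h6 : ((a r).eval s) ^ 2 ≤ ∑ r, ((a r).eval s) ^ 2 :=
        Finset.single_le_sum (f := fun r => ((a r).eval s) ^ 2)
          (fun _ _ => sq_nonneg _) (Finset.mem_univ r)
      rw [hA s] at h6
      simpa using h6
  have hcc : ∀ r s, (c r).eval s = (c r).eval 0 := by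
    intro r s
    rw [eq_C_of_natDegree_eq_zero (hcdeg r)]
    simp
  have haa : ∀ r, (a r).eval 1 + (a r).eval (-1) = 2 * (a r).eval 0 := by
    intro r
    rw [(a r).as_sum_range' 2 (by have := hadeg r; omega)]
    simp [Finset.sum_range_succ]
    ring
  have e1 := hB 1
  have e2 := hB (-1)
  have hbs : 0 ≤ ∑ r, ((b r).eval 1) ^ 2 + ∑ r, ((b r).eval (-1)) ^ 2 := by positivity
  have hac : ∑ r, (a r).eval 1 * (c r).eval 1 + ∑ r, (a r).eval (-1) * (c r).eval (-1)
      = 2 * ∑ r, (a r).eval 0 * (c r).eval 0 := by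
    rw [← Finset.sum_add_distrib, Finset.mul_sum]
    refine Finset.sum_congr rfl fun r _ => ?_
    rw [hcc r 1, hcc r (-1)]
    have := haa r
    linear_combination (c r).eval 0 * this
  -- Cauchy-Schwarz in the form  2ac ≥ -(2 a² + c²/2)
  have hcs : -(2 * ∑ r, ((a r).eval 0) ^ 2 + (1 / 2) * ∑ r, ((c r).eval 0) ^ 2)
      ≤ 2 * ∑ r, (a r).eval 0 * (c r).eval 0 := by
    have : 0 ≤ ∑ r, (2 * ((a r).eval 0) ^ 2 + (1 / 2) * ((c r).eval 0) ^ 2
        + 2 * ((a r).eval 0 * (c r).eval 0)) := by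
      apply Finset.sum_nonneg
      intro r _
      nlinarith [sq_nonneg (2 * (a r).eval 0 + (c r).eval 0)]
    rw [Finset.sum_add_distrib, Finset.sum_add_distrib, ← Finset.mul_sum, ← Finset.mul_sum,
      ← Finset.mul_sum] at this
    linarith
  rw [hA 0, hCC 0] at hcs
  norm_num at e1 e2 hcs
  linarith

end Pool.Agent.H685_stab
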