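import Pool.Agent.H685_stab.Limit
import Pool.Agent.H685_stab.ChoiLam

/-!
Localisation at an interior point: a certificate `θ² (N - p²) ∈ M_g` with `p` not constant
prevents stability.
-/

namespace Pool.Agent.H685_stab

open MvPolynomial Filter Topology

/-- Stability of the quadratic module `M_g`. -/
def StableQM (g : P2) : Prop :=
  ∃ ℓ : ℕ → ℕ, ∀ (d : ℕ) (f : P2), InQM g f → f.totalDegree ≤ d →
    ∃ σ τ : P2, IsSumSq σ ∧ IsSumSq τ ∧ f = σ + τ * g ∧
      σ.totalDegree ≤ ℓ d ∧ (τ * g).totalDegree ≤ ℓ d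

/-- The substitution `z ↦ P + ε z`. -/
noncomputable def shift (P : Fin 2 → ℝ) (ε : ℝ) : P2 →ₐ[ℝ] P2 :=
  aeval (fun i => C (P i) + C ε * X i)

lemma eval_shift (P : Fin 2 → ℝ) (ε : ℝ) (f : P2) (z : Fin 2 → ℝ) :
    eval z (shift P ε f) = eval (fun i => P i + ε * z i) f := by
  have h : (eval z).comp (shift P ε : P2 →+* P2) = eval (fun i => P i + ε * z i) := by
    apply MvPolynomial.ringHom_ext
    · intro r
      simp [shift]
    · intro i
      simp [shift]
  exact congrArg (fun φ : P2 →+* ℝ => φ f) h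

lemma totalDegree_shift_le (P : Fin 2 → ℝ) (ε : ℝ) (f : P2) :
    (shift P ε f).totalDegree ≤ f.totalDegree := by
  classical
  conv_lhs => rw [f.as_sum]
  rw [map_sum]
  refine (totalDegree_finsetSum_le ?_)
  intro m hm
  rw [shift, aeval_monomial]
  refine (totalDegree_mul _ _).trans ?_
  have h1 : (algebraMap ℝ P2 (coeff m f)).totalDegree = 0 := by
    rw [algebraMap_eq]; exact totalDegree_C _
  rw [h1, zero_add, Finsupp.prod]
  refine (totalDegree_finsetProd _ _).trans ?_
  have h2 : ∀ i ∈ m.support, ((C (P i) + C ε * X i : P2) ^ m i).totalDegree ≤ m i := by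
    intro i _
    refine (totalDegree_pow _ _).trans ?_
    have h3 : (C (P i) + C ε * X i : P2).totalDegree ≤ 1 := by
      refine (totalDegree_add _ _).trans ?_
      rw [totalDegree_C]
      refine max_le (by omega) ?_
      refine (totalDegree_mul _ _).trans ?_
      rw [totalDegree_C, totalDegree_X]
    calc m i * (C (P i) + C ε * X i : P2).totalDegree ≤ m i * 1 := Nat.mul_le_mul_left _ h3
      _ = m i := by ring
  refine (Finset.sum_le_sum h2).trans ?_
  exact le_totalDegree hm

lemma hasDerivAt_line (f : P2) (P z : Fin 2 → ℝ) (t : ℝ) :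
    HasDerivAt (fun t : ℝ => eval (fun i => P i + t * z i) f)
      (∑ i, eval (fun i => P i + t * z i) (pderiv i f) * z i) t := by
  induction f using MvPolynomial.induction_on with
  | C a => simpa using hasDerivAt_const t a
  | add p q hp hq =>
    simp only [map_add, add_mul, Finset.sum_add_distrib]
    exact hp.add hq
  | mul_X p j hp =>
    have h1 : HasDerivAt (fun t : ℝ => P j + t * z j) (z j) t := by
      simpa using ((hasDerivAt_id t).mul_const (z j)).const_add (P j)
    have h2 := hp.mul h1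
    have h3 : (fun t : ℝ => eval (fun i => P i + t * z i) (p * X j))
        = fun t : ℝ => eval (fun i => P i + t * z i) p * (P j + t * z j) := by
      ext t; simp
    have h4 : ∀ i, eval (fun i => P i + t * z i) (pderiv i (p * X j)) * z i
        = eval (fun i => P i + t * z i) (pderiv i p) * z i * (P j + t * z j)
          + eval (fun i => P i + t * z i) p * (if i = j then z j else 0) := by
      intro i
      rw [pderiv_mul]
      by_cases hij : i = j
      · subst hij
        simp
        ring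
      · simp [hij, pderiv_X_of_ne (Ne.symm hij)]
        ring
    have h5 : (∑ i, eval (fun i => P i + t * z i) (pderiv i (p * X j)) * z i)
        = (∑ i, eval (fun i => P i + t * z i) (pderiv i p) * z i) * (P j + t * z j)
          + eval (fun i => P i + t * z i) p * z j := by
      rw [Finset.sum_congr rfl (fun i _ => h4 i)]
      rw [Finset.sum_add_distrib, ← Finset.sum_mul, ← Finset.mul_sum]
      simp
    rw [h3, h5]
    exact h2

lemma tendsto_diffquot (f : P2) (P z : Fin 2 → ℝ) {ε : ℕ → ℝ} (hε : ∀ n, ε n ≠ 0)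
    (hε0 : Tendsto ε atTop (𝓝 0)) :
    Tendsto (fun n => (ε n)⁻¹ * (eval (fun i => P i + ε n * z i) f - eval P f)) atTop
      (𝓝 (∑ i, eval P (pderiv i f) * z i)) := by
  have h := hasDerivAt_line f P z 0
  rw [hasDerivAt_iff_tendsto_slope_zero] at h
  have h2 : Tendsto ε atTop (𝓝[≠] 0) := by
    rw [tendsto_nhdsWithin_iff]
    exact ⟨hε0, Eventually.of_forall hε⟩
  have h3 := h.comp h2
  simp only [zero_add, zero_mul, add_zero] at h3
  refine h3.congr (fun n => ?_)
  simp

lemma tendsto_shift (f : P2) (P z : Fin 2 → ℝ) {ε : ℕ → ℝ} (hε0 : Tendsto ε atTop (𝓝 0)) :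
    Tendsto (fun n => eval (fun i => P i + ε n * z i) f) atTop (𝓝 (eval P f)) := by
  have h1 : Continuous (fun w : Fin 2 → ℝ => eval w f) := MvPolynomial.continuous_eval f
  have h2 : Tendsto (fun n => (fun i => P i + ε n * z i)) atTop (𝓝 P) := by
    rw [tendsto_pi_nhds]
    intro i
    have := (hε0.mul_const (z i)).const_add (P i)
    simpa using this
  exact (h1.tendsto P).comp h2

/-- A nonzero polynomial does not vanish identically on `{g > 0}` if the latter is nonempty. -/
lemma exists_ne_zero {g h : P2} (hh : h ≠ 0) (hg : ∃ P, 0 < eval P g) :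
    ∃ P, 0 < eval P g ∧ eval P h ≠ 0 := by
  obtain ⟨P, hP⟩ := hg
  by_contra hcon
  push Not at hcon
  apply hh
  have hopen : IsOpen {w : Fin 2 → ℝ | 0 < eval w g} :=
    isOpen_lt continuous_const (MvPolynomial.continuous_eval g)
  obtain ⟨δ, hδ, hball⟩ := Metric.isOpen_iff.mp hopen P hP
  apply MvPolynomial.funext_set (fun i => Set.Ioo (P i - δ / 2) (P i + δ / 2))
    (fun i => Set.Ioo_infinite (by linarith))
  · intro x hx
    rw [map_zero]
    apply hcon
    apply hball
    rw [Metric.mem_ball, dist_pi_lt_iff hδ]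
    intro i
    have := hx i (Set.mem_univ i)
    rw [Real.dist_eq, abs_lt]
    constructor <;> linarith [this.1, this.2]

lemma totalDegree_C_mul_le (c : ℝ) (f : P2) : (C c * f).totalDegree ≤ f.totalDegree := by
  refine (totalDegree_mul _ _).trans ?_
  rw [totalDegree_C, zero_add]

lemma eval_CL (s t : P2) (z : Fin 2 → ℝ) : eval z (CL s t)
    = (eval z s) ^ 2 + 1 / 4 + ((eval z s) ^ 4 - 3 * (eval z s) ^ 2 + 1 / 2) * (eval z t) ^ 2
      + (eval z t) ^ 4 := by
  simp [CL, algebraMap_eq]

lemma totalDegree_CL_le (s t : P2) (a : ℕ) (hs : s.totalDegree ≤ a) (ht : t.totalDegree ≤ 1) :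
    (CL s t).totalDegree ≤ 4 * a + 4 := by
  have hpow : ∀ (f : P2) (n b : ℕ), f.totalDegree ≤ b → (f ^ n).totalDegree ≤ n * b := by
    intro f n b hf
    exact (totalDegree_pow f n).trans (Nat.mul_le_mul_left n hf)
  have h3 : (3 * s ^ 2 : P2).totalDegree ≤ 2 * a := by
    have : (3 : P2) = C 3 := (map_ofNat C 3).symm
    rw [this]
    exact (totalDegree_C_mul_le _ _).trans (hpow s 2 a hs)
  have hmid : (s ^ 4 - 3 * s ^ 2 + algebraMap ℝ P2 (1 / 2)).totalDegree ≤ 4 * a := by
    refine (totalDegree_add _ _).trans (max_le ?_ ?_)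
    · refine (totalDegree_sub _ _).trans (max_le (hpow s 4 a hs) (h3.trans (by omega)))
    · rw [algebraMap_eq, totalDegree_C]; omega
  unfold CL
  refine (totalDegree_add _ _).trans (max_le ?_ ?_)
  · refine (totalDegree_add _ _).trans (max_le ?_ ?_)
    · refine (totalDegree_add _ _).trans (max_le ?_ ?_)
      · exact (hpow s 2 a hs).trans (by omega)
      · rw [algebraMap_eq, totalDegree_C]; omega
    · refine (totalDegree_mul _ _).trans ?_
      have := hpow t 2 1 ht
      omega
  · exact (hpow t 4 1 ht).trans (by omega)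

/-- **Instability from a certificate.** If `g` is positive somewhere, `θ ≠ 0`, `p` is not constant
and `θ² (N - p²)` lies in the quadratic module `M_g`, then `M_g` is not stable. -/
theorem not_stable_of_cert {g p θ : P2} {N : ℝ} (hN : 0 < N) (hθ : θ ≠ 0)
    (hcert : InQM g (θ ^ 2 * (C N - p ^ 2))) {i : Fin 2} (hp : pderiv i p ≠ 0)
    (hg : ∃ P, 0 < eval P g) : ¬ StableQM g := by
  rintro ⟨ℓ, hℓ⟩
  obtain ⟨P, hgP, hne⟩ := exists_ne_zero (mul_ne_zero hθ hp) hg
  rw [map_mul] at hne
  have hθP : eval P θ ≠ 0 := left_ne_zero_of_mul hne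
  have hpP : eval P (pderiv i p) ≠ 0 := right_ne_zero_of_mul hne
  have hg0 : g ≠ 0 := by
    rintro rfl
    simp at hgP
  set a := eval P p with ha
  set j : Fin 2 := 1 - i with hj
  have hij : i ≠ j := by
    rw [hj]; fin_cases i <;> simp
  -- scales
  let ε : ℕ → ℝ := fun n => 1 / ((n : ℝ) + 1)
  have hεpos : ∀ n, 0 < ε n := fun n => by positivity
  have hε0 : Tendsto ε atTop (𝓝 0) := tendsto_one_div_add_atTop_nhds_zero_nat
  let s : ℕ → P2 := fun n => C (ε n)⁻¹ * (p - C a)
  let t : ℕ → P2 := fun n => C (ε n)⁻¹ * (X j - C (P j))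
  let f : ℕ → P2 := fun n => θ ^ 2 * CL (s n) (t n)
  have hf : ∀ n, InQM g (f n) := by
    intro n
    have hR2 : 0 < (2 * N + 2 * a ^ 2) := by positivity
    apply inQM_CL (R := Real.sqrt (2 * N + 2 * a ^ 2) * (ε n)⁻¹)
      (mul_pos (Real.sqrt_pos.mpr hR2) (inv_pos.mpr (hεpos n)))
    have e1 : θ ^ 2 * (algebraMap ℝ P2 ((Real.sqrt (2 * N + 2 * a ^ 2) * (ε n)⁻¹) ^ 2) - s n ^ 2)
        = C (((ε n)⁻¹) ^ 2) * (C 2 * (θ ^ 2 * (C N - p ^ 2)) + θ ^ 2 * ((p + C a) * (p + C a))) := by
      rw [mul_pow, Real.sq_sqrt hR2.le, algebraMap_eq]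
      have h2 : (C 2 : P2) = 2 := map_ofNat C 2
      simp only [s, C_mul, C_add, C_pow, h2]
      ring
    rw [e1]
    have hsosC : ∀ c : ℝ, 0 ≤ c → IsSumSq (C c : P2) := by
      intro c hc
      have : (C c : P2) = C (Real.sqrt c) * C (Real.sqrt c) := by
        rw [← C_mul, Real.mul_self_sqrt hc]
      rw [this]
      exact IsSumSq.mul_self _
    apply InQM.smul (hsosC _ (by positivity))
    apply InQM.add
    · exact InQM.smul (hsosC _ (by norm_num)) hcert
    · apply InQM.of_sos
      rw [sq]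
      exact (IsSumSq.mul_self _).mul (IsSumSq.mul_self _)
  have hsdeg : ∀ n, (s n).totalDegree ≤ p.totalDegree := by
    intro n
    refine (totalDegree_C_mul_le _ _).trans ?_
    exact totalDegree_sub_C_le p a
  have htdeg : ∀ n, (t n).totalDegree ≤ 1 := by
    intro n
    refine (totalDegree_C_mul_le _ _).trans ?_
    refine (totalDegree_sub_C_le _ _).trans ?_
    rw [totalDegree_X]
  set D := 2 * θ.totalDegree + (4 * p.totalDegree + 4) with hD
  have hfdeg : ∀ n, (f n).totalDegree ≤ D := by
    intro n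
    refine (totalDegree_mul _ _).trans ?_
    have h1 := totalDegree_pow θ 2
    have h2 := totalDegree_CL_le (s n) (t n) _ (hsdeg n) (htdeg n)
    omega
  choose σ τ hσ hτ heq dσ dτ using fun n => hℓ D (f n) (hf n) (hfdeg n)
  have dτ' : ∀ n, (τ n).totalDegree ≤ ℓ D := by
    intro n
    by_cases h0 : τ n = 0
    · rw [h0]; simp
    · have := dτ n
      rw [totalDegree_mul_of_isDomain h0 hg0] at this
      omega
  -- linear part
  set L : (Fin 2 → ℝ) → ℝ := fun z => ∑ i, eval P (pderiv i p) * z i with hL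
  let H₀ : (Fin 2 → ℝ) → ℝ := fun z => (eval P θ) ^ 2 * ((L z) ^ 2 + 1 / 4
    + ((L z) ^ 4 - 3 * (L z) ^ 2 + 1 / 2) * (z j) ^ 2 + (z j) ^ 4)
  obtain ⟨A, B, hAB⟩ := limit_sos (k := ℓ D) (σ := fun n => shift P (ε n) (σ n))
    (τ := fun n => shift P (ε n) (τ n))
    (G := fun n z => eval (fun i => P i + ε n * z i) g)
    (H := fun n z => eval (fun i => P i + ε n * z i) (f n))
    (c := eval P g) hgP (H₀ := H₀)
    (fun n => isSumSq_map (shift P (ε n)).toRingHom (hσ n))
    (fun n => isSumSq_map (shift P (ε n)).toRingHom (hτ n))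
    (fun n => (totalDegree_shift_le _ _ _).trans ((dσ n).trans (by omega)))
    (fun n => (totalDegree_shift_le _ _ _).trans ((dτ' n).trans (by omega)))
    (by
      intro n z
      simp only [eval_shift]
      rw [heq n, map_add, map_mul])
    (fun z => tendsto_shift g P z hε0)
    (by
      intro z
      have e1 : ∀ n, eval (fun i => P i + ε n * z i) (f n)
          = (eval (fun i => P i + ε n * z i) θ) ^ 2 *
            (((ε n)⁻¹ * (eval (fun i => P i + ε n * z i) p - a)) ^ 2 + 1 / 4
            + (((ε n)⁻¹ * (eval (fun i => P i + ε n * z i) p - a)) ^ 4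
              - 3 * ((ε n)⁻¹ * (eval (fun i => P i + ε n * z i) p - a)) ^ 2 + 1 / 2) * (z j) ^ 2
            + (z j) ^ 4) := by
        intro n
        have hne : ε n ≠ 0 := (hεpos n).ne'
        have ht : eval (fun i => P i + ε n * z i) (t n) = z j := by
          simp only [t, map_mul, map_sub, eval_C, eval_X]
          field_simp
          ring
        simp only [f, map_mul, map_pow, eval_CL, ht]
        simp only [s, map_mul, map_sub, eval_C]
      simp only [e1]
      have l1 := tendsto_shift θ P z hε0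
      have l2 := tendsto_diffquot p P z (fun n => (hεpos n).ne') hε0
      exact (l1.pow 2).mul ((((l2.pow 2).add_const _).add
        ((((l2.pow 4).sub ((l2.pow 2).const_mul 3)).add_const _).mul_const _)).add_const _))
  -- change of variables
  set αi := eval P (pderiv i p) with hαi
  set αj := eval P (pderiv j p) with hαj
  have hLz : ∀ z, L z = αi * z i + αj * z j := by
    intro z
    simp only [hL, Fin.sum_univ_two]
    have : i = 0 ∧ j = 1 ∨ i = 1 ∧ j = 0 := by
      rw [hj]; fin_cases i <;> simp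
    rcases this with ⟨h1, h2⟩ | ⟨h1, h2⟩
    · rw [hαi, hαj, h1, h2]
    · rw [hαi, hαj, h1, h2]; ring
  open Polynomial in
  let Z : Fin 2 → Polynomial (Polynomial ℝ) := fun l =>
    if l = i then Polynomial.C (Polynomial.C αi⁻¹) *
      (Polynomial.C Polynomial.X - Polynomial.C (Polynomial.C αj) * Polynomial.X)
    else Polynomial.X
  let F : (Ix (ℓ D) → ℝ) → ℝ → Polynomial (Polynomial ℝ) := fun c b =>
    Polynomial.C (Polynomial.C b) *
      ∑ m : Ix (ℓ D), Polynomial.C (Polynomial.C (c m)) * (Z 0 ^ (m.1 : ℕ) * Z 1 ^ (m.2 : ℕ))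
  have hF : ∀ c b s t, Polynomial.evalEval s t (F c b)
      = b * val c (fun l => Polynomial.evalEval s t (Z l)) := by
    intro c b s t
    simp only [F, val, Polynomial.evalEval_mul, Polynomial.evalEval_finsetSum,
      Polynomial.evalEval_pow, Polynomial.evalEval_C, Polynomial.eval_C]
  apply not_sos_CL (ι := Ix (ℓ D) ⊕ Ix (ℓ D))
    (Sum.elim (fun r => F (A r) (eval P θ)⁻¹)
      (fun r => F (B r) (Real.sqrt (eval P g) * (eval P θ)⁻¹)))
  intro s t
  rw [Fintype.sum_sum_type]
  simp only [Sum.elim_inl, Sum.elim_inr, hF]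
  set z : Fin 2 → ℝ := fun l => Polynomial.evalEval s t (Z l) with hz
  have hzi : z i = αi⁻¹ * (s - αj * t) := by
    simp only [hz, Z, if_true]
    simp [Polynomial.evalEval_mul, Polynomial.evalEval_sub, Polynomial.evalEval_C,
      Polynomial.evalEval_X]
  have hzj : z j = t := by
    simp only [hz, Z, if_neg (Ne.symm hij)]
    simp [Polynomial.evalEval_X]
  have hLs : L z = s := by
    rw [hLz, hzi, hzj]
    field_simp
    ring
  have key := hAB z
  simp only [H₀, hLs, hzj] at key
  have hsq : Real.sqrt (eval P g) ^ 2 = eval P g := Real.sq_sqrt hgP.le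
  have e2 : ∑ r, ((eval P θ)⁻¹ * val (A r) z) ^ 2
      = ((eval P θ)⁻¹) ^ 2 * ∑ r, (val (A r) z) ^ 2 := by
    rw [Finset.mul_sum]
    refine Finset.sum_congr rfl fun r _ => ?_
    ring
  have e3 : ∑ r, (Real.sqrt (eval P g) * (eval P θ)⁻¹ * val (B r) z) ^ 2
      = ((eval P θ)⁻¹) ^ 2 * (eval P g * ∑ r, (val (B r) z) ^ 2) := by
    rw [Finset.mul_sum, Finset.mul_sum]
    refine Finset.sum_congr rfl fun r _ => ?_
    rw [mul_pow, mul_pow, hsq]
    ring
  rw [e2, e3, ← mul_add, ← key]
  field_simp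

end Pool.Agent.H685_stab
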