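import Pool.Agent.H685_stab.Lang
import Pool.Agent.H685_stab.Local

/-!
A polynomial that is bounded on `{g > 0}` has a certificate with denominators.
-/

set_option linter.unusedSectionVars false

namespace Pool.Agent.H685_stab

open MvPolynomial

section General

variable {K : Type*} [Field K]

/-- The increasing union of the preorderings generated by `g` and `p² - N`. -/
def bigT (g p : K) : Set K :=
  {z | ∃ (N : ℕ) (a b : K), InQM g a ∧ InQM g b ∧ z = a + b * (p ^ 2 - N)}

lemma InQM.zero {A : Type*} [CommRing A] {g : A} : InQM g 0 := InQM.of_sos IsSumSq.zero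

lemma InQM.one {A : Type*} [CommRing A] {g : A} : InQM g 1 := InQM.of_sos IsSumSq.one

lemma InQM.natCast {A : Type*} [CommRing A] {g : A} (n : ℕ) : InQM g (n : A) := by
  induction n with
  | zero => simpa using InQM.zero
  | succ n ih => rw [Nat.cast_succ]; exact ih.add InQM.one

lemma bigT_bump {g p z : K} {N M : ℕ} (h : N ≤ M) {a b : K} (ha : InQM g a) (hb : InQM g b)
    (hz : z = a + b * (p ^ 2 - N)) :
    ∃ a b : K, InQM g a ∧ InQM g b ∧ z = a + b * (p ^ 2 - M) := by
  obtain ⟨k, rfl⟩ := Nat.exists_eq_add_of_le h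
  refine ⟨a + b * k, b, ha.add (hb.mul (InQM.natCast k)), hb, ?_⟩
  rw [hz]
  push_cast
  ring

lemma bigT_mul {g p : K} : ∀ z ∈ bigT g p, ∀ w ∈ bigT g p, z * w ∈ bigT g p := by
  rintro z ⟨N, a, b, ha, hb, hz⟩ w ⟨M, c, d, hc, hd, hw⟩
  obtain ⟨a, b, ha, hb, rfl⟩ := bigT_bump (le_max_left N M) ha hb hz
  obtain ⟨c, d, hc, hd, rfl⟩ := bigT_bump (le_max_right N M) hc hd hw
  refine ⟨max N M, a * c + b * d * (p ^ 2 - (max N M : ℕ)) ^ 2, a * d + b * c, ?_, ?_, by ring⟩
  · refine (ha.mul hc).add ?_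
    rw [mul_comm]
    apply InQM.smul _ (hb.mul hd)
    rw [pow_two (p ^ 2 - ((max N M : ℕ) : K))]
    exact IsSumSq.mul_self _
  · exact (ha.mul hd).add (hb.mul hc)

lemma bigT_add {g p : K} {z w : K} (hz : z ∈ bigT g p) (hw : w ∈ bigT g p) :
    z + w ∈ bigT g p := by
  obtain ⟨N, a, b, ha, hb, hz⟩ := hz
  obtain ⟨M, c, d, hc, hd, hw⟩ := hw
  obtain ⟨a, b, ha, hb, rfl⟩ := bigT_bump (le_max_left N M) ha hb hz
  obtain ⟨c, d, hc, hd, rfl⟩ := bigT_bump (le_max_right N M) hc hd hw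
  exact ⟨max N M, a + c, b + d, ha.add hc, hb.add hd, by ring⟩

lemma bigT_one {g p : K} : (1 : K) ∈ bigT g p := ⟨0, 1, 0, InQM.one, InQM.zero, by ring⟩

lemma bigT_zero {g p : K} : (0 : K) ∈ bigT g p := ⟨0, 0, 0, InQM.zero, InQM.zero, by ring⟩

lemma bigT_closure {g p z : K}
    (hz : z ∈ AddSubmonoid.closure {z | ∃ t ∈ bigT g p, ∃ l : K, z = t * l ^ 2}) :
    z ∈ bigT g p := by
  induction hz using AddSubmonoid.closure_induction with
  | mem x hx =>
    obtain ⟨t, ht, l, rfl⟩ := hx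
    refine bigT_mul t ht _ ⟨0, l ^ 2, 0, ?_, InQM.zero, by ring⟩
    rw [pow_two]
    exact InQM.of_sos (IsSumSq.mul_self _)
  | zero => exact bigT_zero
  | add y z _ _ hy hz => exact bigT_add hy hz

lemma cert_of_neg_one [CharZero K] {g p : K} (h : (-1 : K) ∈ bigT g p) :
    ∃ N : ℕ, 0 < N ∧ InQM g (N - p ^ 2) := by
  obtain ⟨N, a, b, ha, hb, hz⟩ := h
  refine ⟨N + 1, by omega, ?_⟩
  by_cases hb0 : b = 0
  · have h1 : InQM g (-1 : K) := by
      rw [hz, hb0]; simpa using ha
    set z : K := ((N + 1 : ℕ) : K) - p ^ 2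
    have : z = ((z + 1) / 2) * ((z + 1) / 2) + ((z - 1) / 2) * ((z - 1) / 2) * (-1) := by ring
    rw [this]
    exact (InQM.of_sos (IsSumSq.mul_self _)).add (InQM.smul (IsSumSq.mul_self _) h1)
  · have h2 : b * (N - p ^ 2) = 1 + a := by linear_combination hz
    have h3 : (((N + 1 : ℕ) : K) - p ^ 2) = (b⁻¹ * b⁻¹) * (b * (1 + a)) + 1 := by
      rw [← h2]
      push_cast
      field_simp
      ring
    rw [h3]
    exact (InQM.smul (IsSumSq.mul_self _) (hb.mul (InQM.one.add ha))).add InQM.one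

end General

lemma clear_sos {σ : FractionRing P2} (h : IsSumSq σ) : ∃ θ s : P2, θ ≠ 0 ∧ IsSumSq s ∧
    σ * (algebraMap P2 (FractionRing P2) θ) ^ 2 = algebraMap P2 (FractionRing P2) s := by
  induction h with
  | zero => exact ⟨1, 0, one_ne_zero, IsSumSq.zero, by simp⟩
  | sq_add a _ ih =>
    obtain ⟨θ, s, hθ, hs, h1⟩ := ih
    obtain ⟨n, d, hd, rfl⟩ := IsFractionRing.div_surjective (A := P2) a
    have hd0 : d ≠ 0 := nonZeroDivisors.ne_zero hd
    have hd1 : algebraMap P2 (FractionRing P2) d ≠ 0 := by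
      intro h
      exact hd0 ((IsFractionRing.injective P2 (FractionRing P2)) (h.trans (map_zero _).symm))
    refine ⟨d * θ, (n * θ) * (n * θ) + d * d * s, mul_ne_zero hd0 hθ,
      (IsSumSq.mul_self _).add ((IsSumSq.mul_self _).mul hs), ?_⟩
    simp only [map_mul, map_add]
    rw [← h1]
    field_simp

/-- The certificate. -/
theorem exists_cert {g p : P2} (hg : g ≠ 0)
    (hb : ∃ B : ℝ, ∀ P, 0 < eval P g → |eval P p| ≤ B) :
    ∃ (N : ℝ) (θ : P2), 0 < N ∧ θ ≠ 0 ∧ InQM g (θ ^ 2 * (C N - p ^ 2)) := by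
  set K := FractionRing P2 with hK
  set ι : P2 →+* K := algebraMap P2 K with hι
  have hinj : Function.Injective ι := IsFractionRing.injective P2 K
  by_cases hneg : (-1 : K) ∈ bigT (ι g) (ι p)
  · obtain ⟨N, hN, hQ⟩ := cert_of_neg_one hneg
    obtain ⟨σ, τ, hσ, hτ, heq⟩ := hQ
    obtain ⟨θ, s, hθ, hs, h1⟩ := clear_sos hσ
    obtain ⟨θ', s', hθ', hs', h1'⟩ := clear_sos hτ
    refine ⟨N, θ * θ', by exact_mod_cast hN, mul_ne_zero hθ hθ', θ' * θ' * s, θ * θ * s',
      (IsSumSq.mul_self _).mul hs, (IsSumSq.mul_self _).mul hs', ?_⟩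
    apply hinj
    have hC : ι (C (N : ℝ)) = (N : K) := by
      rw [map_natCast, map_natCast]
    simp only [map_mul, map_add, map_pow, map_sub, hC]
    rw [heq]
    rw [← hι] at h1 h1'
    rw [← h1, ← h1']
    ring
  · exfalso
    have hneg' : (-1 : K) ∉ AddSubmonoid.closure
        {z | ∃ t ∈ bigT (ι g) (ι p), ∃ l : K, z = t * l ^ 2} := fun h => hneg (bigT_closure h)
    obtain ⟨R, _, _, _, φ, hφ, hR⟩ := exists_rc _ bigT_mul bigT_one hneg'
    set ψ : P2 →+* R := φ.comp ι with hψ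
    have hψinj : Function.Injective ψ := φ.injective.comp hinj
    let _ : Algebra ℝ R := (ψ.comp C).toAlgebra
    have halg : ∀ r : ℝ, algebraMap ℝ R r = ψ (C r) := fun r => rfl
    have haev : ∀ f : P2, MvPolynomial.aeval ![ψ (X 0), ψ (X 1)] f = ψ f := by
      intro f
      induction f using MvPolynomial.induction_on with
      | C a => rw [aeval_C, halg]
      | add p q hp hq => rw [map_add, map_add, hp, hq]
      | mul_X p i hp =>
        rw [map_mul, map_mul, hp, aeval_X]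
        congr 1
        fin_cases i <;> rfl
    obtain ⟨B, hB⟩ := hb
    obtain ⟨N, hN⟩ := exists_nat_gt (B ^ 2)
    have hgpos : 0 < ψ g := by
      refine lt_of_le_of_ne ?_ ?_
      · apply hφ
        exact ⟨0, ι g, 0, InQM.gen, InQM.zero, by ring⟩
      · intro h
        exact hg (hψinj (h.symm.trans (map_zero _).symm))
    have hppos : 0 < ψ (p ^ 2 - C (B ^ 2)) := by
      have h1 : 0 ≤ φ ((ι p) ^ 2 - N) := by
        apply hφ
        exact ⟨N, 0, 1, InQM.zero, InQM.one, by ring⟩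
      have h2 : 0 < algebraMap ℝ R (N - B ^ 2) := am_pos (by linarith)
      have h3 : ψ (p ^ 2 - C (B ^ 2)) = φ ((ι p) ^ 2 - N) + algebraMap ℝ R (N - B ^ 2) := by
        have h4 : φ ((ι p) ^ 2 - N) = φ (ι p) ^ 2 - N := by
          rw [map_sub, map_pow]
          congr 1
          exact map_natCast φ N
        rw [halg, h4]
        simp only [hψ, RingHom.comp_apply, map_sub, map_pow, map_natCast]
        ring
      rw [h3]
      exact add_pos_of_nonneg_of_pos h1 h2
    obtain ⟨z, hz⟩ := artin_lang hR (x := ψ (X 0)) (y := ψ (X 1)) (by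
      intro r h
      rw [halg] at h
      have h2 := hψinj h
      have h3 := congrArg (eval (fun _ => r + 1)) h2
      simp at h3) ![g, p ^ 2 - C (B ^ 2)] (by
      intro j
      rw [haev]
      fin_cases j
      · exact hgpos
      · exact hppos)
    have h0 := hz 0
    have h1 := hz 1
    simp only [Matrix.cons_val_zero, Matrix.cons_val_one, map_sub, map_pow, eval_C] at h0 h1
    have h2 := hB z h0
    have h3 : (eval z p) ^ 2 ≤ B ^ 2 := by
      rw [← sq_abs]
      exact pow_le_pow_left₀ (abs_nonneg _) h2 2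
    linarith

end Pool.Agent.H685_stab
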