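import Pool.Agent.H685_stab.NDir
import Pool.Agent.H685_stab.Cert

/-!
The combinatorial criterion for polynomials that are nondegenerate at infinity.
-/

set_option linter.unusedSectionVars false

namespace Pool.Agent.H685_stab

open MvPolynomial Filter Topology

lemma lsup_congr {g : P2} {w w' : ℤ × ℤ} (h : ∀ m ∈ g.support, ∀ m' ∈ g.support,
    (wt w m' ≤ wt w m ↔ wt w' m' ≤ wt w' m)) : lsup w g = lsup w' g := by
  ext m
  rw [mem_lsup, mem_lsup]
  constructor
  · rintro ⟨hm, hmax⟩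
    exact ⟨hm, fun m' hm' => (h m hm m' hm').mp (hmax m' hm')⟩
  · rintro ⟨hm, hmax⟩
    exact ⟨hm, fun m' hm' => (h m hm m' hm').mpr (hmax m' hm')⟩

lemma posDir_congr {g : P2} {w w' : ℤ × ℤ} (h : lsup w g = lsup w' g) (hw : PosDir g w) :
    PosDir g w' := by
  obtain ⟨a, b, ha, hb, hab⟩ := hw
  refine ⟨a, b, ha, hb, ?_⟩
  rwa [lform, ← h]

lemma wt_le_iff {w : ℤ × ℤ} (hw : 0 < w.1) (m m' : Fin 2 →₀ ℕ) :
    wt w m' ≤ wt w m ↔ (0 : ℝ) ≤ (dif m m').1 - (-(w.2 : ℝ) / w.1) * (dif m m').2 := by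
  have hw' : (0 : ℝ) < w.1 := by exact_mod_cast hw
  have h1 : wt w m' ≤ wt w m ↔ (0 : ℤ) ≤ w.1 * (dif m m').1 + w.2 * (dif m m').2 := by
    rw [← wt_dif]; constructor <;> intro h <;> linarith
  rw [h1]
  have h2 : (0 : ℤ) ≤ w.1 * (dif m m').1 + w.2 * (dif m m').2 ↔
      (0 : ℝ) ≤ (w.1 : ℝ) * (dif m m').1 + w.2 * (dif m m').2 := by
    constructor
    · intro h
      have : (0 : ℝ) ≤ ((w.1 * (dif m m').1 + w.2 * (dif m m').2 : ℤ) : ℝ) := by exact_mod_cast h
      push_cast at this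
      exact this
    · intro h
      have : (0 : ℝ) ≤ ((w.1 * (dif m m').1 + w.2 * (dif m m').2 : ℤ) : ℝ) := by
        push_cast; exact h
      exact_mod_cast this
  rw [h2]
  have h3 : (w.1 : ℝ) * (dif m m').1 + w.2 * (dif m m').2
      = w.1 * ((dif m m').1 - (-(w.2 : ℝ) / w.1) * (dif m m').2) := by
    field_simp
    ring
  rw [h3]
  constructor
  · intro h
    exact nonneg_of_mul_nonneg_right h hw'
  · intro h
    exact mul_nonneg hw'.le h

theorem comb {g : P2}
    (h : ∀ i j : ℕ, (i ≠ 0 ∨ j ≠ 0) → ∃ w, PosDir g w ∧ 0 < w.1 * i + w.2 * j) :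
    ∃ (w w' : ℤ × ℤ) (l l' : ℕ), PosDir g w ∧ PosDir g w' ∧ 0 < l * w.1 + l' * w'.1 ∧
      0 < l * w.2 + l' * w'.2 := by
  by_contra hcon
  push Not at hcon
  have c0 : ∀ w, PosDir g w → ¬ (0 < w.1 ∧ 0 < w.2) := by
    rintro w hw ⟨h1, h2⟩
    have := hcon w w 1 0 hw hw (by simpa using h1)
    simp at this
    omega
  have c1 : ∀ w w', PosDir g w → PosDir g w' → 0 < w.1 → 0 < w'.2 → w.1 * w'.2 ≤ w.2 * w'.1 := by
    intro w w' hw hw' h1 h2
    have h3 : w.2 ≤ 0 := by
      by_contra h4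
      push Not at h4
      exact c0 w hw ⟨h1, h4⟩
    have h4 : w'.1 ≤ 0 := by
      by_contra h5
      push Not at h5
      exact c0 w' hw' ⟨h5, h2⟩
    by_contra h5
    push Not at h5
    have e1 : (((w'.2 - w'.1).toNat : ℕ) : ℤ) = w'.2 - w'.1 := by omega
    have e2 : (((w.1 - w.2).toNat : ℕ) : ℤ) = w.1 - w.2 := by omega
    have h6 := hcon w w' (w'.2 - w'.1).toNat (w.1 - w.2).toNat hw hw' (by
      rw [e1, e2]; nlinarith)
    rw [e1, e2] at h6
    nlinarith
  obtain ⟨w1, hw1, hw1p⟩ := h 1 0 (Or.inl one_ne_zero)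
  obtain ⟨w2, hw2, hw2p⟩ := h 0 1 (Or.inr one_ne_zero)
  have hw1p' : 0 < w1.1 := by simpa using hw1p
  have hw2p' : 0 < w2.2 := by simpa using hw2p
  have c2 : ∀ w, PosDir g w → 0 < w.1 → w.2 < 0 := by
    intro w hw h1
    have h2 := c1 w w2 hw hw2 h1 hw2p'
    have h3 : 0 < w.1 * w2.2 := mul_pos h1 hw2p'
    by_contra h4
    push Not at h4
    rcases eq_or_lt_of_le h4 with h5 | h5
    · rw [← h5] at h2; linarith
    · exact c0 w hw ⟨h1, h5⟩
  have c3 : ∀ w, PosDir g w → 0 < w.2 → w.1 < 0 := by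
    intro w hw h1
    have h2 := c1 w1 w hw1 hw hw1p' h1
    have h3 : 0 < w1.1 * w.2 := mul_pos hw1p' h1
    by_contra h4
    push Not at h4
    rcases eq_or_lt_of_le h4 with h5 | h5
    · rw [← h5] at h2; linarith
    · exact c0 w hw ⟨h5, h1⟩
  let T : Set ℝ := {s | ∃ w, PosDir g w ∧ 0 < w.1 ∧ s = -(w.2 : ℝ) / w.1}
  have hTne : T.Nonempty := ⟨_, w1, hw1, hw1p', rfl⟩
  have hTb : ∀ w', PosDir g w' → 0 < w'.2 → ∀ s ∈ T, (w'.2 : ℝ) / (-w'.1) ≤ s := by
    rintro w' hw' h1 s ⟨w, hw, h2, rfl⟩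
    have h3 := c1 w w' hw hw' h2 h1
    have h4 := c3 w' hw' h1
    have h5 : (0 : ℝ) < -(w'.1 : ℝ) := by
      have : (w'.1 : ℝ) < 0 := by exact_mod_cast h4
      linarith
    have h6 : (0 : ℝ) < w.1 := by exact_mod_cast h2
    rw [div_le_div_iff₀ h5 h6]
    have h7 : ((w.1 * w'.2 : ℤ) : ℝ) ≤ ((w.2 * w'.1 : ℤ) : ℝ) := by exact_mod_cast h3
    push_cast at h7
    linarith
  have hTbdd : BddBelow T := ⟨_, fun s hs => hTb w2 hw2 hw2p' s hs⟩
  set ρ := sInf T with hρ
  have hρT : ∀ s ∈ T, ρ ≤ s := fun s hs => csInf_le hTbdd hs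
  have hρ2 : ∀ w', PosDir g w' → 0 < w'.2 → (w'.2 : ℝ) / (-w'.1) ≤ ρ := by
    intro w' hw' h1
    exact le_csInf hTne (fun s hs => hTb w' hw' h1 s hs)
  have hρpos : 0 < ρ := by
    have h1 := hρ2 w2 hw2 hw2p'
    have h4 := c3 w2 hw2 hw2p'
    have h5 : (0 : ℝ) < -(w2.1 : ℝ) := by
      have : (w2.1 : ℝ) < 0 := by exact_mod_cast h4
      linarith
    have h6 : (0 : ℝ) < w2.2 := by exact_mod_cast hw2p'
    have h7 : (0 : ℝ) < (w2.2 : ℝ) / (-w2.1) := div_pos h6 h5
    linarith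
  -- rho is irrational
  have hirr : ∀ i j : ℕ, 0 < j → ρ ≠ (i : ℝ) / j := by
    intro i j hj hij
    obtain ⟨w, hw, hpos⟩ := h i j (Or.inr hj.ne')
    have hj' : (0 : ℝ) < j := by exact_mod_cast hj
    have hi' : (0 : ℝ) < i := by
      by_contra h1
      push Not at h1
      have h2 : (i : ℝ) / j ≤ 0 := div_nonpos_of_nonpos_of_nonneg h1 hj'.le
      linarith
    have hpos' : (0 : ℝ) < (w.1 : ℝ) * i + w.2 * j := by exact_mod_cast hpos
    by_cases h1 : 0 < w.1
    · have h2 : -(w.2 : ℝ) / w.1 ∈ T := ⟨w, hw, h1, rfl⟩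
      have h3 := hρT _ h2
      have h4 : (0 : ℝ) < w.1 := by exact_mod_cast h1
      rw [hij, div_le_div_iff₀ hj' h4] at h3
      linarith
    · have h2 : 0 < w.2 := by
        by_contra h3
        push Not at h1 h3
        have h4 : (w.1 : ℝ) ≤ 0 := by exact_mod_cast h1
        have h5 : (w.2 : ℝ) ≤ 0 := by exact_mod_cast h3
        nlinarith
      have h3 := hρ2 w hw h2
      have h4 := c3 w hw h2
      have h5 : (0 : ℝ) < -(w.1 : ℝ) := by
        have : (w.1 : ℝ) < 0 := by exact_mod_cast h4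
        linarith
      rw [hij, div_le_div_iff₀ h5 hj'] at h3
      linarith
  -- sign constancy
  have hsign : ∀ᶠ t in 𝓝 ρ, ∀ m ∈ g.support, ∀ m' ∈ g.support,
      ((0 : ℝ) ≤ (dif m m').1 - t * (dif m m').2 ↔
        (0 : ℝ) ≤ (dif m m').1 - ρ * (dif m m').2) := by
    rw [Filter.eventually_all_finset]
    intro m _
    rw [Filter.eventually_all_finset]
    intro m' _
    set v := dif m m' with hv
    by_cases h0 : (v.1 : ℝ) - ρ * v.2 = 0
    · have hv2 : v.2 = 0 := by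
        by_contra h2
        have h3 : (v.2 : ℝ) ≠ 0 := by exact_mod_cast h2
        have h4 : ρ = (v.1 : ℝ) / v.2 := by
          field_simp
          linarith
        rcases lt_or_gt_of_ne h2 with h5 | h5
        · have h5' : (v.2 : ℝ) < 0 := by exact_mod_cast h5
          have h6 : v.1 < 0 := by
            have : (v.1 : ℝ) < 0 := by
              have : (v.1 : ℝ) = ρ * v.2 := by linarith
              rw [this]; nlinarith
            exact_mod_cast this
          apply hirr (-v.1).toNat (-v.2).toNat (by omega)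
          have e1 : (((-v.1).toNat : ℕ) : ℝ) = -(v.1 : ℝ) := by
            have : (((-v.1).toNat : ℕ) : ℤ) = -v.1 := by omega
            have h7 : ((((-v.1).toNat : ℕ) : ℤ) : ℝ) = ((-v.1 : ℤ) : ℝ) := by rw [this]
            push_cast at h7
            exact h7
          have e2 : (((-v.2).toNat : ℕ) : ℝ) = -(v.2 : ℝ) := by
            have : (((-v.2).toNat : ℕ) : ℤ) = -v.2 := by omega
            have h7 : ((((-v.2).toNat : ℕ) : ℤ) : ℝ) = ((-v.2 : ℤ) : ℝ) := by rw [this]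
            push_cast at h7
            exact h7
          rw [e1, e2, neg_div_neg_eq]; exact h4
        · have h5' : (0 : ℝ) < v.2 := by exact_mod_cast h5
          have h6 : 0 < v.1 := by
            have : (0 : ℝ) < v.1 := by
              have : (v.1 : ℝ) = ρ * v.2 := by linarith
              rw [this]; positivity
            exact_mod_cast this
          apply hirr v.1.toNat v.2.toNat (by omega)
          have e1 : ((v.1.toNat : ℕ) : ℝ) = (v.1 : ℝ) := by
            have : ((v.1.toNat : ℕ) : ℤ) = v.1 := by omega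
            exact_mod_cast this
          have e2 : ((v.2.toNat : ℕ) : ℝ) = (v.2 : ℝ) := by
            have : ((v.2.toNat : ℕ) : ℤ) = v.2 := by omega
            exact_mod_cast this
          rw [e1, e2]; exact h4
      apply Eventually.of_forall
      intro t
      rw [hv2]; simp
    · have hcont : Tendsto (fun t : ℝ => (v.1 : ℝ) - t * v.2) (𝓝 ρ) (𝓝 ((v.1 : ℝ) - ρ * v.2)) := by
        have : Continuous (fun t : ℝ => (v.1 : ℝ) - t * v.2) := by fun_prop
        exact this.tendsto ρ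
      rcases lt_or_gt_of_ne h0 with h1 | h1
      · filter_upwards [hcont.eventually_lt_const h1] with t ht
        constructor
        · intro h2; linarith
        · intro h2; linarith
      · filter_upwards [hcont.eventually_const_lt h1] with t ht
        exact ⟨fun _ => h1.le, fun _ => ht.le⟩
  obtain ⟨ε, hε, hball⟩ := Metric.eventually_nhds_iff.mp hsign
  -- an element near rho
  obtain ⟨s, hs, hs2⟩ := exists_lt_of_csInf_lt hTne (show sInf T < ρ + ε by linarith)
  obtain ⟨w, hw, hwp, rfl⟩ := hs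
  -- a rational below rho
  obtain ⟨q, hq1, hq2⟩ := exists_rat_btwn (show max (ρ - ε) 0 < ρ from max_lt (by linarith) hρpos)
  have hq0 : (0 : ℝ) < q := lt_of_le_of_lt (le_max_right _ _) hq1
  have hqε : ρ - ε < q := lt_of_le_of_lt (le_max_left _ _) hq1
  set w'' : ℤ × ℤ := ((q.den : ℤ), -q.num) with hw''
  have hw''p : 0 < w''.1 := by simp only [hw'']; exact_mod_cast q.den_pos
  have hslope : -(w''.2 : ℝ) / w''.1 = q := by
    simp only [hw'']
    push_cast
    rw [neg_neg]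
    have := Rat.cast_def (K := ℝ) q
    exact this.symm
  have heq : lsup w g = lsup w'' g := by
    apply lsup_congr
    intro m hm m' hm'
    rw [wt_le_iff hwp, wt_le_iff hw''p, hslope]
    have h1 := hball (y := -(w.2 : ℝ) / w.1) (by
      rw [Real.dist_eq, abs_lt]
      have := hρT _ ⟨w, hw, hwp, rfl⟩
      constructor <;> linarith) m hm m' hm'
    have h2 := hball (y := (q : ℝ)) (by
      rw [Real.dist_eq, abs_lt]
      constructor <;> linarith) m hm m' hm'
    rw [h1, h2]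
  have hPw'' : PosDir g w'' := posDir_congr heq hw
  have h3 : (q : ℝ) ∈ T := ⟨w'', hPw'', hw''p, hslope.symm⟩
  have := hρT _ h3
  linarith

/-- The dichotomy for polynomials which are nondegenerate at infinity. -/
theorem nd_dichotomy {g : P2}
    (hND : ∀ w : ℤ × ℤ, (0 < w.1 ∨ 0 < w.2) → PosDir g w ∨ NegDir g w) :
    (∃ (w w' : ℤ × ℤ) (l l' : ℕ), PosDir g w ∧ PosDir g w' ∧ 0 < l * w.1 + l' * w'.1 ∧
      0 < l * w.2 + l' * w'.2) ∨
    (∃ i j : ℕ, (i ≠ 0 ∨ j ≠ 0) ∧ ∃ B : ℝ, ∀ P : Fin 2 → ℝ, 0 < eval P g →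
      |P 0 ^ i * P 1 ^ j| ≤ B) := by
  by_cases h : ∃ i j : ℕ, (i ≠ 0 ∨ j ≠ 0) ∧ ∃ B : ℝ, ∀ P : Fin 2 → ℝ, 0 < eval P g →
      |P 0 ^ i * P 1 ^ j| ≤ B
  · exact Or.inr h
  left
  push Not at h
  apply comb
  intro i j hij
  obtain ⟨w, hw, a, b, ha, hb, hab⟩ := dir_of_unbdd (g := g) (i := i) (j := j) (h i j hij)
  refine ⟨w, ?_, hw⟩
  have hmax : 0 < w.1 ∨ 0 < w.2 := by
    by_contra hcon
    push Not at hcon
    have h1 : w.1 * i ≤ 0 := mul_nonpos_of_nonpos_of_nonneg hcon.1 (by positivity)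
    have h2 : w.2 * j ≤ 0 := mul_nonpos_of_nonpos_of_nonneg hcon.2 (by positivity)
    linarith
  rcases hND w hmax with h1 | h1
  · exact h1
  · have := h1 a b ha hb
    linarith

end Pool.Agent.H685_stab
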