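import Pool.Agent.H685_stab.Family

/-!
From Laurent polynomials back to polynomials.
-/

set_option linter.unusedSectionVars false
set_option linter.unusedSimpArgs false

namespace Pool.Agent.H685_stab

open MvPolynomial

/-- The inclusion of `ℝ[u, τ]`, with `u = X 0` and `τ = X 1`. -/
noncomputable def jj : P2 →ₐ[ℝ] Lr := aeval ![mon 0 1, mon 1 0]

lemma jj_X0 : jj (X 0) = mon 0 1 := by simp [jj]
lemma jj_X1 : jj (X 1) = mon 1 0 := by simp [jj]

lemma jj_monomial (m : Fin 2 →₀ ℕ) (c : ℝ) : jj (monomial m c) = c • mon (m 1) (m 0) := by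
  rw [jj, aeval_monomial, Finsupp.prod_fintype _ _ (by simp), Fin.prod_univ_two,
    ← Algebra.smul_def]
  congr 1
  simp only [Matrix.cons_val_zero, Matrix.cons_val_one]
  rw [mon_pow, mon_pow, mon_mul]
  congr 1
  · ring
  · ring

lemma coeff_jj (P : P2) (m : Fin 2 →₀ ℕ) : (jj P).coeff ((m 1 : ℤ), m 0) = coeff m P := by
  classical
  conv_lhs => rw [P.as_sum]
  rw [map_sum]
  have h1 : (∑ n ∈ P.support, jj (monomial n (coeff n P))).coeff ((m 1 : ℤ), m 0)
      = ∑ n ∈ P.support, (jj (monomial n (coeff n P))).coeff ((m 1 : ℤ), m 0) := by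
    rw [AddMonoidAlgebra.coeff_sum, Finsupp.finsetSum_apply]
  rw [h1]
  have h2 : ∀ n ∈ P.support, (jj (monomial n (coeff n P))).coeff ((m 1 : ℤ), m 0)
      = if n = m then coeff n P else 0 := by
    intro n _
    rw [jj_monomial, AddMonoidAlgebra.coeff_smul, Finsupp.smul_apply, coeff_mon, smul_eq_mul]
    by_cases h : n = m
    · subst h; simp
    · rw [if_neg h, if_neg, mul_zero]
      intro h3
      apply h
      have h4 := congrArg Prod.fst h3
      have h5 := congrArg Prod.snd h3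
      simp only at h4 h5
      ext i
      fin_cases i
      · exact h5
      · change n 1 = m 1
        exact_mod_cast h4
  rw [Finset.sum_congr rfl h2, Finset.sum_ite_eq']
  split_ifs with h
  · rfl
  · exact (notMem_support_iff.mp h).symm

lemma jj_inj {P P' : P2} (h : jj P = jj P') : P = P' := by
  ext m
  rw [← coeff_jj, ← coeff_jj, h]

lemma jj_surj {F : Lr} (hF : F ∈ Gr 0) : ∃ P, jj P = F := by
  refine ⟨∑ q ∈ F.coeff.support, F.coeff q • (X 1 ^ q.1.toNat * X 0 ^ q.2), ?_⟩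
  conv_rhs => rw [eq_sum_mon F]
  rw [map_sum]
  refine Finset.sum_congr rfl fun q hq => ?_
  have h := hF q (Finsupp.mem_support_iff.mp hq)
  simp only [wG] at h
  rw [map_smul, map_mul, map_pow, map_pow, jj_X0, jj_X1, mon_pow, mon_pow, mon_mul]
  congr 2
  · have : ((q.1.toNat : ℕ) : ℤ) = q.1 := by omega
    rw [this]; ring
  · ring

lemma jj_sos (m : ℕ) {s : P2} (hs : IsSumSq s) : ph 0 s ∈ Gr (2 * (m : ℤ)) →
    ∃ S : P2, IsSumSq S ∧ jj S = mon m 0 * mon m 0 * ph 0 s := by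
  induction hs with
  | zero => intro _; exact ⟨0, IsSumSq.zero, by rw [map_zero, map_zero, mul_zero]⟩
  | @sq_add a s hs ih =>
    intro h
    rw [map_add, map_mul] at h
    obtain ⟨h1, h2⟩ := sos_Gr (isSumSq_ph 0 hs) h
    obtain ⟨S, hS, hSe⟩ := ih h2
    have h3 : mon m 0 * ph 0 a ∈ Gr 0 := by
      have h4 : mon m 0 ∈ Gr (-(m : ℤ)) := mon_mem_Gr (by omega)
      have := Gr_mul h4 h1
      have e : -(m : ℤ) + m = 0 := by ring
      rwa [e] at this
    obtain ⟨A, hA⟩ := jj_surj h3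
    refine ⟨A * A + S, (IsSumSq.mul_self A).add hS, ?_⟩
    rw [map_add, map_mul, hA, hSe, map_add, map_mul]
    ring

/-- The total weight. -/
def wT (q : ℤ × ℕ) : ℤ := q.1 + q.2

lemma wT_add (a b : ℤ × ℕ) : wT (a + b) = wT a + wT b := by
  simp only [wT, Prod.fst_add, Prod.snd_add]; push_cast; ring

lemma ph_wT {s : P2} {D : ℕ} (hs : s.totalDegree ≤ D) : ph 0 s ∈ FW wT (3 * D) := by
  classical
  rw [s.as_sum, map_sum]
  apply sum_mem
  intro m hm
  have h1 := le_totalDegree hm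
  rw [Finsupp.sum_fintype _ _ (by simp), Fin.sum_univ_two] at h1
  have e : ph 0 (monomial m (coeff m s)) = coeff m s • (ph 0 vx ^ m 0 * ph 0 vy ^ m 1) := by
    rw [ph, aeval_monomial, Finsupp.prod_fintype _ _ (by simp), Fin.prod_univ_two,
      ← Algebra.smul_def]
    simp [vx, vy]
  rw [e, ph0_x, ph0_y, mon_pow, mon_pow, mon_mul]
  apply Submodule.smul_mem
  apply mon_mem_FW
  simp only [wT]
  push_cast
  nlinarith

lemma jj_deg {s S : P2} {m D : ℕ} (hs : s.totalDegree ≤ D)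
    (h : jj S = mon m 0 * mon m 0 * ph 0 s) : S.totalDegree ≤ 3 * D + 2 * m := by
  have h1 : jj S ∈ FW wT (m + m + 3 * D) := by
    rw [h]
    have h2 : mon m 0 ∈ FW wT m := mon_mem_FW (by simp [wT])
    exact FW_mul wT_add (FW_mul wT_add h2 h2) (ph_wT hs)
  rw [totalDegree, Finset.sup_le_iff]
  intro n hn
  rw [Finsupp.sum_fintype _ _ (by simp), Fin.sum_univ_two]
  have h3 : (jj S).coeff ((n 1 : ℤ), n 0) ≠ 0 := by
    rw [coeff_jj]; exact mem_support_iff.mp hn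
  have h4 := h1 _ h3
  simp only [wT] at h4
  omega

/-- The polynomial `τ a` in the coordinates `u, τ`. -/
noncomputable def a' : P2 := 1 + X 1 * X 0 - X 1 ^ 4 * X 0 ^ 2
/-- The polynomial `b` in the coordinates `u, τ`. -/
noncomputable def b' : P2 := X 0 + X 1 ^ 2 * X 0 - X 1 ^ 3 * X 0 ^ 2
/-- The polynomial `c` in the coordinates `u, τ`. -/
noncomputable def c' : P2 := X 1 ^ 3 * X 0 ^ 2 - X 0
/-- The polynomial `τ² Q` in the coordinates `u, τ`. -/
noncomputable def q' : P2 := X 1 ^ 2 + a' ^ 2 + X 1 ^ 2 * b' ^ 2 + X 1 ^ 2 * c' ^ 2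
/-- The polynomial `τ² g` in the coordinates `u, τ`. -/
noncomputable def gp : P2 := 2 * q' - (a' ^ 2 * b' ^ 2 + X 1 ^ 2 * b' ^ 2 * c' ^ 2
  + c' ^ 2 * a' ^ 2)

lemma jj_a' : jj a' = mon 1 0 * ph 0 pa := by
  rw [a', ph0_a]
  simp only [map_add, map_sub, map_mul, map_pow, map_one, jj_X0, jj_X1, mon_pow, mul_add, mul_sub,
    mon_mul]
  norm_num
  rw [mon_zero]

lemma jj_b' : jj b' = ph 0 pb := by
  rw [b', ph0_b]
  simp only [map_add, map_sub, map_mul, map_pow, map_one, jj_X0, jj_X1, mon_pow, mul_add, mul_sub,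
    mon_mul]
  norm_num

lemma jj_c' : jj c' = ph 0 pc := by
  rw [c', ph0_c]
  simp only [map_add, map_sub, map_mul, map_pow, map_one, jj_X0, jj_X1, mon_pow, mul_add, mul_sub,
    mon_mul]
  norm_num

lemma jj_q' : jj q' = mon 1 0 ^ 2 * ph 0 QQ := by
  rw [q', QQ]
  simp only [map_add, map_sub, map_mul, map_pow, map_one, jj_a', jj_b', jj_c', jj_X1]
  ring

lemma jj_gp : jj gp = mon 1 0 ^ 2 * ph 0 gx := by
  rw [gp, gx, EE]
  simp only [map_add, map_sub, map_mul, map_pow, map_one, map_ofNat, jj_a', jj_b', jj_c', jj_q',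
    jj_X1]
  ring

/-- The polynomial `τ⁸ f` in the coordinates `u, τ`. -/
noncomputable def fp (ε δ c1 c2 : ℝ) : P2 :=
  C (1 / δ ^ 4) * (X 1 ^ 4 * a' ^ 4)
  + C (1 / δ ^ 2) * (X 1 ^ 2 * (a' ^ 6 * (C (1 / ε ^ 4) * b' ^ 4 - C (3 / ε ^ 2) * b' ^ 2
      + C (1 / 2))) + X 1 ^ 8 * b' ^ 6 + X 1 ^ 8 * c' ^ 6 + C c1 * (X 1 ^ 4 * q' ^ 2))
  + (a' ^ 8 * (C (1 / ε ^ 2) * b' ^ 2 + C (1 / 4)) + X 1 ^ 8 * b' ^ 8 + X 1 ^ 8 * c' ^ 8
      + C c2 * (X 1 ^ 2 * q' ^ 3))

lemma jj_C (c : ℝ) (P : P2) : jj (C c * P) = c • jj P := by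
  rw [← smul_eq_C_mul, map_smul]

lemma jj_C' (c : ℝ) : jj (C c) = c • 1 := by
  have := jj_C c 1
  rwa [mul_one, map_one] at this

lemma jj_fp (ε δ c1 c2 : ℝ) : jj (fp ε δ c1 c2) = mon 1 0 ^ 8 * ph 0 (ff ε δ c1 c2) := by
  rw [fp, ff, F1, F2]
  have hC : ∀ c : ℝ, ph 0 (C c) = jj (C c) := by
    intro c
    rw [jj_C']
    have h := (ph 0).commutes c
    have h2 : algebraMap ℝ Lr c = c • 1 := Algebra.algebraMap_eq_smul_one c
    rw [← h2]; exact h
  simp only [map_add, map_sub, map_mul, map_pow, jj_a', jj_b', jj_c', jj_q', jj_X1, hC]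
  ring

end Pool.Agent.H685_stab
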