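import Pool.Agent.H685_stab.Infl

/-!
Real points from a field with a uniformizer.
-/

set_option linter.unusedSectionVars false

namespace Pool.Agent.H685_stab

open Polynomial

section Core

variable {R : Type} [Field R] [LinearOrder R] [IsStrictOrderedRing R] [Algebra ℝ R]

/-- A uniformizer of an intermediate field. -/
structure Unif (E : IntermediateField ℝ R) (t : R) : Prop where
  mem : t ∈ E
  pos : 0 < t
  infl : Infl t
  div : ∀ w ∈ E, Infl w → Bdd (w / t)
  fin : ∀ w ∈ E, ∃ n : ℕ, Bdd (t ^ n * w)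

variable {E : IntermediateField ℝ R} {t : R}

lemma Unif.expand (h : Unif E t) (N : ℕ) : ∀ w ∈ E, Bdd w →
    ∃ P : ℝ[X], ∃ w' ∈ E, Bdd w' ∧ w = aeval t P + t ^ N * w' := by
  induction N with
  | zero =>
    intro w hw hb
    exact ⟨0, w, hw, hb, by simp⟩
  | succ N ih =>
    intro w hw hb
    obtain ⟨P, w', hw', hb', rfl⟩ := ih w hw hb
    obtain ⟨r, hr⟩ := exists_st hb'
    have hmem : w' - algebraMap ℝ R r ∈ E := E.sub_mem hw' (E.algebraMap_mem r)
    refine ⟨P + C r * X ^ N, (w' - algebraMap ℝ R r) / t, E.div_mem hmem h.mem,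
      h.div _ hmem hr, ?_⟩
    have := h.pos.ne'
    rw [map_add, map_mul, aeval_C, map_pow, aeval_X, pow_succ]
    field_simp
    ring

lemma Unif.approx (h : Unif E t) {w : R} (hw : w ∈ E) : ∃ a : ℕ, ∀ N : ℕ,
    ∃ P : ℝ[X], ∃ w' : R, Bdd w' ∧ w = aeval t P / t ^ a + t ^ N * w' := by
  obtain ⟨a, ha⟩ := h.fin w hw
  refine ⟨a, fun N => ?_⟩
  obtain ⟨P, w', _, hb', hP⟩ := h.expand (N + a) (t ^ a * w) (E.mul_mem (pow_mem h.mem a) hw) ha
  refine ⟨P, w', hb', ?_⟩
  have := h.pos.ne'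
  have h2 : w = t ^ a * w / t ^ a := by field_simp
  rw [h2, hP]
  field_simp
  ring

variable {σ : Type*}

lemma Unif.fin_mv (h : Unif E t) {x : σ → R} (hx : ∀ i, x i ∈ E) (f : MvPolynomial σ ℝ) :
    MvPolynomial.aeval x f ∈ E := by
  induction f using MvPolynomial.induction_on with
  | C a => rw [MvPolynomial.aeval_C]; exact E.algebraMap_mem a
  | add p q hp hq => rw [map_add]; exact E.add_mem hp hq
  | mul_X p i hp => rw [map_mul, MvPolynomial.aeval_X]; exact E.mul_mem hp (hx i)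

lemma Bdd.pow_mul_le {t w : R} (ht : Bdd t) {a b : ℕ} (hab : a ≤ b) (h : Bdd (t ^ a * w)) :
    Bdd (t ^ b * w) := by
  obtain ⟨c, rfl⟩ := Nat.exists_eq_add_of_le hab
  have : t ^ (a + c) * w = t ^ c * (t ^ a * w) := by ring
  rw [this]
  exact (ht.pow c).mul h

lemma Unif.diff (h : Unif E t) {x : σ → R} (hx : ∀ i, x i ∈ E) (f : MvPolynomial σ ℝ) :
    ∃ c : ℕ, ∀ (N : ℕ) (x' : σ → R), (∀ i, ∃ w, Bdd w ∧ x i = x' i + t ^ N * w) →
      ∃ w, Bdd w ∧ t ^ c * (MvPolynomial.aeval x f - MvPolynomial.aeval x' f) = t ^ N * w := by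
  induction f using MvPolynomial.induction_on with
  | C a =>
    refine ⟨0, fun N x' _ => ⟨0, Bdd.zero, ?_⟩⟩
    rw [MvPolynomial.aeval_C, MvPolynomial.aeval_C]; simp
  | add p q hp hq =>
    obtain ⟨c, hc⟩ := hp
    obtain ⟨d, hd⟩ := hq
    refine ⟨c + d, fun N x' hx' => ?_⟩
    obtain ⟨w, hw, hw2⟩ := hc N x' hx'
    obtain ⟨v, hv, hv2⟩ := hd N x' hx'
    refine ⟨t ^ d * w + t ^ c * v, ((h.infl.bdd.pow d).mul hw).add ((h.infl.bdd.pow c).mul hv), ?_⟩
    rw [map_add, map_add]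
    linear_combination t ^ d * hw2 + t ^ c * hv2
  | mul_X p i hp =>
    obtain ⟨c, hc⟩ := hp
    obtain ⟨a, ha⟩ := h.fin (x i) (hx i)
    obtain ⟨b, hb⟩ := h.fin _ (h.fin_mv hx p)
    refine ⟨c + a + b, fun N x' hx' => ?_⟩
    obtain ⟨w, hw, hw2⟩ := hc N x' hx'
    obtain ⟨v, hv, hv2⟩ := hx' i
    have hx'i : Bdd (t ^ a * x' i) := by
      have : t ^ a * x' i = t ^ a * x i - t ^ (a + N) * v := by rw [hv2]; ring
      rw [this]
      exact ha.sub ((h.infl.bdd.pow _).mul hv)
    refine ⟨t ^ (c + a) * (t ^ b * MvPolynomial.aeval x p) * v + t ^ b * (w * (t ^ a * x' i)),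
      (((h.infl.bdd.pow _).mul hb).mul hv).add ((h.infl.bdd.pow _).mul (hw.mul hx'i)), ?_⟩
    rw [map_mul, map_mul, MvPolynomial.aeval_X, MvPolynomial.aeval_X]
    have e1 : MvPolynomial.aeval x p * x i - MvPolynomial.aeval x' p * x' i
      = MvPolynomial.aeval x p * (x i - x' i)
        + (MvPolynomial.aeval x p - MvPolynomial.aeval x' p) * x' i := by ring
    have e2 : x i - x' i = t ^ N * v := by rw [hv2]; ring
    rw [e1, e2]
    linear_combination (t ^ (a + b) * x' i) * hw2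

/-- Clearing denominators in a substitution of rational functions. -/
lemma clear_den (P : σ → ℝ[X]) (a : ℕ) (f : MvPolynomial σ ℝ) : ∃ (D : ℕ) (F : ℝ[X]),
    ∀ (A : Type) [Field A] [Algebra ℝ A] (τ : A), τ ≠ 0 →
      τ ^ D * MvPolynomial.aeval (fun i => aeval τ (P i) / τ ^ a) f = aeval τ F := by
  induction f using MvPolynomial.induction_on with
  | C c =>
    refine ⟨0, C c, fun A _ _ τ _ => ?_⟩
    rw [MvPolynomial.aeval_C, aeval_C]; simp
  | add p q hp hq =>
    obtain ⟨D, F, hF⟩ := hp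
    obtain ⟨D', F', hF'⟩ := hq
    refine ⟨D + D', X ^ D' * F + X ^ D * F', fun A _ _ τ hτ => ?_⟩
    rw [map_add, map_add, map_mul, map_mul, map_pow, map_pow, aeval_X, ← hF A τ hτ, ← hF' A τ hτ]
    ring
  | mul_X p i hp =>
    obtain ⟨D, F, hF⟩ := hp
    refine ⟨D + a, F * P i, fun A _ _ τ hτ => ?_⟩
    rw [map_mul, map_mul, MvPolynomial.aeval_X, ← hF A τ hτ]
    field_simp
    ring

lemma Unif.real_point [Fintype σ] (h : Unif E t) {ι : Type*} [Fintype ι] {x : σ → R}
    (hx : ∀ i, x i ∈ E)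
    (f : ι → MvPolynomial σ ℝ) (hf : ∀ j, 0 < MvPolynomial.aeval x (f j)) :
    ∃ z : σ → ℝ, ∀ j, 0 < MvPolynomial.eval z (f j) := by
  choose c hc using fun j => h.diff hx (f j)
  choose n hn using fun j => h.fin _ (E.inv_mem (h.fin_mv hx (f j)))
  choose a ha using fun i => h.approx (hx i)
  set N := ∑ j, (c j + n j) + 1 with hN
  choose P' w hw hP' using fun i => ha i N
  set A := ∑ i, a i with hA
  have hAi : ∀ i, a i ≤ A := fun i => Finset.single_le_sum (fun _ _ => Nat.zero_le _)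
    (Finset.mem_univ i)
  set P : σ → ℝ[X] := fun i => X ^ (A - a i) * P' i with hP
  have ht0 : t ≠ 0 := h.pos.ne'
  have hPi : ∀ i, x i = aeval t (P i) / t ^ A + t ^ N * w i := by
    intro i
    rw [hP' i]
    congr 1
    rw [hP]
    simp only [map_mul, map_pow, aeval_X]
    have : t ^ A = t ^ (A - a i) * t ^ (a i) := by
      rw [← pow_add]; congr 1; have := hAi i; omega
    rw [this]
    field_simp
  -- positivity at the approximations
  have key : ∀ j, 0 < MvPolynomial.aeval (fun i => aeval t (P i) / t ^ A) (f j) := by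
    intro j
    obtain ⟨v, hv, hv2⟩ := hc j N (fun i => aeval t (P i) / t ^ A) (fun i => ⟨w i, hw i, hPi i⟩)
    set u := MvPolynomial.aeval x (f j) with hu
    set u' := MvPolynomial.aeval (fun i => aeval t (P i) / t ^ A) (f j) with hu'
    have hu0 : 0 < u := hf j
    have hNj : c j + n j + 1 ≤ N := by
      rw [hN]
      have := Finset.single_le_sum (f := fun j => c j + n j) (fun _ _ => Nat.zero_le _)
        (Finset.mem_univ j)
      omega
    obtain ⟨m, hm⟩ := Nat.exists_eq_add_of_le hNj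
    -- (u - u')/u is infinitesimal
    have e1 : (u - u') / u = t * (t ^ m * (t ^ (n j) * u⁻¹) * v) := by
      have e2 : t ^ (c j) * (u - u') = t ^ (c j) * (t * (t ^ m * t ^ (n j) * v)) := by
        rw [hv2, hm]; ring
      have e3 := mul_left_cancel₀ (pow_ne_zero _ ht0) e2
      rw [e3]
      field_simp
    have e4 : Infl ((u - u') / u) := by
      rw [e1]
      exact h.infl.mul_bdd (((h.infl.bdd.pow m).mul (hn j)).mul hv)
    have e5 := e4 1 one_pos
    rw [map_one, abs_lt] at e5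
    have e6 := e5.2
    rw [div_lt_one hu0] at e6
    linarith
  choose D F hF using fun j => clear_den P A (f j)
  have key2 : ∀ j, 0 < aeval t (F j) := by
    intro j
    rw [← hF j R t ht0]
    exact mul_pos (pow_pos h.pos _) (key j)
  have key3 : ∀ᶠ τ in nhdsWithin (0 : ℝ) (Set.Ioi 0), ∀ j, 0 < (F j).eval τ := by
    rw [Filter.eventually_all]
    intro j
    exact eventually_pos h.infl h.pos (key2 j)
  obtain ⟨τ, hτ, hτ0⟩ := (key3.and self_mem_nhdsWithin).exists
  have hτ0' : (0 : ℝ) < τ := hτ0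
  refine ⟨fun i => aeval τ (P i) / τ ^ A, fun j => ?_⟩
  have h1 := hF j ℝ τ hτ0'.ne'
  have h2 := hτ j
  rw [← coe_aeval_eq_eval, ← h1] at h2
  have h3 := pos_of_mul_pos_right h2 (by positivity)
  rwa [MvPolynomial.aeval_eq_eval] at h3

end Core

end Pool.Agent.H685_stab
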