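import Pool.Agent.H685_stab.Strip
import Pool.Agent.H685_stab.Comb

/-!
Stability criteria for polynomials with a nonnegative positive direction, and invariance under
polynomial automorphisms.
-/

set_option linter.unusedSectionVars false

namespace Pool.Agent.H685_stab

open MvPolynomial

/-- Exchange of the two variables. -/
noncomputable def sw : P2 →ₐ[ℝ] P2 := rename (Equiv.swap (0 : Fin 2) 1)

lemma eval_sw (P : Fin 2 → ℝ) (f : P2) : eval P (sw f) = eval ![P 1, P 0] f := by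
  rw [sw, eval_rename]
  congr 2
  ext i
  fin_cases i
  · simp
  · simp

lemma supp_sw {f : P2} {m : Fin 2 →₀ ℕ} (hm : m ∈ f.support) :
    ∃ m' ∈ (sw f).support, m' 0 = m 1 ∧ m' 1 = m 0 := by
  refine ⟨Finsupp.mapDomain (Equiv.swap (0 : Fin 2) 1) m, ?_, ?_, ?_⟩
  · rw [mem_support_iff, sw, coeff_rename_mapDomain _ (Equiv.swap (0 : Fin 2) 1).injective]
    exact mem_support_iff.mp hm
  · have := Finsupp.mapDomain_apply (Equiv.swap (0 : Fin 2) 1).injective m 1
    simpa using this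
  · have := Finsupp.mapDomain_apply (Equiv.swap (0 : Fin 2) 1).injective m 0
    simpa using this

lemma supp_sw' {f : P2} {m' : Fin 2 →₀ ℕ} (hm : m' ∈ (sw f).support) :
    ∃ m ∈ f.support, m' 0 = m 1 ∧ m' 1 = m 0 := by
  have h : sw (sw f) = f := by
    rw [sw, rename_rename]
    have : (Equiv.swap (0 : Fin 2) 1) ∘ (Equiv.swap (0 : Fin 2) 1) = id := by
      ext i; simp
    rw [this, rename_id]; rfl
  obtain ⟨m, hm1, h1, h2⟩ := supp_sw hm
  rw [h] at hm1
  exact ⟨m, hm1, h2.symm, h1.symm⟩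

lemma grow_sw {g f : P2} {d : ℕ} (h : Grow g d f) : Grow (sw g) d (sw f) := by
  obtain ⟨c, hc⟩ := h
  refine ⟨c, fun P hP => ?_⟩
  rw [eval_sw] at hP ⊢
  have := hc _ hP
  have e : eval ![P 1, P 0] hq = eval P hq := by
    rw [eval_hq, eval_hq]
    simp
    ring
  rwa [e] at this

/-- The version of `strip_bound` with the variables exchanged. -/
theorem strip_bound' {g : P2} (hU : ∀ N : ℝ, ∃ P : Fin 2 → ℝ, 0 < eval P g ∧ N < |P 1|)
    (d D : ℕ) :
    ∃ N : ℕ, ∀ f : P2, (∀ m ∈ f.support, m 0 ≤ d) → Grow g D f → ∀ m ∈ f.support, m 1 ≤ N := by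
  obtain ⟨N, hN⟩ := strip_bound (g := sw g) (by
    intro N
    obtain ⟨P, h1, h2⟩ := hU N
    refine ⟨![P 1, P 0], ?_, ?_⟩
    · rw [eval_sw]
      have : ![(![P 1, P 0] : Fin 2 → ℝ) 1, (![P 1, P 0] : Fin 2 → ℝ) 0] = P := by
        ext i; fin_cases i <;> rfl
      rwa [this]
    · simpa using h2) d D
  refine ⟨N, fun f hf hg m hm => ?_⟩
  obtain ⟨m', hm', h1, h2⟩ := supp_sw hm
  rw [← h1]
  apply hN (sw f) _ (grow_sw hg) m' hm'
  intro m'' hm''
  obtain ⟨m3, hm3, h3, h4⟩ := supp_sw' hm''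
  rw [h4]
  exact hf m3 hm3

/-- Only constants are bounded. -/
def OnlyConst (g : P2) : Prop :=
  ∀ p : P2, (∃ B : ℝ, ∀ P : Fin 2 → ℝ, 0 < eval P g → |eval P p| ≤ B) → ∃ c : ℝ, p = C c

lemma unbdd_of_onlyConst {g : P2} (h : OnlyConst g) {p : P2} (hp : ∀ c : ℝ, p ≠ C c) :
    ∀ N : ℝ, ∃ P : Fin 2 → ℝ, 0 < eval P g ∧ N < |eval P p| := by
  intro N
  by_contra hcon
  push Not at hcon
  obtain ⟨c, hc⟩ := h p ⟨N, hcon⟩
  exact hp c hc

lemma X_ne_C (i : Fin 2) (c : ℝ) : (X i : P2) ≠ C c := by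
  intro h
  have h1 := congrArg (eval (fun _ => c + 1)) h
  simp at h1

lemma deg_le_of_bounds {f : P2} {a b : ℕ} (h0 : ∀ m ∈ f.support, m 0 ≤ a)
    (h1 : ∀ m ∈ f.support, m 1 ≤ b) : f.totalDegree ≤ a + b := by
  rw [totalDegree, Finset.sup_le_iff]
  intro m hm
  rw [Finsupp.sum_fintype _ _ (by simp), Fin.sum_univ_two]
  have := h0 m hm
  have := h1 m hm
  omega

/-- **Strip criterion, sufficiency.** -/
theorem stable_of_dir {g : P2} (hU : ∃ P, 0 < eval P g) {w : ℤ × ℤ} (hw : PosDir g w)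
    (h1 : 0 ≤ w.1) (h2 : 0 ≤ w.2) (h0 : w ≠ 0) (hc : OnlyConst g) : StableQM g := by
  by_cases hw1 : w.1 = 0
  · have hw2 : 0 < w.2 := by
      rcases lt_or_eq_of_le h2 with h | h
      · exact h
      · exact absurd (Prod.ext hw1 h.symm) h0
    apply stable_of_growth hU
    intro D
    have hub : ∀ N : ℝ, ∃ P : Fin 2 → ℝ, 0 < eval P g ∧ N < |P 0| := by
      intro N
      obtain ⟨P, hP, hN⟩ := unbdd_of_onlyConst hc (X_ne_C 0) N
      rw [eval_X] at hN
      exact ⟨P, hP, hN⟩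
    obtain ⟨N, hN⟩ := strip_bound hub D D
    refine ⟨N + D, fun f hf => ?_⟩
    have hy : ∀ m ∈ f.support, m 1 ≤ D := by
      intro m hm
      have h3 := wt_le_of_grow hw hf (M := w.2.toNat) (by omega) (by omega) hm
      simp only [wt, hw1] at h3
      have e : ((w.2.toNat : ℕ) : ℤ) = w.2 := by omega
      rw [e, zero_mul, zero_add] at h3
      have := le_of_mul_le_mul_left h3 hw2
      exact_mod_cast this
    exact deg_le_of_bounds (hN f hy hf) hy
  by_cases hw2 : w.2 = 0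
  · have hw1' : 0 < w.1 := lt_of_le_of_ne h1 (Ne.symm hw1)
    apply stable_of_growth hU
    intro D
    have hub : ∀ N : ℝ, ∃ P : Fin 2 → ℝ, 0 < eval P g ∧ N < |P 1| := by
      intro N
      obtain ⟨P, hP, hN⟩ := unbdd_of_onlyConst hc (X_ne_C 1) N
      rw [eval_X] at hN
      exact ⟨P, hP, hN⟩
    obtain ⟨N, hN⟩ := strip_bound' hub D D
    refine ⟨D + N, fun f hf => ?_⟩
    have hx : ∀ m ∈ f.support, m 0 ≤ D := by
      intro m hm
      have h3 := wt_le_of_grow hw hf (M := w.1.toNat) (by omega) (by omega) hm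
      simp only [wt, hw2] at h3
      have e : ((w.1.toNat : ℕ) : ℤ) = w.1 := by omega
      rw [e, zero_mul, add_zero] at h3
      have := le_of_mul_le_mul_left h3 hw1'
      exact_mod_cast this
    exact deg_le_of_bounds hx (hN f hx hf)
  · have h3 : 0 < w.1 := lt_of_le_of_ne h1 (Ne.symm hw1)
    have h4 : 0 < w.2 := lt_of_le_of_ne h2 (Ne.symm hw2)
    exact stable_of_cone (l := 1) (l' := 0) hw hw (by simpa using h3) (by simpa using h4) hU

lemma exists_pderiv_ne' {p : P2} (hp : ∀ c : ℝ, p ≠ C c) : ∃ i, pderiv i p ≠ 0 := by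
  by_contra hcon
  push Not at hcon
  apply hp (coeff 0 p)
  ext m
  rw [coeff_C]
  split_ifs with h
  · rw [h]
  · obtain ⟨i, hi⟩ : ∃ i, m i ≠ 0 := by
      by_contra hm
      push Not at hm
      exact h (Finsupp.ext (fun i => (hm i).symm))
    have h1 := congrArg (coeff (m - Finsupp.single i 1)) (hcon i)
    rw [coeff_pderiv, coeff_zero] at h1
    have h2 : m - Finsupp.single i 1 + Finsupp.single i 1 = m := by
      apply tsub_add_cancel_of_le
      rw [Finsupp.single_le_iff]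
      omega
    rw [h2] at h1
    rcases mul_eq_zero.mp h1 with h3 | h3
    · exact h3
    · exfalso
      have h4 : (0 : ℝ) ≤ (((m - Finsupp.single i 1 : Fin 2 →₀ ℕ) i : ℕ) : ℝ) :=
        Nat.cast_nonneg _
      linarith

/-- Stability forces that only constants are bounded. -/
theorem onlyConst_of_stable {g : P2} (hU : ∃ P, 0 < eval P g) (hs : StableQM g) : OnlyConst g := by
  intro p hb
  by_contra hcon
  push Not at hcon
  have hg : g ≠ 0 := by
    rintro rfl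
    obtain ⟨P, hP⟩ := hU
    simp at hP
  obtain ⟨N, θ, hN, hθ, hcert⟩ := exists_cert hg hb
  obtain ⟨i, hi⟩ := exists_pderiv_ne' hcon
  exact not_stable_of_cert hN hθ hcert hi hU hs

lemma mono_ne_C {i j : ℕ} (h : i ≠ 0 ∨ j ≠ 0) (c : ℝ) : (X 0 ^ i * X 1 ^ j : P2) ≠ C c := by
  intro hc
  have h1 := congrArg (eval ![1, 1]) hc
  have h2 := congrArg (eval ![2, 2]) hc
  simp at h1 h2
  rw [← h1, ← pow_add] at h2
  have h3 : i + j ≠ 0 := by omega
  have h4 : (1 : ℝ) < 2 ^ (i + j) := one_lt_pow₀ (by norm_num) h3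
  linarith

/-- **Criterion for polynomials which are nondegenerate at infinity.** -/
theorem nd_iff {g : P2} (hU : ∃ P, 0 < eval P g)
    (hND : ∀ w : ℤ × ℤ, (0 < w.1 ∨ 0 < w.2) → PosDir g w ∨ NegDir g w) :
    StableQM g ↔ ∃ (w w' : ℤ × ℤ) (l l' : ℕ), PosDir g w ∧ PosDir g w' ∧
      0 < l * w.1 + l' * w'.1 ∧ 0 < l * w.2 + l' * w'.2 := by
  constructor
  · intro hs
    rcases nd_dichotomy hND with h | ⟨i, j, hij, B, hB⟩
    · exact h
    · exfalso
      obtain ⟨c, hc⟩ := onlyConst_of_stable hU hs (X 0 ^ i * X 1 ^ j) ⟨B, fun P hP => by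
        rw [map_mul, map_pow, map_pow, eval_X, eval_X]; exact hB P hP⟩
      exact mono_ne_C hij c hc
  · rintro ⟨w, w', l, l', hw, hw', h1, h2⟩
    exact stable_of_cone hw hw' h1 h2 hU

theorem nd_onlyConst {g : P2} (hU : ∃ P, 0 < eval P g)
    (hND : ∀ w : ℤ × ℤ, (0 < w.1 ∨ 0 < w.2) → PosDir g w ∨ NegDir g w) (hc : OnlyConst g) :
    StableQM g := by
  rcases nd_dichotomy hND with ⟨w, w', l, l', hw, hw', h1, h2⟩ | ⟨i, j, hij, B, hB⟩
  · exact stable_of_cone hw hw' h1 h2 hU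
  · exfalso
    obtain ⟨c, hc⟩ := hc (X 0 ^ i * X 1 ^ j) ⟨B, fun P hP => by
      rw [map_mul, map_pow, map_pow, eval_X, eval_X]; exact hB P hP⟩
    exact mono_ne_C hij c hc

/-! ### Automorphisms -/

lemma totalDegree_hom_le (φ : P2 →ₐ[ℝ] P2) {B : ℕ} (hB : ∀ i, (φ (X i)).totalDegree ≤ B) (f : P2) :
    (φ f).totalDegree ≤ B * f.totalDegree := by
  classical
  conv_lhs => rw [f.as_sum]
  rw [map_sum]
  refine (totalDegree_finsetSum_le ?_)
  intro m hm
  have h0 : φ (monomial m (coeff m f)) = C (coeff m f) * ∏ i, (φ (X i)) ^ m i := by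
    rw [monomial_eq, map_mul, Finsupp.prod_fintype _ _ (by simp), map_prod]
    congr 1
    · have := φ.commutes (coeff m f)
      rw [algebraMap_eq] at this
      exact this
    · refine Finset.prod_congr rfl fun i _ => ?_
      rw [map_pow]
  rw [h0]
  refine (totalDegree_mul _ _).trans ?_
  rw [totalDegree_C, zero_add]
  refine (totalDegree_finsetProd _ _).trans ?_
  have h2 : ∀ i ∈ (Finset.univ : Finset (Fin 2)), ((φ (X i)) ^ m i).totalDegree ≤ B * m i := by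
    intro i _
    refine (totalDegree_pow _ _).trans ?_
    rw [mul_comm B]
    exact Nat.mul_le_mul_left _ (hB i)
  refine (Finset.sum_le_sum h2).trans ?_
  rw [← Finset.mul_sum]
  apply Nat.mul_le_mul_left
  have := le_totalDegree hm
  rw [Finsupp.sum_fintype _ _ (by simp)] at this
  exact this

lemma exists_deg_bound (φ : P2 →ₐ[ℝ] P2) : ∃ B : ℕ, ∀ f : P2,
    (φ f).totalDegree ≤ B * f.totalDegree := by
  refine ⟨(φ (X 0)).totalDegree + (φ (X 1)).totalDegree, totalDegree_hom_le φ ?_⟩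
  intro i
  fin_cases i
  · exact Nat.le_add_right _ _
  · exact Nat.le_add_left _ _

/-- Stability is invariant under polynomial automorphisms. -/
theorem stable_of_equiv (φ : P2 ≃ₐ[ℝ] P2) {g : P2} (h : StableQM (φ g)) : StableQM g := by
  obtain ⟨ℓ, hℓ⟩ := h
  obtain ⟨B, hB⟩ := exists_deg_bound (φ : P2 →ₐ[ℝ] P2)
  obtain ⟨B', hB'⟩ := exists_deg_bound (φ.symm : P2 →ₐ[ℝ] P2)
  refine ⟨fun d => B' * ℓ (B * d), fun d f hf hd => ?_⟩
  have h1 : InQM (φ g) (φ f) := by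
    obtain ⟨σ, τ, hσ, hτ, rfl⟩ := hf
    exact ⟨φ σ, φ τ, isSumSq_map (φ : P2 →+* P2) hσ, isSumSq_map (φ : P2 →+* P2) hτ, by
      rw [map_add, map_mul]⟩
  obtain ⟨σ, τ, hσ, hτ, heq, d1, d2⟩ := hℓ (B * d) (φ f) h1
    ((hB f).trans (Nat.mul_le_mul_left B hd))
  refine ⟨φ.symm σ, φ.symm τ, isSumSq_map (φ.symm : P2 →+* P2) hσ,
    isSumSq_map (φ.symm : P2 →+* P2) hτ, ?_, ?_, ?_⟩
  · have := congrArg φ.symm heq
    rw [φ.symm_apply_apply, map_add, map_mul, φ.symm_apply_apply] at this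
    exact this
  · exact (hB' σ).trans (Nat.mul_le_mul_left B' d1)
  · have h2 := hB' (τ * φ g)
    have h3 : (φ.symm : P2 →ₐ[ℝ] P2) (τ * φ g) = φ.symm τ * g := by
      change φ.symm (τ * φ g) = _
      rw [map_mul, φ.symm_apply_apply]
    rw [h3] at h2
    exact h2.trans (Nat.mul_le_mul_left B' d2)

lemma eval_hom (φ : P2 →ₐ[ℝ] P2) (P : Fin 2 → ℝ) (f : P2) :
    eval P (φ f) = eval (fun i => eval P (φ (X i))) f := by
  have h : (eval P).comp (φ : P2 →+* P2) = eval (fun i => eval P (φ (X i))) := by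
    apply MvPolynomial.ringHom_ext
    · intro r
      have := φ.commutes r
      rw [algebraMap_eq] at this
      change eval P (φ (C r)) = _
      rw [this, eval_C, eval_C]
    · intro i
      simp
  exact congrArg (fun ψ : P2 →+* ℝ => ψ f) h

lemma nonempty_equiv (φ : P2 ≃ₐ[ℝ] P2) {g : P2} (hU : ∃ P, 0 < eval P g) :
    ∃ P, 0 < eval P (φ g) := by
  obtain ⟨P, hP⟩ := hU
  refine ⟨fun i => eval P (φ.symm (X i)), ?_⟩
  have := eval_hom (φ.symm : P2 →ₐ[ℝ] P2) P (φ g)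
  have h2 : (φ.symm : P2 →ₐ[ℝ] P2) (φ g) = g := φ.symm_apply_apply g
  rw [h2] at this
  change 0 < eval (fun i => eval P ((φ.symm : P2 →ₐ[ℝ] P2) (X i))) (φ g)
  rwa [← this]

lemma onlyConst_equiv (φ : P2 ≃ₐ[ℝ] P2) {g : P2} (h : OnlyConst g) : OnlyConst (φ g) := by
  rintro q ⟨B, hB⟩
  obtain ⟨c, hc⟩ := h (φ.symm q) ⟨B, fun P hP => by
    have h1 := eval_hom (φ.symm : P2 →ₐ[ℝ] P2) P (φ g)
    have h2 : (φ.symm : P2 →ₐ[ℝ] P2) (φ g) = g := φ.symm_apply_apply g
    rw [h2] at h1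
    have h3 := eval_hom (φ.symm : P2 →ₐ[ℝ] P2) P q
    change |eval P ((φ.symm : P2 →ₐ[ℝ] P2) q)| ≤ B
    rw [h3]
    apply hB
    rwa [← h1]⟩
  refine ⟨c, ?_⟩
  have := congrArg φ hc
  rw [φ.apply_symm_apply] at this
  rw [this]
  have h4 := φ.commutes c
  rw [algebraMap_eq] at h4
  exact h4

end Pool.Agent.H685_stab
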