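import Pool.Agent.H685_stab.Core

/-!
Existence of a uniformizer in a finite extension of `ℝ(x)` inside an ordered field.
-/

set_option linter.unusedSectionVars false

namespace Pool.Agent.H685_stab

open Polynomial

section Disc

variable {R : Type} [Field R] [LinearOrder R] [IsStrictOrderedRing R] [Algebra ℝ R]

lemma Uni.neg {w : R} (h : Uni w) : Uni (-w) :=
  ⟨neg_ne_zero.mpr h.1, h.2.1.neg, by rw [inv_neg]; exact h.2.2.neg⟩

lemma val_adjoin {x : R} (hx : Infl x) (hx0 : x ≠ 0) {z : R}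
    (hz : z ∈ IntermediateField.adjoin ℝ {x}) (hz0 : z ≠ 0) : ∃ k : ℤ, Uni (z * x ^ k) := by
  obtain ⟨r, s, rfl⟩ := (IntermediateField.mem_adjoin_simple_iff ℝ z).mp hz
  have hr : r ≠ 0 := by
    rintro rfl
    simp at hz0
  have hs : s ≠ 0 := by
    rintro rfl
    simp at hz0
  obtain ⟨k, hk⟩ := uni_aeval hx hx0 hr
  obtain ⟨l, hl⟩ := uni_aeval hx hx0 hs
  refine ⟨(l : ℤ) - k, ?_⟩
  have := hk.mul hl.inv
  convert this using 1
  rw [zpow_sub₀ hx0, zpow_natCast, zpow_natCast, mul_inv, inv_inv]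
  field_simp

lemma val_alg {F : IntermediateField ℝ R} {x : R} (hx0 : x ≠ 0)
    (hF : ∀ z ∈ F, z ≠ 0 → ∃ k : ℤ, Uni (z * x ^ k)) {w : R} (hw0 : w ≠ 0)
    {p : F[X]} (hp : p ≠ 0) (hpw : aeval w p = 0) :
    ∃ n, 0 < n ∧ n ≤ p.natDegree ∧ ∃ m : ℤ, Uni (w ^ n * x ^ m) := by
  set T : ℕ → R := fun j => ((p.coeff j : F) : R) * w ^ j with hT
  have hsum : ∑ j ∈ p.support, T j = 0 := by
    rw [aeval_def, eval₂_eq_sum, Polynomial.sum] at hpw
    exact hpw
  have hTne : ∀ j ∈ p.support, T j ≠ 0 := by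
    intro j hj
    rw [mem_support_iff] at hj
    have : ((p.coeff j : F) : R) ≠ 0 := by exact_mod_cast hj
    exact mul_ne_zero this (pow_ne_zero _ hw0)
  have hne : p.support.Nonempty := support_nonempty.mpr hp
  obtain ⟨j, hj, hjmax⟩ := Finset.exists_max_image p.support (fun j => |T j|) hne
  have herase : ∑ k ∈ p.support.erase j, T k = - T j := by
    have := Finset.add_sum_erase p.support T hj
    rw [hsum] at this
    linear_combination this
  have hne2 : (p.support.erase j).Nonempty := by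
    rw [Finset.nonempty_iff_ne_empty]
    intro h
    rw [h, Finset.sum_empty] at herase
    exact hTne j hj (neg_eq_zero.mp herase.symm)
  obtain ⟨k, hk, hkmax⟩ := Finset.exists_max_image (p.support.erase j) (fun j => |T j|) hne2
  have hkj : k ≠ j := Finset.ne_of_mem_erase hk
  have hks : k ∈ p.support := Finset.mem_of_mem_erase hk
  have hTj := hTne j hj
  have hTk := hTne k hks
  have hTj' : 0 < |T j| := abs_pos.mpr hTj
  have hTk' : 0 < |T k| := abs_pos.mpr hTk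
  have hbound : |T j| ≤ ((p.support.erase j).card : R) * |T k| := by
    have h1 : |T j| = |∑ k ∈ p.support.erase j, T k| := by rw [herase, abs_neg]
    rw [h1]
    refine (Finset.abs_sum_le_sum_abs _ _).trans ?_
    refine (Finset.sum_le_card_nsmul _ _ _ hkmax).trans ?_
    rw [nsmul_eq_mul]
  have huni : Uni (T j / T k) := by
    refine ⟨div_ne_zero hTj hTk, ⟨(p.support.erase j).card, ?_⟩, ⟨1, ?_⟩⟩
    · rw [abs_div, map_natCast, div_le_iff₀ hTk']
      exact hbound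
    · rw [inv_div, abs_div, map_one, div_le_one hTj']
      exact hjmax k hks
  have haj : ((p.coeff j : F) : R) ≠ 0 := by
    have := mem_support_iff.mp hj
    exact_mod_cast this
  have hak : ((p.coeff k : F) : R) ≠ 0 := by
    have := mem_support_iff.mp hks
    exact_mod_cast this
  obtain ⟨κ, hκ⟩ := hF _ (p.coeff j).2 haj
  obtain ⟨μ, hμ⟩ := hF _ (p.coeff k).2 hak
  have hmain : Uni (w ^ ((j : ℤ) - k) * x ^ (μ - κ)) := by
    have := (huni.mul hμ).mul hκ.inv
    convert this using 1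
    rw [hT]
    simp only
    rw [zpow_sub₀ hw0, zpow_sub₀ hx0, zpow_natCast, zpow_natCast, mul_inv]
    field_simp
  have hjd : j ≤ p.natDegree := le_natDegree_of_mem_supp j hj
  have hkd : k ≤ p.natDegree := le_natDegree_of_mem_supp k hks
  rcases lt_or_gt_of_ne hkj with h | h
  · refine ⟨j - k, by omega, by omega, μ - κ, ?_⟩
    have e : ((j - k : ℕ) : ℤ) = (j : ℤ) - k := by omega
    rw [← zpow_natCast, e]
    exact hmain
  · refine ⟨k - j, by omega, by omega, κ - μ, ?_⟩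
    have e : ((k - j : ℕ) : ℤ) = (k : ℤ) - j := by omega
    rw [← zpow_natCast, e]
    have := hmain.inv
    convert this using 1
    rw [mul_inv, ← zpow_neg, ← zpow_neg, neg_sub, neg_sub]

lemma bdd_zpow {t : R} (ht : Bdd t) {k : ℤ} (hk : 0 ≤ k) : Bdd (t ^ k) := by
  obtain ⟨n, rfl⟩ := Int.eq_ofNat_of_zero_le hk
  rw [zpow_natCast]
  exact ht.pow n

lemma exists_unif {x : R} (hx : Infl x) (hx0 : x ≠ 0) {E : IntermediateField ℝ R}
    (hxE : x ∈ E) (d : ℕ)
    (hE : ∀ w ∈ E, w ≠ 0 → ∃ n, 0 < n ∧ n ≤ d ∧ ∃ m : ℤ, Uni (w ^ n * x ^ m)) :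
    ∃ t, Unif E t := by
  classical
  set D := d.factorial with hD
  have hD0 : 0 < D := Nat.factorial_pos d
  have hV : ∀ w ∈ E, w ≠ 0 → ∃ m : ℤ, Uni (w ^ D * x ^ (-m)) := by
    intro w hw hw0
    obtain ⟨n, hn, hnd, m, hm⟩ := hE w hw hw0
    obtain ⟨e, he⟩ : n ∣ D := Nat.dvd_factorial hn hnd
    refine ⟨-(m * e), ?_⟩
    have := hm.pow e
    convert this using 1
    rw [he, mul_pow, neg_neg, zpow_mul, zpow_natCast, pow_mul]
  have hex : ∃ m : ℕ, 0 < m ∧ ∃ w ∈ E, w ≠ 0 ∧ Uni (w ^ D * x ^ (-(m : ℤ))) := by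
    refine ⟨D, hD0, x, hxE, hx0, ?_⟩
    have : x ^ D * x ^ (-(D : ℤ)) = 1 := by
      rw [zpow_neg, zpow_natCast, mul_inv_cancel₀ (pow_ne_zero _ hx0)]
    rw [this]
    exact Uni.one
  set m₀ := Nat.find hex with hm₀
  obtain ⟨hm0, t₀, ht₀E, ht₀0, ht₀V⟩ := Nat.find_spec hex
  rw [← hm₀] at hm0 ht₀V
  have hmin : ∀ m : ℕ, 0 < m → m < m₀ → ∀ w ∈ E, w ≠ 0 → ¬ Uni (w ^ D * x ^ (-(m : ℤ))) := by
    intro m h1 h2 w hw hw0 hu
    exact Nat.find_min hex h2 ⟨h1, w, hw, hw0, hu⟩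
  -- make it positive
  obtain ⟨t, htE, htpos, htV⟩ : ∃ t ∈ E, 0 < t ∧ Uni (t ^ D * x ^ (-(m₀ : ℤ))) := by
    rcases lt_or_gt_of_ne ht₀0 with h | h
    · refine ⟨-t₀, E.neg_mem ht₀E, by linarith, ?_⟩
      rcases Nat.even_or_odd D with hev | hodd
      · rw [hev.neg_pow]; exact ht₀V
      · rw [hodd.neg_pow, neg_mul]; exact ht₀V.neg
    · exact ⟨t₀, ht₀E, h, ht₀V⟩
  have ht0 : t ≠ 0 := htpos.ne'
  have htI : Infl t := by
    apply Infl.of_pow (n := D)
    have : t ^ D = (t ^ D * x ^ (-(m₀ : ℤ))) * x ^ m₀ := by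
      rw [zpow_neg, zpow_natCast]
      field_simp
    rw [this]
    exact htV.2.1.mul_infl (hx.pow hm0)
  have hP : ∀ w ∈ E, w ≠ 0 → ∃ q : ℤ, Uni (w * t ^ (-q)) := by
    intro w hw hw0
    obtain ⟨m, hm⟩ := hV w hw hw0
    set q := m / (m₀ : ℤ) with hq
    set r := m % (m₀ : ℤ) with hr
    have hm0' : (0 : ℤ) < m₀ := by exact_mod_cast hm0
    have hr0 : 0 ≤ r := Int.emod_nonneg _ hm0'.ne'
    have hr1 : r < m₀ := Int.emod_lt_of_pos _ hm0'
    have hmr : m = m₀ * q + r := (Int.mul_ediv_add_emod m m₀).symm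
    refine ⟨q, ?_⟩
    have hw' : w * t ^ (-q) ∈ E := E.mul_mem hw (zpow_mem htE _)
    have hw'0 : w * t ^ (-q) ≠ 0 := mul_ne_zero hw0 (zpow_ne_zero _ ht0)
    have hVr : Uni ((w * t ^ (-q)) ^ D * x ^ (-r)) := by
      have := hm.mul (htV.zpow (-q))
      convert this using 1
      have e1 : -r = -m + (-(m₀ : ℤ)) * (-q) := by rw [hmr]; ring
      rw [e1, zpow_add₀ hx0, zpow_mul, mul_pow, mul_zpow, ← zpow_natCast (t ^ (-q)),
        ← zpow_mul, mul_comm (-q) (D : ℤ), zpow_mul, zpow_natCast]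
      ring
    have hrz : r = 0 := by
      by_contra hrne
      obtain ⟨r', hr'⟩ := Int.eq_ofNat_of_zero_le hr0
      rw [hr'] at hVr hrne hr1
      exact hmin r' (by omega) (by omega) _ hw' hw'0 hVr
    rw [hrz, neg_zero, zpow_zero, mul_one] at hVr
    exact hVr.of_pow hD0
  refine ⟨t, htE, htpos, htI, ?_, ?_⟩
  · intro w hw hwI
    by_cases hw0 : w = 0
    · rw [hw0, zero_div]; exact Bdd.zero
    · obtain ⟨q, hq⟩ := hP w hw hw0
      by_cases hq1 : 1 ≤ q
      · have : w / t = (w * t ^ (-q)) * t ^ (q - 1) := by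
          rw [mul_assoc, ← zpow_add₀ ht0]
          have : -q + (q - 1) = -1 := by ring
          rw [this, zpow_neg_one, div_eq_mul_inv]
        rw [this]
        exact hq.2.1.mul (bdd_zpow htI.bdd (by omega))
      · exfalso
        exact hq.not_infl (hwI.mul_bdd (bdd_zpow htI.bdd (by omega)))
  · intro w hw
    by_cases hw0 : w = 0
    · exact ⟨0, by rw [hw0, mul_zero]; exact Bdd.zero⟩
    · obtain ⟨q, hq⟩ := hP w hw hw0
      refine ⟨q.natAbs, ?_⟩
      have : t ^ q.natAbs * w = (w * t ^ (-q)) * t ^ ((q.natAbs : ℤ) + q) := by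
        rw [zpow_add₀ ht0, zpow_neg, zpow_natCast]
        field_simp
      rw [this]
      exact hq.2.1.mul (bdd_zpow htI.bdd (by omega))

end Disc

end Pool.Agent.H685_stab
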