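import Pool.Agent.H685_stab.Conv
import Pool.Agent.H685_stab.Local

/-!
The exceptional example: no nonconstant polynomial is bounded on the set, but the quadratic
module is not stable.
-/

set_option linter.unusedSectionVars false
set_option linter.unusedSimpArgs false

namespace Pool.Agent.H685_stab

open MvPolynomial Filter Topology

lemma An_deg {n : ℕ} {f : P2} (hf : f ∈ An n) : f.totalDegree ≤ 3 * n := by
  have hpow : ∀ (f : P2) (n b : ℕ), f.totalDegree ≤ b → (f ^ n).totalDegree ≤ n * b := by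
    intro f n b hf
    exact (totalDegree_pow f n).trans (Nat.mul_le_mul_left n hf)
  have hx : vx.totalDegree ≤ 1 := by rw [totalDegree_X]
  have hy : vy.totalDegree ≤ 1 := by rw [totalDegree_X]
  have hc : pc.totalDegree ≤ 3 := by
    rw [pc]
    refine (totalDegree_mul _ _).trans ?_
    have h1 := totalDegree_mul vx vy
    have h2 := totalDegree_sub vx vy
    have h3 : max vx.totalDegree vy.totalDegree ≤ 1 := max_le hx hy
    omega
  refine Submodule.span_induction (p := fun f _ => f.totalDegree ≤ 3 * n) ?_ ?_ ?_ ?_ hf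
  · rintro f ⟨i, j, k, hijk, rfl⟩
    refine (totalDegree_mul _ _).trans ?_
    have h1 := totalDegree_mul (vx ^ i) (vy ^ j)
    have h2 := hpow vx i 1 hx
    have h3 := hpow vy j 1 hy
    have h4 := hpow pc k 3 hc
    omega
  · rw [totalDegree_zero]; omega
  · rintro f g _ _ hf hg
    exact (totalDegree_add _ _).trans (max_le hf hg)
  · rintro c f _ hf
    exact (totalDegree_smul_le c f).trans hf

lemma An_pow_le {n : ℕ} {f : P2} (hf : f ∈ An n) (k : ℕ) {m : ℕ} (h : k * n ≤ m) :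
    f ^ k ∈ An m := An_mono h (An_pow hf k)

lemma An_mul_le {n m k : ℕ} {f g : P2} (hf : f ∈ An n) (hg : g ∈ An m) (h : n + m ≤ k) :
    f * g ∈ An k := An_mono h (An_mul hf hg)

lemma C_An (c : ℝ) (n : ℕ) : (C c : P2) ∈ An n := by
  have : (C c : P2) = c • 1 := by rw [smul_eq_C_mul, mul_one]
  rw [this]; exact Submodule.smul_mem _ _ (one_mem_An n)

lemma QQ_An : QQ ∈ An 2 := by
  rw [QQ]
  exact add_mem (add_mem (add_mem (one_mem_An 2) (An_pow_le pa_mem_An 2 (by norm_num)))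
    (An_pow_le pb_mem_An 2 (by norm_num))) (An_pow_le pc_mem_An 2 (by norm_num))

lemma ff_An (ε δ c1 c2 : ℝ) : ff ε δ c1 c2 ∈ An 10 := by
  have hA : ∀ k, k ≤ 10 → pa ^ k ∈ An k := fun k _ => An_pow_le pa_mem_An k (by omega)
  have hB : ∀ k m, k ≤ m → pb ^ k ∈ An m := fun k m h => An_pow_le pb_mem_An k (by omega)
  have hD : ∀ k m, k ≤ m → pc ^ k ∈ An m := fun k m h => An_pow_le pc_mem_An k (by omega)
  rw [ff, F1, F2]
  refine add_mem (add_mem (C_mul_An _ (An_mono (by norm_num) (hA 4 (by norm_num))))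
    (C_mul_An _ (add_mem (add_mem (add_mem ?_ (hB 6 10 (by norm_num))) (hD 6 10 (by norm_num)))
      (C_mul_An _ (An_pow_le QQ_An 2 (by norm_num)))))) (add_mem (add_mem (add_mem ?_
        (hB 8 10 (by norm_num))) (hD 8 10 (by norm_num)))
          (C_mul_An _ (An_pow_le QQ_An 3 (by norm_num))))
  · refine An_mul_le (hA 6 (by norm_num)) (m := 4) ?_ (by norm_num)
    exact add_mem (sub_mem (C_mul_An _ (hB 4 4 le_rfl)) (C_mul_An _ (hB 2 4 (by norm_num))))
      (C_An _ _)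
  · refine An_mul_le (hA 8 (by norm_num)) (m := 2) ?_ (by norm_num)
    exact add_mem (C_mul_An _ (hB 2 2 le_rfl)) (C_An _ _)

lemma jj_Gr (P : P2) : jj P ∈ Gr 0 := by
  classical
  rw [P.as_sum, map_sum]
  apply sum_mem
  intro m _
  rw [jj_monomial]
  apply Submodule.smul_mem
  exact mon_mem_Gr (by simp)

lemma ff_Gr (ε δ c1 c2 : ℝ) : ph 0 (ff ε δ c1 c2) ∈ Gr 8 := by
  have h1 := jj_Gr (fp ε δ c1 c2)
  rw [jj_fp] at h1
  have h2 : ph 0 (ff ε δ c1 c2) = mon (-8) 0 * (mon 1 0 ^ 8 * ph 0 (ff ε δ c1 c2)) := by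
    rw [← mul_assoc, mon_pow, mon_mul]
    norm_num
    rw [mon_zero, one_mul]
  rw [h2]
  exact Gr_mul' (mon_mem_Gr (n := 8) (by norm_num)) h1 (by norm_num)

/-- Rescaling of the two variables. -/
noncomputable def scal (a : Fin 2 → ℝ) : P2 →ₐ[ℝ] P2 := aeval (fun i => C (a i) * X i)

lemma eval_scal (a : Fin 2 → ℝ) (f : P2) (z : Fin 2 → ℝ) :
    eval z (scal a f) = eval (fun i => a i * z i) f := by
  have h : (eval z).comp (scal a : P2 →+* P2) = eval (fun i => a i * z i) := by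
    apply MvPolynomial.ringHom_ext
    · intro r
      simp [scal]
    · intro i
      simp [scal]
  exact congrArg (fun φ : P2 →+* ℝ => φ f) h

lemma totalDegree_scal_le (a : Fin 2 → ℝ) (f : P2) : (scal a f).totalDegree ≤ f.totalDegree := by
  classical
  conv_lhs => rw [f.as_sum]
  rw [map_sum]
  refine (totalDegree_finsetSum_le ?_)
  intro m hm
  rw [scal, aeval_monomial]
  refine (totalDegree_mul _ _).trans ?_
  have h1 : (algebraMap ℝ P2 (coeff m f)).totalDegree = 0 := by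
    rw [algebraMap_eq]; exact totalDegree_C _
  rw [h1, zero_add, Finsupp.prod]
  refine (totalDegree_finsetProd _ _).trans ?_
  have h2 : ∀ i ∈ m.support, ((C (a i) * X i : P2) ^ m i).totalDegree ≤ m i := by
    intro i _
    refine (totalDegree_pow _ _).trans ?_
    have h3 : (C (a i) * X i : P2).totalDegree ≤ 1 := by
      refine (totalDegree_mul _ _).trans ?_
      rw [totalDegree_C, totalDegree_X]
    calc m i * (C (a i) * X i : P2).totalDegree ≤ m i * 1 := Nat.mul_le_mul_left _ h3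
      _ = m i := by ring
  refine (Finset.sum_le_sum h2).trans ?_
  exact le_totalDegree hm

lemma gx_ne : gx ≠ 0 := by
  intro h
  have h1 := (gx_lead 0).2
  rw [h, map_zero, map_zero] at h1
  have h2 := congrArg (Polynomial.eval 0) h1
  simp at h2

/-- The values of `τ a`. -/
noncomputable def va (u t : ℝ) : ℝ := 1 + t * u - t ^ 4 * u ^ 2

/-- The values of `c`. -/
noncomputable def vc (u t : ℝ) : ℝ := t ^ 3 * u ^ 2 - u

/-- The values of `b / ε`. -/
noncomputable def vb (ε s t : ℝ) : ℝ := s + t ^ 2 * s - t ^ 3 * (ε * s ^ 2)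

/-- The values of `τ² Q`. -/
noncomputable def vq (ε u s t : ℝ) : ℝ :=
  t ^ 2 + va u t ^ 2 + t ^ 2 * (ε * vb ε s t) ^ 2 + t ^ 2 * vc u t ^ 2

/-- The values of `τ⁸ f` after rescaling. -/
noncomputable def vH (S R : ℝ) (p : ℝ × ℝ × ℝ × ℝ) : ℝ :=
  R ^ 4 * va (p.1 * S) (p.2.1 * R) ^ 4
  + (R ^ 2 * (va (p.1 * S) (p.2.1 * R) ^ 6 * (vb p.1 S (p.2.1 * R) ^ 4
        - 3 * vb p.1 S (p.2.1 * R) ^ 2 + 1 / 2))
      + p.2.1 ^ 6 * R ^ 8 * (p.1 * vb p.1 S (p.2.1 * R)) ^ 6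
      + p.2.1 ^ 6 * R ^ 8 * vc (p.1 * S) (p.2.1 * R) ^ 6
      + p.2.2.1 * (R ^ 4 * vq p.1 (p.1 * S) S (p.2.1 * R) ^ 2))
  + (va (p.1 * S) (p.2.1 * R) ^ 8 * (vb p.1 S (p.2.1 * R) ^ 2 + 1 / 4)
      + p.2.1 ^ 8 * R ^ 8 * (p.1 * vb p.1 S (p.2.1 * R)) ^ 8
      + p.2.1 ^ 8 * R ^ 8 * vc (p.1 * S) (p.2.1 * R) ^ 8
      + p.2.2.2 * (R ^ 2 * vq p.1 (p.1 * S) S (p.2.1 * R) ^ 3))

lemma vH_zero (S R : ℝ) : vH S R (0, 0, 0, 0)
    = S ^ 2 + 1 / 4 + (S ^ 4 - 3 * S ^ 2 + 1 / 2) * R ^ 2 + R ^ 4 := by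
  simp only [vH, va, vb, vc, vq]
  ring

lemma vH_cont (S R : ℝ) : Continuous (vH S R) := by
  unfold vH vq va vb vc
  fun_prop

lemma eval_fp {ε δ : ℝ} (hε : ε ≠ 0) (hδ : δ ≠ 0) (c1 c2 : ℝ) (z : Fin 2 → ℝ) :
    eval (fun i => (![ε, δ] : Fin 2 → ℝ) i * z i) (fp ε δ c1 c2)
      = vH (z 0) (z 1) (ε, δ, c1 * δ ^ 2, c2 * δ ^ 2) := by
  have ea : eval (fun i => (![ε, δ] : Fin 2 → ℝ) i * z i) a' = va (ε * z 0) (δ * z 1) := by
    simp [a', va]
  have eb : eval (fun i => (![ε, δ] : Fin 2 → ℝ) i * z i) b' = ε * vb ε (z 0) (δ * z 1) := by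
    simp [b', vb]; ring
  have ec : eval (fun i => (![ε, δ] : Fin 2 → ℝ) i * z i) c' = vc (ε * z 0) (δ * z 1) := by
    simp [c', vc]
  have e1 : eval (fun i => (![ε, δ] : Fin 2 → ℝ) i * z i) (X 1 : P2) = δ * z 1 := by simp
  have eq : eval (fun i => (![ε, δ] : Fin 2 → ℝ) i * z i) q'
      = vq ε (ε * z 0) (z 0) (δ * z 1) := by
    rw [q', vq]
    simp only [map_add, map_mul, map_pow, ea, eb, ec, e1]
  rw [fp, vH]
  simp only [map_add, map_sub, map_mul, map_pow, ea, eb, ec, e1, eq, eval_C]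
  field_simp

lemma eval_gp (z : Fin 2 → ℝ) {ε δ : ℕ → ℝ} (hε : Tendsto ε atTop (𝓝 0))
    (hδ : Tendsto δ atTop (𝓝 0)) :
    Tendsto (fun n => eval (fun i => (![ε n, δ n] : Fin 2 → ℝ) i * z i) gp) atTop (𝓝 2) := by
  have h1 : Continuous (fun w : Fin 2 → ℝ => eval w gp) := MvPolynomial.continuous_eval gp
  have h2 : Tendsto (fun n => (fun i => (![ε n, δ n] : Fin 2 → ℝ) i * z i)) atTop
      (𝓝 (0 : Fin 2 → ℝ)) := by
    rw [tendsto_pi_nhds]
    intro i
    fin_cases i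
    · have := hε.mul_const (z 0)
      rw [zero_mul] at this
      exact this
    · have := hδ.mul_const (z 1)
      rw [zero_mul] at this
      exact this
  have h3 := (h1.tendsto 0).comp h2
  have h4 : eval (0 : Fin 2 → ℝ) gp = 2 := by
    simp [gp, q', a', b', c']
    exact map_ofNat _ 2
  rw [h4] at h3
  exact h3

/-- **The quadratic module generated by `gx` is not stable.** -/
theorem gx_not_stable : ¬ StableQM gx := by
  rintro ⟨ℓ, hℓ⟩
  let ε : ℕ → ℝ := fun n => 1 / ((n : ℝ) + 1)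
  have hε : ∀ n, 0 < ε n := fun n => by positivity
  have hε0 : Tendsto ε atTop (𝓝 0) := tendsto_one_div_add_atTop_nhds_zero_nat
  choose c1 c2 hfam using fun n => family (hε n)
  let δ : ℕ → ℝ := fun n => ε n / (1 + |c1 n| + |c2 n|)
  have hden : ∀ n, 0 < 1 + |c1 n| + |c2 n| := fun n => by positivity
  have hδ : ∀ n, 0 < δ n := fun n => div_pos (hε n) (hden n)
  have hδε : ∀ n, δ n ≤ ε n := by
    intro n
    apply div_le_self (hε n).le
    have := abs_nonneg (c1 n)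
    have := abs_nonneg (c2 n)
    linarith
  have hδ0 : Tendsto δ atTop (𝓝 0) :=
    squeeze_zero (fun n => (hδ n).le) hδε hε0
  have hε1 : ∀ n, ε n ≤ 1 := by
    intro n
    change 1 / ((n : ℝ) + 1) ≤ 1
    rw [div_le_one (by positivity)]
    have : (0 : ℝ) ≤ n := Nat.cast_nonneg n
    linarith
  have hk : ∀ (c : ℕ → ℝ), (∀ n, |c n| ≤ 1 + |c1 n| + |c2 n|) →
      Tendsto (fun n => c n * δ n ^ 2) atTop (𝓝 0) := by
    intro c hc
    apply squeeze_zero_norm _ hδ0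
    intro n
    rw [Real.norm_eq_abs, abs_mul, abs_of_pos (pow_pos (hδ n) 2)]
    have h1 : |c n| * δ n ≤ 1 := by
      have h2 : |c n| * δ n ≤ (1 + |c1 n| + |c2 n|) * δ n :=
        mul_le_mul_of_nonneg_right (hc n) (hδ n).le
      have h3 : (1 + |c1 n| + |c2 n|) * δ n = ε n := by
        change (1 + |c1 n| + |c2 n|) * (ε n / (1 + |c1 n| + |c2 n|)) = ε n
        field_simp
      linarith [hε1 n]
    have h4 : |c n| * δ n ^ 2 = (|c n| * δ n) * δ n := by ring
    rw [h4]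
    calc (|c n| * δ n) * δ n ≤ 1 * δ n := mul_le_mul_of_nonneg_right h1 (hδ n).le
      _ = δ n := one_mul _
  have hk1 := hk c1 (fun n => by have := abs_nonneg (c2 n); linarith)
  have hk2 := hk c2 (fun n => by have := abs_nonneg (c1 n); linarith)
  let f : ℕ → P2 := fun n => ff (ε n) (δ n) (c1 n) (c2 n)
  have hf : ∀ n, InQM gx (f n) := fun n => hfam n (δ n) (hδ n)
  have hfd : ∀ n, (f n).totalDegree ≤ 30 := fun n => An_deg (ff_An _ _ _ _)
  choose σ τ hσ hτ heq dσ dτ using fun n => hℓ 30 (f n) (hf n) (hfd n)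
  have dτ' : ∀ n, (τ n).totalDegree ≤ ℓ 30 := by
    intro n
    by_cases h0 : τ n = 0
    · rw [h0]; simp
    · have := dτ n
      rw [totalDegree_mul_of_isDomain h0 gx_ne] at this
      omega
  have hrep : ∀ n, ph 0 (σ n) ∈ Gr 8 ∧ ph 0 (τ n) ∈ Gr (8 - 2) := by
    intro n
    apply rep_Gr 0 (isSumSq_ph 0 (hσ n)) (isSumSq_ph 0 (hτ n)) (ff_Gr (ε n) (δ n) (c1 n) (c2 n))
    rw [← map_mul, ← map_add, ← heq n]
  choose S hS hSe using fun n => jj_sos 4 (hσ n) (by
    have := (hrep n).1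
    exact this)
  choose T hT hTe using fun n => jj_sos 3 (hτ n) (by
    have := (hrep n).2
    exact this)
  have hpoly : ∀ n, fp (ε n) (δ n) (c1 n) (c2 n) = S n + T n * gp := by
    intro n
    apply jj_inj
    rw [jj_fp, map_add, map_mul, hSe, hTe, jj_gp]
    have h1 : ph 0 (ff (ε n) (δ n) (c1 n) (c2 n)) = ph 0 (σ n) + ph 0 (τ n) * ph 0 gx := by
      rw [← map_mul, ← map_add, ← heq n]
    have h4 : mon ((4 : ℕ) : ℤ) 0 = mon 1 0 ^ 4 := by rw [mon_pow]; norm_num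
    have h3 : mon ((3 : ℕ) : ℤ) 0 = mon 1 0 ^ 3 := by rw [mon_pow]; norm_num
    rw [h1, h4, h3]
    ring
  have dS : ∀ n, (S n).totalDegree ≤ 3 * ℓ 30 + 2 * 4 := fun n => jj_deg (dσ n) (hSe n)
  have dT : ∀ n, (T n).totalDegree ≤ 3 * ℓ 30 + 2 * 3 := fun n => jj_deg (dτ' n) (hTe n)
  obtain ⟨A, B, hAB⟩ := limit_sos (k := 3 * ℓ 30 + 8)
    (σ := fun n => scal ![ε n, δ n] (S n))
    (τ := fun n => scal ![ε n, δ n] (T n))
    (G := fun n z => eval (fun i => (![ε n, δ n] : Fin 2 → ℝ) i * z i) gp)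
    (H := fun n z => vH (z 0) (z 1) (ε n, δ n, c1 n * δ n ^ 2, c2 n * δ n ^ 2))
    (c := 2) (by norm_num)
    (H₀ := fun z => (z 0) ^ 2 + 1 / 4 + ((z 0) ^ 4 - 3 * (z 0) ^ 2 + 1 / 2) * (z 1) ^ 2
      + (z 1) ^ 4)
    (fun n => isSumSq_map (scal ![ε n, δ n]).toRingHom (hS n))
    (fun n => isSumSq_map (scal ![ε n, δ n]).toRingHom (hT n))
    (fun n => (totalDegree_scal_le _ _).trans ((dS n).trans (by omega)))
    (fun n => (totalDegree_scal_le _ _).trans ((dT n).trans (by omega)))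
    (by
      intro n z
      rw [← eval_fp (hε n).ne' (hδ n).ne', eval_scal, eval_scal, hpoly n, map_add, map_mul])
    (fun z => eval_gp z hε0 hδ0)
    (by
      intro z
      have h1 := ((vH_cont (z 0) (z 1)).tendsto (0, 0, 0, 0)).comp
        (hε0.prodMk_nhds (hδ0.prodMk_nhds (hk1.prodMk_nhds hk2)))
      rw [vH_zero] at h1
      exact h1)
  let Z : Fin 2 → Polynomial (Polynomial ℝ) := ![Polynomial.C Polynomial.X, Polynomial.X]
  let F : (Ix (3 * ℓ 30 + 8) → ℝ) → ℝ → Polynomial (Polynomial ℝ) := fun c b =>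
    Polynomial.C (Polynomial.C b) *
      ∑ m : Ix (3 * ℓ 30 + 8), Polynomial.C (Polynomial.C (c m))
        * (Z 0 ^ (m.1 : ℕ) * Z 1 ^ (m.2 : ℕ))
  have hF : ∀ c b s t, Polynomial.evalEval s t (F c b)
      = b * val c (fun l => Polynomial.evalEval s t (Z l)) := by
    intro c b s t
    simp only [F, val, Polynomial.evalEval_mul, Polynomial.evalEval_finsetSum,
      Polynomial.evalEval_pow, Polynomial.evalEval_C, Polynomial.eval_C]
  apply not_sos_CL (ι := Ix (3 * ℓ 30 + 8) ⊕ Ix (3 * ℓ 30 + 8))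
    (Sum.elim (fun r => F (A r) 1) (fun r => F (B r) (Real.sqrt 2)))
  intro s t
  rw [Fintype.sum_sum_type]
  simp only [Sum.elim_inl, Sum.elim_inr, hF]
  set z : Fin 2 → ℝ := fun l => Polynomial.evalEval s t (Z l) with hz
  have hz0 : z 0 = s := by
    simp [hz, Z, Polynomial.evalEval_C]
  have hz1 : z 1 = t := by
    simp [hz, Z, Polynomial.evalEval_X]
  have key := hAB z
  simp only [hz0, hz1] at key
  have hsq : Real.sqrt 2 ^ 2 = 2 := Real.sq_sqrt (by norm_num)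
  have e3 : ∑ r, (Real.sqrt 2 * val (B r) z) ^ 2 = 2 * ∑ r, (val (B r) z) ^ 2 := by
    rw [Finset.mul_sum]
    refine Finset.sum_congr rfl fun r _ => ?_
    rw [mul_pow, hsq]
  simp only [one_mul]
  rw [e3, ← key]

end Pool.Agent.H685_stab
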