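import Pool.Agent.H685_stab.Growth

/-!
Boundedness along the tentacles controls the order of growth.
-/

set_option linter.unusedSectionVars false

namespace Pool.Agent.H685_stab

open Filter Topology

/-- Evaluation, as a plain function. -/
noncomputable def evS (u τ : ℝ) (F : Lr) : ℝ :=
  ∑ q ∈ F.coeff.support, F.coeff q * (τ ^ q.1 * u ^ q.2)

lemma evS_eq {u τ : ℝ} (hτ : τ ≠ 0) (F : Lr) : evS u τ F = evL u τ hτ F := (evL_eq_sum u τ hτ F).symm

lemma evS_mul {u τ : ℝ} (hτ : τ ≠ 0) (F G : Lr) : evS u τ (F * G) = evS u τ F * evS u τ G := by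
  rw [evS_eq hτ, evS_eq hτ, evS_eq hτ, map_mul]

lemma evS_add {u τ : ℝ} (hτ : τ ≠ 0) (F G : Lr) : evS u τ (F + G) = evS u τ F + evS u τ G := by
  rw [evS_eq hτ, evS_eq hτ, evS_eq hτ, map_add]

lemma evS_sos {u τ : ℝ} (hτ : τ ≠ 0) {F : Lr} (hF : IsSumSq F) : 0 ≤ evS u τ F := by
  rw [evS_eq hτ]
  induction hF with
  | zero => rw [map_zero]
  | sq_add a _ ih =>
    rw [map_add, map_mul]
    exact add_nonneg (mul_self_nonneg _) ih

lemma tendsto_evS {m : ℤ} {F : Lr} (hF : F ∈ Gr m) (u : ℝ) :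
    Tendsto (fun τ : ℝ => τ ^ m * evS u τ F) (𝓝[>] 0) (𝓝 ((lead m F).eval u)) := by
  have h1 : ∀ q ∈ F.coeff.support, Tendsto (fun τ : ℝ => F.coeff q * (τ ^ (m + q.1) * u ^ q.2))
      (𝓝[>] 0) (𝓝 (F.coeff q * ((if q.1 = -m then 1 else 0) * u ^ q.2))) := by
    intro q hq
    have h2 := hF q (Finsupp.mem_support_iff.mp hq)
    simp only [wG] at h2
    apply Tendsto.const_mul
    apply Tendsto.mul_const
    split_ifs with h
    · have : m + q.1 = 0 := by omega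
      rw [this]; simp
    · obtain ⟨k, hk⟩ : ∃ k : ℕ, m + q.1 = ((k + 1 : ℕ) : ℤ) := ⟨(m + q.1 - 1).toNat, by
        have : 0 < m + q.1 := by omega
        omega⟩
      rw [hk]
      simp only [zpow_natCast]
      have : Tendsto (fun τ : ℝ => τ ^ (k + 1)) (𝓝 0) (𝓝 (0 ^ (k + 1))) :=
        (continuous_pow (k + 1)).tendsto 0
      rw [zero_pow (Nat.succ_ne_zero k)] at this
      exact this.mono_left nhdsWithin_le_nhds
  have h2 := tendsto_finsetSum _ h1
  have e1 : (∑ q ∈ F.coeff.support, F.coeff q * ((if q.1 = -m then (1 : ℝ) else 0) * u ^ q.2))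
      = (lead m F).eval u := by
    change _ = (∑ q ∈ F.coeff.support, if q.1 = -m then Polynomial.monomial q.2 (F.coeff q)
      else 0 : Polynomial ℝ).eval u
    rw [Polynomial.eval_finsetSum]
    refine Finset.sum_congr rfl fun q _ => ?_
    split_ifs <;> simp
  rw [e1] at h2
  refine h2.congr' ?_
  filter_upwards [self_mem_nhdsWithin] with τ hτ
  have hτ' : τ ≠ 0 := ne_of_gt hτ
  rw [evS, Finset.mul_sum]
  refine Finset.sum_congr rfl fun q _ => ?_
  rw [zpow_add₀ hτ']; ring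

/-- Boundedness of `τ ^ m F(u, τ)` implies growth order at most `m`. -/
lemma Gr_of_bdd {m : ℤ} {F : Lr}
    (h : ∀ u ∈ Set.Ioo (-(1 / 2) : ℝ) (1 / 2), ∃ B : ℝ, ∀ᶠ τ in 𝓝[>] (0 : ℝ),
      |τ ^ m * evS u τ F| ≤ B) : F ∈ Gr m := by
  obtain ⟨M, hM⟩ := exists_Gr F
  obtain ⟨k, hk⟩ : ∃ k : ℕ, (M : ℤ) ≤ m + k := ⟨((M : ℤ) - m).toNat, by omega⟩
  have hM' : F ∈ Gr (m + k) := FW_mono hk hM
  clear hM hk
  induction k with
  | zero => simpa using hM'
  | succ k ih =>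
    apply ih
    have e : m + (k : ℤ) = (m + ((k + 1 : ℕ) : ℤ)) - 1 := by push_cast; ring
    rw [e]
    apply mem_Gr_pred hM'
    apply Polynomial.eq_zero_of_infinite_isRoot
    apply Set.Infinite.mono _ (Set.Ioo_infinite (show (-(1 / 2) : ℝ) < 1 / 2 by norm_num))
    intro u hu
    obtain ⟨B, hB⟩ := h u hu
    have h1 := tendsto_evS hM' u
    have h2 : Tendsto (fun τ : ℝ => τ ^ (m + ((k + 1 : ℕ) : ℤ)) * evS u τ F) (𝓝[>] 0) (𝓝 0) := by
      have h3 : Tendsto (fun τ : ℝ => τ ^ (k + 1) * B) (𝓝[>] 0) (𝓝 0) := by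
        have : Tendsto (fun τ : ℝ => τ ^ (k + 1) * B) (𝓝 0) (𝓝 (0 ^ (k + 1) * B)) :=
          (((continuous_pow (k + 1)).tendsto 0).mul_const B)
        rw [zero_pow (Nat.succ_ne_zero k), zero_mul] at this
        exact this.mono_left nhdsWithin_le_nhds
      apply squeeze_zero_norm' _ h3
      filter_upwards [hB, self_mem_nhdsWithin] with τ hτB hτ
      have hτ0 : (0 : ℝ) < τ := hτ
      rw [zpow_add₀ hτ0.ne', zpow_natCast, Real.norm_eq_abs]
      have : τ ^ m * τ ^ (k + 1) * evS u τ F = τ ^ (k + 1) * (τ ^ m * evS u τ F) := by ring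
      rw [this, abs_mul, abs_of_nonneg (by positivity)]
      exact mul_le_mul_of_nonneg_left hτB (by positivity)
    exact tendsto_nhds_unique h1 h2

lemma bdd_of_Gr {m : ℤ} {F : Lr} (hF : F ∈ Gr m) (u : ℝ) : ∃ B : ℝ, ∀ᶠ τ in 𝓝[>] (0 : ℝ),
    |τ ^ m * evS u τ F| ≤ B := by
  have h := (tendsto_evS hF u).abs
  refine ⟨|(lead m F).eval u| + 1, ?_⟩
  filter_upwards [h.eventually_lt_const (show |(lead m F).eval u| < |(lead m F).eval u| + 1 by
    linarith)] with τ hτ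
  exact hτ.le

/-- Comparison. -/
lemma Gr_of_le {m : ℤ} {F G : Lr} (hG : G ∈ Gr m)
    (h : ∀ u ∈ Set.Ioo (-(1 / 2) : ℝ) (1 / 2), ∀ᶠ τ in 𝓝[>] (0 : ℝ),
      0 ≤ evS u τ F ∧ evS u τ F ≤ evS u τ G) : F ∈ Gr m := by
  apply Gr_of_bdd
  intro u hu
  obtain ⟨B, hB⟩ := bdd_of_Gr hG u
  refine ⟨B, ?_⟩
  filter_upwards [hB, h u hu, self_mem_nhdsWithin] with τ h1 h2 hτ
  have hτ0 : (0 : ℝ) < τ := hτ
  have hp : 0 < τ ^ m := zpow_pos hτ0 m
  rw [abs_mul, abs_of_pos hp, abs_of_nonneg h2.1]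
  have h3 := le_abs_self (τ ^ m * evS u τ G)
  have h4 := mul_le_mul_of_nonneg_left h2.2 hp.le
  linarith

/-- Square roots. -/
lemma Gr_of_sq {m : ℤ} {F : Lr} (hF : F * F ∈ Gr (2 * m)) : F ∈ Gr m := by
  apply Gr_of_bdd
  intro u hu
  obtain ⟨B, hB⟩ := bdd_of_Gr hF u
  refine ⟨Real.sqrt B, ?_⟩
  filter_upwards [hB, self_mem_nhdsWithin] with τ h1 hτ
  have hτ0 : (0 : ℝ) < τ := hτ
  apply Real.abs_le_sqrt
  rw [evS_mul hτ0.ne'] at h1
  have e : (τ ^ m * evS u τ F) ^ 2 = τ ^ (2 * m) * (evS u τ F * evS u τ F) := by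
    rw [two_mul, zpow_add₀ hτ0.ne']; ring
  rw [e]
  exact (le_abs_self _).trans h1

/-- The weight of a sum of squares is inherited by the summands. -/
lemma sos_Gr {m : ℤ} {F G : Lr} (hG : IsSumSq G) (h : F * F + G ∈ Gr (2 * m)) :
    F ∈ Gr m ∧ G ∈ Gr (2 * m) := by
  constructor
  · apply Gr_of_sq
    apply Gr_of_le h
    intro u _
    filter_upwards [self_mem_nhdsWithin] with τ hτ
    have hτ0 : τ ≠ 0 := ne_of_gt hτ
    rw [evS_add hτ0, evS_mul hτ0]
    have := evS_sos (u := u) hτ0 hG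
    exact ⟨mul_self_nonneg _, by linarith⟩
  · apply Gr_of_le h
    intro u _
    filter_upwards [self_mem_nhdsWithin] with τ hτ
    have hτ0 : τ ≠ 0 := ne_of_gt hτ
    rw [evS_add hτ0, evS_mul hτ0]
    have := evS_sos (u := u) hτ0 hG
    have h2 := mul_self_nonneg (evS u τ F)
    exact ⟨this, by linarith⟩

/-- The polynomial `gx` is positive on the tentacles. -/
lemma gx_pos (i : Fin 3) {u : ℝ} (hu : u ∈ Set.Ioo (-(1 / 2) : ℝ) (1 / 2)) :
    ∀ᶠ τ in 𝓝[>] (0 : ℝ), 1 < τ ^ (2 : ℤ) * evS u τ (ph i gx) := by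
  have h1 := tendsto_evS (gx_lead i).1 u
  rw [(gx_lead i).2] at h1
  simp only [Polynomial.eval_mul, Polynomial.eval_C, Polynomial.eval_sub, Polynomial.eval_one,
    Polynomial.eval_pow, Polynomial.eval_X] at h1
  apply h1.eventually_const_lt
  have : u ^ 2 < 1 / 4 := by
    have := hu.1
    have := hu.2
    nlinarith
  linarith

/-- The growth of the two parts of a representation. -/
lemma rep_Gr (i : Fin 3) {m : ℤ} {F S T : Lr} (hS : IsSumSq S) (hT : IsSumSq T)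
    (hF : F ∈ Gr m) (h : F = S + T * ph i gx) : S ∈ Gr m ∧ T ∈ Gr (m - 2) := by
  constructor
  · apply Gr_of_le hF
    intro u hu
    filter_upwards [gx_pos i hu, self_mem_nhdsWithin] with τ h1 hτ
    have hτ0 : (0 : ℝ) < τ := hτ
    have hS' := evS_sos (u := u) hτ0.ne' hS
    have hT' := evS_sos (u := u) hτ0.ne' hT
    have hp : (0 : ℝ) < τ ^ (2 : ℤ) := zpow_pos hτ0 2
    have hg : 0 < evS u τ (ph i gx) := by
      by_contra hcon
      push Not at hcon
      have := mul_nonpos_of_nonneg_of_nonpos hp.le hcon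
      linarith
    rw [h, evS_add hτ0.ne', evS_mul hτ0.ne']
    have := mul_nonneg hT' hg.le
    exact ⟨hS', by linarith⟩
  · apply Gr_of_bdd
    intro u hu
    obtain ⟨B, hB⟩ := bdd_of_Gr hF u
    refine ⟨B, ?_⟩
    filter_upwards [hB, gx_pos i hu, self_mem_nhdsWithin] with τ hBτ h1 hτ
    have hτ0 : (0 : ℝ) < τ := hτ
    have hS' := evS_sos (u := u) hτ0.ne' hS
    have hT' := evS_sos (u := u) hτ0.ne' hT
    have hp : (0 : ℝ) < τ ^ (m - 2) := zpow_pos hτ0 _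
    have hpm : (0 : ℝ) < τ ^ m := zpow_pos hτ0 _
    rw [abs_mul, abs_of_pos hp, abs_of_nonneg hT']
    have e : τ ^ m = τ ^ (m - 2) * τ ^ (2 : ℤ) := by
      rw [← zpow_add₀ hτ0.ne']; congr 1; ring
    have h2 : τ ^ m * evS u τ F = τ ^ m * evS u τ S
        + τ ^ (m - 2) * evS u τ T * (τ ^ (2 : ℤ) * evS u τ (ph i gx)) := by
      rw [h, evS_add hτ0.ne', evS_mul hτ0.ne', e]; ring
    have h3 := le_abs_self (τ ^ m * evS u τ F)
    have h4 : 0 ≤ τ ^ m * evS u τ S := mul_nonneg hpm.le hS'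
    have h5 : 0 ≤ τ ^ (m - 2) * evS u τ T := mul_nonneg hp.le hT'
    nlinarith

lemma isSumSq_ph (i : Fin 3) {s : P2} (hs : IsSumSq s) : IsSumSq (ph i s) :=
  isSumSq_map (ph i).toRingHom hs

/-- Points on the tentacles. -/
noncomputable def pt (i : Fin 3) (u τ : ℝ) : Fin 2 → ℝ := ![evS u τ (tx i), evS u τ (ty i)]

lemma evS_ph (i : Fin 3) {u τ : ℝ} (hτ : τ ≠ 0) (f : P2) :
    evS u τ (ph i f) = MvPolynomial.eval (pt i u τ) f := by
  rw [evS_eq hτ]
  have h : ((evL u τ hτ : Lr →+* ℝ)).comp (ph i : P2 →+* Lr) = MvPolynomial.eval (pt i u τ) := by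
    apply MvPolynomial.ringHom_ext
    · intro r
      have h1 : ph i (MvPolynomial.C r) = algebraMap ℝ Lr r := (ph i).commutes r
      have h2 : evL u τ hτ (algebraMap ℝ Lr r) = r := (evL u τ hτ).commutes r
      change evL u τ hτ (ph i (MvPolynomial.C r)) = _
      rw [h1, h2, MvPolynomial.eval_C]
    · intro j
      fin_cases j
      · simp [ph, pt, evS_eq hτ]
      · simp [ph, pt, evS_eq hτ]
  exact congrArg (fun φ : P2 →+* ℝ => φ f) h

/-- A polynomial bounded on the set has growth order at most zero. -/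
theorem Vm0_of_bdd {f : P2} {B : ℝ}
    (h : ∀ P : Fin 2 → ℝ, 0 < MvPolynomial.eval P gx → |MvPolynomial.eval P f| ≤ B) :
    f ∈ Vm 0 := by
  intro i
  apply Gr_of_bdd
  intro u hu
  refine ⟨B, ?_⟩
  filter_upwards [gx_pos i hu, self_mem_nhdsWithin] with τ h1 hτ
  have hτ0 : (0 : ℝ) < τ := hτ
  have hp : (0 : ℝ) < τ ^ (2 : ℤ) := zpow_pos hτ0 2
  rw [evS_ph i hτ0.ne'] at h1 ⊢
  rw [zpow_zero, one_mul]
  apply h
  by_contra hcon
  push Not at hcon
  have := mul_nonpos_of_nonneg_of_nonpos hp.le hcon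
  linarith

end Pool.Agent.H685_stab
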