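import Pool.Agent.H685_stab.Pos
import Pool.Agent.H685_stab.Tend

/-!
A two-parameter family in the quadratic module.
-/

set_option linter.unusedSectionVars false

namespace Pool.Agent.H685_stab

open MvPolynomial

/-- The degree six part. -/
noncomputable def F1 (ε : ℝ) : P2 :=
  pa ^ 6 * (C (1 / ε ^ 4) * pb ^ 4 - C (3 / ε ^ 2) * pb ^ 2 + C (1 / 2)) + pb ^ 6 + pc ^ 6

/-- The degree eight part. -/
noncomputable def F2 (ε : ℝ) : P2 :=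
  pa ^ 8 * (C (1 / ε ^ 2) * pb ^ 2 + C (1 / 4)) + pb ^ 8 + pc ^ 8

/-- The family. -/
noncomputable def ff (ε δ c1 c2 : ℝ) : P2 :=
  C (1 / δ ^ 4) * pa ^ 4 + C (1 / δ ^ 2) * (F1 ε + C c1 * QQ ^ 2) + (F2 ε + C c2 * QQ ^ 3)

lemma Gr_pow' {n : ℤ} {F : Lr} (hF : F ∈ Gr n) (k : ℕ) {m : ℤ} (h : k * n ≤ m) : F ^ k ∈ Gr m :=
  FW_mono h (Gr_pow hF k)

lemma ph_C' (i : Fin 3) (c : ℝ) : ph i (C c) = c • 1 := by
  have := ph_C i c 1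
  rwa [mul_one, map_one] at this

/-- The abstract form of `G1` after a substitution. -/
noncomputable def g1 (ε : ℝ) (A B D K : Lr) : Lr :=
  A ^ 6 * ((1 / ε ^ 4) • B ^ 4 - (3 / ε ^ 2) • B ^ 2 + (1 / 2 : ℝ) • 1) + B ^ 6 + D ^ 6
    - (2 : ℝ) • (A ^ 5 * K)

/-- The abstract form of `G2` after a substitution. -/
noncomputable def g2 (ε : ℝ) (A B D K : Lr) : Lr :=
  A ^ 8 * ((1 / ε ^ 2) • B ^ 2 + (1 / 4 : ℝ) • 1) + B ^ 8 + D ^ 8 - A ^ 6 * K ^ 2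

lemma lead_one0 : lead 0 1 = 1 := by rw [← mon_zero, lead_mon]; simp

lemma lead_pow' {m n : ℤ} {F : Lr} (hF : F ∈ Gr m) (k : ℕ) (h : k * m = n) :
    lead n (F ^ k) = (lead m F) ^ k := by
  rw [← h]; exact lead_pow hF k

lemma lead_mul' {m n k : ℤ} {F G : Lr} (hF : F ∈ Gr m) (hG : G ∈ Gr n) (h : m + n = k) :
    lead k (F * G) = lead m F * lead n G := by
  rw [← h]; exact lead_mul hF hG

lemma Gr_mul' {m n k : ℤ} {F G : Lr} (hF : F ∈ Gr m) (hG : G ∈ Gr n) (h : m + n ≤ k) :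
    F * G ∈ Gr k := FW_mono h (Gr_mul hF hG)

lemma smul_Gr {m : ℤ} (c : ℝ) {F : Lr} (hF : F ∈ Gr m) : c • F ∈ Gr m :=
  Submodule.smul_mem _ c hF

lemma g1_0 {ε : ℝ} {A B D K : Lr} {l : Polynomial ℝ} (hA : A ∈ Gr 1) (hB : B ∈ Gr 0)
    (hD : D ∈ Gr 0) (hK : K ∈ Gr 1)
    (lA : lead 1 A = 1) (lB : (lead 0 B) ^ 2 = Polynomial.X ^ 2) (lK : lead 1 K = l) :
    g1 ε A B D K ∈ Gr 6 ∧ ∀ u : ℝ, (lead 6 (g1 ε A B D K)).eval u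
      = 1 / ε ^ 4 * u ^ 4 - 3 / ε ^ 2 * u ^ 2 + 1 / 2 - 2 * l.eval u := by
  have hB4 : B ^ 4 ∈ Gr 0 := Gr_pow' hB 4 (by norm_num)
  have hB2 : B ^ 2 ∈ Gr 0 := Gr_pow' hB 2 (by norm_num)
  have hX : (1 / ε ^ 4) • B ^ 4 - (3 / ε ^ 2) • B ^ 2 + (1 / 2 : ℝ) • (1 : Lr) ∈ Gr 0 :=
    add_mem (sub_mem (smul_Gr _ hB4) (smul_Gr _ hB2)) (smul_Gr _ one_mem_Gr)
  have hA6 : A ^ 6 ∈ Gr 6 := Gr_pow' hA 6 (by norm_num)
  have hA5 : A ^ 5 ∈ Gr 5 := Gr_pow' hA 5 (by norm_num)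
  have hB6 : B ^ 6 ∈ Gr 0 := Gr_pow' hB 6 (by norm_num)
  have hD6 : D ^ 6 ∈ Gr 0 := Gr_pow' hD 6 (by norm_num)
  have h06 : Gr 0 ≤ Gr 6 := FW_mono (by norm_num)
  refine ⟨sub_mem (add_mem (add_mem (Gr_mul' hA6 hX (by norm_num)) (h06 hB6)) (h06 hD6))
    (smul_Gr _ (Gr_mul' hA5 hK (by norm_num))), fun u => ?_⟩
  rw [g1, map_sub, map_add, map_add, map_smul, lead_mul' hA6 hX (by norm_num),
    lead_mul' hA5 hK (by norm_num), lead_of_mem hB6 (by norm_num), lead_of_mem hD6 (by norm_num),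
    lead_pow' hA 6 (by norm_num), lead_pow' hA 5 (by norm_num), lA, lK, map_add, map_sub,
    map_smul, map_smul, map_smul, lead_one0, lead_pow' hB 4 (by norm_num),
    lead_pow' hB 2 (by norm_num)]
  have lB4 : (lead 0 B) ^ 4 = Polynomial.X ^ 4 := by
    have : (lead 0 B) ^ 4 = ((lead 0 B) ^ 2) ^ 2 := by ring
    rw [this, lB]; ring
  rw [lB, lB4]
  simp [Polynomial.smul_eq_C_mul]

lemma g1_1 {ε : ℝ} {A B D K : Lr} (hA : A ∈ Gr 0) (hB : B ∈ Gr 1)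
    (hD : D ∈ Gr 0) (hK : K ∈ Gr 0) (lB : lead 1 B = 1) :
    g1 ε A B D K ∈ Gr 6 ∧ ∀ u : ℝ, (lead 6 (g1 ε A B D K)).eval u = 1 := by
  have hB4 : B ^ 4 ∈ Gr 4 := Gr_pow' hB 4 (by norm_num)
  have hB2 : B ^ 2 ∈ Gr 4 := Gr_pow' hB 2 (by norm_num)
  have h04 : Gr 0 ≤ Gr 4 := FW_mono (by norm_num)
  have hX : (1 / ε ^ 4) • B ^ 4 - (3 / ε ^ 2) • B ^ 2 + (1 / 2 : ℝ) • (1 : Lr) ∈ Gr 4 :=
    add_mem (sub_mem (smul_Gr _ hB4) (smul_Gr _ hB2)) (smul_Gr _ (h04 one_mem_Gr))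
  have hA6 : A ^ 6 ∈ Gr 0 := Gr_pow' hA 6 (by norm_num)
  have hA5 : A ^ 5 ∈ Gr 0 := Gr_pow' hA 5 (by norm_num)
  have hB6 : B ^ 6 ∈ Gr 6 := Gr_pow' hB 6 (by norm_num)
  have hD6 : D ^ 6 ∈ Gr 0 := Gr_pow' hD 6 (by norm_num)
  have h06 : Gr 0 ≤ Gr 6 := FW_mono (by norm_num)
  have hAX : A ^ 6 * ((1 / ε ^ 4) • B ^ 4 - (3 / ε ^ 2) • B ^ 2 + (1 / 2 : ℝ) • (1 : Lr)) ∈ Gr 4 :=
    Gr_mul' hA6 hX (by norm_num)
  have hAK : A ^ 5 * K ∈ Gr 0 := Gr_mul' hA5 hK (by norm_num)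
  refine ⟨sub_mem (add_mem (add_mem (FW_mono (by norm_num) hAX) hB6) (h06 hD6))
    (smul_Gr _ (h06 hAK)), fun u => ?_⟩
  rw [g1, map_sub, map_add, map_add, map_smul, lead_of_mem hAX (by norm_num),
    lead_of_mem hAK (by norm_num), lead_of_mem hD6 (by norm_num),
    lead_pow' hB 6 (by norm_num), lB]
  simp

lemma g1_2 {ε : ℝ} {A B D K : Lr} (hA : A ∈ Gr 0) (hB : B ∈ Gr 0)
    (hD : D ∈ Gr 1) (hK : K ∈ Gr 0) (lD : lead 1 D = 1) :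
    g1 ε A B D K ∈ Gr 6 ∧ ∀ u : ℝ, (lead 6 (g1 ε A B D K)).eval u = 1 := by
  have hB4 : B ^ 4 ∈ Gr 0 := Gr_pow' hB 4 (by norm_num)
  have hB2 : B ^ 2 ∈ Gr 0 := Gr_pow' hB 2 (by norm_num)
  have hX : (1 / ε ^ 4) • B ^ 4 - (3 / ε ^ 2) • B ^ 2 + (1 / 2 : ℝ) • (1 : Lr) ∈ Gr 0 :=
    add_mem (sub_mem (smul_Gr _ hB4) (smul_Gr _ hB2)) (smul_Gr _ one_mem_Gr)
  have hA6 : A ^ 6 ∈ Gr 0 := Gr_pow' hA 6 (by norm_num)
  have hA5 : A ^ 5 ∈ Gr 0 := Gr_pow' hA 5 (by norm_num)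
  have hB6 : B ^ 6 ∈ Gr 0 := Gr_pow' hB 6 (by norm_num)
  have hD6 : D ^ 6 ∈ Gr 6 := Gr_pow' hD 6 (by norm_num)
  have h06 : Gr 0 ≤ Gr 6 := FW_mono (by norm_num)
  have hAX : A ^ 6 * ((1 / ε ^ 4) • B ^ 4 - (3 / ε ^ 2) • B ^ 2 + (1 / 2 : ℝ) • (1 : Lr)) ∈ Gr 0 :=
    Gr_mul' hA6 hX (by norm_num)
  have hAK : A ^ 5 * K ∈ Gr 0 := Gr_mul' hA5 hK (by norm_num)
  refine ⟨sub_mem (add_mem (add_mem (h06 hAX) (h06 hB6)) hD6)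
    (smul_Gr _ (h06 hAK)), fun u => ?_⟩
  rw [g1, map_sub, map_add, map_add, map_smul, lead_of_mem hAX (by norm_num),
    lead_of_mem hAK (by norm_num), lead_of_mem hB6 (by norm_num),
    lead_pow' hD 6 (by norm_num), lD]
  simp

lemma g2_0 {ε : ℝ} {A B D K : Lr} {l : Polynomial ℝ} (hA : A ∈ Gr 1) (hB : B ∈ Gr 0)
    (hD : D ∈ Gr 0) (hK : K ∈ Gr 1)
    (lA : lead 1 A = 1) (lB : (lead 0 B) ^ 2 = Polynomial.X ^ 2) (lK : lead 1 K = l) :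
    g2 ε A B D K ∈ Gr 8 ∧ ∀ u : ℝ, (lead 8 (g2 ε A B D K)).eval u
      = 1 / ε ^ 2 * u ^ 2 + 1 / 4 - (l.eval u) ^ 2 := by
  have hB2 : B ^ 2 ∈ Gr 0 := Gr_pow' hB 2 (by norm_num)
  have hX : (1 / ε ^ 2) • B ^ 2 + (1 / 4 : ℝ) • (1 : Lr) ∈ Gr 0 :=
    add_mem (smul_Gr _ hB2) (smul_Gr _ one_mem_Gr)
  have hA8 : A ^ 8 ∈ Gr 8 := Gr_pow' hA 8 (by norm_num)
  have hA6 : A ^ 6 ∈ Gr 6 := Gr_pow' hA 6 (by norm_num)
  have hK2 : K ^ 2 ∈ Gr 2 := Gr_pow' hK 2 (by norm_num)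
  have hB8 : B ^ 8 ∈ Gr 0 := Gr_pow' hB 8 (by norm_num)
  have hD8 : D ^ 8 ∈ Gr 0 := Gr_pow' hD 8 (by norm_num)
  have h08 : Gr 0 ≤ Gr 8 := FW_mono (by norm_num)
  refine ⟨sub_mem (add_mem (add_mem (Gr_mul' hA8 hX (by norm_num)) (h08 hB8)) (h08 hD8))
    (Gr_mul' hA6 hK2 (by norm_num)), fun u => ?_⟩
  rw [g2, map_sub, map_add, map_add, lead_mul' hA8 hX (by norm_num),
    lead_mul' hA6 hK2 (by norm_num), lead_of_mem hB8 (by norm_num), lead_of_mem hD8 (by norm_num),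
    lead_pow' hA 8 (by norm_num), lead_pow' hA 6 (by norm_num), lA, lead_pow' hK 2 (by norm_num),
    lK, map_add, map_smul, map_smul, lead_one0, lead_pow' hB 2 (by norm_num), lB]
  simp [Polynomial.smul_eq_C_mul]

lemma g2_1 {ε : ℝ} {A B D K : Lr} (hA : A ∈ Gr 0) (hB : B ∈ Gr 1)
    (hD : D ∈ Gr 0) (hK : K ∈ Gr 0) (lB : lead 1 B = 1) :
    g2 ε A B D K ∈ Gr 8 ∧ ∀ u : ℝ, (lead 8 (g2 ε A B D K)).eval u = 1 := by
  have hB2 : B ^ 2 ∈ Gr 2 := Gr_pow' hB 2 (by norm_num)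
  have h02 : Gr 0 ≤ Gr 2 := FW_mono (by norm_num)
  have hX : (1 / ε ^ 2) • B ^ 2 + (1 / 4 : ℝ) • (1 : Lr) ∈ Gr 2 :=
    add_mem (smul_Gr _ hB2) (smul_Gr _ (h02 one_mem_Gr))
  have hA8 : A ^ 8 ∈ Gr 0 := Gr_pow' hA 8 (by norm_num)
  have hA6 : A ^ 6 ∈ Gr 0 := Gr_pow' hA 6 (by norm_num)
  have hK2 : K ^ 2 ∈ Gr 0 := Gr_pow' hK 2 (by norm_num)
  have hB8 : B ^ 8 ∈ Gr 8 := Gr_pow' hB 8 (by norm_num)
  have hD8 : D ^ 8 ∈ Gr 0 := Gr_pow' hD 8 (by norm_num)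
  have h08 : Gr 0 ≤ Gr 8 := FW_mono (by norm_num)
  have hAX : A ^ 8 * ((1 / ε ^ 2) • B ^ 2 + (1 / 4 : ℝ) • (1 : Lr)) ∈ Gr 2 :=
    Gr_mul' hA8 hX (by norm_num)
  have hAK : A ^ 6 * K ^ 2 ∈ Gr 0 := Gr_mul' hA6 hK2 (by norm_num)
  refine ⟨sub_mem (add_mem (add_mem (FW_mono (by norm_num) hAX) hB8) (h08 hD8))
    (h08 hAK), fun u => ?_⟩
  rw [g2, map_sub, map_add, map_add, lead_of_mem hAX (by norm_num),
    lead_of_mem hAK (by norm_num), lead_of_mem hD8 (by norm_num),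
    lead_pow' hB 8 (by norm_num), lB]
  simp

lemma g2_2 {ε : ℝ} {A B D K : Lr} (hA : A ∈ Gr 0) (hB : B ∈ Gr 0)
    (hD : D ∈ Gr 1) (hK : K ∈ Gr 0) (lD : lead 1 D = 1) :
    g2 ε A B D K ∈ Gr 8 ∧ ∀ u : ℝ, (lead 8 (g2 ε A B D K)).eval u = 1 := by
  have hB2 : B ^ 2 ∈ Gr 0 := Gr_pow' hB 2 (by norm_num)
  have hX : (1 / ε ^ 2) • B ^ 2 + (1 / 4 : ℝ) • (1 : Lr) ∈ Gr 0 :=
    add_mem (smul_Gr _ hB2) (smul_Gr _ one_mem_Gr)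
  have hA8 : A ^ 8 ∈ Gr 0 := Gr_pow' hA 8 (by norm_num)
  have hA6 : A ^ 6 ∈ Gr 0 := Gr_pow' hA 6 (by norm_num)
  have hK2 : K ^ 2 ∈ Gr 0 := Gr_pow' hK 2 (by norm_num)
  have hB8 : B ^ 8 ∈ Gr 0 := Gr_pow' hB 8 (by norm_num)
  have hD8 : D ^ 8 ∈ Gr 8 := Gr_pow' hD 8 (by norm_num)
  have h08 : Gr 0 ≤ Gr 8 := FW_mono (by norm_num)
  have hAX : A ^ 8 * ((1 / ε ^ 2) • B ^ 2 + (1 / 4 : ℝ) • (1 : Lr)) ∈ Gr 0 :=
    Gr_mul' hA8 hX (by norm_num)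
  have hAK : A ^ 6 * K ^ 2 ∈ Gr 0 := Gr_mul' hA6 hK2 (by norm_num)
  refine ⟨sub_mem (add_mem (add_mem (h08 hAX) (h08 hB8)) hD8)
    (h08 hAK), fun u => ?_⟩
  rw [g2, map_sub, map_add, map_add, lead_of_mem hAX (by norm_num),
    lead_of_mem hAK (by norm_num), lead_of_mem hB8 (by norm_num),
    lead_pow' hD 8 (by norm_num), lD]
  simp

lemma ph_G1 (ε : ℝ) (K : P2) (i : Fin 3) :
    ph i (F1 ε - C 2 * (pa ^ 5 * K)) = g1 ε (ph i pa) (ph i pb) (ph i pc) (ph i K) := by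
  rw [F1, g1]
  simp only [map_sub, map_add, map_mul, map_pow, ph_C, ph_C']
  simp only [smul_mul_assoc, one_mul]

lemma ph_G2 (ε : ℝ) (K : P2) (i : Fin 3) :
    ph i (F2 ε - pa ^ 6 * K ^ 2) = g2 ε (ph i pa) (ph i pb) (ph i pc) (ph i K) := by
  rw [F2, g2]
  simp only [map_sub, map_add, map_mul, map_pow, ph_C, ph_C']
  simp only [smul_mul_assoc, one_mul]

/-- The family lies in the quadratic module. -/
theorem family {ε : ℝ} (hε : 0 < ε) : ∃ c1 c2 : ℝ, ∀ δ : ℝ, 0 < δ → MM (ff ε δ c1 c2) := by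
  obtain ⟨lam, hlam⟩ := exists_lam (1 / ε) (by positivity)
  set l : Polynomial ℝ := lam.comp (Polynomial.C (1 / ε) * Polynomial.X) with hl
  have hl1 : ∀ u, l.eval u = lam.eval (u / ε) := by
    intro u
    rw [hl, Polynomial.eval_comp]
    simp only [Polynomial.eval_mul, Polynomial.eval_C, Polynomial.eval_X]
    congr 1; field_simp
  obtain ⟨K, -, hKG, hKe, hKo⟩ := exists_lift (m := 1) 0 l
  have hKl : lead 1 (ph 0 K) = l := lead_lift (m := 1) (by norm_num) hKe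
  have hK0 : ph 0 K ∈ Gr 1 := hKG
  have hK1 : ph 1 K ∈ Gr 0 := hKo 1 (by decide)
  have hK2 : ph 2 K ∈ Gr 0 := hKo 2 (by decide)
  have ha0 : ph 0 pa ∈ Gr 1 := av_Gr1 0 0
  have ha1 : ph 1 pa ∈ Gr 0 := av_Gr0 (i := 0) (j := 1) (by decide)
  have ha2 : ph 2 pa ∈ Gr 0 := av_Gr0 (i := 0) (j := 2) (by decide)
  have hb0 : ph 0 pb ∈ Gr 0 := av_Gr0 (i := 1) (j := 0) (by decide)
  have hb1 : ph 1 pb ∈ Gr 1 := av_Gr1 1 1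
  have hb2 : ph 2 pb ∈ Gr 0 := av_Gr0 (i := 1) (j := 2) (by decide)
  have hc0 : ph 0 pc ∈ Gr 0 := av_Gr0 (i := 2) (j := 0) (by decide)
  have hc1 : ph 1 pc ∈ Gr 0 := av_Gr0 (i := 2) (j := 1) (by decide)
  have hc2 : ph 2 pc ∈ Gr 1 := av_Gr1 2 2
  have la : lead 1 (ph 0 pa) = 1 := lead_av_self 0
  have lb : lead 1 (ph 1 pb) = 1 := lead_av_self 1
  have lc : lead 1 (ph 2 pc) = 1 := lead_av_self 2
  have lb0 : (lead 0 (ph 0 pb)) ^ 2 = Polynomial.X ^ 2 :=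
    lead_av_other (i := 1) (j := 0) (by decide)
  set G1 : P2 := F1 ε - C 2 * (pa ^ 5 * K) with hG1
  set G2 : P2 := F2 ε - pa ^ 6 * K ^ 2 with hG2
  have q10 := g1_0 (ε := ε) ha0 hb0 hc0 hK0 la lb0 hKl
  have q11 := g1_1 (ε := ε) ha1 hb1 hc1 hK1 lb
  have q12 := g1_2 (ε := ε) ha2 hb2 hc2 hK2 lc
  have q20 := g2_0 (ε := ε) ha0 hb0 hc0 hK0 la lb0 hKl
  have q21 := g2_1 (ε := ε) ha1 hb1 hc1 hK1 lb
  have q22 := g2_2 (ε := ε) ha2 hb2 hc2 hK2 lc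
  rw [← ph_G1] at q10 q11 q12
  rw [← ph_G2] at q20 q21 q22
  have hbd : ∀ u ∈ Set.Icc (-(1 : ℝ)) 1, u / ε ∈ Set.Icc (-(1 / ε)) (1 / ε) := by
    intro u hu
    constructor
    · rw [neg_le, ← neg_div]
      exact div_le_div_of_nonneg_right (by linarith [hu.1]) hε.le
    · exact div_le_div_of_nonneg_right hu.2 hε.le
  obtain ⟨c1, hc1'⟩ := posit (n := 0) (G := G1) (by
    intro i
    fin_cases i
    · exact q10.1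
    · exact q11.1
    · exact q12.1) (by
    intro i u hu
    fin_cases i
    · change 0 < (lead 6 (ph 0 G1)).eval u
      rw [q10.2 u, hl1]
      have := (hlam _ (hbd u hu)).1
      have e : (u / ε) ^ 4 - 3 * (u / ε) ^ 2 + 1 / 2 - 2 * lam.eval (u / ε)
        = 1 / ε ^ 4 * u ^ 4 - 3 / ε ^ 2 * u ^ 2 + 1 / 2 - 2 * lam.eval (u / ε) := by
        rw [div_pow, div_pow]; ring
      rw [e] at this
      exact this
    · change 0 < (lead 6 (ph 1 G1)).eval u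
      rw [q11.2 u]; norm_num
    · change 0 < (lead 6 (ph 2 G1)).eval u
      rw [q12.2 u]; norm_num)
  obtain ⟨c2, hc2'⟩ := posit (n := 1) (G := G2) (by
    intro i
    fin_cases i
    · exact q20.1
    · exact q21.1
    · exact q22.1) (by
    intro i u hu
    fin_cases i
    · change 0 < (lead 8 (ph 0 G2)).eval u
      rw [q20.2 u, hl1]
      have := (hlam _ (hbd u hu)).2
      have e : (u / ε) ^ 2 + 1 / 4 - (lam.eval (u / ε)) ^ 2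
        = 1 / ε ^ 2 * u ^ 2 + 1 / 4 - (lam.eval (u / ε)) ^ 2 := by
        rw [div_pow]; ring
      rw [e] at this
      exact this
    · change 0 < (lead 8 (ph 1 G2)).eval u
      rw [q21.2 u]; norm_num
    · change 0 < (lead 8 (ph 2 G2)).eval u
      rw [q22.2 u]; norm_num)
  refine ⟨c1, c2, fun δ hδ => ?_⟩
  have e : ff ε δ c1 c2 = (C (1 / δ ^ 2) * pa ^ 2 + pa ^ 3 * K) ^ 2
      + C (1 / δ ^ 2) * (G1 + C c1 * QQ ^ (0 + 2)) + (G2 + C c2 * QQ ^ (1 + 2)) := by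
    have h4 : (C (1 / δ ^ 4) : P2) = C (1 / δ ^ 2) ^ 2 := by
      rw [← C_pow]; congr 1; field_simp
    have h2 : (C 2 : P2) = 2 := map_ofNat C 2
    rw [ff, h4, hG1, hG2, h2]
    ring
  rw [e]
  exact ((MM.sq _).add (MM.const_mul (by positivity) hc1')).add hc2'

end Pool.Agent.H685_stab
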