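import Pool.Agent.H685_stab.Top
import Pool.Agent.H685_stab.Cert

/-!
Growth along the three tentacles.
-/

set_option linter.unusedSectionVars false

namespace Pool.Agent.H685_stab

open MvPolynomial

lemma exists_An (f : P2) : ∃ n, f ∈ An n := by
  induction f using MvPolynomial.induction_on with
  | C a =>
    refine ⟨0, ?_⟩
    have : (C a : P2) = a • 1 := by rw [smul_eq_C_mul, mul_one]
    rw [this]; exact Submodule.smul_mem _ _ (one_mem_An 0)
  | add p q hp hq =>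
    obtain ⟨n, hn⟩ := hp
    obtain ⟨m, hm⟩ := hq
    exact ⟨n + m, add_mem (An_mono (by omega) hn) (An_mono (by omega) hm)⟩
  | mul_X p j hp =>
    obtain ⟨n, hn⟩ := hp
    refine ⟨n + 1, An_mul hn ?_⟩
    fin_cases j
    · exact vx_mem_An
    · exact vy_mem_An

lemma An_zero {f : P2} (hf : f ∈ An 0) : ∃ c : ℝ, f = C c := by
  refine Submodule.span_induction (p := fun f _ => ∃ c : ℝ, f = C c) ?_ ?_ ?_ ?_ hf
  · rintro f ⟨i, j, k, hijk, rfl⟩
    obtain ⟨rfl, rfl, rfl⟩ : i = 0 ∧ j = 0 ∧ k = 0 := by omega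
    exact ⟨1, by simp⟩
  · exact ⟨0, by simp⟩
  · rintro f g _ _ ⟨c, rfl⟩ ⟨d, rfl⟩
    exact ⟨c + d, by simp⟩
  · rintro c f _ ⟨d, rfl⟩
    exact ⟨c * d, by rw [smul_eq_C_mul, C_mul]⟩

/-- Polynomials with bounded order of growth on the three tentacles. -/
def Vm (m : ℤ) : Submodule ℝ P2 where
  carrier := {f | ∀ i, ph i f ∈ Gr m}
  add_mem' := by
    intro f g hf hg i
    rw [map_add]; exact add_mem (hf i) (hg i)
  zero_mem' := by
    intro i
    rw [map_zero]; exact zero_mem _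
  smul_mem' := by
    intro c f hf i
    rw [map_smul]; exact Submodule.smul_mem _ c (hf i)

lemma mem_Vm {m : ℤ} {f : P2} : f ∈ Vm m ↔ ∀ i, ph i f ∈ Gr m := Iff.rfl

lemma Vm_mono {m n : ℤ} (h : m ≤ n) : Vm m ≤ Vm n := fun _ hf i => FW_mono h (hf i)

lemma Vm_mul {m n : ℤ} {f g : P2} (hf : f ∈ Vm m) (hg : g ∈ Vm n) : f * g ∈ Vm (m + n) := by
  intro i
  rw [map_mul]; exact Gr_mul (hf i) (hg i)

lemma K1 (n : ℕ) : ∀ f ∈ An n, f ∈ Vm 0 → ∃ c : ℝ, f = C c := by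
  induction n with
  | zero => intro f hf _; exact An_zero hf
  | succ n ih =>
    intro f hf hV
    apply ih f _ hV
    apply lemT hf
    intro i k hk
    rw [coeff_dh]
    by_contra hne
    have := hV i _ hne
    simp only [wG] at this
    push_cast at this
    omega

/-- A polynomial of growth order at most `0` on the three tentacles is constant. -/
theorem const_of_Vm0 {f : P2} (hf : f ∈ Vm 0) : ∃ c : ℝ, f = C c := by
  obtain ⟨n, hn⟩ := exists_An f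
  exact K1 n f hn hf

/-- The Laurent polynomial `λ(u) τ^(-m)`. -/
noncomputable def emb (m : ℤ) (l : Polynomial ℝ) : Lr :=
  ∑ k ∈ l.support, l.coeff k • mon (-m) k

lemma lead_emb (m : ℤ) (l : Polynomial ℝ) : lead m (emb m l) = l := by
  rw [emb, map_sum]
  conv_rhs => rw [l.as_sum_support]
  refine Finset.sum_congr rfl fun k _ => ?_
  rw [map_smul, lead_mon, if_pos rfl, Polynomial.smul_X_eq_monomial]

lemma emb_Gr (m : ℤ) (l : Polynomial ℝ) : emb m l ∈ Gr m := by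
  apply sum_mem
  intro k _
  apply Submodule.smul_mem
  exact mon_mem_Gr (by omega)

lemma emb_Fl (m : ℕ) (l : Polynomial ℝ) : emb m l ∈ Fl ((m + l.natDegree : ℕ) : ℤ) := by
  apply sum_mem
  intro k hk
  apply Submodule.smul_mem
  apply mon_mem_Fl
  have := Polynomial.le_natDegree_of_mem_supp k hk
  push_cast
  omega

/-- Lifting of a prescribed leading term on one tentacle. -/
theorem exists_lift {m : ℕ} (i : Fin 3) (l : Polynomial ℝ) :
    ∃ f ∈ An (m + l.natDegree), ph i f ∈ Gr m ∧ ph i f - emb m l ∈ Gr 0 ∧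
      ∀ j, j ≠ i → ph j f ∈ Gr 0 := by
  obtain ⟨f, hf, h⟩ := ML (m + l.natDegree) (tri i (emb m l)) (by
    intro j
    simp only [tri]
    split_ifs
    · exact emb_Fl m l
    · exact zero_mem _)
  have hi : ph i f - emb m l ∈ Gr 0 := by
    have := h i
    simpa [tri] using this
  refine ⟨f, hf, ?_, hi, ?_⟩
  · have : ph i f = (ph i f - emb m l) + emb m l := by ring
    rw [this]
    exact add_mem (FW_mono (by omega) hi) (emb_Gr m l)
  · intro j hj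
    have := h j
    simpa [tri, hj] using this

lemma lead_lift {m : ℕ} (hm : 0 < m) {i : Fin 3} {l : Polynomial ℝ} {f : P2}
    (h : ph i f - emb m l ∈ Gr 0) : lead m (ph i f) = l := by
  have h1 := lead_of_mem h (show (0 : ℤ) < m by omega)
  rw [map_sub, lead_emb, sub_eq_zero] at h1
  exact h1

/-- The three generators `a, b, c`. -/
noncomputable def av : Fin 3 → P2 := ![pa, pb, pc]

lemma G01 : mon 0 1 ∈ Gr 0 := mon_mem_Gr (by norm_num)
lemma G21 : mon 2 1 ∈ Gr (-1) := mon_mem_Gr (by norm_num)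
lemma G32 : mon 3 2 ∈ Gr (-1) := mon_mem_Gr (by norm_num)
lemma G10 : mon 1 0 ∈ Gr (-1) := mon_mem_Gr (by norm_num)
lemma Grr : rr ∈ Gr 1 := mon_mem_Gr (by norm_num)

lemma two_mul_Gr {n : ℤ} {F : Lr} (h : F ∈ Gr n) : 2 * F ∈ Gr n := by
  rw [two_mul]; exact add_mem h h

lemma Gr01 : Gr 0 ≤ Gr 1 := FW_mono (by norm_num)
lemma Grm0 : Gr (-1) ≤ Gr 0 := FW_mono (by norm_num)

/-- On its own tentacle, `a_i` is `1/τ` up to bounded terms. -/
lemma av_self (i : Fin 3) : ph i (av i) - rr ∈ Gr 0 := by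
  fin_cases i
  · change ph 0 pa - rr ∈ Gr 0
    have : ph 0 pa - rr = mon 0 1 - mon 3 2 := by rw [ph0_a]; ring
    rw [this]; exact sub_mem G01 (Grm0 G32)
  · change ph 1 pb - rr ∈ Gr 0
    have : ph 1 pb - rr = -mon 0 1 + mon 3 2 := by rw [ph1_b]; ring
    rw [this]; exact add_mem (neg_mem G01) (Grm0 G32)
  · change ph 2 pc - rr ∈ Gr 0
    have : ph 2 pc - rr = mon 0 1 + mon 1 0 + 2 * mon 2 1 + mon 3 2 := by rw [ph2_c]; ring
    rw [this]
    exact add_mem (add_mem (add_mem G01 (Grm0 G10)) (Grm0 (two_mul_Gr G21))) (Grm0 G32)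

/-- On the other tentacles `a_i` is `± u` up to terms tending to zero. -/
lemma av_other {i j : Fin 3} (h : j ≠ i) : ∃ e : ℝ, e ^ 2 = 1 ∧
    ph j (av i) - e • mon 0 1 ∈ Gr (-1) := by
  fin_cases i <;> fin_cases j
  · exact absurd rfl h
  · refine ⟨-1, by norm_num, ?_⟩
    change ph 1 pa - (-1 : ℝ) • mon 0 1 ∈ Gr (-1)
    have : ph 1 pa - (-1 : ℝ) • mon 0 1 = mon 2 1 + mon 3 2 := by
      rw [ph1_a, neg_one_smul]; ring
    rw [this]; exact add_mem G21 G32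
  · refine ⟨-1, by norm_num, ?_⟩
    change ph 2 pa - (-1 : ℝ) • mon 0 1 ∈ Gr (-1)
    have : ph 2 pa - (-1 : ℝ) • mon 0 1 = -(mon 1 0 + 2 * mon 2 1 + mon 3 2) := by
      rw [ph2_a, neg_one_smul]; ring
    rw [this]; exact neg_mem (add_mem (add_mem G10 (two_mul_Gr G21)) G32)
  · refine ⟨1, by norm_num, ?_⟩
    change ph 0 pb - (1 : ℝ) • mon 0 1 ∈ Gr (-1)
    have : ph 0 pb - (1 : ℝ) • mon 0 1 = mon 2 1 - mon 3 2 := by
      rw [ph0_b, one_smul]; ring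
    rw [this]; exact sub_mem G21 G32
  · exact absurd rfl h
  · refine ⟨-1, by norm_num, ?_⟩
    change ph 2 pb - (-1 : ℝ) • mon 0 1 ∈ Gr (-1)
    have : ph 2 pb - (-1 : ℝ) • mon 0 1 = -(mon 2 1 + mon 3 2) := by
      rw [ph2_b, neg_one_smul]; ring
    rw [this]; exact neg_mem (add_mem G21 G32)
  · refine ⟨-1, by norm_num, ?_⟩
    change ph 0 pc - (-1 : ℝ) • mon 0 1 ∈ Gr (-1)
    have : ph 0 pc - (-1 : ℝ) • mon 0 1 = mon 3 2 := by
      rw [ph0_c, neg_one_smul]; ring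
    rw [this]; exact G32
  · refine ⟨1, by norm_num, ?_⟩
    change ph 1 pc - (1 : ℝ) • mon 0 1 ∈ Gr (-1)
    have : ph 1 pc - (1 : ℝ) • mon 0 1 = -mon 3 2 := by
      rw [ph1_c, one_smul]; ring
    rw [this]; exact neg_mem G32
  · exact absurd rfl h

lemma av_Gr1 (i j : Fin 3) : ph j (av i) ∈ Gr 1 := by
  by_cases h : j = i
  · subst h
    have : ph j (av j) = (ph j (av j) - rr) + rr := by ring
    rw [this]; exact add_mem (Gr01 (av_self j)) Grr
  · obtain ⟨e, -, he⟩ := av_other h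
    have : ph j (av i) = (ph j (av i) - e • mon 0 1) + e • mon 0 1 := by ring
    rw [this]
    exact add_mem (Gr01 (Grm0 he)) (Gr01 (Submodule.smul_mem _ _ G01))

lemma av_Gr0 {i j : Fin 3} (h : j ≠ i) : ph j (av i) ∈ Gr 0 := by
  obtain ⟨e, -, he⟩ := av_other h
  have : ph j (av i) = (ph j (av i) - e • mon 0 1) + e • mon 0 1 := by ring
  rw [this]
  exact add_mem (Grm0 he) (Submodule.smul_mem _ _ G01)

lemma lead_av_self (i : Fin 3) : lead 1 (ph i (av i)) = 1 := by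
  have h1 := lead_of_mem (av_self i) (show (0 : ℤ) < 1 by norm_num)
  rw [map_sub, sub_eq_zero] at h1
  rw [h1, lead_mon]; simp

lemma lead_av_other {i j : Fin 3} (h : j ≠ i) :
    (lead 0 (ph j (av i))) ^ 2 = Polynomial.X ^ 2 := by
  obtain ⟨e, he1, he⟩ := av_other h
  have h1 := lead_of_mem he (show (-1 : ℤ) < 0 by norm_num)
  rw [map_sub, sub_eq_zero] at h1
  rw [h1, map_smul, lead_mon]
  simp only [neg_zero, if_true, pow_one]
  rw [smul_pow, he1, one_smul]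

lemma av_Vm (i : Fin 3) : av i ∈ Vm 1 := fun j => av_Gr1 i j

lemma av_An (i : Fin 3) : av i ∈ An 1 := by
  fin_cases i
  · exact pa_mem_An
  · exact pb_mem_An
  · exact pc_mem_An

/-- The weight function `1 + a² + b² + c²`. -/
noncomputable def QQ : P2 := 1 + pa ^ 2 + pb ^ 2 + pc ^ 2

/-- The polynomial `a²b² + b²c² + c²a²`. -/
noncomputable def EE : P2 := pa ^ 2 * pb ^ 2 + pb ^ 2 * pc ^ 2 + pc ^ 2 * pa ^ 2

/-- The polynomial defining the set. -/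
noncomputable def gx : P2 := 2 * QQ - EE

lemma QQ_eq : QQ = 1 + ∑ i, av i ^ 2 := by
  rw [Fin.sum_univ_three]
  change QQ = 1 + (pa ^ 2 + pb ^ 2 + pc ^ 2)
  rw [QQ]; ring

lemma lead_pow {m : ℤ} {F : Lr} (hF : F ∈ Gr m) (k : ℕ) : lead (k * m) (F ^ k) = (lead m F) ^ k := by
  induction k with
  | zero =>
    rw [pow_zero, pow_zero, ← mon_zero, lead_mon]; simp
  | succ k ih =>
    rw [pow_succ, pow_succ, ← ih]
    have := lead_mul (Gr_pow hF k) hF
    rw [← this]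
    congr 1
    push_cast; ring

lemma lead_one_pos {m : ℤ} (h : 0 < m) : lead m 1 = 0 := lead_of_mem one_mem_Gr h

/-- An abstract computation of the leading term of `g`. -/
lemma lead_g_aux {A B D : Lr} (hA : A ∈ Gr 1) (hB : B ∈ Gr 0) (hD : D ∈ Gr 0)
    (lA : lead 1 A = 1) (lB : (lead 0 B) ^ 2 = Polynomial.X ^ 2)
    (lD : (lead 0 D) ^ 2 = Polynomial.X ^ 2) :
    2 * (1 + A ^ 2 + B ^ 2 + D ^ 2) - (A ^ 2 * B ^ 2 + B ^ 2 * D ^ 2 + D ^ 2 * A ^ 2) ∈ Gr 2 ∧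
    lead 2 (2 * (1 + A ^ 2 + B ^ 2 + D ^ 2) - (A ^ 2 * B ^ 2 + B ^ 2 * D ^ 2 + D ^ 2 * A ^ 2))
      = Polynomial.C 2 * (1 - Polynomial.X ^ 2) := by
  have hA2 : A ^ 2 ∈ Gr 2 := by simpa using Gr_pow hA 2
  have hB2 : B ^ 2 ∈ Gr 0 := by simpa using Gr_pow hB 2
  have hD2 : D ^ 2 ∈ Gr 0 := by simpa using Gr_pow hD 2
  have h02 : Gr 0 ≤ Gr 2 := FW_mono (by norm_num)
  have hAB : A ^ 2 * B ^ 2 ∈ Gr 2 := by simpa using Gr_mul hA2 hB2
  have hDA : D ^ 2 * A ^ 2 ∈ Gr 2 := by simpa using Gr_mul hD2 hA2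
  have hBD : B ^ 2 * D ^ 2 ∈ Gr 0 := by simpa using Gr_mul hB2 hD2
  refine ⟨?_, ?_⟩
  · refine sub_mem (two_mul_Gr ?_) (add_mem (add_mem hAB (h02 hBD)) hDA)
    exact add_mem (add_mem (add_mem (h02 one_mem_Gr) hA2) (h02 hB2)) (h02 hD2)
  · have l1 : lead 2 (A ^ 2) = 1 := by
      have := lead_pow hA 2
      norm_num at this
      rw [this, lA]; simp
    have l2 : ∀ {F : Lr}, F ∈ Gr 0 → lead 2 F = 0 := fun h => lead_of_mem h (by norm_num)
    have l3 : lead 0 (B ^ 2) = Polynomial.X ^ 2 := by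
      have := lead_pow hB 2
      norm_num at this
      rw [this, lB]
    have l4 : lead 0 (D ^ 2) = Polynomial.X ^ 2 := by
      have := lead_pow hD 2
      norm_num at this
      rw [this, lD]
    have l5 : lead 2 (A ^ 2 * B ^ 2) = Polynomial.X ^ 2 := by
      have := lead_mul hA2 hB2
      norm_num at this
      rw [this, l1, l3, one_mul]
    have l6 : lead 2 (D ^ 2 * A ^ 2) = Polynomial.X ^ 2 := by
      have := lead_mul hD2 hA2
      norm_num at this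
      rw [this, l1, l4, mul_one]
    have e : (2 : Lr) * (1 + A ^ 2 + B ^ 2 + D ^ 2) = (1 + A ^ 2 + B ^ 2 + D ^ 2)
        + (1 + A ^ 2 + B ^ 2 + D ^ 2) := by ring
    rw [e]
    simp only [map_sub, map_add, l1, l5, l6, l2 hB2, l2 hD2, l2 hBD, l2 one_mem_Gr]
    have : (Polynomial.C 2 : Polynomial ℝ) = 2 := rfl
    rw [this]; ring

lemma ph_gx (i : Fin 3) : ph i gx = 2 * (1 + ph i pa ^ 2 + ph i pb ^ 2 + ph i pc ^ 2)
    - (ph i pa ^ 2 * ph i pb ^ 2 + ph i pb ^ 2 * ph i pc ^ 2 + ph i pc ^ 2 * ph i pa ^ 2) := by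
  rw [gx, QQ, EE]
  simp only [map_sub, map_add, map_mul, map_pow, map_one, map_ofNat]

lemma gx_lead (i : Fin 3) : ph i gx ∈ Gr 2 ∧
    lead 2 (ph i gx) = Polynomial.C 2 * (1 - Polynomial.X ^ 2) := by
  rw [ph_gx]
  have hs : ∀ i, lead 1 (ph i (av i)) = 1 := lead_av_self
  fin_cases i
  · exact lead_g_aux (av_Gr1 0 0) (av_Gr0 (i := 1) (j := 0) (by decide))
      (av_Gr0 (i := 2) (j := 0) (by decide)) (hs 0) (lead_av_other (i := 1) (j := 0) (by decide))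
      (lead_av_other (i := 2) (j := 0) (by decide))
  · have h := lead_g_aux (av_Gr1 1 1) (av_Gr0 (i := 0) (j := 1) (by decide))
      (av_Gr0 (i := 2) (j := 1) (by decide)) (hs 1) (lead_av_other (i := 0) (j := 1) (by decide))
      (lead_av_other (i := 2) (j := 1) (by decide))
    have e : 2 * (1 + ph 1 pa ^ 2 + ph 1 pb ^ 2 + ph 1 pc ^ 2)
      - (ph 1 pa ^ 2 * ph 1 pb ^ 2 + ph 1 pb ^ 2 * ph 1 pc ^ 2 + ph 1 pc ^ 2 * ph 1 pa ^ 2)
      = 2 * (1 + ph 1 (av 1) ^ 2 + ph 1 (av 0) ^ 2 + ph 1 (av 2) ^ 2)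
      - (ph 1 (av 1) ^ 2 * ph 1 (av 0) ^ 2 + ph 1 (av 0) ^ 2 * ph 1 (av 2) ^ 2
        + ph 1 (av 2) ^ 2 * ph 1 (av 1) ^ 2) := by
      change _ = 2 * (1 + ph 1 pb ^ 2 + ph 1 pa ^ 2 + ph 1 pc ^ 2)
        - (ph 1 pb ^ 2 * ph 1 pa ^ 2 + ph 1 pa ^ 2 * ph 1 pc ^ 2 + ph 1 pc ^ 2 * ph 1 pb ^ 2)
      ring
    rw [← e] at h
    exact h
  · have h := lead_g_aux (av_Gr1 2 2) (av_Gr0 (i := 0) (j := 2) (by decide))
      (av_Gr0 (i := 1) (j := 2) (by decide)) (hs 2) (lead_av_other (i := 0) (j := 2) (by decide))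
      (lead_av_other (i := 1) (j := 2) (by decide))
    have e : 2 * (1 + ph 2 pa ^ 2 + ph 2 pb ^ 2 + ph 2 pc ^ 2)
      - (ph 2 pa ^ 2 * ph 2 pb ^ 2 + ph 2 pb ^ 2 * ph 2 pc ^ 2 + ph 2 pc ^ 2 * ph 2 pa ^ 2)
      = 2 * (1 + ph 2 (av 2) ^ 2 + ph 2 (av 0) ^ 2 + ph 2 (av 1) ^ 2)
      - (ph 2 (av 2) ^ 2 * ph 2 (av 0) ^ 2 + ph 2 (av 0) ^ 2 * ph 2 (av 1) ^ 2
        + ph 2 (av 1) ^ 2 * ph 2 (av 2) ^ 2) := by
      change _ = 2 * (1 + ph 2 pc ^ 2 + ph 2 pa ^ 2 + ph 2 pb ^ 2)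
        - (ph 2 pc ^ 2 * ph 2 pa ^ 2 + ph 2 pa ^ 2 * ph 2 pb ^ 2 + ph 2 pb ^ 2 * ph 2 pc ^ 2)
      ring
    rw [← e] at h
    exact h

end Pool.Agent.H685_stab
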