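import Mathlib

/-!
Finite and infinitesimal elements of an ordered extension field of the reals.
-/

set_option linter.unusedSectionVars false

namespace Pool.Agent.H685_stab

open Polynomial

section Infl

variable {R : Type*} [Field R] [LinearOrder R] [IsStrictOrderedRing R] [Algebra ℝ R]

lemma am_nonneg {c : ℝ} (hc : 0 ≤ c) : 0 ≤ algebraMap ℝ R c := by
  have : algebraMap ℝ R c = (algebraMap ℝ R (Real.sqrt c)) ^ 2 := by
    rw [← map_pow, Real.sq_sqrt hc]
  rw [this]; positivity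

lemma am_le {c d : ℝ} (h : c ≤ d) : algebraMap ℝ R c ≤ algebraMap ℝ R d := by
  have := am_nonneg (R := R) (sub_nonneg.mpr h)
  rw [map_sub] at this
  linarith

lemma am_lt {c d : ℝ} (h : c < d) : algebraMap ℝ R c < algebraMap ℝ R d := by
  refine lt_of_le_of_ne (am_le h.le) ?_
  intro h2
  exact h.ne ((algebraMap ℝ R).injective h2)

lemma am_pos {c : ℝ} (h : 0 < c) : 0 < algebraMap ℝ R c := by
  have := am_lt (R := R) h
  rwa [map_zero] at this

lemma am_abs (c : ℝ) : |algebraMap ℝ R c| = algebraMap ℝ R |c| := by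
  rcases le_total 0 c with h | h
  · rw [abs_of_nonneg h, abs_of_nonneg (am_nonneg h)]
  · rw [abs_of_nonpos h, abs_of_nonpos, map_neg]
    have := am_le (R := R) h
    rwa [map_zero] at this

lemma am_lt_iff {c d : ℝ} : algebraMap ℝ R c < algebraMap ℝ R d ↔ c < d := by
  constructor
  · intro h
    by_contra hcon
    push Not at hcon
    exact absurd (am_le (R := R) hcon) (not_le.mpr h)
  · exact am_lt

/-- Finite elements. -/
def Bdd (w : R) : Prop := ∃ c : ℝ, |w| ≤ algebraMap ℝ R c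

/-- Infinitesimal elements. -/
def Infl (w : R) : Prop := ∀ c : ℝ, 0 < c → |w| < algebraMap ℝ R c

lemma Bdd.am (c : ℝ) : Bdd (algebraMap ℝ R c) := ⟨|c|, (am_abs c).le⟩

lemma Bdd.exists_pos {w : R} (h : Bdd w) : ∃ c : ℝ, 0 < c ∧ |w| < algebraMap ℝ R c := by
  obtain ⟨c, hc⟩ := h
  refine ⟨max c 0 + 1, by positivity, hc.trans_lt (am_lt ?_)⟩
  linarith [le_max_left c 0]

lemma Bdd.zero : Bdd (0 : R) := ⟨0, by simp⟩

lemma Bdd.one : Bdd (1 : R) := ⟨1, by simp⟩

lemma Bdd.neg {w : R} (h : Bdd w) : Bdd (-w) := by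
  obtain ⟨c, hc⟩ := h
  exact ⟨c, by rwa [abs_neg]⟩

lemma Bdd.add {w v : R} (h : Bdd w) (h' : Bdd v) : Bdd (w + v) := by
  obtain ⟨c, hc⟩ := h
  obtain ⟨d, hd⟩ := h'
  refine ⟨c + d, (abs_add_le _ _).trans ?_⟩
  rw [map_add]; linarith

lemma Bdd.sub {w v : R} (h : Bdd w) (h' : Bdd v) : Bdd (w - v) := by
  rw [sub_eq_add_neg]; exact h.add h'.neg

lemma Bdd.mul {w v : R} (h : Bdd w) (h' : Bdd v) : Bdd (w * v) := by
  obtain ⟨c, hc⟩ := h
  obtain ⟨d, hd⟩ := h'
  refine ⟨c * d, ?_⟩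
  rw [abs_mul, map_mul]
  exact mul_le_mul hc hd (abs_nonneg _) ((abs_nonneg _).trans hc)

lemma Bdd.pow {w : R} (h : Bdd w) (n : ℕ) : Bdd (w ^ n) := by
  induction n with
  | zero => rw [pow_zero]; exact Bdd.one
  | succ n ih => rw [pow_succ]; exact ih.mul h

lemma Infl.bdd {w : R} (h : Infl w) : Bdd w := ⟨1, (h 1 one_pos).le⟩

lemma Infl.neg {w : R} (h : Infl w) : Infl (-w) := by
  intro c hc
  rw [abs_neg]; exact h c hc

lemma Infl.mul_bdd {w v : R} (h : Infl w) (h' : Bdd v) : Infl (w * v) := by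
  obtain ⟨d, hd0, hd⟩ := h'.exists_pos
  intro c hc
  have h1 := h (c / d) (by positivity)
  rw [abs_mul]
  have : algebraMap ℝ R c = algebraMap ℝ R (c / d) * algebraMap ℝ R d := by
    rw [← map_mul]; congr 1; field_simp
  rw [this]
  exact mul_lt_mul'' h1 hd (abs_nonneg _) (abs_nonneg _)

lemma Bdd.mul_infl {w v : R} (h' : Bdd v) (h : Infl w) : Infl (v * w) := by
  rw [mul_comm]; exact h.mul_bdd h'

lemma Infl.add {w v : R} (h : Infl w) (h' : Infl v) : Infl (w + v) := by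
  intro c hc
  have h1 := h (c / 2) (by positivity)
  have h2 := h' (c / 2) (by positivity)
  have : algebraMap ℝ R c = algebraMap ℝ R (c / 2) + algebraMap ℝ R (c / 2) := by
    rw [← map_add]; congr 1; ring
  rw [this]
  exact (abs_add_le _ _).trans_lt (add_lt_add h1 h2)

lemma Infl.pow {w : R} (h : Infl w) {n : ℕ} (hn : 0 < n) : Infl (w ^ n) := by
  obtain ⟨m, rfl⟩ : ∃ m, n = m + 1 := ⟨n - 1, by omega⟩
  rw [pow_succ]
  exact (h.bdd.pow m).mul_infl h

lemma not_infl_one : ¬ Infl (1 : R) := by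
  intro h
  have := h 1 one_pos
  rw [abs_one, map_one] at this
  exact lt_irrefl _ this

lemma Infl.of_pow {w : R} {n : ℕ} (h : Infl (w ^ n)) : Infl w := by
  by_contra hcon
  simp only [Infl, not_forall, not_lt] at hcon
  obtain ⟨c, hc, hcw⟩ := hcon
  have h1 := h (c ^ n) (by positivity)
  rw [abs_pow, map_pow] at h1
  have h2 : (algebraMap ℝ R c) ^ n ≤ |w| ^ n := pow_le_pow_left₀ (am_nonneg hc.le) hcw n
  exact absurd h1 (not_lt.mpr h2)

lemma Bdd.of_pow {w : R} {n : ℕ} (hn : 0 < n) (h : Bdd (w ^ n)) : Bdd w := by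
  obtain ⟨c, hc⟩ := h
  refine ⟨max c 1, ?_⟩
  by_contra hcon
  push Not at hcon
  have h1 : (1 : R) ≤ |w| := by
    have : algebraMap ℝ R 1 ≤ algebraMap ℝ R (max c 1) := am_le (le_max_right _ _)
    rw [map_one] at this
    exact this.trans hcon.le
  have h2 : |w| ≤ |w| ^ n := le_self_pow₀ h1 hn.ne'
  rw [abs_pow] at hc
  have h3 : algebraMap ℝ R c ≤ algebraMap ℝ R (max c 1) := am_le (le_max_left _ _)
  have := (h2.trans hc).trans h3
  exact absurd this (not_le.mpr hcon)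

lemma infl_inv_of_not_bdd {w : R} (h : ¬ Bdd w) : Infl w⁻¹ := by
  intro c hc
  simp only [Bdd, not_exists, not_le] at h
  have h1 := h c⁻¹
  rw [abs_inv]
  rw [inv_lt_comm₀ ((am_pos (inv_pos.mpr hc)).trans h1) (am_pos hc), ← map_inv₀]
  exact h1

lemma exists_st {w : R} (h : Bdd w) : ∃ r : ℝ, Infl (w - algebraMap ℝ R r) := by
  obtain ⟨c, hc⟩ := h
  rw [abs_le] at hc
  set S : Set ℝ := {r | algebraMap ℝ R r ≤ w} with hS
  have hne : S.Nonempty := ⟨-c, by rw [hS, Set.mem_ofPred_eq, map_neg]; exact hc.1⟩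
  have hbd : BddAbove S := by
    refine ⟨c, ?_⟩
    intro r hr
    by_contra hcon
    push Not at hcon
    have := am_lt (R := R) hcon
    exact absurd (this.trans_le hr) (not_lt.mpr hc.2)
  refine ⟨sSup S, ?_⟩
  intro ε hε
  rw [abs_lt]
  constructor
  · obtain ⟨s, hs, hs2⟩ := exists_lt_of_lt_csSup hne (show sSup S - ε < sSup S by linarith)
    have h1 := am_lt (R := R) hs2
    rw [map_sub] at h1
    have h2 : algebraMap ℝ R s ≤ w := hs
    linarith
  · have h1 : sSup S + ε / 2 ∉ S := by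
      intro h2
      have := le_csSup hbd h2
      linarith
    rw [hS, Set.mem_ofPred_eq, not_le, map_add] at h1
    have h2 := am_lt (R := R) (show ε / 2 < ε by linarith)
    linarith

/-- Elements which are finite and not infinitesimal. -/
def Uni (w : R) : Prop := w ≠ 0 ∧ Bdd w ∧ Bdd w⁻¹

lemma Uni.mul {w v : R} (h : Uni w) (h' : Uni v) : Uni (w * v) :=
  ⟨mul_ne_zero h.1 h'.1, h.2.1.mul h'.2.1, by rw [mul_inv]; exact h.2.2.mul h'.2.2⟩

lemma Uni.inv {w : R} (h : Uni w) : Uni w⁻¹ :=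
  ⟨inv_ne_zero h.1, h.2.2, by rw [inv_inv]; exact h.2.1⟩

lemma Uni.one : Uni (1 : R) := ⟨one_ne_zero, Bdd.one, by rw [inv_one]; exact Bdd.one⟩

lemma Uni.pow {w : R} (h : Uni w) (n : ℕ) : Uni (w ^ n) := by
  induction n with
  | zero => rw [pow_zero]; exact Uni.one
  | succ n ih => rw [pow_succ]; exact ih.mul h

lemma Uni.zpow {w : R} (h : Uni w) (n : ℤ) : Uni (w ^ n) := by
  cases n with
  | ofNat n => rw [Int.ofNat_eq_natCast, zpow_natCast]; exact h.pow n
  | negSucc n => rw [zpow_negSucc]; exact (h.pow _).inv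

lemma Uni.of_pow {w : R} {n : ℕ} (hn : 0 < n) (h : Uni (w ^ n)) : Uni w := by
  refine ⟨?_, h.2.1.of_pow hn, ?_⟩
  · intro h0
    apply h.1
    rw [h0, zero_pow hn.ne']
  · have := h.2.2
    rw [← inv_pow] at this
    exact this.of_pow hn

lemma Uni.not_infl {w : R} (h : Uni w) : ¬ Infl w := by
  intro h'
  apply not_infl_one (R := R)
  have := h'.mul_bdd h.2.2
  rwa [mul_inv_cancel₀ h.1] at this

lemma uni_of_infl_sub {w : R} {c : ℝ} (hc : c ≠ 0) (h : Infl (w - algebraMap ℝ R c)) : Uni w := by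
  have h1 := h (|c| / 2) (by positivity)
  have h2 : algebraMap ℝ R (|c| / 2) < |w| := by
    have h3 : |algebraMap ℝ R c| ≤ |w| + |w - algebraMap ℝ R c| := by
      have : algebraMap ℝ R c = w - (w - algebraMap ℝ R c) := by ring
      conv_lhs => rw [this]
      exact abs_sub _ _
    rw [am_abs] at h3
    have : algebraMap ℝ R |c| = algebraMap ℝ R (|c| / 2) + algebraMap ℝ R (|c| / 2) := by
      rw [← map_add]; congr 1; ring
    linarith
  have hp : 0 < algebraMap ℝ R (|c| / 2) := am_pos (by positivity)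
  refine ⟨?_, ?_, ?_⟩
  · intro h0
    rw [h0, abs_zero] at h2
    linarith
  · have : w = (w - algebraMap ℝ R c) + algebraMap ℝ R c := by ring
    rw [this]
    exact h.bdd.add (Bdd.am c)
  · refine ⟨(|c| / 2)⁻¹, ?_⟩
    rw [abs_inv, map_inv₀]
    exact inv_anti₀ hp h2.le

lemma Bdd.aeval {t : R} (ht : Bdd t) (P : ℝ[X]) : Bdd (aeval t P) := by
  induction P using Polynomial.induction_on' with
  | add p q hp hq => rw [map_add]; exact hp.add hq
  | monomial n a =>
    rw [aeval_monomial]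
    exact (Bdd.am a).mul (ht.pow n)

lemma infl_aeval_sub {t : R} (ht : Infl t) (P : ℝ[X]) :
    Infl (Polynomial.aeval t P - algebraMap ℝ R (P.coeff 0)) := by
  have h := congrArg (Polynomial.aeval t) (divX_mul_X_add P)
  rw [map_add, map_mul, aeval_X, aeval_C] at h
  rw [← h, add_sub_cancel_right]
  exact (ht.bdd.aeval _).mul_infl ht

lemma exists_fact {P : ℝ[X]} (hP : P ≠ 0) : ∃ (k : ℕ) (Q : ℝ[X]), Q.coeff 0 ≠ 0 ∧ P = X ^ k * Q := by
  obtain ⟨Q, hQ, hQ2⟩ := exists_eq_pow_rootMultiplicity_mul_and_not_dvd P hP 0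
  rw [C_0, sub_zero] at hQ hQ2
  refine ⟨_, Q, ?_, hQ⟩
  intro h
  exact hQ2 (X_dvd_iff.mpr h)

lemma uni_aeval {t : R} (ht : Infl t) (ht0 : t ≠ 0) {P : ℝ[X]} (hP : P ≠ 0) :
    ∃ k : ℕ, Uni (Polynomial.aeval t P * (t ^ k)⁻¹) := by
  obtain ⟨k, Q, hQ, rfl⟩ := exists_fact hP
  refine ⟨k, ?_⟩
  have : Polynomial.aeval t (X ^ k * Q) * (t ^ k)⁻¹ = Polynomial.aeval t Q := by
    rw [map_mul, map_pow, aeval_X]; field_simp
  rw [this]
  exact uni_of_infl_sub hQ (infl_aeval_sub ht Q)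

/-- A real polynomial that is positive at a positive infinitesimal is positive at all small
positive real numbers. -/
lemma eventually_pos {t : R} (ht : Infl t) (ht0 : 0 < t) {P : ℝ[X]}
    (hP : 0 < Polynomial.aeval t P) : ∀ᶠ τ in nhdsWithin (0 : ℝ) (Set.Ioi 0), 0 < P.eval τ := by
  have hP0 : P ≠ 0 := by
    rintro rfl
    simp at hP
  obtain ⟨k, Q, hQ, rfl⟩ := exists_fact hP0
  have h1 : 0 < Polynomial.aeval t Q := by
    rw [map_mul, map_pow, aeval_X] at hP
    exact pos_of_mul_pos_right hP (by positivity)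
  have h2 : 0 < Q.coeff 0 := by
    by_contra hcon
    have h3 : Q.coeff 0 < 0 := lt_of_le_of_ne (not_lt.mp hcon) hQ
    have h4 := infl_aeval_sub ht Q (-(Q.coeff 0)) (by linarith)
    rw [abs_lt, map_neg] at h4
    linarith [h4.2]
  have h5 : Filter.Tendsto (fun τ => Q.eval τ) (nhdsWithin (0 : ℝ) (Set.Ioi 0))
      (nhds (Q.coeff 0)) := by
    have : Q.coeff 0 = Q.eval 0 := coeff_zero_eq_eval_zero Q
    rw [this]
    exact (Q.continuous.tendsto 0).mono_left nhdsWithin_le_nhds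
  have h6 := h5.eventually (eventually_gt_nhds h2)
  filter_upwards [h6, self_mem_nhdsWithin] with τ hτ hτ0
  rw [eval_mul, eval_pow, eval_X]
  exact mul_pos (pow_pos hτ0 k) hτ

end Infl

end Pool.Agent.H685_stab
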