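import Mathlib

/-!
Real closures relative to a preordering, via a maximal intermediate field, and the intermediate
value theorem for polynomials over them.
-/

namespace Pool.Agent.H685_stab

open Polynomial IntermediateField

universe u

section RC

variable {K Ω : Type*} [Field K] [Field Ω] [Algebra K Ω]

/-- The additive monoid generated by the elements `t * l²` with `t ∈ T`, `l ∈ L`. -/
def coneOf (T : Set K) (L : IntermediateField K Ω) : AddSubmonoid Ω :=
  AddSubmonoid.closure {z | ∃ t ∈ T, ∃ l ∈ L, z = algebraMap K Ω t * l ^ 2}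

lemma coneOf_mul {T : Set K} (hT : ∀ a ∈ T, ∀ b ∈ T, a * b ∈ T) {L : IntermediateField K Ω}
    {a b : Ω} (ha : a ∈ coneOf T L) (hb : b ∈ coneOf T L) : a * b ∈ coneOf T L := by
  induction ha using AddSubmonoid.closure_induction with
  | mem x hx =>
    obtain ⟨t, ht, l, hl, rfl⟩ := hx
    induction hb using AddSubmonoid.closure_induction with
    | mem y hy =>
      obtain ⟨t', ht', l', hl', rfl⟩ := hy
      apply AddSubmonoid.subset_closure
      refine ⟨t * t', hT t ht t' ht', l * l', L.mul_mem hl hl', ?_⟩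
      rw [map_mul]; ring
    | zero => rw [mul_zero]; exact zero_mem _
    | add y z _ _ hy hz => rw [mul_add]; exact add_mem hy hz
  | zero => rw [zero_mul]; exact zero_mem _
  | add y z _ _ hy hz => rw [add_mul]; exact add_mem hy hz

lemma coneOf_mono {T : Set K} {L L' : IntermediateField K Ω} (h : L ≤ L') :
    coneOf T L ≤ coneOf T L' := by
  apply AddSubmonoid.closure_mono
  rintro z ⟨t, ht, l, hl, rfl⟩
  exact ⟨t, ht, l, h hl, rfl⟩

lemma sq_mem_coneOf {T : Set K} (h1 : (1 : K) ∈ T) {L : IntermediateField K Ω} {l : Ω}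
    (hl : l ∈ L) : l ^ 2 ∈ coneOf T L := by
  apply AddSubmonoid.subset_closure
  exact ⟨1, h1, l, hl, by simp⟩

lemma T_mem_coneOf {T : Set K} {L : IntermediateField K Ω} {t : K}
    (ht : t ∈ T) : algebraMap K Ω t ∈ coneOf T L := by
  apply AddSubmonoid.subset_closure
  exact ⟨t, ht, 1, L.one_mem, by simp⟩

lemma coneOf_le {T : Set K} {L : IntermediateField K Ω} {z : Ω} (hz : z ∈ coneOf T L) : z ∈ L := by
  induction hz using AddSubmonoid.closure_induction with
  | mem x hx =>
    obtain ⟨t, ht, l, hl, rfl⟩ := hx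
    exact L.mul_mem (L.algebraMap_mem t) (pow_mem hl 2)
  | zero => exact L.zero_mem
  | add y z _ _ hy hz => exact L.add_mem hy hz

lemma exists_max {T : Set K} (h : (-1 : Ω) ∉ coneOf T (⊥ : IntermediateField K Ω)) :
    ∃ R : IntermediateField K Ω, (-1 : Ω) ∉ coneOf T R ∧
      ∀ L : IntermediateField K Ω, R ≤ L → (-1 : Ω) ∉ coneOf T L → L ≤ R := by
  have key : ∀ c ⊆ {L : IntermediateField K Ω | (-1 : Ω) ∉ coneOf T L}, IsChain (· ≤ ·) c →
      ∀ y ∈ c, ∃ ub ∈ {L : IntermediateField K Ω | (-1 : Ω) ∉ coneOf T L}, ∀ z ∈ c, z ≤ ub := by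
    intro c hc hchain y hy
    have : Nonempty c := ⟨⟨y, hy⟩⟩
    have hdir : Directed (· ≤ ·) (fun L : c => (L : IntermediateField K Ω)) :=
      hchain.directedOn.directed_val
    refine ⟨⨆ L : c, (L : IntermediateField K Ω), ?_, fun z hz => le_iSup
      (fun L : c => (L : IntermediateField K Ω)) ⟨z, hz⟩⟩
    intro hmem
    have hdir2 : Directed (· ≤ ·) (fun L : c => coneOf T (L : IntermediateField K Ω)) := by
      intro i j
      obtain ⟨k, h1, h2⟩ := hdir i j
      exact ⟨k, coneOf_mono h1, coneOf_mono h2⟩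
    have hle : coneOf T (⨆ L : c, (L : IntermediateField K Ω)) ≤
        ⨆ L : c, coneOf T (L : IntermediateField K Ω) := by
      apply AddSubmonoid.closure_le.mpr
      rintro z ⟨t, ht, l, hl, rfl⟩
      have hl' : l ∈ (↑(⨆ L : c, (L : IntermediateField K Ω)) : Set Ω) := hl
      rw [IntermediateField.coe_iSup_of_directed hdir] at hl'
      obtain ⟨i, hi⟩ := Set.mem_iUnion.mp hl'
      have : coneOf T (i : IntermediateField K Ω) ≤
        ⨆ L : c, coneOf T (L : IntermediateField K Ω) :=
          le_iSup (fun L : c => coneOf T (L : IntermediateField K Ω)) i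
      apply this
      apply AddSubmonoid.subset_closure
      exact ⟨t, ht, l, hi, rfl⟩
    obtain ⟨i, hi⟩ := (AddSubmonoid.mem_iSup_of_directed hdir2).mp (hle hmem)
    exact hc i.2 hi
  obtain ⟨R, _, hR⟩ := zorn_le_nonempty₀ _ key ⊥ h
  exact ⟨R, hR.1, fun L hL h' => hR.2 h' hL⟩

/-- The polynomial version of the cone, with a degree bound. -/
noncomputable def polyCone (T : Set K) (R : IntermediateField K Ω) (n : ℕ) : AddSubmonoid (R[X]) :=
  AddSubmonoid.closure
    {s | ∃ t ∈ T, ∃ h : R[X], h.natDegree < n ∧ s = C (algebraMap K R t) * h ^ 2}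

lemma exists_poly [IsAlgClosed Ω] {T : Set K} {R : IntermediateField K Ω}
    (hmax : ∀ L : IntermediateField K Ω, R ≤ L → (-1 : Ω) ∉ coneOf T L → L ≤ R)
    {f : R[X]} (hf : Irreducible f) (hd : 2 ≤ f.natDegree) :
    ∃ s ∈ polyCone T R f.natDegree, ∃ q : R[X], 1 + s = f * q := by
  have hdeg : f.degree ≠ 0 := by
    rw [degree_eq_natDegree hf.ne_zero]
    intro h
    have : f.natDegree = 0 := by exact_mod_cast h
    omega
  obtain ⟨ρ, hρ⟩ := IsAlgClosed.exists_aeval_eq_zero Ω f hdeg
  have hint : IsIntegral R ρ := IsAlgebraic.isIntegral ⟨f, hf.ne_zero, hρ⟩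
  have hmin : f * C f.leadingCoeff⁻¹ = minpoly R ρ := minpoly.eq_of_irreducible hf hρ
  have hlc : f.leadingCoeff ≠ 0 := leadingCoeff_ne_zero.mpr hf.ne_zero
  have hmd : (minpoly R ρ).natDegree = f.natDegree := by
    rw [← hmin, natDegree_mul_C (inv_ne_zero hlc)]
  set L : IntermediateField K Ω := (adjoin R {ρ}).restrictScalars K with hL
  have hRL : R ≤ L := by
    intro r hr
    rw [hL, mem_restrictScalars]
    exact (adjoin R {ρ}).algebraMap_mem ⟨r, hr⟩
  have hρL : ρ ∈ L := by
    rw [hL, mem_restrictScalars]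
    exact mem_adjoin_simple_self R ρ
  have hbad : (-1 : Ω) ∈ coneOf T L := by
    by_contra hcon
    have := hmax L hRL hcon hρL
    have hroot : f.IsRoot ⟨ρ, this⟩ := by
      rw [IsRoot.def]
      have h1 : aeval (algebraMap R Ω ⟨ρ, this⟩) f = 0 := hρ
      rw [aeval_algebraMap_apply] at h1
      have h2 := (algebraMap R Ω).injective (h1.trans (map_zero _).symm)
      simpa using h2
    have h5 := degree_eq_one_of_irreducible_of_root hf hroot
    have h6 : f.natDegree = 1 := natDegree_eq_of_degree_eq_some h5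
    omega
  have hlift : ∀ z ∈ coneOf T L, ∃ s ∈ polyCone T R f.natDegree, aeval ρ s = z := by
    intro z hz
    induction hz using AddSubmonoid.closure_induction with
    | mem x hx =>
      obtain ⟨t, ht, l, hl, rfl⟩ := hx
      rw [hL, mem_restrictScalars] at hl
      have h1 : l ∈ (adjoin R {ρ}).toSubalgebra := hl
      rw [adjoin_simple_toSubalgebra_of_isAlgebraic hint.isAlgebraic] at h1
      rw [Algebra.adjoin_singleton_eq_range_aeval] at h1
      obtain ⟨p, hp⟩ := h1
      have hmonic := minpoly.monic hint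
      refine ⟨C (algebraMap K R t) * (p %ₘ (minpoly R ρ)) ^ 2,
        AddSubmonoid.subset_closure ⟨t, ht, p %ₘ (minpoly R ρ), ?_, rfl⟩, ?_⟩
      · rw [← hmd]
        apply natDegree_modByMonic_lt _ hmonic
        intro h
        have := minpoly.natDegree_pos hint
        rw [h] at this
        simp at this
      · have h2 : aeval ρ (p %ₘ (minpoly R ρ)) = l := by
          rw [aeval_modByMonic_eq_self_of_root (minpoly.aeval R ρ)]
          exact hp
        rw [map_mul, map_pow, h2, aeval_C]
        rfl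
    | zero => exact ⟨0, zero_mem _, by simp⟩
    | add y z _ _ hy hz =>
      obtain ⟨s, hs, rfl⟩ := hy
      obtain ⟨s', hs', rfl⟩ := hz
      exact ⟨s + s', add_mem hs hs', by simp⟩
  obtain ⟨s, hs, hs1⟩ := hlift _ hbad
  refine ⟨s, hs, ?_⟩
  have h3 : aeval ρ (1 + s) = 0 := by rw [map_add, hs1]; simp
  have h4 : minpoly R ρ ∣ 1 + s := minpoly.dvd R ρ h3
  rw [← hmin] at h4
  obtain ⟨q, hq⟩ := h4
  exact ⟨C f.leadingCoeff⁻¹ * q, by rw [hq]; ring⟩

lemma polyCone_eval {T : Set K} {R : IntermediateField K Ω} {n : ℕ} {s : R[X]}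
    (hs : s ∈ polyCone T R n) (c : R) : ((s.eval c : R) : Ω) ∈ coneOf T R := by
  induction hs using AddSubmonoid.closure_induction with
  | mem x hx =>
    obtain ⟨t, ht, h, _, rfl⟩ := hx
    apply AddSubmonoid.subset_closure
    refine ⟨t, ht, ((h.eval c : R) : Ω), (h.eval c).2, ?_⟩
    rw [eval_mul, eval_C, eval_pow]
    rfl
  | zero => rw [eval_zero]; exact zero_mem _
  | add y z _ _ hy hz => rw [eval_add]; exact add_mem hy hz

lemma polyCone_coeff {T : Set K} {R : IntermediateField K Ω} {m : ℕ} {s : R[X]}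
    (hs : s ∈ polyCone T R (m + 1)) : ((s.coeff (m + m) : R) : Ω) ∈ coneOf T R := by
  induction hs using AddSubmonoid.closure_induction with
  | mem x hx =>
    obtain ⟨t, ht, h, hh, rfl⟩ := hx
    apply AddSubmonoid.subset_closure
    refine ⟨t, ht, ((h.coeff m : R) : Ω), (h.coeff m).2, ?_⟩
    rw [coeff_C_mul, pow_two, coeff_mul_add_eq_of_natDegree_le (by omega) (by omega)]
    simp only [MulMemClass.coe_mul, pow_two]
    rfl
  | zero => rw [coeff_zero]; exact zero_mem _
  | add y z _ _ hy hz => rw [coeff_add]; exact add_mem hy hz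

lemma polyCone_natDegree {T : Set K} {R : IntermediateField K Ω} {m : ℕ} {s : R[X]}
    (hs : s ∈ polyCone T R (m + 1)) : s.natDegree ≤ m + m := by
  induction hs using AddSubmonoid.closure_induction with
  | mem x hx =>
    obtain ⟨t, ht, h, hh, rfl⟩ := hx
    refine (natDegree_C_mul_le _ _).trans ?_
    rw [pow_two]
    refine natDegree_mul_le.trans (by omega)
  | zero => simp
  | add y z _ _ hy hz => exact (natDegree_add_le _ _).trans (max_le hy hz)

lemma coneOf_inv {T : Set K} (hT : ∀ a ∈ T, ∀ b ∈ T, a * b ∈ T) (h1 : (1 : K) ∈ T)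
    {L : IntermediateField K Ω}
    {a : Ω} (ha : a ∈ coneOf T L) : a⁻¹ ∈ coneOf T L := by
  by_cases h0 : a = 0
  · rw [h0, inv_zero]; exact zero_mem _
  · have : a⁻¹ = a * a⁻¹ ^ 2 := by field_simp
    rw [this]
    exact coneOf_mul hT ha (sq_mem_coneOf h1 (L.inv_mem (coneOf_le ha)))

lemma coneOf_antisymm {T : Set K} (hT : ∀ a ∈ T, ∀ b ∈ T, a * b ∈ T) (h1 : (1 : K) ∈ T)
    {L : IntermediateField K Ω} (hL : (-1 : Ω) ∉ coneOf T L)
    {a : Ω} (ha : a ∈ coneOf T L) (ha' : -a ∈ coneOf T L) : a = 0 := by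
  by_contra h0
  apply hL
  have : (-1 : Ω) = -a * a⁻¹ := by field_simp
  rw [this]
  exact coneOf_mul hT ha' (coneOf_inv hT h1 ha)

lemma coneOf_total [IsAlgClosed Ω] {T : Set K} (hT : ∀ a ∈ T, ∀ b ∈ T, a * b ∈ T)
    (h1 : (1 : K) ∈ T) {R : IntermediateField K Ω} (hR : (-1 : Ω) ∉ coneOf T R)
    (hmax : ∀ L : IntermediateField K Ω, R ≤ L → (-1 : Ω) ∉ coneOf T L → L ≤ R) (c : R) :
    (c : Ω) ∈ coneOf T R ∨ -(c : Ω) ∈ coneOf T R := by
  by_cases hc : ∃ r : R, r ^ 2 = c
  · obtain ⟨r, rfl⟩ := hc
    left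
    exact sq_mem_coneOf h1 r.2
  · right
    have hdeg : (X ^ 2 - C c : R[X]).natDegree = 2 := natDegree_X_pow_sub_C
    have hirr : Irreducible (X ^ 2 - C c : R[X]) := by
      rw [irreducible_iff_roots_eq_zero_of_degree_le_three (by omega) (by omega)]
      rw [Multiset.eq_zero_iff_forall_notMem]
      intro r hr
      have h2 := (mem_roots'.mp hr).2
      apply hc
      refine ⟨r, ?_⟩
      simp only [IsRoot.def, eval_sub, eval_pow, eval_X, eval_C] at h2
      exact sub_eq_zero.mp h2
    obtain ⟨s, hs, q, hq⟩ := exists_poly hmax hirr (by omega)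
    rw [hdeg] at hs
    have hsd : s.natDegree ≤ 2 := polyCone_natDegree (m := 1) hs
    have hq0 : q.natDegree = 0 := by
      by_cases hqz : q = 0
      · rw [hqz]; simp
      · have h3 : (X ^ 2 - C c : R[X]) ≠ 0 := hirr.ne_zero
        have h4 := natDegree_mul h3 hqz
        rw [← hq, hdeg] at h4
        have h5 : (1 + s).natDegree ≤ 2 := (natDegree_add_le _ _).trans (by simp; exact hsd)
        omega
    obtain ⟨a, ha⟩ := natDegree_eq_zero.mp hq0
    -- leading coefficient
    have h6 : s.coeff 2 = a := by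
      have := congrArg (fun p => coeff p 2) hq
      simp only [← ha, coeff_add, coeff_mul_C, coeff_sub, coeff_X_pow, coeff_one, coeff_C] at this
      simpa using this
    have h7 : 1 + s.eval 0 = -c * a := by
      have := congrArg (fun p => eval 0 p) hq
      simp only [← ha, eval_add, eval_mul, eval_C, eval_sub, eval_pow, eval_X, eval_one] at this
      simpa using this
    have h8 : ((a : R) : Ω) ∈ coneOf T R := by
      rw [← h6]
      exact polyCone_coeff (m := 1) hs
    have h9 : ((1 + s.eval 0 : R) : Ω) ∈ coneOf T R := by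
      have : ((1 + s.eval 0 : R) : Ω) = 1 ^ 2 + ((s.eval 0 : R) : Ω) := by simp
      rw [this]
      exact add_mem (sq_mem_coneOf h1 R.one_mem) (polyCone_eval hs 0)
    have ha0 : ((a : R) : Ω) ≠ 0 := by
      intro h
      have h10 : a = 0 := by exact_mod_cast h
      rw [h10, mul_zero] at h7
      apply hR
      have : (-1 : Ω) = ((s.eval 0 : R) : Ω) := by
        have h11 : s.eval 0 = -1 := by linear_combination h7
        rw [h11]; simp
      rw [this]
      exact polyCone_eval hs 0
    have h12 : -(c : Ω) = ((1 + s.eval 0 : R) : Ω) * ((a : R) : Ω)⁻¹ := by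
      rw [h7]
      have : ((-c * a : R) : Ω) = -(c : Ω) * (a : Ω) := by simp
      rw [this]
      field_simp
    rw [h12]
    exact coneOf_mul hT h9 (coneOf_inv hT h1 h8)

/-- The ring cone of a maximal field. -/
def rcone {T : Set K} (hT : ∀ a ∈ T, ∀ b ∈ T, a * b ∈ T)
    (h1 : (1 : K) ∈ T) {R : IntermediateField K Ω} (hR : (-1 : Ω) ∉ coneOf T R) :
    RingCone R where
  carrier := {r | (r : Ω) ∈ coneOf T R}
  mul_mem' := by
    intro a b ha hb
    exact coneOf_mul hT ha hb
  one_mem' := by
    have := sq_mem_coneOf h1 R.one_mem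
    simpa using this
  add_mem' := by
    intro a b ha hb
    exact (coneOf T R).add_mem ha hb
  zero_mem' := (coneOf T R).zero_mem
  eq_zero_of_mem_of_neg_mem' := by
    intro a ha hb
    have h2 : -(a : Ω) ∈ coneOf T R := by simpa using hb
    have := coneOf_antisymm hT h1 hR ha h2
    exact_mod_cast this

/-- Intermediate value property for polynomials. -/
def PolyIVT (R : Type*) [Field R] [LinearOrder R] : Prop :=
  ∀ (f : R[X]) (a b : R), a < b → f.eval a * f.eval b < 0 → ∃ c, a < c ∧ c < b ∧ f.eval c = 0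

lemma polyIVT_of_irred {R : Type*} [Field R] [LinearOrder R] [IsStrictOrderedRing R]
    (h : ∀ f : R[X], Irreducible f → 2 ≤ f.natDegree → ∃ q : R[X], q.natDegree < f.natDegree ∧
      ∀ c, 0 < f.eval c * q.eval c) : PolyIVT R := by
  intro f
  induction hn : f.natDegree using Nat.strong_induction_on generalizing f with
  | _ n ih =>
  intro a b hab hf
  have hf0 : f ≠ 0 := by
    rintro rfl
    simp at hf
  have hfu : ¬ IsUnit f := by
    intro hu
    obtain ⟨c, hc, rfl⟩ := Polynomial.isUnit_iff.mp hu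
    simp only [eval_C] at hf
    nlinarith [mul_self_nonneg c]
  by_cases hirr : Irreducible f
  · by_cases hd : 2 ≤ f.natDegree
    · obtain ⟨q, hq, hpos⟩ := h f hirr hd
      have h1 : q.eval a * q.eval b < 0 := by
        have h2 := mul_pos (hpos a) (hpos b)
        by_contra hcon
        push Not at hcon
        nlinarith
      obtain ⟨c, hc1, hc2, hc3⟩ := ih q.natDegree (by omega) q rfl a b hab h1
      have := hpos c
      rw [hc3, mul_zero] at this
      exact absurd this (lt_irrefl _)
    · have hd1 : f.natDegree = 1 := by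
        have := hirr.natDegree_pos
        omega
      have hlin : ∀ x, f.eval x = f.coeff 1 * x + f.coeff 0 := by
        intro x
        rw [eval_eq_sum_range, hd1]
        simp [Finset.sum_range_succ]
        ring
      have ha1 : f.coeff 1 ≠ 0 := by
        have : f.leadingCoeff ≠ 0 := leadingCoeff_ne_zero.mpr hf0
        rwa [leadingCoeff, hd1] at this
      set α := f.coeff 1
      set β := f.coeff 0
      rw [hlin, hlin] at hf
      have e1 : β = -(α * (-β / α)) := by field_simp
      set c := -β / α with hc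
      have e2 : (α * a + β) * (α * b + β) = α ^ 2 * ((a - c) * (b - c)) := by
        rw [e1]; ring
      rw [e2] at hf
      have hα : 0 < α ^ 2 := by positivity
      have h3 : (a - c) * (b - c) < 0 := by
        by_contra hcon
        push Not at hcon
        have := mul_nonneg hα.le hcon
        linarith
      refine ⟨c, ?_, ?_, ?_⟩
      · by_contra hcon
        push Not at hcon
        have := mul_nonneg (sub_nonneg.mpr hcon) (sub_nonneg.mpr (hcon.trans hab.le))
        linarith
      · by_contra hcon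
        push Not at hcon
        have := mul_nonneg_of_nonpos_of_nonpos (sub_nonpos.mpr (hab.le.trans hcon))
          (sub_nonpos.mpr hcon)
        linarith
      · rw [hlin, e1]; ring
  · obtain ⟨p, hp, q, hpq⟩ : ∃ p, ¬ IsUnit p ∧ ∃ q, ¬ IsUnit q ∧ f = p * q := by
      by_contra hcon
      push Not at hcon
      apply hirr
      constructor
      · exact hfu
      · intro p q hpq
        by_contra hcon2
        push Not at hcon2
        exact hcon p hcon2.1 q hcon2.2 hpq
    obtain ⟨hq, hpq⟩ := hpq
    have hp0 : p ≠ 0 := by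
      rintro rfl
      rw [zero_mul] at hpq
      exact hf0 hpq
    have hq0 : q ≠ 0 := by
      rintro rfl
      rw [mul_zero] at hpq
      exact hf0 hpq
    have hdp : 0 < p.natDegree := by
      by_contra hcon
      apply hp
      rw [isUnit_iff_degree_eq_zero, degree_eq_natDegree hp0]
      have : p.natDegree = 0 := by omega
      rw [this]; rfl
    have hdq : 0 < q.natDegree := by
      by_contra hcon
      apply hq
      rw [isUnit_iff_degree_eq_zero, degree_eq_natDegree hq0]
      have : q.natDegree = 0 := by omega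
      rw [this]; rfl
    have hdf : f.natDegree = p.natDegree + q.natDegree := by
      rw [hpq, natDegree_mul hp0 hq0]
    have e1 : (p.eval a * p.eval b) * (q.eval a * q.eval b) < 0 := by
      have : (p.eval a * p.eval b) * (q.eval a * q.eval b) = f.eval a * f.eval b := by
        rw [hpq, eval_mul, eval_mul]; ring
      rw [this]; exact hf
    rcases mul_neg_iff.mp e1 with ⟨_, h2⟩ | ⟨h2, _⟩
    · obtain ⟨c, hc1, hc2, hc3⟩ := ih q.natDegree (by omega) q rfl a b hab h2
      exact ⟨c, hc1, hc2, by rw [hpq, eval_mul, hc3, mul_zero]⟩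
    · obtain ⟨c, hc1, hc2, hc3⟩ := ih p.natDegree (by omega) p rfl a b hab h2
      exact ⟨c, hc1, hc2, by rw [hpq, eval_mul, hc3, zero_mul]⟩

/-- Existence of an ordered extension with the intermediate value property. -/
theorem exists_rc {K : Type u} [Field K] (T : Set K) (hT : ∀ a ∈ T, ∀ b ∈ T, a * b ∈ T)
    (h1 : (1 : K) ∈ T)
    (hneg : (-1 : K) ∉ AddSubmonoid.closure {z | ∃ t ∈ T, ∃ l : K, z = t * l ^ 2}) :
    ∃ (R : Type u) (_ : Field R) (_ : LinearOrder R) (_ : IsStrictOrderedRing R) (φ : K →+* R),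
      (∀ t ∈ T, 0 ≤ φ t) ∧ PolyIVT R := by
  set Ω := AlgebraicClosure K
  have hbot : (-1 : Ω) ∉ coneOf T (⊥ : IntermediateField K Ω) := by
    intro hmem
    have hlift : ∀ z ∈ coneOf T (⊥ : IntermediateField K Ω),
        ∃ k ∈ AddSubmonoid.closure {z | ∃ t ∈ T, ∃ l : K, z = t * l ^ 2},
          algebraMap K Ω k = z := by
      intro z hz
      induction hz using AddSubmonoid.closure_induction with
      | mem x hx =>
        obtain ⟨t, ht, l, hl, rfl⟩ := hx
        obtain ⟨k, rfl⟩ := IntermediateField.mem_bot.mp hl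
        refine ⟨t * k ^ 2, AddSubmonoid.subset_closure ⟨t, ht, k, rfl⟩, by simp⟩
      | zero => exact ⟨0, zero_mem _, by simp⟩
      | add y z _ _ hy hz =>
        obtain ⟨s, hs, rfl⟩ := hy
        obtain ⟨s', hs', rfl⟩ := hz
        exact ⟨s + s', add_mem hs hs', by simp⟩
    obtain ⟨k, hk, hk1⟩ := hlift _ hmem
    have : k = -1 := by
      apply (algebraMap K Ω).injective
      rw [hk1]; simp
    rw [this] at hk
    exact hneg hk
  obtain ⟨R, hR, hmax⟩ := exists_max hbot
  classical
  let C := rcone hT h1 hR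
  have hmemC : ∀ r : R, r ∈ C ↔ (r : Ω) ∈ coneOf T R := fun r => Iff.rfl
  have : HasMemOrNegMem C := ⟨by
    intro a
    rcases coneOf_total hT h1 hR hmax a with h | h
    · left; exact h
    · right
      rw [hmemC]
      simpa using h⟩
  let lo : LinearOrder R := LinearOrder.mkOfAddGroupCone C
  have ho : IsOrderedRing R := IsOrderedRing.mkOfCone C
  have hs : IsStrictOrderedRing R := IsOrderedRing.toIsStrictOrderedRing R
  have hnonneg : ∀ r : R, 0 ≤ r ↔ (r : Ω) ∈ coneOf T R := by
    intro r
    have : 0 ≤ r ↔ r - 0 ∈ C := Iff.rfl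
    rw [this, sub_zero, hmemC]
  refine ⟨R, inferInstance, lo, hs, algebraMap K R, ?_, ?_⟩
  · intro t ht
    rw [hnonneg]
    exact T_mem_coneOf ht
  · apply polyIVT_of_irred
    intro f hf hd
    obtain ⟨s, hs, q, hq⟩ := exists_poly hmax hf hd
    obtain ⟨m, hm⟩ : ∃ m, f.natDegree = m + 1 := ⟨f.natDegree - 1, by omega⟩
    refine ⟨q, ?_, ?_⟩
    · by_cases hqz : q = 0
      · rw [hqz]; simp; omega
      · rw [hm] at hs
        have hsd := polyCone_natDegree hs
        have h4 := natDegree_mul hf.ne_zero hqz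
        rw [← hq] at h4
        have h5 : (1 + s).natDegree ≤ m + m := (natDegree_add_le _ _).trans (by simp; exact hsd)
        omega
    · intro c
      have h2 := congrArg (eval c) hq
      rw [eval_add, eval_mul, eval_one] at h2
      rw [← h2]
      have h3 : 0 ≤ s.eval c := (hnonneg _).mpr (polyCone_eval hs c)
      exact add_pos_of_pos_of_nonneg one_pos h3

end RC

end Pool.Agent.H685_stab
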