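import Pool.Agent.H685_stab.Disc
import Pool.Agent.H685_stab.RealClosure

/-!
The Artin-Lang theorem for two variables.
-/

set_option linter.unusedSectionVars false

namespace Pool.Agent.H685_stab

open Polynomial

section Lang

variable {R : Type} [Field R] [LinearOrder R] [IsStrictOrderedRing R] [Algebra ℝ R]

lemma exists_gap {Z : Finset R} {F : IntermediateField ℝ R} {y : R} (hy : y ∉ Z)
    (hZ : ∀ z ∈ Z, IsAlgebraic F z) :
    ∃ η : R, IsAlgebraic F η ∧ ∀ z ∈ Z, z ∉ Set.uIcc y η := by
  classical
  set A := Z.filter (fun z => z < y) with hA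
  set B := Z.filter (fun z => y < z) with hB
  rcases A.eq_empty_or_nonempty with hAe | hAn
  · rcases B.eq_empty_or_nonempty with hBe | hBn
    · refine ⟨0, isAlgebraic_zero, fun z hz => ?_⟩
      exfalso
      rcases lt_trichotomy z y with h | h | h
      · have : z ∈ A := Finset.mem_filter.mpr ⟨hz, h⟩
        rw [hAe] at this
        exact absurd this (Finset.notMem_empty _)
      · exact hy (h ▸ hz)
      · have : z ∈ B := Finset.mem_filter.mpr ⟨hz, h⟩
        rw [hBe] at this
        exact absurd this (Finset.notMem_empty _)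
    · obtain ⟨z2, hz2, hz2m⟩ := Finset.exists_min_image B id hBn
      have h2 := Finset.mem_filter.mp hz2
      refine ⟨z2 - 1, (hZ z2 h2.1).sub isAlgebraic_one, fun z hz hmem => ?_⟩
      rw [Set.mem_uIcc] at hmem
      have hlt : z < z2 := by
        rcases hmem with h | h
        · linarith [h.2]
        · linarith [h.2, h2.2]
      rcases lt_trichotomy z y with h | h | h
      · have : z ∈ A := Finset.mem_filter.mpr ⟨hz, h⟩
        rw [hAe] at this
        exact absurd this (Finset.notMem_empty _)
      · exact hy (h ▸ hz)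
      · have := hz2m z (Finset.mem_filter.mpr ⟨hz, h⟩)
        simp only [id] at this
        linarith
  · obtain ⟨z1, hz1, hz1m⟩ := Finset.exists_max_image A id hAn
    have h1 := Finset.mem_filter.mp hz1
    rcases B.eq_empty_or_nonempty with hBe | hBn
    · refine ⟨z1 + 1, (hZ z1 h1.1).add isAlgebraic_one, fun z hz hmem => ?_⟩
      rw [Set.mem_uIcc] at hmem
      have hlt : z1 < z := by
        rcases hmem with h | h
        · linarith [h.1, h1.2]
        · linarith [h.1]
      rcases lt_trichotomy z y with h | h | h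
      · have := hz1m z (Finset.mem_filter.mpr ⟨hz, h⟩)
        simp only [id] at this
        linarith
      · exact hy (h ▸ hz)
      · have : z ∈ B := Finset.mem_filter.mpr ⟨hz, h⟩
        rw [hBe] at this
        exact absurd this (Finset.notMem_empty _)
    · obtain ⟨z2, hz2, hz2m⟩ := Finset.exists_min_image B id hBn
      have h2 := Finset.mem_filter.mp hz2
      have h12 : z1 < z2 := h1.2.trans h2.2
      refine ⟨(z1 + z2) / 2, ?_, fun z hz hmem => ?_⟩
      · rw [div_eq_mul_inv]
        refine ((hZ z1 h1.1).add (hZ z2 h2.1)).mul ?_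
        have h22 : IsAlgebraic F (algebraMap F R 2) := isAlgebraic_algebraMap 2
        rw [map_ofNat] at h22
        exact h22.inv
      · rw [Set.mem_uIcc] at hmem
        have hlt1 : z1 < z := by
          rcases hmem with h | h
          · linarith [h.1, h1.2]
          · linarith [h.1]
        have hlt2 : z < z2 := by
          rcases hmem with h | h
          · linarith [h.2]
          · linarith [h.2, h2.2]
        rcases lt_trichotomy z y with h | h | h
        · have := hz1m z (Finset.mem_filter.mpr ⟨hz, h⟩)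
          simp only [id] at this
          linarith
        · exact hy (h ▸ hz)
        · have := hz2m z (Finset.mem_filter.mpr ⟨hz, h⟩)
          simp only [id] at this
          linarith

/-- Restriction of a polynomial to the vertical line through `x`. -/
noncomputable def fib {F : IntermediateField ℝ R} (x : F) (f : MvPolynomial (Fin 2) ℝ) : F[X] :=
  MvPolynomial.aeval ![C x, X] f

lemma aeval_fib {F : IntermediateField ℝ R} (x : F) (f : MvPolynomial (Fin 2) ℝ) (y : R) :
    aeval y (fib x f) = MvPolynomial.aeval ![(x : R), y] f := by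
  unfold fib
  induction f using MvPolynomial.induction_on with
  | C a =>
    rw [MvPolynomial.aeval_C, MvPolynomial.aeval_C]
    rw [Polynomial.algebraMap_apply, aeval_C]
    rfl
  | add p q hp hq => rw [map_add, map_add, map_add, hp, hq]
  | mul_X p i hp =>
    rw [map_mul, map_mul, map_mul, hp, MvPolynomial.aeval_X, MvPolynomial.aeval_X]
    congr 1
    fin_cases i
    · simp
    · simp

lemma change_second (hR : PolyIVT R) {F : IntermediateField ℝ R} (x : F) (y : R)
    {ι : Type*} [Fintype ι] (f : ι → MvPolynomial (Fin 2) ℝ)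
    (hf : ∀ j, 0 < MvPolynomial.aeval ![(x : R), y] (f j)) :
    ∃ η : R, IsAlgebraic F η ∧ ∀ j, 0 < MvPolynomial.aeval ![(x : R), η] (f j) := by
  classical
  have hne : ∀ j, fib x (f j) ≠ 0 := by
    intro j h
    have := hf j
    rw [← aeval_fib, h, map_zero] at this
    exact lt_irrefl _ this
  set Z : Finset R := Finset.univ.biUnion (fun j => ((fib x (f j)).aroots R).toFinset) with hZ
  have hmemZ : ∀ z, z ∈ Z ↔ ∃ j, aeval z (fib x (f j)) = 0 := by
    intro z
    rw [hZ, Finset.mem_biUnion]
    constructor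
    · rintro ⟨j, _, hj⟩
      rw [Multiset.mem_toFinset, mem_aroots] at hj
      exact ⟨j, hj.2⟩
    · rintro ⟨j, hj⟩
      refine ⟨j, Finset.mem_univ _, ?_⟩
      rw [Multiset.mem_toFinset, mem_aroots]
      exact ⟨hne j, hj⟩
  have hyZ : y ∉ Z := by
    rw [hmemZ]
    rintro ⟨j, hj⟩
    have := hf j
    rw [← aeval_fib, hj] at this
    exact lt_irrefl _ this
  have hZalg : ∀ z ∈ Z, IsAlgebraic F z := by
    intro z hz
    obtain ⟨j, hj⟩ := (hmemZ z).mp hz
    exact ⟨_, hne j, hj⟩
  obtain ⟨η, hη, hgap⟩ := exists_gap hyZ hZalg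
  refine ⟨η, hη, fun j => ?_⟩
  by_contra hcon
  push Not at hcon
  set φ : R[X] := (fib x (f j)).map (algebraMap F R) with hφ
  have hφe : ∀ z, φ.eval z = MvPolynomial.aeval ![(x : R), z] (f j) := by
    intro z
    rw [hφ, eval_map_algebraMap, aeval_fib]
  have hy1 : 0 < φ.eval y := by rw [hφe]; exact hf j
  have hη1 : φ.eval η < 0 := by
    rw [hφe]
    refine lt_of_le_of_ne hcon ?_
    intro h0
    have : η ∈ Z := by
      rw [hmemZ]
      exact ⟨j, by rw [aeval_fib]; exact h0⟩
    exact hgap η this Set.right_mem_uIcc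
  have hyη : y ≠ η := by
    intro h
    rw [h] at hy1
    exact lt_asymm hy1 hη1
  have hroot : ∀ c, φ.eval c = 0 → c ∈ Z := by
    intro c hc
    rw [hmemZ]
    exact ⟨j, by rw [aeval_fib, ← hφe]; exact hc⟩
  rcases lt_or_gt_of_ne hyη with h | h
  · obtain ⟨c, h1, h2, h3⟩ := hR φ y η h (mul_neg_of_pos_of_neg hy1 hη1)
    exact hgap c (hroot c h3) (Set.mem_uIcc.mpr (Or.inl ⟨h1.le, h2.le⟩))
  · obtain ⟨c, h1, h2, h3⟩ := hR φ η y h (mul_neg_of_neg_of_pos hη1 hy1)
    exact hgap c (hroot c h3) (Set.mem_uIcc.mpr (Or.inr ⟨h1.le, h2.le⟩))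

/-- Artin-Lang for two variables. -/
theorem artin_lang (hR : PolyIVT R) {x y : R} (hx : ∀ r : ℝ, x ≠ algebraMap ℝ R r)
    {ι : Type*} [Fintype ι] (f : ι → MvPolynomial (Fin 2) ℝ)
    (hf : ∀ j, 0 < MvPolynomial.aeval ![x, y] (f j)) :
    ∃ z : Fin 2 → ℝ, ∀ j, 0 < MvPolynomial.eval z (f j) := by
  set F := IntermediateField.adjoin ℝ {x} with hF
  have hxF : x ∈ F := IntermediateField.mem_adjoin_simple_self ℝ x
  obtain ⟨η, hη, hηf⟩ := change_second hR (⟨x, hxF⟩ : F) y f hf
  -- an infinitesimal generator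
  obtain ⟨x₀, hx₀I, hx₀0, hx₀F, hxx₀⟩ : ∃ x₀ : R, Infl x₀ ∧ x₀ ≠ 0 ∧ x₀ ∈ F ∧
      x ∈ IntermediateField.adjoin ℝ {x₀} := by
    by_cases hb : Bdd x
    · obtain ⟨r, hr⟩ := exists_st hb
      refine ⟨x - algebraMap ℝ R r, hr, sub_ne_zero.mpr (hx r), F.sub_mem hxF (F.algebraMap_mem r),
        ?_⟩
      have h1 := IntermediateField.mem_adjoin_simple_self ℝ (x - algebraMap ℝ R r)
      have h2 := (IntermediateField.adjoin ℝ {x - algebraMap ℝ R r}).algebraMap_mem r
      have := add_mem h1 h2
      rwa [sub_add_cancel] at this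
    · refine ⟨x⁻¹, infl_inv_of_not_bdd hb, ?_, F.inv_mem hxF, ?_⟩
      · apply inv_ne_zero
        rintro rfl
        exact hb Bdd.zero
      · have h1 := IntermediateField.mem_adjoin_simple_self ℝ (x⁻¹)
        have := inv_mem h1
        rwa [inv_inv] at this
  have hFle : F ≤ IntermediateField.adjoin ℝ {x₀} := by
    rw [hF, IntermediateField.adjoin_simple_le_iff]
    exact hxx₀
  have hFv : ∀ z ∈ F, z ≠ 0 → ∃ k : ℤ, Uni (z * x₀ ^ k) := fun z hz hz0 =>
    val_adjoin hx₀I hx₀0 (hFle hz) hz0
  set E' := IntermediateField.adjoin F {η} with hE'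
  set E : IntermediateField ℝ R := E'.restrictScalars ℝ with hE
  have hint : IsIntegral F η := hη.isIntegral
  have hfd : FiniteDimensional F E' := IntermediateField.adjoin.finiteDimensional hint
  have hfree : Module.Free F E' := Module.Free.of_divisionRing F E'
  have hFE : ∀ z ∈ F, z ∈ E := by
    intro z hz
    rw [hE, IntermediateField.mem_restrictScalars]
    exact E'.algebraMap_mem ⟨z, hz⟩
  have hηE : η ∈ E := by
    rw [hE, IntermediateField.mem_restrictScalars]
    exact IntermediateField.mem_adjoin_simple_self F η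
  obtain ⟨t, ht⟩ := exists_unif hx₀I hx₀0 (hFE x₀ hx₀F) (Module.finrank F E') (by
    intro w hw hw0
    rw [hE, IntermediateField.mem_restrictScalars] at hw
    have hwi : IsIntegral F (⟨w, hw⟩ : E') := IsIntegral.of_finite F _
    have h1 : minpoly F (⟨w, hw⟩ : E') ≠ 0 := minpoly.ne_zero hwi
    have h2 : aeval w (minpoly F (⟨w, hw⟩ : E')) = 0 := by
      have h3 := minpoly.aeval F (⟨w, hw⟩ : E')
      have h4 := congrArg (algebraMap E' R) h3
      rw [map_zero, ← aeval_algebraMap_apply] at h4
      exact h4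
    obtain ⟨n, hn, hnd, m, hm⟩ := val_alg hx₀0 hFv hw0 h1 h2
    exact ⟨n, hn, hnd.trans (minpoly.natDegree_le _), m, hm⟩)
  refine ht.real_point (x := ![x, η]) ?_ f hηf
  intro i
  fin_cases i
  · exact hFE x hxF
  · exact hηE

end Lang

end Pool.Agent.H685_stab
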