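import Mathlib

/-!
Laurent polynomials in `τ` with coefficients in `ℝ[u]`, with two filtrations.
-/

set_option linter.unusedSectionVars false

namespace Pool.Agent.H685_stab

open AddMonoidAlgebra

/-- Laurent polynomials: the exponent `(p, k)` stands for `τ ^ p * u ^ k`. -/
abbrev Lr := AddMonoidAlgebra ℝ (ℤ × ℕ)

/-- The monomial `τ ^ p * u ^ k`. -/
noncomputable def mon (p : ℤ) (k : ℕ) : Lr := AddMonoidAlgebra.single (p, k) 1

lemma mon_mul (p p' : ℤ) (k k' : ℕ) : mon p k * mon p' k' = mon (p + p') (k + k') := by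
  simp [mon, AddMonoidAlgebra.single_mul_single]

lemma mon_zero : mon 0 0 = 1 := rfl

lemma mon_pow (p : ℤ) (k n : ℕ) : (mon p k) ^ n = mon (n * p) (n * k) := by
  induction n with
  | zero => simp [mon_zero]
  | succ n ih =>
    rw [pow_succ, ih, mon_mul]
    congr 1
    · push_cast; ring
    · ring

lemma coeff_mon (p : ℤ) (k : ℕ) (q : ℤ × ℕ) : (mon p k).coeff q = if (p, k) = q then 1 else 0 := by
  rw [mon, AddMonoidAlgebra.coeff_single, Finsupp.single_apply]

lemma eq_sum_mon (F : Lr) : F = ∑ q ∈ F.coeff.support, F.coeff q • mon q.1 q.2 := by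
  conv_lhs => rw [← AddMonoidAlgebra.sum_coeff_single F]
  rw [Finsupp.sum]
  refine Finset.sum_congr rfl fun q _ => ?_
  ext r
  simp [mon, Finsupp.single_apply]

/-- The filtration given by a weight. -/
def FW (ω : ℤ × ℕ → ℤ) (n : ℤ) : Submodule ℝ Lr where
  carrier := {F | ∀ q, F.coeff q ≠ 0 → ω q ≤ n}
  add_mem' := by
    intro F G hF hG q hq
    by_contra hcon
    have h1 : F.coeff q = 0 := by
      by_contra h; exact hcon (hF q h)
    have h2 : G.coeff q = 0 := by
      by_contra h; exact hcon (hG q h)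
    apply hq
    rw [AddMonoidAlgebra.coeff_add, Finsupp.add_apply, h1, h2, add_zero]
  zero_mem' := by
    intro q hq
    simp at hq
  smul_mem' := by
    intro c F hF q hq
    apply hF q
    intro h
    apply hq
    rw [AddMonoidAlgebra.coeff_smul, Finsupp.smul_apply, h, smul_zero]

lemma mem_FW {ω : ℤ × ℕ → ℤ} {n : ℤ} {F : Lr} : F ∈ FW ω n ↔ ∀ q, F.coeff q ≠ 0 → ω q ≤ n :=
  Iff.rfl

lemma FW_mono {ω : ℤ × ℕ → ℤ} {n m : ℤ} (h : n ≤ m) : FW ω n ≤ FW ω m :=
  fun _ hF q hq => (hF q hq).trans h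

lemma mon_mem_FW {ω : ℤ × ℕ → ℤ} {n : ℤ} {p : ℤ} {k : ℕ} (h : ω (p, k) ≤ n) :
    mon p k ∈ FW ω n := by
  intro q hq
  rw [coeff_mon] at hq
  split_ifs at hq with h1
  · rw [← h1]; exact h
  · exact absurd rfl hq

lemma FW_mul {ω : ℤ × ℕ → ℤ} (hω : ∀ a b, ω (a + b) = ω a + ω b) {n m : ℤ} {F G : Lr}
    (hF : F ∈ FW ω n) (hG : G ∈ FW ω m) : F * G ∈ FW ω (n + m) := by
  classical
  intro q hq
  have h1 := AddMonoidAlgebra.support_coeff_mul_subset F G (Finsupp.mem_support_iff.mpr hq)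
  obtain ⟨a, ha, b, hb, rfl⟩ := Finset.mem_add.mp h1
  rw [hω]
  exact add_le_add (hF a (Finsupp.mem_support_iff.mp ha)) (hG b (Finsupp.mem_support_iff.mp hb))

/-- The first weight: `k - p`. -/
def wD (q : ℤ × ℕ) : ℤ := q.2 - q.1

/-- The second weight: `-p`. -/
def wG (q : ℤ × ℕ) : ℤ := -q.1

lemma wD_add (a b : ℤ × ℕ) : wD (a + b) = wD a + wD b := by
  simp only [wD, Prod.fst_add, Prod.snd_add]; push_cast; ring

lemma wG_add (a b : ℤ × ℕ) : wG (a + b) = wG a + wG b := by
  simp only [wG, Prod.fst_add]; ring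

/-- The filtration by `k - p`. -/
abbrev Fl (n : ℤ) : Submodule ℝ Lr := FW wD n

/-- The filtration by the order of growth as `τ → 0`. -/
abbrev Gr (m : ℤ) : Submodule ℝ Lr := FW wG m

lemma Fl_mul {n m : ℤ} {F G : Lr} (hF : F ∈ Fl n) (hG : G ∈ Fl m) : F * G ∈ Fl (n + m) :=
  FW_mul wD_add hF hG

lemma Gr_mul {n m : ℤ} {F G : Lr} (hF : F ∈ Gr n) (hG : G ∈ Gr m) : F * G ∈ Gr (n + m) :=
  FW_mul wG_add hF hG

lemma mon_mem_Fl {n : ℤ} {p : ℤ} {k : ℕ} (h : (k : ℤ) - p ≤ n) : mon p k ∈ Fl n := mon_mem_FW h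

lemma mon_mem_Gr {n : ℤ} {p : ℤ} {k : ℕ} (h : -p ≤ n) : mon p k ∈ Gr n := mon_mem_FW h

lemma one_mem_Fl : (1 : Lr) ∈ Fl 0 := by rw [← mon_zero]; exact mon_mem_Fl (by simp)

lemma one_mem_Gr : (1 : Lr) ∈ Gr 0 := by rw [← mon_zero]; exact mon_mem_Gr (by simp)

lemma Fl_pow {n : ℤ} {F : Lr} (hF : F ∈ Fl n) (k : ℕ) : F ^ k ∈ Fl (k * n) := by
  induction k with
  | zero => simpa using one_mem_Fl
  | succ k ih =>
    rw [pow_succ]
    have := Fl_mul ih hF
    convert this using 2
    push_cast; ring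

lemma Gr_pow {n : ℤ} {F : Lr} (hF : F ∈ Gr n) (k : ℕ) : F ^ k ∈ Gr (k * n) := by
  induction k with
  | zero => simpa using one_mem_Gr
  | succ k ih =>
    rw [pow_succ]
    have := Gr_mul ih hF
    convert this using 2
    push_cast; ring

/-- Congruence of products modulo the filtration. -/
lemma Fl_mul_congr {n m e : ℤ} {F F' G G' : Lr} (hF' : F' ∈ Fl n) (hG : G ∈ Fl m)
    (h1 : F - F' ∈ Fl (n - e)) (h2 : G - G' ∈ Fl (m - e)) :
    F * G - F' * G' ∈ Fl (n + m - e) := by
  have : F * G - F' * G' = (F - F') * G + F' * (G - G') := by ring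
  rw [this]
  refine add_mem ?_ ?_
  · have := Fl_mul h1 hG
    convert this using 2; ring
  · have := Fl_mul hF' h2
    convert this using 2; ring

lemma Fl_pow_congr {n e : ℤ} {F F' : Lr} (hF : F ∈ Fl n) (hF' : F' ∈ Fl n)
    (h : F - F' ∈ Fl (n - e)) (k : ℕ) : F ^ k - F' ^ k ∈ Fl (k * n - e) := by
  induction k with
  | zero => simp
  | succ k ih =>
    rw [pow_succ, pow_succ]
    have := Fl_mul_congr (Fl_pow hF' k) hF ih h
    convert this using 2
    push_cast; ring

/-- The coefficient of `τ ^ (-m)` as a polynomial in `u`. -/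
noncomputable def lead (m : ℤ) : Lr →ₗ[ℝ] Polynomial ℝ where
  toFun F := ∑ q ∈ F.coeff.support, if q.1 = -m then Polynomial.monomial q.2 (F.coeff q) else 0
  map_add' F G := by
    ext k
    have key : ∀ F : Lr, (∑ q ∈ F.coeff.support, if q.1 = -m then
        Polynomial.monomial q.2 (F.coeff q) else 0 : Polynomial ℝ).coeff k = F.coeff (-m, k) := by
      intro F
      rw [Polynomial.finsetSum_coeff]
      rw [Finset.sum_eq_single (-m, k)]
      · simp
      · rintro ⟨a, b⟩ _ hb
        by_cases h : a = -m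
        · subst h
          have : b ≠ k := by rintro rfl; exact hb rfl
          simp [Polynomial.coeff_monomial, this]
        · simp [h]
      · intro h
        rw [Finsupp.notMem_support_iff] at h
        simp [h]
    rw [Polynomial.coeff_add, key, key, key]
    rfl
  map_smul' c F := by
    ext k
    have key : ∀ F : Lr, (∑ q ∈ F.coeff.support, if q.1 = -m then
        Polynomial.monomial q.2 (F.coeff q) else 0 : Polynomial ℝ).coeff k = F.coeff (-m, k) := by
      intro F
      rw [Polynomial.finsetSum_coeff]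
      rw [Finset.sum_eq_single (-m, k)]
      · simp
      · rintro ⟨a, b⟩ _ hb
        by_cases h : a = -m
        · subst h
          have : b ≠ k := by rintro rfl; exact hb rfl
          simp [Polynomial.coeff_monomial, this]
        · simp [h]
      · intro h
        rw [Finsupp.notMem_support_iff] at h
        simp [h]
    rw [RingHom.id_apply, Polynomial.coeff_smul, key, key]
    rfl

lemma coeff_lead (m : ℤ) (F : Lr) (k : ℕ) : (lead m F).coeff k = F.coeff (-m, k) := by
  change (∑ q ∈ F.coeff.support, if q.1 = -m then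
        Polynomial.monomial q.2 (F.coeff q) else 0 : Polynomial ℝ).coeff k = F.coeff (-m, k)
  rw [Polynomial.finsetSum_coeff]
  rw [Finset.sum_eq_single (-m, k)]
  · simp
  · rintro ⟨a, b⟩ _ hb
    by_cases h : a = -m
    · subst h
      have : b ≠ k := by rintro rfl; exact hb rfl
      simp [Polynomial.coeff_monomial, this]
    · simp [h]
  · intro h
    rw [Finsupp.notMem_support_iff] at h
    simp [h]

lemma lead_mon (m p : ℤ) (k : ℕ) :
    lead m (mon p k) = if p = -m then Polynomial.X ^ k else 0 := by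
  ext l
  rw [coeff_lead, coeff_mon]
  by_cases h : p = -m
  · subst h
    simp [Polynomial.coeff_X_pow, eq_comm]
  · simp [h]

lemma mem_Gr_pred {m : ℤ} {F : Lr} (hF : F ∈ Gr m) (h : lead m F = 0) : F ∈ Gr (m - 1) := by
  intro q hq
  have h1 := hF q hq
  have h2 : q.1 ≠ -m := by
    intro h3
    apply hq
    have := coeff_lead m F q.2
    rw [h, Polynomial.coeff_zero, ← h3] at this
    exact this.symm
  simp only [wG] at h1 ⊢
  omega

lemma lead_of_mem {m n : ℤ} {F : Lr} (hF : F ∈ Gr n) (h : n < m) : lead m F = 0 := by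
  ext k
  rw [coeff_lead, Polynomial.coeff_zero]
  by_contra hne
  have := hF _ hne
  simp only [wG] at this
  omega

lemma lead_mul {m n : ℤ} {F G : Lr} (hF : F ∈ Gr m) (hG : G ∈ Gr n) :
    lead (m + n) (F * G) = lead m F * lead n G := by
  have key : ∀ q ∈ F.coeff.support, ∀ r ∈ G.coeff.support,
      lead (m + n) (mon q.1 q.2 * mon r.1 r.2) = lead m (mon q.1 q.2) * lead n (mon r.1 r.2) := by
    intro q hq r hr
    have h1 := hF q (Finsupp.mem_support_iff.mp hq)
    have h2 := hG r (Finsupp.mem_support_iff.mp hr)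
    simp only [wG] at h1 h2
    rw [mon_mul, lead_mon, lead_mon, lead_mon]
    by_cases h3 : q.1 = -m
    · by_cases h4 : r.1 = -n
      · rw [if_pos (by omega), if_pos h3, if_pos h4, pow_add]
      · rw [if_neg (by omega), if_neg h4, mul_zero]
    · rw [if_neg (by omega), if_neg h3, zero_mul]
  conv_lhs => rw [eq_sum_mon F, eq_sum_mon G]
  conv_rhs => rw [eq_sum_mon F, eq_sum_mon G]
  rw [Finset.sum_mul_sum, map_sum, map_sum, map_sum, Finset.sum_mul_sum]
  refine Finset.sum_congr rfl fun q hq => ?_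
  rw [map_sum]
  refine Finset.sum_congr rfl fun r hr => ?_
  rw [smul_mul_smul_comm, map_smul, map_smul, map_smul, smul_mul_smul_comm, key q hq r hr]

lemma exists_Gr (F : Lr) : ∃ m : ℕ, F ∈ Gr m := by
  refine ⟨∑ q ∈ F.coeff.support, q.1.natAbs, fun q hq => ?_⟩
  have h1 : q.1.natAbs ≤ ∑ q ∈ F.coeff.support, q.1.natAbs :=
    Finset.single_le_sum (f := fun q : ℤ × ℕ => q.1.natAbs) (fun _ _ => Nat.zero_le _)
      (Finsupp.mem_support_iff.mpr hq)
  simp only [wG]
  omega

/-- Evaluation at real numbers, `τ ≠ 0`. -/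
noncomputable def evL (u τ : ℝ) (hτ : τ ≠ 0) : Lr →ₐ[ℝ] ℝ :=
  AddMonoidAlgebra.lift ℝ ℝ (ℤ × ℕ)
    { toFun := fun q => τ ^ (Multiplicative.toAdd q).1 * u ^ (Multiplicative.toAdd q).2
      map_one' := by simp
      map_mul' := by
        intro a b
        simp only [toAdd_mul, Prod.fst_add, Prod.snd_add]
        rw [zpow_add₀ hτ, pow_add]
        ring }

lemma evL_mon (u τ : ℝ) (hτ : τ ≠ 0) (p : ℤ) (k : ℕ) : evL u τ hτ (mon p k) = τ ^ p * u ^ k := by
  rw [mon, evL, AddMonoidAlgebra.lift_single]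
  simp

lemma evL_eq_sum (u τ : ℝ) (hτ : τ ≠ 0) (F : Lr) :
    evL u τ hτ F = ∑ q ∈ F.coeff.support, F.coeff q * (τ ^ q.1 * u ^ q.2) := by
  conv_lhs => rw [eq_sum_mon F]
  rw [map_sum]
  refine Finset.sum_congr rfl fun q _ => ?_
  rw [map_smul, evL_mon, smul_eq_mul]

end Pool.Agent.H685_stab
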