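import Pool.Agent.H685_stab.SOS

/-!
Limits of sums of squares of bounded degree.
-/

namespace Pool.Agent.H685_stab

open MvPolynomial Filter Topology

lemma val_grid_inj {k : ℕ} (c : Ix k → ℝ)
    (h : ∀ j : Ix k, val c ![((j.1 : ℕ) : ℝ), ((j.2 : ℕ) : ℝ)] = 0) : c = 0 := by
  have hinj : Function.Injective (fun i : Fin (k + 1) => ((i : ℕ) : ℝ)) := by
    intro a b hab
    have : ((a : ℕ) : ℝ) = ((b : ℕ) : ℝ) := hab
    exact Fin.ext (by exact_mod_cast this)
  have h1 : ∀ (q : Fin (k + 1)) (i : Fin (k + 1)), ∑ j : Fin (k + 1),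
      c (i, j) * ((q : ℕ) : ℝ) ^ (j : ℕ) = 0 := by
    intro q
    have := Matrix.eq_zero_of_forall_index_sum_pow_mul_eq_zero (R := ℝ) hinj
      (v := fun i => ∑ j : Fin (k + 1), c (i, j) * ((q : ℕ) : ℝ) ^ (j : ℕ)) ?_
    · intro i; exact congrFun this i
    · intro p
      have h2 := h (p, q)
      simp only [val, Fintype.sum_prod_type] at h2
      rw [← h2]
      refine Finset.sum_congr rfl fun i _ => ?_
      rw [Finset.mul_sum]
      refine Finset.sum_congr rfl fun j _ => ?_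
      simp
      ring
  have h3 : ∀ i : Fin (k + 1), (fun j => c (i, j)) = 0 := by
    intro i
    apply Matrix.eq_zero_of_forall_index_sum_pow_mul_eq_zero (R := ℝ) hinj
    intro q
    rw [← h1 q i]
    refine Finset.sum_congr rfl fun j _ => ?_
    ring
  ext ⟨i, j⟩
  exact congrFun (h3 i) j

/-- Evaluation on the grid. -/
noncomputable def evalGrid (k : ℕ) : (Ix k → ℝ) →ₗ[ℝ] (Ix k → ℝ) where
  toFun c := fun j => val c ![((j.1 : ℕ) : ℝ), ((j.2 : ℕ) : ℝ)]
  map_add' c d := by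
    ext j
    simp [val, add_mul, Finset.sum_add_distrib]
  map_smul' r c := by
    ext j
    simp [val, Finset.mul_sum, mul_assoc]

lemma evalGrid_ker (k : ℕ) : (evalGrid k).ker = ⊥ := by
  rw [LinearMap.ker_eq_bot']
  intro c hc
  exact val_grid_inj c (fun j => congrFun hc j)

lemma coeff_bound (k : ℕ) : ∃ K : ℝ, 0 < K ∧ ∀ (c : Ix k → ℝ) (B : ℝ), 0 ≤ B →
    (∀ j : Ix k, (val c ![((j.1 : ℕ) : ℝ), ((j.2 : ℕ) : ℝ)]) ^ 2 ≤ B) → ‖c‖ ≤ K * Real.sqrt B := by
  obtain ⟨K, hK, hanti⟩ := (evalGrid k).exists_antilipschitzWith (evalGrid_ker k)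
  refine ⟨K, by exact_mod_cast hK, fun c B hB h => ?_⟩
  have h1 := hanti.le_mul_dist c 0
  rw [map_zero, dist_zero_right, dist_zero_right] at h1
  refine h1.trans ?_
  apply mul_le_mul_of_nonneg_left _ (by positivity)
  rw [pi_norm_le_iff_of_nonneg (Real.sqrt_nonneg _)]
  intro j
  rw [Real.norm_eq_abs]
  apply Real.abs_le_sqrt
  exact h j

lemma continuous_val {k : ℕ} (z : Fin 2 → ℝ) : Continuous (fun c : Ix k → ℝ => val c z) := by
  unfold val
  fun_prop

/-- A pointwise limit of `σ n + τ n * G n`, with `σ n`, `τ n` sums of squares of bounded degree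
and `G n` tending pointwise to a positive constant, is `Σ + c Σ`. -/
lemma limit_sos {k : ℕ} {σ τ : ℕ → P2} {G H : ℕ → (Fin 2 → ℝ) → ℝ} {c : ℝ} (hc : 0 < c)
    {H₀ : (Fin 2 → ℝ) → ℝ}
    (hσ : ∀ n, IsSumSq (σ n)) (hτ : ∀ n, IsSumSq (τ n))
    (dσ : ∀ n, (σ n).totalDegree ≤ 2 * k) (dτ : ∀ n, (τ n).totalDegree ≤ 2 * k)
    (heq : ∀ n z, H n z = eval z (σ n) + eval z (τ n) * G n z)
    (hG : ∀ z, Tendsto (fun n => G n z) atTop (𝓝 c))
    (hH : ∀ z, Tendsto (fun n => H n z) atTop (𝓝 (H₀ z))) :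
    ∃ a b : Ix k → Ix k → ℝ, ∀ z, H₀ z = ∑ r, (val (a r) z) ^ 2 + c * ∑ r, (val (b r) z) ^ 2 := by
  choose a ha using fun n => sos_bounded (hσ n) (dσ n)
  choose b hb using fun n => sos_bounded (hτ n) (dτ n)
  obtain ⟨K, hK, hbound⟩ := coeff_bound k
  let gp : Ix k → (Fin 2 → ℝ) := fun j => ![((j.1 : ℕ) : ℝ), ((j.2 : ℕ) : ℝ)]
  -- a common bound
  obtain ⟨B, hB0, hB⟩ : ∃ B : ℝ, 0 < B ∧ ∀ j, H₀ (gp j) < B := by
    refine ⟨∑ j, |H₀ (gp j)| + 1, by positivity, fun j => ?_⟩
    have h1 : |H₀ (gp j)| ≤ ∑ j, |H₀ (gp j)| :=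
      Finset.single_le_sum (f := fun j => |H₀ (gp j)|) (fun _ _ => abs_nonneg _) (Finset.mem_univ j)
    have := le_abs_self (H₀ (gp j))
    linarith
  have ev1 : ∀ᶠ n in atTop, ∀ j, H n (gp j) < B := by
    rw [eventually_all]
    intro j
    exact (hH (gp j)).eventually_lt_const (hB j)
  have ev2 : ∀ᶠ n in atTop, ∀ j, c / 2 < G n (gp j) := by
    rw [eventually_all]
    intro j
    exact (hG (gp j)).eventually_const_lt (by linarith)
  have hmem : ∀ᶠ n in atTop, (a n, b n) ∈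
      (Metric.closedBall (0 : (Ix k → Ix k → ℝ) × (Ix k → Ix k → ℝ))
        (K * Real.sqrt B + K * Real.sqrt (2 * B / c))) := by
    filter_upwards [ev1, ev2] with n h1 h2
    have hτnn : ∀ z, 0 ≤ eval z (τ n) := by
      intro z; rw [hb]; positivity
    have hσnn : ∀ z, 0 ≤ eval z (σ n) := by
      intro z; rw [ha]; positivity
    have hA : ∀ r, ‖a n r‖ ≤ K * Real.sqrt B := by
      intro r
      apply hbound _ _ hB0.le
      intro j
      have e1 : (val (a n r) (gp j)) ^ 2 ≤ eval (gp j) (σ n) := by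
        rw [ha]
        exact Finset.single_le_sum (f := fun r => (val (a n r) (gp j)) ^ 2)
          (fun _ _ => sq_nonneg _) (Finset.mem_univ r)
      have e2 := heq n (gp j)
      have e3 := h1 j
      have e4 := h2 j
      have e5 : 0 ≤ eval (gp j) (τ n) * G n (gp j) := mul_nonneg (hτnn _) (by linarith)
      change (val (a n r) (gp j)) ^ 2 ≤ B
      linarith
    have hBb : ∀ r, ‖b n r‖ ≤ K * Real.sqrt (2 * B / c) := by
      intro r
      apply hbound _ _ (by positivity)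
      intro j
      have e1 : (val (b n r) (gp j)) ^ 2 ≤ eval (gp j) (τ n) := by
        rw [hb]
        exact Finset.single_le_sum (f := fun r => (val (b n r) (gp j)) ^ 2)
          (fun _ _ => sq_nonneg _) (Finset.mem_univ r)
      have e2 := heq n (gp j)
      have e3 := h1 j
      have e4 := h2 j
      have e5 : 0 ≤ eval (gp j) (τ n) * (G n (gp j) - c / 2) := mul_nonneg (hτnn _) (by linarith)
      have e6 : eval (gp j) (τ n) * (c / 2) ≤ B := by
        have := hσnn (gp j)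
        nlinarith
      change (val (b n r) (gp j)) ^ 2 ≤ 2 * B / c
      rw [le_div_iff₀ hc]
      nlinarith
    rw [mem_closedBall_zero_iff, Prod.norm_mk]
    have p1 : 0 ≤ K * Real.sqrt B := by positivity
    have p2 : 0 ≤ K * Real.sqrt (2 * B / c) := by positivity
    apply max_le
    · rw [pi_norm_le_iff_of_nonneg (by positivity)]
      intro r; linarith [hA r]
    · rw [pi_norm_le_iff_of_nonneg (by positivity)]
      intro r; linarith [hBb r]
  obtain ⟨⟨a₀, b₀⟩, -, φ, hφ, hlim⟩ :=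
    tendsto_subseq_of_frequently_bounded Metric.isBounded_closedBall hmem.frequently
  refine ⟨a₀, b₀, fun z => ?_⟩
  have hφt := hφ.tendsto_atTop
  have t1 : Tendsto (fun n => H (φ n) z) atTop (𝓝 (H₀ z)) := (hH z).comp hφt
  have ca : Tendsto (fun n => a (φ n)) atTop (𝓝 a₀) := (continuous_fst.tendsto _).comp hlim
  have cb : Tendsto (fun n => b (φ n)) atTop (𝓝 b₀) := (continuous_snd.tendsto _).comp hlim
  have t2 : Tendsto (fun n => ∑ r, (val (a (φ n) r) z) ^ 2) atTop
      (𝓝 (∑ r, (val (a₀ r) z) ^ 2)) := by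
    apply tendsto_finsetSum
    intro r _
    exact (((continuous_val z).tendsto _).comp ((continuous_apply r).tendsto _ |>.comp ca)).pow 2
  have t3 : Tendsto (fun n => ∑ r, (val (b (φ n) r) z) ^ 2) atTop
      (𝓝 (∑ r, (val (b₀ r) z) ^ 2)) := by
    apply tendsto_finsetSum
    intro r _
    exact (((continuous_val z).tendsto _).comp ((continuous_apply r).tendsto _ |>.comp cb)).pow 2
  have t4 : Tendsto (fun n => G (φ n) z) atTop (𝓝 c) := (hG z).comp hφt
  have t5 := t2.add (t3.mul t4)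
  have e : (fun n => H (φ n) z) = fun n => (∑ r, (val (a (φ n) r) z) ^ 2)
      + (∑ r, (val (b (φ n) r) z) ^ 2) * G (φ n) z := by
    ext n
    rw [heq, ha, hb]
  rw [e] at t1
  rw [tendsto_nhds_unique t1 t5]
  ring

end Pool.Agent.H685_stab
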