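import Pool.Agent.H685_stab.Mittag

/-!
Realisation of principal parts, continued.
-/

set_option linter.unusedSectionVars false

namespace Pool.Agent.H685_stab

open MvPolynomial

/-- First factor. -/
noncomputable def pre : Fin 3 → P2 := ![vy, vx, vx]
/-- Middle factor. -/
noncomputable def mid : Fin 3 → P2 := ![vy * (vy - vx), vx * (vx - vy), vx * vy]
/-- Last factor. -/
noncomputable def post : Fin 3 → P2 := ![-pc, pc, -pb]

lemma pre_An (i : Fin 3) : pre i ∈ An 1 := by
  fin_cases i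
  · exact vy_mem_An
  · exact vx_mem_An
  · exact vx_mem_An

lemma mid_An (i : Fin 3) : mid i ∈ An 2 := by
  have h1 : vy * (vy - vx) ∈ An (1 + 1) := An_mul vy_mem_An (sub_mem vy_mem_An vx_mem_An)
  have h2 : vx * (vx - vy) ∈ An (1 + 1) := An_mul vx_mem_An (sub_mem vx_mem_An vy_mem_An)
  have h3 : vx * vy ∈ An (1 + 1) := An_mul vx_mem_An vy_mem_An
  fin_cases i
  · exact h1
  · exact h2
  · exact h3

lemma post_An (i : Fin 3) : post i ∈ An 1 := by
  fin_cases i
  · exact neg_mem pc_mem_An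
  · exact pc_mem_An
  · exact neg_mem pb_mem_An

lemma pre_mem (i l : Fin 3) : ph l (pre i) ∈ Fl 1 := by
  fin_cases i
  · exact phy_mem l
  · exact phx_mem l
  · exact phx_mem l

lemma post_mem (i l : Fin 3) : ph l (post i) ∈ Fl 1 := by
  fin_cases i
  · change ph l (-pc) ∈ Fl 1
    rw [map_neg]; exact neg_mem (phc_mem l)
  · exact phc_mem l
  · change ph l (-pb) ∈ Fl 1
    rw [map_neg]; exact neg_mem (phb_mem l)

lemma pre_congr (i : Fin 3) : ph i (pre i) - rr ∈ Fl (-1) := by
  fin_cases i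
  · exact cy 0
  · exact cx 1
  · exact cx 2

lemma post_congr (i : Fin 3) : ph i (post i) - uu ∈ Fl (-1) := by
  fin_cases i
  · change ph 0 (-pc) - uu ∈ Fl (-1)
    have h : ph 0 pc - -uu ∈ Fl (-1) := cc 0
    have := neg_mem h
    rw [map_neg]
    convert this using 1; ring
  · exact cc 1
  · change ph 2 (-pb) - uu ∈ Fl (-1)
    have h : ph 2 pb - -uu ∈ Fl (-1) := cb 2
    have := neg_mem h
    rw [map_neg]
    convert this using 1; ring

lemma mid_congr (i : Fin 3) : ph i (mid i) - rr * rr ∈ Fl 0 := by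
  have e1 : ∀ {F G : Lr}, F ∈ Fl 1 → G ∈ Fl (-1) → F * G ∈ Fl 0 := by
    intro F G hF hG
    exact Fl_mul hF hG
  fin_cases i
  · change ph 0 (vy * (vy - vx)) - rr * rr ∈ Fl 0
    rw [map_mul, map_sub, ph0_y]
    have := e1 rr_mem (neg_mem (cx 0))
    convert this using 1
    change rr * (rr - ph 0 vx) - rr * rr = rr * -(ph 0 vx - 0)
    ring
  · change ph 1 (vx * (vx - vy)) - rr * rr ∈ Fl 0
    rw [map_mul, map_sub, ph1_x]
    have := e1 rr_mem (neg_mem (cy 1))
    convert this using 1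
    change rr * (rr - ph 1 vy) - rr * rr = rr * -(ph 1 vy - 0)
    ring
  · change ph 2 (vx * vy) - rr * rr ∈ Fl 0
    rw [map_mul, ph2_y]
    have := e1 rr_mem (cx 2)
    convert this using 1
    change ph 2 vx * rr - rr * rr = rr * (ph 2 vx - rr)
    ring

lemma mid_small {i l : Fin 3} (h : l ≠ i) : ph l (mid i) ∈ Fl 0 := by
  have e1 : ∀ {F G : Lr}, F ∈ Fl 1 → G ∈ Fl (-1) → F * G ∈ Fl 0 := by
    intro F G hF hG
    exact Fl_mul hF hG
  have cx0 : ph 0 vx ∈ Fl (-1) := by have := cx 0; rwa [show topx 0 = 0 from rfl, sub_zero] at this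
  have cy1 : ph 1 vy ∈ Fl (-1) := by have := cy 1; rwa [show topy 1 = 0 from rfl, sub_zero] at this
  have hs2 := s2_mem
  have hxy : ∀ l, ph l vx - ph l vy ∈ Fl 1 := fun l => sub_mem (phx_mem l) (phy_mem l)
  fin_cases i <;> fin_cases l
  · exact absurd rfl h
  · change ph 1 (vy * (vy - vx)) ∈ Fl 0
    have := e1 (neg_mem (hxy 1)) cy1
    convert this using 1
    rw [map_mul, map_sub]; ring
  · change ph 2 (vy * (vy - vx)) ∈ Fl 0
    have := e1 (phy_mem 2) (neg_mem hs2)
    convert this using 1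
    rw [map_mul, map_sub]; ring
  · change ph 0 (vx * (vx - vy)) ∈ Fl 0
    have := e1 (hxy 0) cx0
    convert this using 1
    rw [map_mul, map_sub]; ring
  · exact absurd rfl h
  · change ph 2 (vx * (vx - vy)) ∈ Fl 0
    have := e1 (phx_mem 2) hs2
    convert this using 1
    rw [map_mul, map_sub]
  · change ph 0 (vx * vy) ∈ Fl 0
    have := e1 (phy_mem 0) cx0
    convert this using 1
    rw [map_mul]; ring
  · change ph 1 (vx * vy) ∈ Fl 0
    have := e1 (phx_mem 1) cy1
    convert this using 1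
    rw [map_mul]
  · exact absurd rfl h

/-- The polynomial realising `r ^ (j + 2) * u ^ k` on one tentacle. -/
noncomputable def hh (i : Fin 3) (j k : ℕ) : P2 := pre i ^ j * mid i * post i ^ k

lemma hh_An (i : Fin 3) (j k : ℕ) : hh i j k ∈ An (j + 2 + k) := by
  have h1 := An_pow (pre_An i) j
  have h2 := An_pow (post_An i) k
  have := An_mul (An_mul h1 (mid_An i)) h2
  simpa [hh] using this

lemma hh_congr (i : Fin 3) (j k : ℕ) : ph i (hh i j k) - rr ^ (j + 2) * uu ^ k ∈ Fl (j + 1 + k) := by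
  have h1 := Fl_pow_congr (e := 1) (pre_mem i i) rr_mem (FW_mono (by norm_num) (pre_congr i)) j
  have h2 := Fl_pow_congr (e := 1) (post_mem i i) uu_mem (FW_mono (by norm_num) (post_congr i)) k
  have hm : ph i (mid i) ∈ Fl 2 := by
    have : rr * rr ∈ Fl (1 + 1) := Fl_mul rr_mem rr_mem
    exact mem_of_congr (by norm_num) (mid_congr i) this
  have h3 := Fl_mul_congr (e := 1) (Fl_pow rr_mem j) hm h1
    (FW_mono (ω := wD) (show (0 : ℤ) ≤ 2 - 1 by norm_num) (mid_congr i))
  have h4 : rr ^ j * (rr * rr) ∈ Fl (j * 1 + 2) := Fl_mul (Fl_pow rr_mem j) (Fl_mul rr_mem rr_mem)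
  have h5 := Fl_mul_congr (e := 1) h4 (Fl_pow (post_mem i i) k) h3 h2
  have e : ph i (hh i j k) = ph i (pre i) ^ j * ph i (mid i) * ph i (post i) ^ k := by
    rw [hh, map_mul, map_mul, map_pow, map_pow]
  rw [e]
  have e3 : (j : ℤ) + 1 + k = j * 1 + 2 + k * 1 - 1 := by ring
  have e4 : rr ^ (j + 2) * uu ^ k = rr ^ j * (rr * rr) * uu ^ k := by
    rw [pow_add, sq]
  rw [e3, e4]
  exact h5

lemma hh_small {i l : Fin 3} (h : l ≠ i) (j k : ℕ) : ph l (hh i j k) ∈ Fl (j + 1 + k) := by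
  have h1 := Fl_pow (pre_mem i l) j
  have h2 := Fl_pow (post_mem i l) k
  have h3 := Fl_mul (Fl_mul h1 (mid_small h)) h2
  have e : ph l (hh i j k) = ph l (pre i) ^ j * ph l (mid i) * ph l (post i) ^ k := by
    rw [hh, map_mul, map_mul, map_pow, map_pow]
  rw [e]
  exact FW_mono (by omega) h3

lemma rr_uu (j k : ℕ) : rr ^ j * uu ^ k = mon (-j) k := by
  rw [mon_pow, mon_pow, mon_mul]
  congr 1
  · ring
  · ring

lemma uu_Gr (k : ℕ) : uu ^ k ∈ Gr 0 := by
  rw [mon_pow]; exact mon_mem_Gr (by simp)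

lemma gt_eq (n : ℕ) (l i : Fin 3) : ∃ κ : ℝ, gt n l i
    = (if i = l then rr * uu ^ n else 0) + κ • uu ^ (n + 1) := by
  have e : (-uu) ^ (n + 1) = ((-1 : ℝ) ^ (n + 1)) • uu ^ (n + 1) := by
    rw [← neg_one_smul ℝ uu, smul_pow]
  fin_cases l <;> fin_cases i
  · exact ⟨1 / ((n : ℝ) + 1), by
      change rr * uu ^ n + (1 / ((n : ℝ) + 1)) • uu ^ (n + 1) = _
      simp⟩
  · exact ⟨(1 / ((n : ℝ) + 1)) * (-1) ^ (n + 1), by
      change (1 / ((n : ℝ) + 1)) • (-uu) ^ (n + 1) = _
      rw [e, smul_smul]; simp⟩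
  · exact ⟨(1 / ((n : ℝ) + 1)) * (-1) ^ (n + 1), by
      change (1 / ((n : ℝ) + 1)) • (-uu) ^ (n + 1) = _
      rw [e, smul_smul]; simp⟩
  · exact ⟨-((1 / ((n : ℝ) + 1)) * (-1) ^ (n + 1)), by
      change -((1 / ((n : ℝ) + 1)) • (-uu) ^ (n + 1)) = _
      rw [e, smul_smul]; simp⟩
  · exact ⟨-(1 / ((n : ℝ) + 1)), by
      change rr * uu ^ n - (1 / ((n : ℝ) + 1)) • uu ^ (n + 1) = _
      rw [neg_smul]; simp [sub_eq_add_neg]⟩
  · exact ⟨-(1 / ((n : ℝ) + 1)), by
      change -((1 / ((n : ℝ) + 1)) • uu ^ (n + 1)) = _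
      rw [neg_smul]; simp⟩
  · exact ⟨(1 / ((n : ℝ) + 1)) * (-1) ^ (n + 1), by
      change (1 / ((n : ℝ) + 1)) • (-uu) ^ (n + 1) = _
      rw [e, smul_smul]; simp⟩
  · exact ⟨1 / ((n : ℝ) + 1), by
      change (1 / ((n : ℝ) + 1)) • uu ^ (n + 1) = _
      simp⟩
  · exact ⟨1 / ((n : ℝ) + 1), by
      change rr * uu ^ n + (1 / ((n : ℝ) + 1)) • uu ^ (n + 1) = _
      simp⟩

/-- The triple supported on one tentacle. -/
noncomputable def tri (i : Fin 3) (F : Lr) : Fin 3 → Lr := fun l => if l = i then F else 0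

lemma tri_add (i : Fin 3) (F G : Lr) : tri i (F + G) = tri i F + tri i G := by
  ext1 l; simp only [tri, Pi.add_apply]; split_ifs <;> simp

lemma tri_smul (i : Fin 3) (c : ℝ) (F : Lr) : tri i (c • F) = c • tri i F := by
  ext1 l; simp only [tri, Pi.smul_apply]; split_ifs <;> simp

/-- The inclusion of one tentacle as a linear map. -/
noncomputable def triL (i : Fin 3) : Lr →ₗ[ℝ] (Fin 3 → Lr) where
  toFun := tri i
  map_add' := tri_add i
  map_smul' := tri_smul i

lemma ML_mon {n : ℕ} (ih : ∀ F : Fin 3 → Lr, (∀ i, F i ∈ Fl n) → F ∈ Rn n) (i : Fin 3)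
    {p : ℤ} {k : ℕ} (h : (k : ℤ) - p ≤ n + 1) : tri i (mon p k) ∈ Rn (n + 1) := by
  rcases lt_or_eq_of_le h with h1 | h1
  · apply Rn_mono (Nat.le_succ n)
    apply ih
    intro l
    simp only [tri]
    split_ifs
    · exact mon_mem_Fl (by omega)
    · exact zero_mem _
  by_cases hp : 0 ≤ p
  · apply Rn_of_Gr
    intro l
    simp only [tri]
    split_ifs
    · exact mon_mem_Gr (by omega)
    · exact zero_mem _
  push Not at hp
  obtain ⟨j, hj⟩ : ∃ j : ℕ, p = -(j + 1 : ℤ) := ⟨(-p - 1).toNat, by omega⟩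
  rcases j with _ | j
  · -- p = -1
    have hk : k = n := by
      subst hj; push_cast at h1; omega
    subst hk
    have hp1 : p = -1 := by rw [hj]; norm_num
    subst hp1
    have e1 : rr * uu ^ k = mon (-1) k := by
      have := rr_uu 1 k
      simpa using this
    choose κ hκ using gt_eq k i
    have h2 : (fun l => ph l (gg k i)) ∈ Rn (k + 1) := Rn_of_An (gg_An k i)
    have h3 : (fun l => ph l (gg k i) - gt k i l) ∈ Rn (k + 1) :=
      Rn_mono (Nat.le_succ k) (ih _ (fun l => gg_congr k i l))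
    have h4 : (fun l => κ l • uu ^ (k + 1)) ∈ Rn (k + 1) :=
      Rn_of_Gr (fun l => Submodule.smul_mem _ _ (uu_Gr _))
    have h5 := sub_mem (sub_mem h2 h3) h4
    convert h5 using 1
    ext1 l
    simp only [tri, Pi.sub_apply]
    rw [hκ l, e1]
    split_ifs <;> simp
  · -- p ≤ -2
    have hk : (j + 2 + k : ℤ) = n + 1 := by
      subst hj; push_cast at h1; omega
    have hk' : j + 2 + k = n + 1 := by exact_mod_cast hk
    have hp1 : p = -((j + 2 : ℕ) : ℤ) := by rw [hj]; push_cast; ring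
    have h2 : (fun l => ph l (hh i j k)) ∈ Rn (n + 1) := by
      apply Rn_of_An
      rw [← hk']; exact hh_An i j k
    have h3 : (fun l => ph l (hh i j k) - tri i (mon p k) l) ∈ Rn (n + 1) := by
      apply Rn_mono (Nat.le_succ n)
      apply ih
      intro l
      simp only [tri]
      split_ifs with hl
      · subst hl
        have := hh_congr l j k
        rw [rr_uu, ← hp1] at this
        exact FW_mono (by omega) this
      · rw [sub_zero]
        exact FW_mono (by omega) (hh_small hl j k)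
    have h5 := sub_mem h2 h3
    convert h5 using 1
    ext1 l
    simp only [Pi.sub_apply]
    ring

theorem ML (n : ℕ) : ∀ F : Fin 3 → Lr, (∀ i, F i ∈ Fl n) → F ∈ Rn n := by
  induction n with
  | zero =>
    intro F hF
    apply Rn_of_Gr
    intro i q hq
    have := hF i q hq
    simp only [wD, wG] at this ⊢
    have := q.2.cast_nonneg (α := ℤ)
    omega
  | succ n ih =>
    intro F hF
    have e : F = ∑ i, tri i (F i) := by
      ext1 l
      rw [Finset.sum_apply]
      simp [tri]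
    rw [e]
    apply sum_mem
    intro i _
    have e2 : tri i (F i) = ∑ q ∈ (F i).coeff.support, (F i).coeff q • tri i (mon q.1 q.2) := by
      conv_lhs => rw [eq_sum_mon (F i)]
      change triL i _ = _
      rw [map_sum]
      refine Finset.sum_congr rfl fun q _ => ?_
      rw [map_smul]; rfl
    rw [e2]
    apply sum_mem
    intro q hq
    apply Submodule.smul_mem
    apply ML_mon ih
    have := hF i q (Finsupp.mem_support_iff.mp hq)
    simp only [wD] at this
    push_cast at this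
    exact this

end Pool.Agent.H685_stab
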