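import Pool.Agent.H685_stab.Tent

/-!
Every system of principal parts on the three tentacles is realised by a polynomial.
-/

set_option linter.unusedSectionVars false

namespace Pool.Agent.H685_stab

open MvPolynomial

/-- The monomial `1/τ`. -/
noncomputable abbrev rr : Lr := mon (-1) 0

/-- The monomial `u`. -/
noncomputable abbrev uu : Lr := mon 0 1

lemma rr_mem : rr ∈ Fl 1 := mon_mem_Fl (by norm_num)
lemma uu_mem : uu ∈ Fl 1 := mon_mem_Fl (by norm_num)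

/-- Leading parts of `x`. -/
noncomputable def topx : Fin 3 → Lr := ![0, rr, rr]
/-- Leading parts of `y`. -/
noncomputable def topy : Fin 3 → Lr := ![rr, 0, rr]
/-- Leading parts of `c`. -/
noncomputable def topc : Fin 3 → Lr := ![-uu, uu, rr + uu]
/-- Leading parts of `a`. -/
noncomputable def topa : Fin 3 → Lr := ![rr + uu, -uu, -uu]
/-- Leading parts of `b`. -/
noncomputable def topb : Fin 3 → Lr := ![uu, rr - uu, -uu]

lemma Fl0_21 : mon 2 1 ∈ Fl (-1) := mon_mem_Fl (by norm_num)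
lemma Fl0_32 : mon 3 2 ∈ Fl (-1) := mon_mem_Fl (by norm_num)
lemma Fl0_10 : mon 1 0 ∈ Fl (-1) := mon_mem_Fl (by norm_num)
lemma Fl_m1 : Fl (-1) ≤ Fl 0 := FW_mono (by norm_num)

lemma two_mul_mem {n : ℤ} {F : Lr} (h : F ∈ Fl n) : 2 * F ∈ Fl n := by
  rw [two_mul]; exact add_mem h h

lemma cx (i : Fin 3) : ph i vx - topx i ∈ Fl (-1) := by
  fin_cases i
  · change ph 0 vx - 0 ∈ Fl (-1)
    rw [ph0_x, sub_zero]; exact Fl0_21
  · change ph 1 vx - rr ∈ Fl (-1)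
    rw [ph1_x, sub_self]; exact zero_mem _
  · change ph 2 vx - rr ∈ Fl (-1)
    rw [ph2_x, add_sub_cancel_left]; exact add_mem Fl0_10 Fl0_21

lemma cy (i : Fin 3) : ph i vy - topy i ∈ Fl (-1) := by
  fin_cases i
  · change ph 0 vy - rr ∈ Fl (-1)
    rw [ph0_y, sub_self]; exact zero_mem _
  · change ph 1 vy - 0 ∈ Fl (-1)
    rw [ph1_y, sub_zero]; exact Fl0_21
  · change ph 2 vy - rr ∈ Fl (-1)
    rw [ph2_y, sub_self]; exact zero_mem _

lemma cc (i : Fin 3) : ph i pc - topc i ∈ Fl (-1) := by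
  fin_cases i
  · change ph 0 pc - -uu ∈ Fl (-1)
    have : ph 0 pc - -uu = mon 3 2 := by rw [ph0_c]; ring
    rw [this]; exact Fl0_32
  · change ph 1 pc - uu ∈ Fl (-1)
    have : ph 1 pc - uu = -mon 3 2 := by rw [ph1_c]; ring
    rw [this]; exact neg_mem Fl0_32
  · change ph 2 pc - (rr + uu) ∈ Fl (-1)
    have : ph 2 pc - (rr + uu) = mon 1 0 + 2 * mon 2 1 + mon 3 2 := by rw [ph2_c]; ring
    rw [this]; exact add_mem (add_mem Fl0_10 (two_mul_mem Fl0_21)) Fl0_32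

lemma topa_eq (i : Fin 3) : topa i = topy i - topc i := by
  fin_cases i
  · change rr + uu = rr - -uu; ring
  · change -uu = 0 - uu; ring
  · change -uu = rr - (rr + uu); ring

lemma topb_eq (i : Fin 3) : topb i = topx i - topc i := by
  fin_cases i
  · change uu = 0 - -uu; ring
  · change rr - uu = rr - uu; ring
  · change -uu = rr - (rr + uu); ring

lemma ca (i : Fin 3) : ph i pa - topa i ∈ Fl (-1) := by
  have : ph i pa - topa i = (ph i vy - topy i) - (ph i pc - topc i) := by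
    rw [pa, map_sub, topa_eq]; ring
  rw [this]; exact sub_mem (cy i) (cc i)

lemma cb (i : Fin 3) : ph i pb - topb i ∈ Fl (-1) := by
  have : ph i pb - topb i = (ph i vx - topx i) - (ph i pc - topc i) := by
    rw [pb, map_sub, topb_eq]; ring
  rw [this]; exact sub_mem (cx i) (cc i)

lemma topx_mem (i : Fin 3) : topx i ∈ Fl 1 := by
  fin_cases i
  · exact zero_mem _
  · exact rr_mem
  · exact rr_mem

lemma topy_mem (i : Fin 3) : topy i ∈ Fl 1 := by
  fin_cases i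
  · exact rr_mem
  · exact zero_mem _
  · exact rr_mem

lemma topc_mem (i : Fin 3) : topc i ∈ Fl 1 := by
  fin_cases i
  · exact neg_mem uu_mem
  · exact uu_mem
  · exact add_mem rr_mem uu_mem

lemma topa_mem (i : Fin 3) : topa i ∈ Fl 1 := by
  rw [topa_eq]; exact sub_mem (topy_mem i) (topc_mem i)

lemma topb_mem (i : Fin 3) : topb i ∈ Fl 1 := by
  rw [topb_eq]; exact sub_mem (topx_mem i) (topc_mem i)

lemma mem_of_congr {n m : ℤ} (h : m ≤ n) {F G : Lr} (h1 : F - G ∈ Fl m) (hG : G ∈ Fl n) :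
    F ∈ Fl n := by
  have : F = (F - G) + G := by ring
  rw [this]; exact add_mem (FW_mono h h1) hG

lemma phx_mem (i : Fin 3) : ph i vx ∈ Fl 1 := mem_of_congr (by norm_num) (cx i) (topx_mem i)
lemma phy_mem (i : Fin 3) : ph i vy ∈ Fl 1 := mem_of_congr (by norm_num) (cy i) (topy_mem i)
lemma phc_mem (i : Fin 3) : ph i pc ∈ Fl 1 := mem_of_congr (by norm_num) (cc i) (topc_mem i)
lemma pha_mem (i : Fin 3) : ph i pa ∈ Fl 1 := mem_of_congr (by norm_num) (ca i) (topa_mem i)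
lemma phb_mem (i : Fin 3) : ph i pb ∈ Fl 1 := mem_of_congr (by norm_num) (cb i) (topb_mem i)

/-- The homogeneous sum `∑ F^i G^(n-i)`. -/
def hs {A : Type*} [CommRing A] (n : ℕ) (F G : A) : A :=
  ∑ i ∈ Finset.range (n + 1), F ^ i * G ^ (n - i)

lemma hs_mul {A : Type*} [CommRing A] (n : ℕ) (F G : A) :
    hs n F G * (F - G) = F ^ (n + 1) - G ^ (n + 1) := by
  have := (Commute.all F G).geom_sum₂_mul (n + 1)
  rw [← this, hs]
  rfl

lemma map_hs {A B : Type*} [CommRing A] [CommRing B] (φ : A →+* B) (n : ℕ) (F G : A) :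
    φ (hs n F G) = hs n (φ F) (φ G) := by
  simp [hs]

lemma hs_self {A : Type*} [CommRing A] (n : ℕ) (F : A) : hs n F F = ((n : A) + 1) * F ^ n := by
  rw [hs]
  have : ∀ i ∈ Finset.range (n + 1), F ^ i * F ^ (n - i) = F ^ n := by
    intro i hi
    rw [← pow_add]
    congr 1
    have := Finset.mem_range.mp hi
    omega
  rw [Finset.sum_congr rfl this]
  simp

lemma hs_mem {F G : Lr} (hF : F ∈ Fl 1) (hG : G ∈ Fl 1) (n : ℕ) : hs n F G ∈ Fl n := by
  apply sum_mem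
  intro i hi
  have := Finset.mem_range.mp hi
  have h := Fl_mul (Fl_pow hF i) (Fl_pow hG (n - i))
  convert h using 2
  push_cast [Nat.cast_sub (show i ≤ n by omega)]
  ring

lemma hs_congr {F G F' G' : Lr} (hF : F ∈ Fl 1) (hG : G ∈ Fl 1) (hF' : F' ∈ Fl 1)
    (hG' : G' ∈ Fl 1) {e : ℤ} (h1 : F - F' ∈ Fl (1 - e)) (h2 : G - G' ∈ Fl (1 - e)) (n : ℕ) :
    hs n F G - hs n F' G' ∈ Fl (n - e) := by
  rw [hs, hs, ← Finset.sum_sub_distrib]
  apply sum_mem
  intro i hi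
  have hi' := Finset.mem_range.mp hi
  have h := Fl_mul_congr (e := e) (Fl_pow hF' i) (Fl_pow hG (n - i))
    (Fl_pow_congr hF hF' h1 i) (Fl_pow_congr hG hG' h2 (n - i))
  convert h using 2
  push_cast [Nat.cast_sub (show i ≤ n by omega)]
  ring

lemma s2_mem : ph 2 vx - ph 2 vy ∈ Fl (-1) := by
  rw [ph2_x, ph2_y, add_sub_cancel_left]; exact add_mem Fl0_10 Fl0_21

/-- Elements with leading part `u^n / τ` on one tentacle. -/
noncomputable def gg (n : ℕ) : Fin 3 → P2 :=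
  ![C (1 / ((n : ℝ) + 1)) * ((-pc) ^ (n + 1) + vy * hs n pb (-pc)),
    C (1 / ((n : ℝ) + 1)) * (vx * hs n (-pa) pc - pc ^ (n + 1)),
    C (1 / ((n : ℝ) + 1)) * (pc ^ (n + 1) - vy * hs n (-pb) pc) + vy * (-pb) ^ n]

/-- The leading parts of `gg n l` on the three tentacles. -/
noncomputable def gt (n : ℕ) : Fin 3 → Fin 3 → Lr :=
  ![![rr * uu ^ n + (1 / ((n : ℝ) + 1)) • uu ^ (n + 1), (1 / ((n : ℝ) + 1)) • (-uu) ^ (n + 1),
      (1 / ((n : ℝ) + 1)) • (-uu) ^ (n + 1)],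
    ![-((1 / ((n : ℝ) + 1)) • (-uu) ^ (n + 1)), rr * uu ^ n - (1 / ((n : ℝ) + 1)) • uu ^ (n + 1),
      -((1 / ((n : ℝ) + 1)) • uu ^ (n + 1))],
    ![(1 / ((n : ℝ) + 1)) • (-uu) ^ (n + 1), (1 / ((n : ℝ) + 1)) • uu ^ (n + 1),
      rr * uu ^ n + (1 / ((n : ℝ) + 1)) • uu ^ (n + 1)]]

lemma hs_An {n : ℕ} {f g : P2} (hf : f ∈ An 1) (hg : g ∈ An 1) : hs n f g ∈ An n := by
  apply sum_mem
  intro i hi
  have := Finset.mem_range.mp hi
  have h := An_mul (An_pow hf i) (An_pow hg (n - i))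
  apply An_mono _ h
  omega

lemma C_mul_An {n : ℕ} (c : ℝ) {f : P2} (hf : f ∈ An n) : C c * f ∈ An n := by
  rw [← smul_eq_C_mul]; exact Submodule.smul_mem _ c hf

lemma gg_An (n : ℕ) (l : Fin 3) : gg n l ∈ An (n + 1) := by
  have hc := pc_mem_An
  have ha := pa_mem_An
  have hb := pb_mem_An
  have hx := vx_mem_An
  have hy := vy_mem_An
  have e1 : ∀ f : P2, f ∈ An 1 → f ^ (n + 1) ∈ An (n + 1) := by
    intro f hf
    have := An_pow hf (n + 1)
    simpa using this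
  have e2 : ∀ f g : P2, f ∈ An 1 → g ∈ An n → f * g ∈ An (n + 1) := by
    intro f g hf hg
    have := An_mul hf hg
    rwa [add_comm] at this
  fin_cases l
  · change C (1 / ((n : ℝ) + 1)) * ((-pc) ^ (n + 1) + vy * hs n pb (-pc)) ∈ An (n + 1)
    exact C_mul_An _ (add_mem (e1 _ (neg_mem hc)) (e2 _ _ hy (hs_An hb (neg_mem hc))))
  · change C (1 / ((n : ℝ) + 1)) * (vx * hs n (-pa) pc - pc ^ (n + 1)) ∈ An (n + 1)
    exact C_mul_An _ (sub_mem (e2 _ _ hx (hs_An (neg_mem ha) hc)) (e1 _ hc))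
  · change C (1 / ((n : ℝ) + 1)) * (pc ^ (n + 1) - vy * hs n (-pb) pc) + vy * (-pb) ^ n
      ∈ An (n + 1)
    refine add_mem (C_mul_An _ (sub_mem (e1 _ hc) (e2 _ _ hy (hs_An (neg_mem hb) hc)))) ?_
    apply e2 _ _ hy
    have := An_pow (neg_mem hb) n
    simpa using this

lemma ph_C (i : Fin 3) (c : ℝ) (f : P2) : ph i (C c * f) = c • ph i f := by
  rw [← smul_eq_C_mul, map_smul]

lemma smul_congr {n : ℤ} (c : ℝ) {F G : Lr} (h : F - G ∈ Fl n) : c • F - c • G ∈ Fl n := by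
  rw [← smul_sub]; exact Submodule.smul_mem _ c h

lemma nsm (n : ℕ) (F : Lr) : (1 / ((n : ℝ) + 1)) • (((n : Lr) + 1) * F) = F := by
  have h1 : ((n : Lr) + 1) * F = ((n : ℝ) + 1) • F := by
    rw [add_smul, one_smul, add_mul, one_mul]
    congr 1
    rw [Nat.cast_smul_eq_nsmul, nsmul_eq_mul]
  rw [h1, smul_smul]
  have : (1 / ((n : ℝ) + 1)) * ((n : ℝ) + 1) = 1 := by
    have : ((n : ℝ) + 1) ≠ 0 := by positivity
    field_simp
  rw [this, one_smul]

lemma alg1 (t : ℝ) (A B U W R : Lr) (h : t • W = R) :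
    t • (A + B) - (R + t • U) = t • (A - U + (B - W)) := by
  rw [smul_add, smul_add, smul_sub, smul_sub, h]; abel

lemma alg2 (t : ℝ) (A B U W R : Lr) (h : t • W = R) :
    t • (B - A) - (R - t • U) = t • (B - W - (A - U)) := by
  simp only [smul_sub]; rw [h]; abel

lemma alg3 (t : ℝ) (A B U W D D' : Lr) (h : t • W = D') :
    t • (A - B) + D - t • U = t • (A - U - (B - W)) + (D - D') := by
  simp only [smul_sub]; rw [h]; abel

lemma gg_congr (n : ℕ) (l i : Fin 3) : ph i (gg n l) - gt n l i ∈ Fl n := by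
  -- building blocks
  have hpow : ∀ {F F' : Lr}, F ∈ Fl 1 → F' ∈ Fl 1 → F - F' ∈ Fl (-1) →
      F ^ (n + 1) - F' ^ (n + 1) ∈ Fl n := by
    intro F F' hF hF' h
    have := Fl_pow_congr (e := 1) hF hF' (by convert FW_mono (ω := wD) (show (-1 : ℤ) ≤ 1 - 1 by norm_num) h using 1) (n + 1)
    convert this using 2
    push_cast; ring
  have hpow' : ∀ {F F' : Lr}, F ∈ Fl 1 → F' ∈ Fl 1 → F - F' ∈ Fl (-1) →
      F ^ n - F' ^ n ∈ Fl (n - 1) := by
    intro F F' hF hF' h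
    have := Fl_pow_congr (e := 1) hF hF' (by convert FW_mono (ω := wD) (show (-1 : ℤ) ≤ 1 - 1 by norm_num) h using 1) n
    convert this using 2
    push_cast; ring
  have hpm : ∀ {F : Lr}, F ∈ Fl 1 → F ^ n ∈ Fl n := by
    intro F hF
    have := Fl_pow hF n
    simpa using this
  have hneg : ∀ {F F' : Lr}, F - F' ∈ Fl (-1) → -F - -F' ∈ Fl (-1) := by
    intro F F' h
    have := neg_mem h
    convert this using 1; ring
  have hhs : ∀ {F G F' : Lr}, F ∈ Fl 1 → G ∈ Fl 1 → F' ∈ Fl 1 → F - F' ∈ Fl (-1) →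
      G - F' ∈ Fl (-1) → hs n F G - ((n : Lr) + 1) * F' ^ n ∈ Fl (n - 1) := by
    intro F G F' hF hG hF' h1 h2
    rw [← hs_self]
    exact hs_congr (e := 1) hF hG hF' hF' (FW_mono (by norm_num) h1) (FW_mono (by norm_num) h2) n
  have hsmall : ∀ {F G : Lr}, F ∈ Fl (-1) → G ∈ Fl n → F * G ∈ Fl n := by
    intro F G hF hG
    exact FW_mono (by omega) (Fl_mul hF hG)
  have hr : ∀ {G G' : Lr}, G ∈ Fl n → G - G' ∈ Fl (n - 1) → rr * G - rr * G' ∈ Fl n := by
    intro G G' _ h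
    have := Fl_mul rr_mem h
    rw [mul_sub] at this
    exact FW_mono (by omega) this
  have hmc0 := phc_mem 0
  have hmc1 := phc_mem 1
  have hmc2 := phc_mem 2
  have hu := uu_mem
  have cc0 : ph 0 pc - -uu ∈ Fl (-1) := cc 0
  have cc1 : ph 1 pc - uu ∈ Fl (-1) := cc 1
  have cb0 : ph 0 pb - uu ∈ Fl (-1) := cb 0
  have ca1 : ph 1 pa - -uu ∈ Fl (-1) := ca 1
  have ca2 : ph 2 pa - -uu ∈ Fl (-1) := ca 2
  have cb2 : ph 2 pb - -uu ∈ Fl (-1) := cb 2
  have cx0 : ph 0 vx ∈ Fl (-1) := by have := cx 0; rwa [show topx 0 = 0 from rfl, sub_zero] at this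
  have cy1 : ph 1 vy ∈ Fl (-1) := by have := cy 1; rwa [show topy 1 = 0 from rfl, sub_zero] at this
  have ncc0 : -ph 0 pc - uu ∈ Fl (-1) := by have := hneg cc0; rwa [neg_neg] at this
  have ncc1 : -ph 1 pc - -uu ∈ Fl (-1) := hneg cc1
  have ncb0 : -ph 0 pb - -uu ∈ Fl (-1) := hneg cb0
  have nca1 : -ph 1 pa - uu ∈ Fl (-1) := by have := hneg ca1; rwa [neg_neg] at this
  have nca2 : -ph 2 pa - uu ∈ Fl (-1) := by have := hneg ca2; rwa [neg_neg] at this
  have ncb2 : -ph 2 pb - uu ∈ Fl (-1) := by have := hneg cb2; rwa [neg_neg] at this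
  have hs2 := s2_mem
  fin_cases l <;> fin_cases i
  · -- g0, T0
    change ph 0 (C (1 / ((n : ℝ) + 1)) * ((-pc) ^ (n + 1) + vy * hs n pb (-pc)))
      - (rr * uu ^ n + (1 / ((n : ℝ) + 1)) • uu ^ (n + 1)) ∈ Fl n
    rw [ph_C, map_add, map_pow, map_neg, map_mul, ph0_y]
    have e1 : ph 0 (hs n pb (-pc)) = hs n (ph 0 pb) (-ph 0 pc) := by
      have := map_hs (ph 0 : P2 →+* Lr) n pb (-pc)
      simpa using this
    rw [e1]
    have h1 := hpow (neg_mem hmc0) hu ncc0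
    have h2 := hr (hs_mem (phb_mem 0) (neg_mem hmc0) n) (hhs (phb_mem 0) (neg_mem hmc0) hu cb0 ncc0)
    have e2 : (1 / ((n : ℝ) + 1)) • (rr * (((n : Lr) + 1) * uu ^ n)) = rr * uu ^ n := by
      have : rr * (((n : Lr) + 1) * uu ^ n) = ((n : Lr) + 1) * (rr * uu ^ n) := by ring
      rw [this, nsm]
    have h4 := Submodule.smul_mem (Fl n) (1 / ((n : ℝ) + 1)) (add_mem h1 h2)
    rw [alg1 _ _ _ _ _ _ e2]
    exact h4
  · -- g0, T1
    change ph 1 (C (1 / ((n : ℝ) + 1)) * ((-pc) ^ (n + 1) + vy * hs n pb (-pc)))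
      - (1 / ((n : ℝ) + 1)) • (-uu) ^ (n + 1) ∈ Fl n
    rw [ph_C, map_add, map_pow, map_neg, map_mul]
    have e1 : ph 1 (hs n pb (-pc)) = hs n (ph 1 pb) (-ph 1 pc) := by
      have := map_hs (ph 1 : P2 →+* Lr) n pb (-pc)
      simpa using this
    rw [e1, ← smul_sub]
    apply Submodule.smul_mem
    have h1 := hpow (neg_mem hmc1) (neg_mem hu) ncc1
    have h2 := hsmall cy1 (hs_mem (phb_mem 1) (neg_mem hmc1) n)
    have := add_mem h1 h2
    convert this using 1; ring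
  · -- g0, T2
    change ph 2 (C (1 / ((n : ℝ) + 1)) * ((-pc) ^ (n + 1) + vy * hs n pb (-pc)))
      - (1 / ((n : ℝ) + 1)) • (-uu) ^ (n + 1) ∈ Fl n
    rw [ph_C, map_add, map_pow, map_neg, map_mul]
    have e1 : ph 2 (hs n pb (-pc)) = hs n (ph 2 pb) (-ph 2 pc) := by
      have := map_hs (ph 2 : P2 →+* Lr) n pb (-pc)
      simpa using this
    rw [e1, ← smul_sub]
    apply Submodule.smul_mem
    have e2 := hs_mul n (ph 2 pb) (-ph 2 pc)
    have e3 : ph 2 pb - -ph 2 pc = ph 2 vx := by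
      rw [pb, map_sub]; ring
    rw [e3] at e2
    have h1 := hpow (phb_mem 2) (neg_mem hu) cb2
    have h2 := hsmall hs2 (hs_mem (phb_mem 2) (neg_mem hmc2) n)
    have := sub_mem h1 h2
    convert this using 1
    linear_combination e2
  · -- g1, T0
    change ph 0 (C (1 / ((n : ℝ) + 1)) * (vx * hs n (-pa) pc - pc ^ (n + 1)))
      - -((1 / ((n : ℝ) + 1)) • (-uu) ^ (n + 1)) ∈ Fl n
    rw [ph_C, map_sub, map_pow, map_mul]
    have e1 : ph 0 (hs n (-pa) pc) = hs n (-ph 0 pa) (ph 0 pc) := by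
      have := map_hs (ph 0 : P2 →+* Lr) n (-pa) pc
      simpa using this
    rw [e1, ← smul_neg, ← smul_sub]
    apply Submodule.smul_mem
    have h1 := hpow hmc0 (neg_mem hu) cc0
    have h2 := hsmall cx0 (hs_mem (neg_mem (pha_mem 0)) hmc0 n)
    have := sub_mem h2 h1
    convert this using 1; ring
  · -- g1, T1
    change ph 1 (C (1 / ((n : ℝ) + 1)) * (vx * hs n (-pa) pc - pc ^ (n + 1)))
      - (rr * uu ^ n - (1 / ((n : ℝ) + 1)) • uu ^ (n + 1)) ∈ Fl n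
    rw [ph_C, map_sub, map_pow, map_mul, ph1_x]
    have e1 : ph 1 (hs n (-pa) pc) = hs n (-ph 1 pa) (ph 1 pc) := by
      have := map_hs (ph 1 : P2 →+* Lr) n (-pa) pc
      simpa using this
    rw [e1]
    have h1 := hpow hmc1 hu cc1
    have h2 := hr (hs_mem (neg_mem (pha_mem 1)) hmc1 n) (hhs (neg_mem (pha_mem 1)) hmc1 hu nca1 cc1)
    have h4 := Submodule.smul_mem (Fl n) (1 / ((n : ℝ) + 1)) (sub_mem h2 h1)
    have e2 : (1 / ((n : ℝ) + 1)) • (rr * (((n : Lr) + 1) * uu ^ n)) = rr * uu ^ n := by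
      have : rr * (((n : Lr) + 1) * uu ^ n) = ((n : Lr) + 1) * (rr * uu ^ n) := by ring
      rw [this, nsm]
    rw [alg2 _ _ _ _ _ _ e2]
    exact h4
  · -- g1, T2
    change ph 2 (C (1 / ((n : ℝ) + 1)) * (vx * hs n (-pa) pc - pc ^ (n + 1)))
      - -((1 / ((n : ℝ) + 1)) • uu ^ (n + 1)) ∈ Fl n
    rw [ph_C, map_sub, map_pow, map_mul]
    have e1 : ph 2 (hs n (-pa) pc) = hs n (-ph 2 pa) (ph 2 pc) := by
      have := map_hs (ph 2 : P2 →+* Lr) n (-pa) pc
      simpa using this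
    rw [e1, ← smul_neg, ← smul_sub]
    apply Submodule.smul_mem
    have e2 := hs_mul n (-ph 2 pa) (ph 2 pc)
    have e3 : -ph 2 pa - ph 2 pc = -ph 2 vy := by
      rw [pa, map_sub]; ring
    rw [e3] at e2
    have h1 := hpow (neg_mem (pha_mem 2)) hu nca2
    have h2 := hsmall hs2 (hs_mem (neg_mem (pha_mem 2)) hmc2 n)
    have := sub_mem h2 h1
    convert this using 1
    linear_combination -e2
  · -- g2, T0
    change ph 0 (C (1 / ((n : ℝ) + 1)) * (pc ^ (n + 1) - vy * hs n (-pb) pc) + vy * (-pb) ^ n)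
      - (1 / ((n : ℝ) + 1)) • (-uu) ^ (n + 1) ∈ Fl n
    rw [map_add, ph_C, map_sub, map_pow, map_mul, map_mul, map_pow, map_neg, ph0_y]
    have e1 : ph 0 (hs n (-pb) pc) = hs n (-ph 0 pb) (ph 0 pc) := by
      have := map_hs (ph 0 : P2 →+* Lr) n (-pb) pc
      simpa using this
    rw [e1]
    have h1 := hpow hmc0 (neg_mem hu) cc0
    have h2 := hr (hs_mem (neg_mem (phb_mem 0)) hmc0 n)
      (hhs (neg_mem (phb_mem 0)) hmc0 (neg_mem hu) ncb0 cc0)
    have h3 := hr (hpm (neg_mem (phb_mem 0))) (hpow' (neg_mem (phb_mem 0)) (neg_mem hu) ncb0)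
    have h4 := add_mem (Submodule.smul_mem (Fl n) (1 / ((n : ℝ) + 1)) (sub_mem h1 h2)) h3
    have e2 : (1 / ((n : ℝ) + 1)) • (rr * (((n : Lr) + 1) * (-uu) ^ n)) = rr * (-uu) ^ n := by
      have : rr * (((n : Lr) + 1) * (-uu) ^ n) = ((n : Lr) + 1) * (rr * (-uu) ^ n) := by ring
      rw [this, nsm]
    rw [alg3 _ _ _ _ _ _ _ e2]
    exact h4
  · -- g2, T1
    change ph 1 (C (1 / ((n : ℝ) + 1)) * (pc ^ (n + 1) - vy * hs n (-pb) pc) + vy * (-pb) ^ n)
      - (1 / ((n : ℝ) + 1)) • uu ^ (n + 1) ∈ Fl n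
    rw [map_add, ph_C, map_sub, map_pow, map_mul, map_mul, map_pow, map_neg]
    have e1 : ph 1 (hs n (-pb) pc) = hs n (-ph 1 pb) (ph 1 pc) := by
      have := map_hs (ph 1 : P2 →+* Lr) n (-pb) pc
      simpa using this
    rw [e1]
    have h1 := hpow hmc1 hu cc1
    have h2 := hsmall cy1 (hs_mem (neg_mem (phb_mem 1)) hmc1 n)
    have h3 := hsmall cy1 (hpm (neg_mem (phb_mem 1)))
    have h4 := add_mem (Submodule.smul_mem (Fl n) (1 / ((n : ℝ) + 1)) (sub_mem h1 h2)) h3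
    convert h4 using 1
    rw [smul_sub, smul_sub, smul_sub]
    abel
  · -- g2, T2
    change ph 2 (C (1 / ((n : ℝ) + 1)) * (pc ^ (n + 1) - vy * hs n (-pb) pc) + vy * (-pb) ^ n)
      - (rr * uu ^ n + (1 / ((n : ℝ) + 1)) • uu ^ (n + 1)) ∈ Fl n
    rw [map_add, ph_C, map_sub, map_pow, map_mul, map_mul, map_pow, map_neg]
    have e1 : ph 2 (hs n (-pb) pc) = hs n (-ph 2 pb) (ph 2 pc) := by
      have := map_hs (ph 2 : P2 →+* Lr) n (-pb) pc
      simpa using this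
    rw [e1]
    have e2 := hs_mul n (-ph 2 pb) (ph 2 pc)
    have e3 : -ph 2 pb - ph 2 pc = -ph 2 vx := by
      rw [pb, map_sub]; ring
    rw [e3] at e2
    have h1 := hpow (neg_mem (phb_mem 2)) hu ncb2
    have h2 := hsmall hs2 (hs_mem (neg_mem (phb_mem 2)) hmc2 n)
    have h3 := hr (hpm (neg_mem (phb_mem 2))) (hpow' (neg_mem (phb_mem 2)) hu ncb2)
    have h4 := add_mem (Submodule.smul_mem (Fl n) (1 / ((n : ℝ) + 1)) (add_mem h1 h2)) h3
    convert h4 using 1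
    have e4 : ph 2 pc ^ (n + 1) - ph 2 vy * hs n (-ph 2 pb) (ph 2 pc)
        = ((-ph 2 pb) ^ (n + 1) - uu ^ (n + 1) + (ph 2 vx - ph 2 vy) * hs n (-ph 2 pb) (ph 2 pc))
          + uu ^ (n + 1) := by
      linear_combination e2
    rw [e4, smul_add, ph2_y]
    abel

end Pool.Agent.H685_stab
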