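import Pool.Agent.H685_stab.Toric

/-!
An unbounded monomial gives a direction in which the leading form is somewhere nonnegative.
-/

set_option linter.unusedSectionVars false

namespace Pool.Agent.H685_stab

open MvPolynomial Filter Topology

lemma exists_ne_zero_open {h : P2} (hh : h ≠ 0) {V : Set (Fin 2 → ℝ)} (hV : IsOpen V)
    (hne : V.Nonempty) : ∃ P ∈ V, eval P h ≠ 0 := by
  obtain ⟨P, hP⟩ := hne
  by_contra hcon
  push Not at hcon
  apply hh
  obtain ⟨δ, hδ, hball⟩ := Metric.isOpen_iff.mp hV P hP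
  apply MvPolynomial.funext_set (fun i => Set.Ioo (P i - δ / 2) (P i + δ / 2))
    (fun i => Set.Ioo_infinite (by linarith))
  · intro x hx
    rw [map_zero]
    apply hcon
    apply hball
    rw [Metric.mem_ball, dist_pi_lt_iff hδ]
    intro i
    have := hx i (Set.mem_univ i)
    rw [Real.dist_eq, abs_lt]
    constructor <;> linarith [this.1, this.2]

/-- Trichotomy along an ultrafilter. -/
lemma tricho (U : Ultrafilter ℕ) (u : ℕ → ℝ) : (∃ C : ℝ, ∀ᶠ n in U, |u n| ≤ C) ∨
    Tendsto u U atTop ∨ Tendsto u U atBot := by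
  by_cases h : ∃ C : ℝ, ∀ᶠ n in U, |u n| ≤ C
  · exact Or.inl h
  right
  push Not at h
  have h1 : ∀ C : ℝ, ∀ᶠ n in U, C < |u n| := by
    intro C
    exact h C
  by_cases hs : ∀ᶠ n in U, 0 ≤ u n
  · left
    rw [tendsto_atTop]
    intro C
    filter_upwards [h1 C, hs] with n h2 h3
    rw [abs_of_nonneg h3] at h2
    exact h2.le
  · right
    have hs' := Ultrafilter.eventually_not.mpr hs
    rw [tendsto_atBot]
    intro C
    filter_upwards [h1 (-C), hs'] with n h2 h3
    push Not at h3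
    rw [abs_of_neg h3] at h2
    linarith

lemma exists_lim (U : Ultrafilter ℕ) {u : ℕ → ℝ} {C : ℝ} (h : ∀ᶠ n in U, |u n| ≤ C) :
    ∃ l, Tendsto u U (𝓝 l) := by
  have h1 : (Set.Icc (-C) C) ∈ (U.map u) := by
    change ∀ᶠ n in U, u n ∈ Set.Icc (-C) C
    filter_upwards [h] with n hn
    exact abs_le.mp hn
  obtain ⟨l, -, hl⟩ := isCompact_Icc.ultrafilter_le_nhds (U.map u) (le_principal_iff.mpr h1)
  exact ⟨l, hl⟩

/-- Integer approximation of a finite system of strict linear inequalities. -/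
lemma exists_int {V : Finset (ℤ × ℤ)} {z : ℝ × ℝ}
    (hz : ∀ v ∈ V, 0 < (v.1 : ℝ) * z.1 + v.2 * z.2) :
    ∃ w : ℤ × ℤ, ∀ v ∈ V, 0 < v.1 * w.1 + v.2 * w.2 := by
  have hO : IsOpen {z : ℝ × ℝ | ∀ v ∈ V, 0 < (v.1 : ℝ) * z.1 + v.2 * z.2} := by
    have : {z : ℝ × ℝ | ∀ v ∈ V, 0 < (v.1 : ℝ) * z.1 + v.2 * z.2}
        = ⋂ v ∈ V, {z : ℝ × ℝ | 0 < (v.1 : ℝ) * z.1 + v.2 * z.2} := by
      ext z; simp
    rw [this]
    apply isOpen_biInter_finset
    intro v _
    exact isOpen_lt continuous_const (by fun_prop)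
  have hd : DenseRange (Prod.map ((↑) : ℚ → ℝ) ((↑) : ℚ → ℝ)) :=
    Rat.denseRange_cast.prodMap Rat.denseRange_cast
  obtain ⟨q, hq⟩ := hd.exists_mem_open hO ⟨z, hz⟩
  refine ⟨(q.1.num * q.2.den, q.2.num * q.1.den), fun v hv => ?_⟩
  have h1 := hq v hv
  simp only [Prod.map_fst, Prod.map_snd] at h1
  have h2 : (0 : ℚ) < v.1 * q.1 + v.2 * q.2 := by exact_mod_cast h1
  have d1 : (0 : ℚ) < q.1.den := by exact_mod_cast q.1.den_pos
  have d2 : (0 : ℚ) < q.2.den := by exact_mod_cast q.2.den_pos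
  have e1 : q.1 * q.1.den = q.1.num := Rat.mul_den_eq_num q.1
  have e2 : q.2 * q.2.den = q.2.num := Rat.mul_den_eq_num q.2
  have h3 : (0 : ℚ) < (v.1 * q.1 + v.2 * q.2) * (q.1.den * q.2.den) := by positivity
  have h4 : (v.1 * q.1 + v.2 * q.2) * (q.1.den * q.2.den)
      = v.1 * (q.1.num * q.2.den) + v.2 * (q.2.num * q.1.den) := by
    rw [← e1, ← e2]; ring
  rw [h4] at h3
  exact_mod_cast h3

/-- The difference of two exponents. -/
def dif (m m' : Fin 2 →₀ ℕ) : ℤ × ℤ := ((m 0 : ℤ) - m' 0, (m 1 : ℤ) - m' 1)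

lemma wt_dif (w : ℤ × ℤ) (m m' : Fin 2 →₀ ℕ) :
    wt w m - wt w m' = w.1 * (dif m m').1 + w.2 * (dif m m').2 := by
  simp only [wt, dif]; ring

/-- The linear functional given by the logarithms. -/
noncomputable def DD (z : ℝ × ℝ) (v : ℤ × ℤ) : ℝ := v.1 * z.1 + v.2 * z.2

/-- The limit step. -/
lemma limit_step {g : P2} (U : Ultrafilter ℕ) {P : ℕ → Fin 2 → ℝ} (hpos : ∀ n, 0 < eval (P n) g)
    (h0 : ∀ n, P n 0 ≠ 0) (h1 : ∀ n, P n 1 ≠ 0) (ms : Fin 2 →₀ ℕ) {κ : (Fin 2 →₀ ℕ) → ℝ}
    (hκ : ∀ m ∈ g.support, Tendsto (fun n => Real.exp (-DD (Real.log |P n 0|, Real.log |P n 1|)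
      (dif ms m))) U (𝓝 (κ m))) :
    ∃ e1 e2 : ℝ, e1 ≠ 0 ∧ e2 ≠ 0 ∧ |e1| = 1 ∧ |e2| = 1 ∧
      0 ≤ ∑ m ∈ g.support, coeff m g * (e1 ^ m 0 * e2 ^ m 1) * κ m := by
  have hsg : ∀ i : Fin 2, (∀ n, P n i ≠ 0) → ∃ e : ℝ, e ≠ 0 ∧ |e| = 1 ∧
      ∀ᶠ n in U, P n i = e * |P n i| := by
    intro i hi
    by_cases hs : ∀ᶠ n in U, 0 < P n i
    · refine ⟨1, one_ne_zero, abs_one, ?_⟩
      filter_upwards [hs] with n hn
      rw [abs_of_pos hn, one_mul]
    · refine ⟨-1, by norm_num, by norm_num, ?_⟩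
      have hs' := Ultrafilter.eventually_not.mpr hs
      filter_upwards [hs'] with n hn
      have : P n i < 0 := lt_of_le_of_ne (not_lt.mp hn) (hi n)
      rw [abs_of_neg this]; ring
  obtain ⟨e1, he1, he1', ev1⟩ := hsg 0 h0
  obtain ⟨e2, he2, he2', ev2⟩ := hsg 1 h1
  refine ⟨e1, e2, he1, he2, he1', he2', ?_⟩
  have t := tendsto_finsetSum g.support (fun m hm =>
    (hκ m hm).const_mul (coeff m g * (e1 ^ m 0 * e2 ^ m 1)))
  refine ge_of_tendsto t ?_
  filter_upwards [ev1, ev2] with n q1 q2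
  have a1 : 0 < |P n 0| := abs_pos.mpr (h0 n)
  have a2 : 0 < |P n 1| := abs_pos.mpr (h1 n)
  have key : ∑ m ∈ g.support, coeff m g * (e1 ^ m 0 * e2 ^ m 1) *
      Real.exp (-DD (Real.log |P n 0|, Real.log |P n 1|) (dif ms m))
      = Real.exp (-(ms 0 * Real.log |P n 0| + ms 1 * Real.log |P n 1|)) * eval (P n) g := by
    rw [eval_eq', Finset.mul_sum]
    refine Finset.sum_congr rfl fun m _ => ?_
    rw [Fin.prod_univ_two]
    have x1 : P n 0 ^ m 0 = e1 ^ m 0 * Real.exp (m 0 * Real.log |P n 0|) := by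
      conv_lhs => rw [q1]
      rw [mul_pow]
      congr 1
      rw [mul_comm, Real.exp_mul, Real.exp_log a1, Real.rpow_natCast]
    have x2 : P n 1 ^ m 1 = e2 ^ m 1 * Real.exp (m 1 * Real.log |P n 1|) := by
      conv_lhs => rw [q2]
      rw [mul_pow]
      congr 1
      rw [mul_comm, Real.exp_mul, Real.exp_log a2, Real.rpow_natCast]
    rw [x1, x2]
    have x3 : Real.exp (-DD (Real.log |P n 0|, Real.log |P n 1|) (dif ms m))
        = Real.exp (-(ms 0 * Real.log |P n 0| + ms 1 * Real.log |P n 1|))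
          * (Real.exp (m 0 * Real.log |P n 0|) * Real.exp (m 1 * Real.log |P n 1|)) := by
      rw [← Real.exp_add, ← Real.exp_add]
      congr 1
      simp only [DD, dif]
      push_cast
      ring
    rw [x3]
    ring
  rw [key]
  exact (mul_pos (Real.exp_pos _) (hpos n)).le

theorem dir_of_unbdd {g : P2} {i j : ℕ}
    (hN : ∀ N : ℝ, ∃ P : Fin 2 → ℝ, 0 < eval P g ∧ N < |P 0 ^ i * P 1 ^ j|) :
    ∃ w : ℤ × ℤ, 0 < w.1 * i + w.2 * j ∧
      ∃ a b : ℝ, a ≠ 0 ∧ b ≠ 0 ∧ 0 ≤ eval ![a, b] (lform w g) := by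
  classical
  -- choose points
  have hch : ∀ n : ℕ, ∃ P : Fin 2 → ℝ, 0 < eval P g ∧ (n : ℝ) < |P 0 ^ i * P 1 ^ j| ∧
      P 0 ≠ 0 ∧ P 1 ≠ 0 := by
    intro n
    have hO : IsOpen {P : Fin 2 → ℝ | 0 < eval P g ∧ (n : ℝ) < |P 0 ^ i * P 1 ^ j|} := by
      apply IsOpen.and
      · exact isOpen_lt continuous_const (MvPolynomial.continuous_eval g)
      · exact isOpen_lt continuous_const (by fun_prop)
    have hx : (X 0 * X 1 : P2) ≠ 0 := mul_ne_zero (X_ne_zero 0) (X_ne_zero 1)
    obtain ⟨P, hP, hne⟩ := exists_ne_zero_open hx hO (hN n)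
    rw [map_mul, eval_X, eval_X] at hne
    exact ⟨P, hP.1, hP.2, left_ne_zero_of_mul hne, right_ne_zero_of_mul hne⟩
  choose P hpos hbig h0 h1 using hch
  let U : Ultrafilter ℕ := hyperfilter ℕ
  have hU : (U : Filter ℕ) ≤ atTop := by
    have := Nat.hyperfilter_le_atTop
    exact this
  let z : ℕ → ℝ × ℝ := fun n => (Real.log |P n 0|, Real.log |P n 1|)
  have hij : Tendsto (fun n => DD (z n) ((i : ℤ), (j : ℤ))) U atTop := by
    have h2 : Tendsto (fun n : ℕ => Real.log (n : ℝ)) atTop atTop :=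
      Real.tendsto_log_atTop.comp tendsto_natCast_atTop_atTop
    refine tendsto_atTop_mono' _ ?_ (h2.mono_left hU)
    have h3 : ∀ᶠ n : ℕ in U, 1 ≤ n := hU (eventually_ge_atTop 1)
    filter_upwards [h3] with n hn
    have a1 : 0 < |P n 0| := abs_pos.mpr (h0 n)
    have a2 : 0 < |P n 1| := abs_pos.mpr (h1 n)
    have h4 : DD (z n) ((i : ℤ), (j : ℤ)) = Real.log (|P n 0 ^ i * P n 1 ^ j|) := by
      rw [abs_mul, abs_pow, abs_pow, Real.log_mul (by positivity) (by positivity), Real.log_pow,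
        Real.log_pow]
      simp [DD, z]
    rw [h4]
    apply Real.log_le_log
    · have : (1 : ℝ) ≤ n := by exact_mod_cast hn
      linarith
    · exact (hbig n).le
  have hg0 : g ≠ 0 := by
    rintro rfl
    have := hpos 0
    simp at this
  have hsne : g.support.Nonempty := by
    rwa [Finset.nonempty_iff_ne_empty, Ne, support_eq_empty]
  -- the dominating exponent
  obtain ⟨ms, hms, hdom⟩ : ∃ ms ∈ g.support, ∀ᶠ n in U, ∀ m ∈ g.support,
      0 ≤ DD (z n) (dif ms m) := by
    have h5 : ∀ᶠ n in U, ∃ ms ∈ (g.support : Set (Fin 2 →₀ ℕ)), ∀ m ∈ g.support,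
        0 ≤ DD (z n) (dif ms m) := by
      apply Eventually.of_forall
      intro n
      obtain ⟨ms, hms, hmax⟩ := Finset.exists_max_image g.support
        (fun m => (m 0 : ℝ) * (z n).1 + m 1 * (z n).2) hsne
      refine ⟨ms, hms, fun m hm => ?_⟩
      have := hmax m hm
      simp only [DD, dif]
      push_cast
      linarith
    rw [Ultrafilter.eventually_exists_mem_iff (Finset.finite_toSet _)] at h5
    obtain ⟨ms, hms, h6⟩ := h5
    exact ⟨ms, hms, h6⟩
  have hnotbot : ∀ m ∈ g.support, ¬ Tendsto (fun n => DD (z n) (dif ms m)) U atBot := by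
    intro m hm hbot
    have h6 := hbot.eventually_lt_atBot 0
    obtain ⟨n, hn1, hn2⟩ := (h6.and hdom).exists
    have := hn2 m hm
    linarith
  by_cases hA : ∃ m1 ∈ g.support, m1 ≠ ms ∧ ∃ C : ℝ, ∀ᶠ n in U, |DD (z n) (dif ms m1)| ≤ C
  · -- rank one
    obtain ⟨m1, hm1, hne, C, hC⟩ := hA
    set v : ℤ × ℤ := dif ms m1 with hv
    have hv0 : v ≠ 0 := by
      intro h
      apply hne
      have e1 := congrArg Prod.fst h
      have e2 := congrArg Prod.snd h
      simp only [hv, dif, Prod.fst_zero, Prod.snd_zero] at e1 e2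
      ext k
      fin_cases k
      · change m1 0 = ms 0; omega
      · change m1 1 = ms 1; omega
    have hn2 : 0 < (v.1 : ℝ) ^ 2 + (v.2 : ℝ) ^ 2 := by
      by_cases hv1 : v.1 = 0
      · have hv2 : v.2 ≠ 0 := by
          intro h; exact hv0 (Prod.ext hv1 h)
        have : (v.2 : ℝ) ≠ 0 := by exact_mod_cast hv2
        positivity
      · have : (v.1 : ℝ) ≠ 0 := by exact_mod_cast hv1
        positivity
    obtain ⟨β, hβ⟩ := exists_lim U hC
    -- decomposition
    have hdec : ∀ (σ : ℤ) (_ : σ = 1 ∨ σ = -1) (u : ℤ × ℤ) (n : ℕ), DD (z n) u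
        = ((u.1 : ℝ) * v.1 + u.2 * v.2) / (v.1 ^ 2 + v.2 ^ 2) * DD (z n) v
          + ((u.1 : ℝ) * (-(σ * v.2)) + u.2 * (σ * v.1)) / (v.1 ^ 2 + v.2 ^ 2)
            * DD (z n) (-(σ * v.2), σ * v.1) := by
      intro σ hσ u n
      have hσ2 : (σ : ℝ) * σ = 1 := by
        rcases hσ with h | h <;> rw [h] <;> norm_num
      simp only [DD]
      push_cast
      field_simp
      linear_combination (-(u.1 * v.2 * v.2 * (z n).1) + u.1 * v.1 * v.2 * (z n).2
        + u.2 * v.1 * v.2 * (z n).1 - u.2 * v.1 ^ 2 * (z n).2 : ℝ) * hσ2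
    -- the sign
    have hne' : (i : ℤ) * (-v.2) + j * v.1 ≠ 0 := by
      intro h
      have h7 : ∀ n, DD (z n) ((i : ℤ), (j : ℤ))
          = ((i : ℝ) * v.1 + j * v.2) / (v.1 ^ 2 + v.2 ^ 2) * DD (z n) v := by
        intro n
        have := hdec 1 (Or.inl rfl) ((i : ℤ), (j : ℤ)) n
        have h8 : ((i : ℝ)) * (-((1 : ℤ) * v.2)) + (j : ℝ) * ((1 : ℤ) * v.1) = 0 := by
          have : (((i : ℤ) * (-v.2) + j * v.1 : ℤ) : ℝ) = 0 := by rw [h]; simp
          push_cast at this ⊢
          linarith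
        simp only [Int.cast_natCast] at this
        rw [h8, zero_div, zero_mul, add_zero] at this
        exact this
      simp only [h7] at hij
      have h9 := hβ.const_mul (((i : ℝ) * v.1 + j * v.2) / (v.1 ^ 2 + v.2 ^ 2))
      exact not_tendsto_nhds_of_tendsto_atTop hij _ h9
    obtain ⟨σ, hσ, hσpos⟩ : ∃ σ : ℤ, (σ = 1 ∨ σ = -1) ∧
        0 < -(σ * v.2) * i + (σ * v.1) * j := by
      rcases lt_or_gt_of_ne hne' with h | h
      · exact ⟨-1, Or.inr rfl, by linarith⟩
      · exact ⟨1, Or.inl rfl, by linarith⟩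
    set w : ℤ × ℤ := (-(σ * v.2), σ * v.1) with hw
    -- D(w) tends to infinity
    have hDw : Tendsto (fun n => DD (z n) w) U atTop := by
      have hc : 0 < (((i : ℤ) : ℝ) * (-(σ * v.2)) + ((j : ℤ) : ℝ) * (σ * v.1))
          / ((v.1 : ℝ) ^ 2 + v.2 ^ 2) := by
        apply div_pos _ hn2
        have : (0 : ℝ) < ((-(σ * v.2) * i + (σ * v.1) * j : ℤ) : ℝ) := by exact_mod_cast hσpos
        push_cast at this ⊢
        linarith
      have h9 := hβ.const_mul ((((i : ℤ) : ℝ) * v.1 + ((j : ℤ) : ℝ) * v.2)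
        / ((v.1 : ℝ) ^ 2 + v.2 ^ 2))
      have h10 := (hij.atTop_add h9.neg).const_mul_atTop (inv_pos.mpr hc)
      refine h10.congr fun n => ?_
      have := hdec σ hσ ((i : ℤ), (j : ℤ)) n
      simp only [hw] at this ⊢
      rw [this]
      have e9 : ∀ k d c f : ℝ, k * d + c * f + -(k * d) = c * f := by intros; ring
      rw [e9, ← mul_assoc, inv_mul_cancel₀ hc.ne', one_mul]
    have hwt : ∀ m ∈ g.support, 0 ≤ w.1 * (dif ms m).1 + w.2 * (dif ms m).2 := by
      intro m hm
      by_contra hneg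
      push Not at hneg
      apply hnotbot m hm
      have hc : (((dif ms m).1 : ℝ) * (-(σ * v.2)) + ((dif ms m).2 : ℝ) * (σ * v.1))
          / ((v.1 : ℝ) ^ 2 + v.2 ^ 2) < 0 := by
        apply div_neg_of_neg_of_pos _ hn2
        have : ((w.1 * (dif ms m).1 + w.2 * (dif ms m).2 : ℤ) : ℝ) < 0 := by exact_mod_cast hneg
        simp only [hw] at this
        push_cast at this ⊢
        linarith
      have h9 := hβ.const_mul ((((dif ms m).1 : ℝ) * v.1 + ((dif ms m).2 : ℝ) * v.2)
        / ((v.1 : ℝ) ^ 2 + v.2 ^ 2))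
      have h10 := h9.add_atBot (hDw.const_mul_atTop_of_neg hc)
      refine h10.congr fun n => ?_
      rw [hdec σ hσ (dif ms m) n]
    have hmsl : ms ∈ lsup w g := by
      rw [mem_lsup]
      refine ⟨hms, fun m hm => ?_⟩
      have h11 := hwt m hm
      rw [← wt_dif] at h11
      linarith
    have hlsup : ∀ m ∈ g.support, m ∈ lsup w g ↔
        w.1 * (dif ms m).1 + w.2 * (dif ms m).2 = 0 := by
      intro m hm
      rw [← wt_dif]
      constructor
      · intro h
        have h12 := (mem_lsup.mp h).2 ms hms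
        have h13 := (mem_lsup.mp hmsl).2 m hm
        linarith
      · intro h
        rw [mem_lsup]
        refine ⟨hm, fun m' hm' => ?_⟩
        have h13 := (mem_lsup.mp hmsl).2 m' hm'
        linarith
    -- the limits
    set N2 : ℝ := (v.1 : ℝ) ^ 2 + v.2 ^ 2 with hN2
    let κ : (Fin 2 →₀ ℕ) → ℝ := fun m => if m ∈ lsup w g then
      Real.exp (-((((dif ms m).1 : ℝ) * v.1 + ((dif ms m).2 : ℝ) * v.2) / N2 * β)) else 0
    have hκ : ∀ m ∈ g.support, Tendsto (fun n => Real.exp (-DD (Real.log |P n 0|,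
        Real.log |P n 1|) (dif ms m))) U (𝓝 (κ m)) := by
      intro m hm
      by_cases h : m ∈ lsup w g
      · simp only [κ, if_pos h]
        have h14 := (hlsup m hm).mp h
        have h15 := hβ.const_mul ((((dif ms m).1 : ℝ) * v.1 + ((dif ms m).2 : ℝ) * v.2) / N2)
        have h16 := (Real.continuous_exp.tendsto _).comp h15.neg
        refine h16.congr fun n => ?_
        simp only [Function.comp]
        congr 2
        have h17 := hdec σ hσ (dif ms m) n
        have h18 : ((dif ms m).1 : ℝ) * (-(σ * v.2)) + ((dif ms m).2 : ℝ) * (σ * v.1) = 0 := by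
          have : ((w.1 * (dif ms m).1 + w.2 * (dif ms m).2 : ℤ) : ℝ) = 0 := by rw [h14]; simp
          simp only [hw] at this
          push_cast at this ⊢
          linarith
        rw [h18, zero_div, zero_mul, add_zero] at h17
        exact h17.symm
      · simp only [κ, if_neg h]
        have h14 : 0 < w.1 * (dif ms m).1 + w.2 * (dif ms m).2 := by
          rcases lt_or_eq_of_le (hwt m hm) with h2 | h2
          · exact h2
          · exact absurd ((hlsup m hm).mpr h2.symm) h
        have hc : 0 < (((dif ms m).1 : ℝ) * (-(σ * v.2)) + ((dif ms m).2 : ℝ) * (σ * v.1)) / N2 := by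
          apply div_pos _ hn2
          have : 0 < ((w.1 * (dif ms m).1 + w.2 * (dif ms m).2 : ℤ) : ℝ) := by exact_mod_cast h14
          simp only [hw] at this
          push_cast at this ⊢
          linarith
        have h15 := hβ.const_mul ((((dif ms m).1 : ℝ) * v.1 + ((dif ms m).2 : ℝ) * v.2) / N2)
        have h16 := h15.add_atTop (hDw.const_mul_atTop hc)
        have h17 := Real.tendsto_exp_atBot.comp (tendsto_neg_atTop_atBot.comp h16)
        refine h17.congr fun n => ?_
        simp only [Function.comp]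
        congr 2
        exact (hdec σ hσ (dif ms m) n).symm
    obtain ⟨e1, e2, he1, he2, -, -, hsum⟩ := limit_step U hpos h0 h1 ms hκ
    refine ⟨w, ?_, e1 * Real.exp (v.1 / N2 * β), e2 * Real.exp (v.2 / N2 * β),
      mul_ne_zero he1 (Real.exp_pos _).ne', mul_ne_zero he2 (Real.exp_pos _).ne', ?_⟩
    · simp only [hw]; exact hσpos
    have h19 : eval ![e1 * Real.exp (v.1 / N2 * β), e2 * Real.exp (v.2 / N2 * β)] (lform w g)
        = Real.exp ((ms 0 * v.1 + ms 1 * v.2) / N2 * β)
          * ∑ m ∈ g.support, coeff m g * (e1 ^ m 0 * e2 ^ m 1) * κ m := by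
      rw [Finset.mul_sum, lform, map_sum]
      have h20 : lsup w g ⊆ g.support := fun m hm => (mem_lsup.mp hm).1
      rw [← Finset.sum_subset h20]
      · refine Finset.sum_congr rfl fun m hm => ?_
        rw [eval_monomial, Finsupp.prod_fintype _ _ (by simp), Fin.prod_univ_two]
        simp only [κ, if_pos hm, Matrix.cons_val_zero, Matrix.cons_val_one]
        rw [mul_pow, mul_pow, ← Real.exp_nat_mul, ← Real.exp_nat_mul]
        have h21 : Real.exp (m 0 * (v.1 / N2 * β)) * Real.exp (m 1 * (v.2 / N2 * β))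
            = Real.exp ((ms 0 * v.1 + ms 1 * v.2) / N2 * β)
              * Real.exp (-((((dif ms m).1 : ℝ) * v.1 + ((dif ms m).2 : ℝ) * v.2) / N2 * β)) := by
          rw [← Real.exp_add, ← Real.exp_add]
          congr 1
          simp only [dif]
          push_cast
          ring
        calc _ = coeff m g * (e1 ^ m 0 * e2 ^ m 1) *
              (Real.exp (m 0 * (v.1 / N2 * β)) * Real.exp (m 1 * (v.2 / N2 * β))) := by ring
          _ = _ := by rw [h21]; ring
      · intro m _ hm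
        simp only [κ, if_neg hm, mul_zero]
    rw [h19]
    exact mul_nonneg (Real.exp_pos _).le hsum
  · -- rank zero
    push Not at hA
    have htop : ∀ m ∈ g.support, m ≠ ms → Tendsto (fun n => DD (z n) (dif ms m)) U atTop := by
      intro m hm hne
      rcases tricho U (fun n => DD (z n) (dif ms m)) with ⟨C, hC⟩ | h | h
      · exfalso
        obtain ⟨n, hn1, hn2⟩ := ((hA m hm hne C).and hC).exists
        exact absurd hn2 (not_le.mpr hn1)
      · exact h
      · exact absurd h (hnotbot m hm)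
    let V : Finset (ℤ × ℤ) := insert ((i : ℤ), (j : ℤ))
      ((g.support.erase ms).image (fun m => dif ms m))
    obtain ⟨n, hn⟩ : ∃ n, ∀ v ∈ V, 0 < (v.1 : ℝ) * (z n).1 + v.2 * (z n).2 := by
      have h22 : ∀ᶠ n in U, ∀ v ∈ V, 0 < (v.1 : ℝ) * (z n).1 + v.2 * (z n).2 := by
        rw [Filter.eventually_all_finset]
        intro v hv
        rw [Finset.mem_insert, Finset.mem_image] at hv
        rcases hv with rfl | ⟨m, hm, rfl⟩
        · exact hij.eventually_gt_atTop 0
        · exact (htop m (Finset.mem_of_mem_erase hm) (Finset.ne_of_mem_erase hm)).eventually_gt_atTop 0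
      exact h22.exists
    obtain ⟨w, hw⟩ := exists_int hn
    have hw1 : 0 < w.1 * i + w.2 * j := by
      have := hw _ (Finset.mem_insert_self _ _)
      linarith
    have hw2 : ∀ m ∈ g.support, m ≠ ms → wt w m < wt w ms := by
      intro m hm hne
      have := hw (dif ms m) (Finset.mem_insert_of_mem
        (Finset.mem_image.mpr ⟨m, Finset.mem_erase.mpr ⟨hne, hm⟩, rfl⟩))
      have h23 := wt_dif w ms m
      linarith
    have hl : lsup w g = {ms} := by
      ext m
      rw [mem_lsup, Finset.mem_singleton]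
      constructor
      · rintro ⟨hm, hmax⟩
        by_contra hne
        have := hmax ms hms
        have := hw2 m hm hne
        omega
      · rintro rfl
        refine ⟨hms, fun m' hm' => ?_⟩
        by_cases h : m' = m
        · rw [h]
        · exact (hw2 m' hm' h).le
    let κ : (Fin 2 →₀ ℕ) → ℝ := fun m => if m = ms then 1 else 0
    have hκ : ∀ m ∈ g.support, Tendsto (fun n => Real.exp (-DD (Real.log |P n 0|,
        Real.log |P n 1|) (dif ms m))) U (𝓝 (κ m)) := by
      intro m hm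
      by_cases h : m = ms
      · simp only [κ, if_pos h]
        subst h
        have : dif m m = (0, 0) := by simp [dif]
        simp only [this, DD]
        simp
      · simp only [κ, if_neg h]
        have h17 := Real.tendsto_exp_atBot.comp (tendsto_neg_atTop_atBot.comp (htop m hm h))
        exact h17
    obtain ⟨e1, e2, he1, he2, -, -, hsum⟩ := limit_step U hpos h0 h1 ms hκ
    refine ⟨w, hw1, e1, e2, he1, he2, ?_⟩
    have h19 : eval ![e1, e2] (lform w g)
        = ∑ m ∈ g.support, coeff m g * (e1 ^ m 0 * e2 ^ m 1) * κ m := by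
      rw [lform, hl, Finset.sum_singleton, Finset.sum_eq_single ms]
      · rw [eval_monomial, Finsupp.prod_fintype _ _ (by simp), Fin.prod_univ_two]
        simp [κ]
      · intro m _ hne
        simp [κ, hne]
      · intro h
        exact absurd hms h
    rw [h19]
    exact hsum

end Pool.Agent.H685_stab
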