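import Pool.Agent.H685_stab.Local

/-!
Stability from bounds on the degrees of polynomials with restricted growth.
-/

set_option linter.unusedSectionVars false

namespace Pool.Agent.H685_stab

open MvPolynomial

/-- The polynomial `1 + x² + y²`. -/
noncomputable def hq : P2 := 1 + X 0 ^ 2 + X 1 ^ 2

lemma eval_hq (P : Fin 2 → ℝ) : eval P hq = 1 + P 0 ^ 2 + P 1 ^ 2 := by simp [hq]

lemma one_le_hq (P : Fin 2 → ℝ) : 1 ≤ eval P hq := by
  rw [eval_hq]; nlinarith [sq_nonneg (P 0), sq_nonneg (P 1)]

/-- Growth condition of order `d` on `{g > 0}`. -/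
def Grow (g : P2) (d : ℕ) (f : P2) : Prop :=
  ∃ c : ℝ, ∀ P : Fin 2 → ℝ, 0 < eval P g → (eval P f) ^ 2 ≤ c * (eval P hq) ^ d

lemma abs_le_hq (P : Fin 2 → ℝ) (i : Fin 2) : |P i| ≤ eval P hq := by
  rw [eval_hq]
  apply abs_le_of_sq_le_sq' _ (by positivity) |> abs_le.mpr
  fin_cases i
  · change (P 0) ^ 2 ≤ _
    nlinarith [sq_nonneg (P 0), sq_nonneg (P 1), sq_nonneg (P 0 ^ 2 + P 1 ^ 2)]
  · change (P 1) ^ 2 ≤ _
    nlinarith [sq_nonneg (P 0), sq_nonneg (P 1), sq_nonneg (P 0 ^ 2 + P 1 ^ 2)]

lemma poly_growth {f : P2} {d : ℕ} (hd : f.totalDegree ≤ d) : ∃ c : ℝ, 0 ≤ c ∧ ∀ P : Fin 2 → ℝ,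
    |eval P f| ≤ c * (eval P hq) ^ d := by
  classical
  refine ⟨∑ m ∈ f.support, |coeff m f|, by positivity, fun P => ?_⟩
  have h1 : eval P f = ∑ m ∈ f.support, coeff m f * (P 0 ^ m 0 * P 1 ^ m 1) := by
    rw [eval_eq']
    refine Finset.sum_congr rfl fun m _ => ?_
    rw [Fin.prod_univ_two]
  rw [h1, Finset.sum_mul]
  refine (Finset.abs_sum_le_sum_abs _ _).trans ?_
  apply Finset.sum_le_sum
  intro m hm
  rw [abs_mul]
  apply mul_le_mul_of_nonneg_left _ (abs_nonneg _)
  rw [abs_mul, abs_pow, abs_pow]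
  have h2 := le_totalDegree hm
  rw [Finsupp.sum_fintype _ _ (by simp), Fin.sum_univ_two] at h2
  have hq1 := one_le_hq P
  have h3 : |P 0| ^ m 0 ≤ (eval P hq) ^ m 0 := pow_le_pow_left₀ (abs_nonneg _) (abs_le_hq P 0) _
  have h4 : |P 1| ^ m 1 ≤ (eval P hq) ^ m 1 := pow_le_pow_left₀ (abs_nonneg _) (abs_le_hq P 1) _
  calc |P 0| ^ m 0 * |P 1| ^ m 1 ≤ (eval P hq) ^ m 0 * (eval P hq) ^ m 1 :=
        mul_le_mul h3 h4 (by positivity) (by positivity)
    _ = (eval P hq) ^ (m 0 + m 1) := by rw [pow_add]
    _ ≤ (eval P hq) ^ d := pow_le_pow_right₀ hq1 (by omega)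

/-- **A sufficient condition for stability.** -/
theorem stable_of_growth {g : P2} (hU : ∃ P, 0 < eval P g)
    (h : ∀ d, ∃ N : ℕ, ∀ f, Grow g d f → f.totalDegree ≤ N) : StableQM g := by
  have hg0 : g ≠ 0 := by
    rintro rfl
    obtain ⟨P, hP⟩ := hU
    simp at hP
  choose N hN using h
  refine ⟨fun d => 2 * N d + 2 * N (d + g.totalDegree), fun d f hf hd => ?_⟩
  obtain ⟨σ, τ, hσ, hτ, rfl⟩ := hf
  refine ⟨σ, τ, hσ, hτ, rfl, ?_, ?_⟩
  all_goals
    obtain ⟨n, a, -, hsa⟩ := sos_family hσ (k := σ.totalDegree) (by omega)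
    obtain ⟨m, b, -, hsb⟩ := sos_family hτ (k := τ.totalDegree) (by omega)
    obtain ⟨c, hc0, hc⟩ := poly_growth hd
    obtain ⟨e, he0, he⟩ := poly_growth (f := g) (d := g.totalDegree) le_rfl
    have hσn : ∀ P, 0 ≤ eval P σ := by
      intro P
      rw [hsa, map_sum]
      exact Finset.sum_nonneg fun i _ => by rw [map_mul]; exact mul_self_nonneg _
    have hτn : ∀ P, 0 ≤ eval P τ := by
      intro P
      rw [hsb, map_sum]
      exact Finset.sum_nonneg fun i _ => by rw [map_mul]; exact mul_self_nonneg _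
  · have ha : ∀ i, (a i).totalDegree ≤ N d := by
      intro i
      apply hN
      refine ⟨c, fun P hP => ?_⟩
      have h1 : (eval P (a i)) ^ 2 ≤ eval P σ := by
        rw [hsa, map_sum]
        have : (eval P (a i)) ^ 2 = eval P (a i * a i) := by rw [map_mul]; ring
        rw [this]
        exact Finset.single_le_sum (f := fun i => eval P (a i * a i))
          (fun i _ => by rw [map_mul]; exact mul_self_nonneg _) (Finset.mem_univ i)
      have h2 := hc P
      have h3 := le_abs_self (eval P (σ + τ * g))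
      have h4 : eval P (σ + τ * g) = eval P σ + eval P τ * eval P g := by
        rw [map_add, map_mul]
      have h5 := mul_nonneg (hτn P) hP.le
      linarith
    have : σ.totalDegree ≤ 2 * N d := by
      rw [hsa]
      apply totalDegree_finsetSum_le
      intro i _
      refine (totalDegree_mul _ _).trans ?_
      have := ha i
      omega
    change σ.totalDegree ≤ 2 * N d + 2 * N (d + g.totalDegree)
    omega
  · have hb : ∀ i, (b i * g).totalDegree ≤ N (d + g.totalDegree) := by
      intro i
      apply hN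
      refine ⟨c * e, fun P hP => ?_⟩
      have h1 : (eval P (b i)) ^ 2 ≤ eval P τ := by
        rw [hsb, map_sum]
        have : (eval P (b i)) ^ 2 = eval P (b i * b i) := by rw [map_mul]; ring
        rw [this]
        exact Finset.single_le_sum (f := fun i => eval P (b i * b i))
          (fun i _ => by rw [map_mul]; exact mul_self_nonneg _) (Finset.mem_univ i)
      have h2 := hc P
      have h3 := le_abs_self (eval P (σ + τ * g))
      have h4 : eval P (σ + τ * g) = eval P σ + eval P τ * eval P g := by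
        rw [map_add, map_mul]
      have h5 := hσn P
      have h6 : (eval P (b i)) ^ 2 * eval P g ≤ c * (eval P hq) ^ d := by
        have := mul_le_mul_of_nonneg_right h1 hP.le
        linarith
      have h7 := he P
      rw [abs_of_pos hP] at h7
      rw [map_mul]
      calc (eval P (b i) * eval P g) ^ 2 = ((eval P (b i)) ^ 2 * eval P g) * eval P g := by ring
        _ ≤ (c * (eval P hq) ^ d) * (e * (eval P hq) ^ g.totalDegree) := by
            apply mul_le_mul h6 h7 hP.le
            have := one_le_hq P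
            positivity
        _ = c * e * (eval P hq) ^ (d + g.totalDegree) := by rw [pow_add]; ring
    have : (τ * g).totalDegree ≤ 2 * N (d + g.totalDegree) := by
      rw [hsb, Finset.sum_mul]
      apply totalDegree_finsetSum_le
      intro i _
      have h1 : b i * b i * g = b i * (b i * g) := by ring
      rw [h1]
      refine (totalDegree_mul _ _).trans ?_
      have h2 := hb i
      by_cases h0 : b i = 0
      · rw [h0]; simp
      · have h3 : (b i * g).totalDegree = (b i).totalDegree + g.totalDegree :=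
          totalDegree_mul_of_isDomain h0 hg0
        omega
    change (τ * g).totalDegree ≤ 2 * N d + 2 * N (d + g.totalDegree)
    omega

end Pool.Agent.H685_stab
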