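import Pool.Agent.H685_stab.Arch2

/-!
Polynomials with positive leading terms on the three tentacles.
-/

set_option linter.unusedSectionVars false

namespace Pool.Agent.H685_stab

open MvPolynomial

/-- Polynomials bounded in absolute value by a multiple of `Q ^ m`. -/
def Pb (m : ℕ) : Submodule ℝ P2 where
  carrier := {f | ∃ c : ℝ, 0 ≤ c ∧ MM (C c * QQ ^ m + f) ∧ MM (C c * QQ ^ m - f)}
  add_mem' := by
    rintro f h ⟨c, hc0, hc, hc'⟩ ⟨d, hd0, hd, hd'⟩
    refine ⟨c + d, by positivity, ?_, ?_⟩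
    · have e : C (c + d) * QQ ^ m + (f + h) = (C c * QQ ^ m + f) + (C d * QQ ^ m + h) := by
        rw [C_add]; ring
      rw [e]; exact hc.add hd
    · have e : C (c + d) * QQ ^ m - (f + h) = (C c * QQ ^ m - f) + (C d * QQ ^ m - h) := by
        rw [C_add]; ring
      rw [e]; exact hc'.add hd'
  zero_mem' := ⟨0, le_refl _, by simpa using (InQM.zero : MM 0), by simpa using (InQM.zero : MM 0)⟩
  smul_mem' := by
    rintro r f ⟨c, hc0, hc, hc'⟩
    rcases le_total 0 r with hr | hr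
    · refine ⟨r * c, by positivity, ?_, ?_⟩
      · have e : C (r * c) * QQ ^ m + r • f = C r * (C c * QQ ^ m + f) := by
          rw [smul_eq_C_mul, C_mul]; ring
        rw [e]; exact MM.const_mul hr hc
      · have e : C (r * c) * QQ ^ m - r • f = C r * (C c * QQ ^ m - f) := by
          rw [smul_eq_C_mul, C_mul]; ring
        rw [e]; exact MM.const_mul hr hc'
    · have hr' : 0 ≤ -r := by linarith
      refine ⟨-r * c, by positivity, ?_, ?_⟩
      · have e : C (-r * c) * QQ ^ m + r • f = C (-r) * (C c * QQ ^ m - f) := by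
          rw [smul_eq_C_mul, C_mul, C_neg]; ring
        rw [e]; exact MM.const_mul hr' hc'
      · have e : C (-r * c) * QQ ^ m - r • f = C (-r) * (C c * QQ ^ m + f) := by
          rw [smul_eq_C_mul, C_mul, C_neg]; ring
        rw [e]; exact MM.const_mul hr' hc

lemma Bm_mul_Pb {m : ℕ} {f h : P2} (hf : f ∈ Bm m) (hh : h ∈ Bm m) : f * h ∈ Pb m := by
  obtain ⟨c, hc0, hc⟩ := hf
  obtain ⟨d, hd0, hd⟩ := hh
  have h2 : (C 2 : P2) = 2 := map_ofNat C 2
  have hhalf : (C (1 / 2) : P2) * 2 = 1 := by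
    rw [← h2, ← C_mul]; norm_num
  refine ⟨1 / 2 * (c + d), by positivity, ?_, ?_⟩
  · have e : C (1 / 2 * (c + d)) * QQ ^ m + f * h
        = C (1 / 2) * ((C c * QQ ^ m - f ^ 2) + (C d * QQ ^ m - h ^ 2) + (f + h) ^ 2) := by
      rw [C_mul, C_add]
      linear_combination (-f * h) * hhalf
    rw [e]; exact MM.const_mul (by norm_num) ((hc.add hd).add (MM.sq _))
  · have e : C (1 / 2 * (c + d)) * QQ ^ m - f * h
        = C (1 / 2) * ((C c * QQ ^ m - f ^ 2) + (C d * QQ ^ m - h ^ 2) + (f - h) ^ 2) := by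
      rw [C_mul, C_add]
      linear_combination (f * h) * hhalf
    rw [e]; exact MM.const_mul (by norm_num) ((hc.add hd).add (MM.sq _))

lemma Vm_le_Bm' {m : ℕ} (hm : 2 ≤ m) : Vm m ≤ Bm m := by
  obtain ⟨k, rfl⟩ : ∃ k, m = k + 2 := ⟨m - 2, by omega⟩
  exact Vm_le_Bm k

lemma Vm_le_Pb {m : ℕ} (hm : 2 ≤ m) (j : ℕ) (hj : j ≤ m) : Vm ((m + j : ℕ) : ℤ) ≤ Pb m := by
  have hB := Vm_le_Bm' hm
  induction j with
  | zero =>
    intro f hf
    have h1 : (1 : P2) ∈ Bm m := by
      have := Bm_mono (Nat.zero_le m) one_mem_Bm0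
      exact this
    have := Bm_mul_Pb (hB hf) h1
    rwa [mul_one] at this
  | succ j ih =>
    intro f hf
    obtain ⟨L, hL, -, -, hd⟩ := peel (m := m) (k := j + 1) (by omega) (f := f) hf
    have h1 : f - ∑ i, av i ^ (j + 1) * L i ∈ Pb m := by
      apply ih (by omega)
      apply Vm_mono _ hd
      push_cast; omega
    have h2 : ∑ i, av i ^ (j + 1) * L i ∈ Pb m := by
      refine sum_mem fun i _ => ?_
      apply Bm_mul_Pb _ (hB (hL i))
      have := Bm_pow (av_mem_Bm i) (j + 1)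
      apply Bm_mono _ this
      omega
    have : f = (f - ∑ i, av i ^ (j + 1) * L i) + ∑ i, av i ^ (j + 1) * L i := by ring
    rw [this]; exact add_mem h1 h2

/-- Lifting of a sum of squares. -/
lemma lift_sos (i : Fin 3) {σ : Polynomial ℝ} (hσ : IsSumSq σ) : ∃ S : P2, IsSumSq S ∧
    ph i S ∈ Gr 2 ∧ lead 2 (ph i S) = σ ∧ ∀ j, j ≠ i → ph j S ∈ Gr 0 := by
  induction hσ with
  | zero =>
    refine ⟨0, IsSumSq.zero, by rw [map_zero]; exact zero_mem _, by rw [map_zero, map_zero],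
      fun j _ => by rw [map_zero]; exact zero_mem _⟩
  | @sq_add a s _ ih =>
    obtain ⟨S, hS, hG, hl, ho⟩ := ih
    obtain ⟨L, -, hLG, hLe, hLo⟩ := exists_lift (m := 1) i a
    have hll := lead_lift (m := 1) (by norm_num) hLe
    have hLG' : ph i L ∈ Gr 1 := hLG
    have hll' : lead 1 (ph i L) = a := hll
    refine ⟨L * L + S, (IsSumSq.mul_self L).add hS, ?_, ?_, ?_⟩
    · rw [map_add, map_mul]
      exact add_mem (Gr_mul hLG' hLG') hG
    · rw [map_add, map_mul, map_add, hl]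
      have := lead_mul hLG' hLG'
      rw [hll'] at this
      have h2 : (1 : ℤ) + 1 = 2 := rfl
      rw [h2] at this
      rw [this]
    · intro j hj
      rw [map_add, map_mul]
      exact add_mem (Gr_mul (hLo j hj) (hLo j hj)) (ho j hj)

/-- The lifting of an element of the quadratic module of the interval `[-1, 1]`. -/
lemma lift_qm (i : Fin 3) (n : ℕ) {μ : Polynomial ℝ}
    (hμ : InQM (Polynomial.C ((1 : ℝ) ^ 2) - Polynomial.X ^ 2) μ) : ∃ S : P2, MM S ∧
    ph i S ∈ Gr ((2 * n + 4 : ℕ) : ℤ) ∧ lead ((2 * n + 4 : ℕ) : ℤ) (ph i S) = μ ∧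
      ∀ j, j ≠ i → ph j S ∈ Gr 2 := by
  obtain ⟨σ, τ, hσ, hτ, rfl⟩ := hμ
  obtain ⟨S, hS, hSG, hSl, hSo⟩ := lift_sos i hσ
  obtain ⟨T, hT, hTG, hTl, hTo⟩ := lift_sos i hτ
  have hG := gx_lead i
  have ha : ph i (av i ^ (2 * n + 2)) ∈ Gr ((2 * n + 2 : ℕ) : ℤ) := by
    rw [map_pow]
    have := Gr_pow (av_Gr1 i i) (2 * n + 2)
    exact FW_mono (by omega) this
  have ha' : lead ((2 * n + 2 : ℕ) : ℤ) (ph i (av i ^ (2 * n + 2))) = 1 := by
    rw [map_pow]
    have := lead_pow (av_Gr1 i i) (2 * n + 2)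
    rw [mul_one, lead_av_self, one_pow] at this
    exact this
  have hb : ph i (av i ^ (2 * n)) ∈ Gr ((2 * n : ℕ) : ℤ) := by
    rw [map_pow]
    have := Gr_pow (av_Gr1 i i) (2 * n)
    exact FW_mono (by omega) this
  have hb' : lead ((2 * n : ℕ) : ℤ) (ph i (av i ^ (2 * n))) = 1 := by
    rw [map_pow]
    have := lead_pow (av_Gr1 i i) (2 * n)
    rw [mul_one, lead_av_self, one_pow] at this
    exact this
  have evsos : ∀ m, IsSumSq (av i ^ (2 * m)) := by
    intro m
    rw [mul_comm, pow_mul]; exact sos_sq _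
  refine ⟨av i ^ (2 * n + 2) * S + C (1 / 2) * (av i ^ (2 * n) * T * gx), ?_, ?_, ?_, ?_⟩
  · refine InQM.add (MM.sos ?_) (MM.const_mul (by norm_num) (InQM.smul ((evsos n).mul hT) InQM.gen))
    exact (evsos (n + 1)).mul hS
  · rw [map_add, map_mul]
    refine add_mem ?_ ?_
    · have := Gr_mul ha hSG
      exact FW_mono (by push_cast; omega) this
    · rw [ph_C]
      apply Submodule.smul_mem
      rw [map_mul, map_mul]
      have := Gr_mul (Gr_mul hb hTG) hG.1
      exact FW_mono (by push_cast; omega) this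
  · rw [map_add, map_mul, map_add]
    have h1 := lead_mul ha hSG
    rw [ha', hSl, one_mul] at h1
    have h2 := lead_mul (Gr_mul hb hTG) hG.1
    rw [lead_mul hb hTG, hb', hTl, one_mul, hG.2] at h2
    have e1 : ((2 * n + 2 : ℕ) : ℤ) + 2 = ((2 * n + 4 : ℕ) : ℤ) := by push_cast; ring
    have e2 : ((2 * n : ℕ) : ℤ) + 2 + 2 = ((2 * n + 4 : ℕ) : ℤ) := by push_cast; ring
    rw [e1] at h1
    rw [e2] at h2
    have e3 : ph i (av i ^ (2 * n) * T * gx) = ph i (av i ^ (2 * n)) * ph i T * ph i gx := by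
      rw [map_mul, map_mul]
    rw [h1, ph_C, map_smul, e3, h2]
    rw [Polynomial.smul_eq_C_mul]
    have hC : (Polynomial.C (1 / 2) : Polynomial ℝ) * Polynomial.C 2 = 1 := by
      rw [← Polynomial.C_mul]; norm_num
    have hC1 : (Polynomial.C ((1 : ℝ) ^ 2) : Polynomial ℝ) = 1 := by simp
    rw [hC1]
    linear_combination (τ * (1 - Polynomial.X ^ 2)) * hC
  · intro j hj
    rw [map_add, map_mul]
    have h02 : Gr 0 ≤ Gr 2 := FW_mono (by norm_num)
    have hp : ∀ m : ℕ, ph j (av i ^ m) ∈ Gr 0 := by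
      intro m
      rw [map_pow]
      have := Gr_pow (av_Gr0 hj) m
      rwa [mul_zero] at this
    refine add_mem ?_ ?_
    · have := Gr_mul (hp (2 * n + 2)) (hSo j hj)
      exact h02 this
    · rw [ph_C]
      apply Submodule.smul_mem
      rw [map_mul, map_mul]
      have := Gr_mul (Gr_mul (hp (2 * n)) (hTo j hj)) (gx_lead j).1
      exact this

lemma exists_eta (μ : Fin 3 → Polynomial ℝ)
    (h : ∀ i, ∀ u ∈ Set.Icc (-(1 : ℝ)) 1, 0 < (μ i).eval u) :
    ∃ η : ℝ, 0 < η ∧ ∀ i, ∀ u ∈ Set.Icc (-(1 : ℝ)) 1, 0 < (μ i - Polynomial.C η).eval u := by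
  have h1 : ∀ i, ∃ η : ℝ, 0 < η ∧ ∀ u ∈ Set.Icc (-(1 : ℝ)) 1, η < (μ i).eval u := by
    intro i
    obtain ⟨u0, hu0, hmin⟩ := isCompact_Icc.exists_isMinOn (s := Set.Icc (-(1 : ℝ)) 1)
      ⟨0, by norm_num, by norm_num⟩ ((μ i).continuous.continuousOn)
    refine ⟨(μ i).eval u0 / 2, half_pos (h i u0 hu0), fun u hu => ?_⟩
    have h2 := hmin hu
    have h3 := h i u0 hu0
    have h4 : (μ i).eval u0 ≤ (μ i).eval u := h2
    linarith
  choose η hη0 hη using h1
  refine ⟨min (η 0) (min (η 1) (η 2)), ?_, ?_⟩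
  · exact lt_min (hη0 0) (lt_min (hη0 1) (hη0 2))
  · intro i u hu
    rw [Polynomial.eval_sub, Polynomial.eval_C, sub_pos]
    refine lt_of_le_of_lt ?_ (hη i u hu)
    fin_cases i
    · exact min_le_left _ _
    · exact (min_le_right _ _).trans (min_le_left _ _)
    · exact (min_le_right _ _).trans (min_le_right _ _)

/-- **Positivity.** -/
theorem posit {n : ℕ} {G : P2} (hG : G ∈ Vm ((2 * n + 6 : ℕ) : ℤ))
    (hpos : ∀ i, ∀ u ∈ Set.Icc (-(1 : ℝ)) 1,
      0 < (lead ((2 * n + 6 : ℕ) : ℤ) (ph i G)).eval u) :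
    ∃ c : ℝ, MM (G + C c * QQ ^ (n + 2)) := by
  obtain ⟨η, hη0, hη⟩ := exists_eta _ hpos
  have hcert : ∀ i, InQM (Polynomial.C ((1 : ℝ) ^ 2) - Polynomial.X ^ 2)
      (lead ((2 * n + 6 : ℕ) : ℤ) (ph i G) - Polynomial.C η) := by
    intro i
    exact pos_interval one_pos (hη i)
  choose S hS hSG hSl hSo using fun i => lift_qm i (n + 1) (hcert i)
  have e6 : 2 * (n + 1) + 4 = 2 * n + 6 := by ring
  simp only [e6] at hSG hSl
  set R : P2 := G - ∑ i, S i - ∑ i, C η * av i ^ (2 * n + 6) with hR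
  have hav : ∀ i, ph i (av i ^ (2 * n + 6)) ∈ Gr ((2 * n + 6 : ℕ) : ℤ) := by
    intro i
    rw [map_pow]
    have := Gr_pow (av_Gr1 i i) (2 * n + 6)
    exact FW_mono (by omega) this
  have hav' : ∀ i, lead ((2 * n + 6 : ℕ) : ℤ) (ph i (av i ^ (2 * n + 6))) = 1 := by
    intro i
    rw [map_pow]
    have := lead_pow (av_Gr1 i i) (2 * n + 6)
    rw [mul_one, lead_av_self, one_pow] at this
    exact this
  have havo : ∀ i j, j ≠ i → ph j (av i ^ (2 * n + 6)) ∈ Gr 0 := by
    intro i j hj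
    rw [map_pow]
    have := Gr_pow (av_Gr0 hj) (2 * n + 6)
    rwa [mul_zero] at this
  have hRV : R ∈ Vm (((n + 2) + (n + 3) : ℕ) : ℤ) := by
    intro j
    have e7 : (((n + 2) + (n + 3) : ℕ) : ℤ) = ((2 * n + 6 : ℕ) : ℤ) - 1 := by push_cast; ring
    rw [e7]
    apply mem_Gr_pred
    · rw [hR, map_sub, map_sub, map_sum, map_sum]
      refine sub_mem (sub_mem (hG j) (sum_mem fun i _ => ?_)) (sum_mem fun i _ => ?_)
      · by_cases h : j = i
        · subst h; exact hSG j
        · exact FW_mono (by push_cast; omega) (hSo i j h)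
      · rw [ph_C]
        apply Submodule.smul_mem
        by_cases h : j = i
        · subst h; exact hav j
        · exact FW_mono (by push_cast; omega) (havo i j h)
    · rw [hR, map_sub, map_sub, map_sum, map_sum, map_sub, map_sub, map_sum, map_sum,
        Finset.sum_eq_single j, Finset.sum_eq_single j]
      · rw [hSl, ph_C, map_smul, hav', Polynomial.smul_eq_C_mul]
        ring
      · intro i _ h
        have h' : j ≠ i := fun hh => h hh.symm
        rw [ph_C, map_smul, lead_of_mem (havo i j h') (by push_cast; omega), smul_zero]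
      · intro h
        exact absurd (Finset.mem_univ j) h
      · intro i _ h
        have h' : j ≠ i := fun hh => h hh.symm
        exact lead_of_mem (hSo i j h') (by push_cast; omega)
      · intro h
        exact absurd (Finset.mem_univ j) h
  obtain ⟨L, hL, -, -, hd⟩ := peel (m := n + 2) (k := n + 3) (by omega) (f := R) hRV
  have hZ : R - ∑ i, av i ^ (n + 3) * L i ∈ Pb (n + 2) := by
    apply Vm_le_Pb (m := n + 2) (by omega) (n + 2) le_rfl
    apply Vm_mono _ hd
    push_cast; omega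
  obtain ⟨cZ, hcZ0, hcZ, -⟩ := hZ
  choose d hd0 hd using fun i => Vm_le_Bm' (show 2 ≤ n + 2 by omega) (hL i)
  refine ⟨(∑ i, 1 / (4 * η) * d i) + cZ, ?_⟩
  have hη1 : (C η : P2) * C (1 / (2 * η)) = C (1 / 2) := by
    rw [← C_mul]; congr 1; field_simp
  have key : ∀ i, MM (C η * av i ^ (2 * n + 6) + av i ^ (n + 3) * L i
      + C (1 / (4 * η) * d i) * QQ ^ (n + 2)) := by
    intro i
    have e : C η * av i ^ (2 * n + 6) + av i ^ (n + 3) * L i
        + C (1 / (4 * η) * d i) * QQ ^ (n + 2)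
        = C η * (av i ^ (n + 3) + C (1 / (2 * η)) * L i) ^ 2
          + C (1 / (4 * η)) * (C (d i) * QQ ^ (n + 2) - L i ^ 2) := by
      have h1 : (C η : P2) * C (1 / (2 * η)) * 2 = 1 := by
        rw [hη1]
        have h2 : (C 2 : P2) = 2 := map_ofNat C 2
        rw [← h2, ← C_mul]; norm_num
      have h3 : (C η : P2) * C (1 / (2 * η)) ^ 2 = C (1 / (4 * η)) := by
        rw [← C_pow, ← C_mul]; congr 1; field_simp; norm_num
      rw [C_mul]
      linear_combination (-(av i ^ (n + 3) * L i)) * h1 - (L i ^ 2) * h3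
    rw [e]
    exact (MM.const_mul hη0.le (MM.sq _)).add
      (MM.const_mul (by positivity) (hd i))
  have e : G + C ((∑ i, 1 / (4 * η) * d i) + cZ) * QQ ^ (n + 2)
      = ∑ i, S i + ∑ i, (C η * av i ^ (2 * n + 6) + av i ^ (n + 3) * L i
        + C (1 / (4 * η) * d i) * QQ ^ (n + 2))
        + (C cZ * QQ ^ (n + 2) + (R - ∑ i, av i ^ (n + 3) * L i)) := by
    rw [C_add, map_sum, Finset.sum_add_distrib, Finset.sum_add_distrib, hR, add_mul,
      Finset.sum_mul]
    ring
  rw [e]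
  exact ((MM.sum _ _ fun i _ => hS i).add (MM.sum _ _ fun i _ => key i)).add hcZ

end Pool.Agent.H685_stab
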