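import Mathlib

/-!
Sums of squares in the real polynomial ring in two variables: degree bounds and
representation with a bounded number of squares.
-/

namespace Pool.Agent.H685_stab

open MvPolynomial

/-- Real polynomials in two variables. -/
abbrev P2 := MvPolynomial (Fin 2) ℝ

/-- The degree-lexicographic order used for leading terms. -/
noncomputable abbrev mo : MonomialOrder (Fin 2) := MonomialOrder.degLex

lemma lead_add {f g : P2} (hf : 0 ≤ mo.leadingCoeff f) (hg : 0 ≤ mo.leadingCoeff g) :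
    0 ≤ mo.leadingCoeff (f + g) ∧ mo.toSyn (mo.degree f) ≤ mo.toSyn (mo.degree (f + g)) ∧
      mo.toSyn (mo.degree g) ≤ mo.toSyn (mo.degree (f + g)) := by
  rcases lt_trichotomy (mo.toSyn (mo.degree f)) (mo.toSyn (mo.degree g)) with h | h | h
  · have h1 : mo.degree (f + g) = mo.degree g := mo.degree_add_eq_right_of_lt h
    have h2 : mo.leadingCoeff (f + g) = mo.leadingCoeff g := by
      rw [add_comm]; exact mo.leadingCoeff_add_of_lt h
    rw [h1, h2]
    exact ⟨hg, h.le, le_refl _⟩
  · by_cases hf0 : f = 0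
    · subst hf0
      simp only [zero_add]
      refine ⟨hg, ?_, le_refl _⟩
      rw [h]
    · have hpos : 0 < mo.leadingCoeff f :=
        lt_of_le_of_ne hf (Ne.symm (mo.leadingCoeff_ne_zero_iff.mpr hf0))
      have hd : mo.degree f = mo.degree g := mo.toSyn.injective h
      have hc : coeff (mo.degree f) (f + g) = mo.leadingCoeff f + mo.leadingCoeff g := by
        rw [coeff_add, MonomialOrder.leadingCoeff, MonomialOrder.leadingCoeff, ← hd]
      have hne : coeff (mo.degree f) (f + g) ≠ 0 := by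
        rw [hc]; linarith
      have hmem : mo.degree f ∈ (f + g).support := mem_support_iff.mpr hne
      have hle : mo.toSyn (mo.degree f) ≤ mo.toSyn (mo.degree (f + g)) := mo.le_degree hmem
      have hle2 : mo.toSyn (mo.degree (f + g)) ≤ mo.toSyn (mo.degree f) := by
        refine le_trans mo.degree_add_le ?_
        rw [h]; simp
      have heq : mo.degree (f + g) = mo.degree f := mo.toSyn.injective (le_antisymm hle2 hle)
      refine ⟨?_, hle, ?_⟩
      · rw [MonomialOrder.leadingCoeff, heq, hc]; linarith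
      · rw [← h]; exact hle
  · have h1 : mo.degree (f + g) = mo.degree f := mo.degree_add_of_lt h
    have h2 : mo.leadingCoeff (f + g) = mo.leadingCoeff f := mo.leadingCoeff_add_of_lt h
    rw [h1, h2]
    exact ⟨hf, le_refl _, h.le⟩

lemma lead_sq (a : P2) : 0 ≤ mo.leadingCoeff (a * a) := by
  rw [MonomialOrder.leadingCoeff_mul]
  exact mul_self_nonneg _

lemma sos_lead {s : P2} (hs : IsSumSq s) : 0 ≤ mo.leadingCoeff s := by
  induction hs with
  | zero => simp
  | sq_add a hs ih => exact (lead_add (lead_sq a) ih).1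

lemma totalDegree_sq (a : P2) : (a * a).totalDegree = 2 * a.totalDegree := by
  by_cases ha : a = 0
  · simp [ha]
  · rw [MvPolynomial.totalDegree_mul_of_isDomain ha ha]; ring

lemma sos_deg {a s : P2} (hs : IsSumSq s) :
    2 * a.totalDegree ≤ (a * a + s).totalDegree ∧ s.totalDegree ≤ (a * a + s).totalDegree := by
  have h := lead_add (lead_sq a) (sos_lead hs)
  refine ⟨?_, MvPolynomial.degLex_totalDegree_monotone h.2.2⟩
  rw [← totalDegree_sq]
  exact MvPolynomial.degLex_totalDegree_monotone h.2.1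

/-- A sum of squares of total degree at most `2k` is a finite sum of squares of polynomials of
total degree at most `k`. -/
lemma sos_family {s : P2} (hs : IsSumSq s) {k : ℕ} (hk : s.totalDegree ≤ 2 * k) :
    ∃ (n : ℕ) (a : Fin n → P2), (∀ i, (a i).totalDegree ≤ k) ∧ s = ∑ i, a i * a i := by
  induction hs with
  | zero => exact ⟨0, fun _ => 0, fun i => i.elim0, by simp⟩
  | @sq_add a t ht ih =>
    have h := sos_deg (a := a) ht
    obtain ⟨n, b, hb, hsum⟩ := ih (h.2.trans hk)
    refine ⟨n + 1, Fin.cons a b, ?_, ?_⟩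
    · intro i
      refine Fin.cases ?_ (fun j => ?_) i
      · simp only [Fin.cons_zero]; omega
      · simpa using hb j
    · rw [Fin.sum_univ_succ]
      simp [hsum]

/-- Index type of the monomials `x^i y^j` with `i, j ≤ k`. -/
abbrev Ix (k : ℕ) := Fin (k + 1) × Fin (k + 1)

/-- The polynomial with given coefficients. -/
noncomputable def toPoly {k : ℕ} (c : Ix k → ℝ) : P2 :=
  ∑ i, C (c i) * (X 0 ^ (i.1 : ℕ) * X 1 ^ (i.2 : ℕ))

/-- The polynomial function with given coefficients. -/
noncomputable def val {k : ℕ} (c : Ix k → ℝ) (z : Fin 2 → ℝ) : ℝ :=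
  ∑ i, c i * (z 0 ^ (i.1 : ℕ) * z 1 ^ (i.2 : ℕ))

lemma eval_toPoly {k : ℕ} (c : Ix k → ℝ) (z : Fin 2 → ℝ) : eval z (toPoly c) = val c z := by
  simp [toPoly, val]

lemma exists_coeffs {a : P2} {k : ℕ} (ha : a.totalDegree ≤ k) :
    ∃ c : Ix k → ℝ, a = toPoly c := by
  classical
  refine ⟨fun i => coeff (Finsupp.single 0 (i.1 : ℕ) + Finsupp.single 1 (i.2 : ℕ)) a, ?_⟩
  ext m
  rw [toPoly, coeff_sum]
  have hmon : ∀ i : Ix k, (X 0 ^ (i.1 : ℕ) * X 1 ^ (i.2 : ℕ) : P2)
      = monomial (Finsupp.single 0 (i.1 : ℕ) + Finsupp.single 1 (i.2 : ℕ)) 1 := by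
    intro i
    rw [X_pow_eq_monomial, X_pow_eq_monomial, monomial_mul]; simp
  have hm : ∀ p q : ℕ, (Finsupp.single 0 p + Finsupp.single 1 q : Fin 2 →₀ ℕ) = m ↔
      p = m 0 ∧ q = m 1 := by
    intro p q
    constructor
    · rintro rfl; simp
    · rintro ⟨rfl, rfl⟩
      ext i; fin_cases i <;> simp
  simp_rw [hmon, coeff_C_mul, coeff_monomial]
  by_cases hmk : m 0 ≤ k ∧ m 1 ≤ k
  · rw [Finset.sum_eq_single
      ((⟨m 0, by omega⟩, ⟨m 1, by omega⟩) : Ix k)]
    · have : (Finsupp.single 0 (m 0) + Finsupp.single 1 (m 1) : Fin 2 →₀ ℕ) = m :=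
        (hm _ _).mpr ⟨rfl, rfl⟩
      simp [this]
    · intro b _ hb
      have : ¬ ((Finsupp.single 0 (b.1 : ℕ) + Finsupp.single 1 (b.2 : ℕ) : Fin 2 →₀ ℕ) = m) := by
        rw [hm]
        rintro ⟨h1, h2⟩
        apply hb
        ext <;> simp [h1, h2]
      simp [this]
    · simp
  · have hzero : coeff m a = 0 := by
      by_contra hne
      have hmem : m ∈ a.support := mem_support_iff.mpr hne
      have hle := le_totalDegree hmem
      rw [Finsupp.sum_fintype _ _ (by simp)] at hle
      simp at hle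
      omega
    rw [hzero]
    symm
    apply Finset.sum_eq_zero
    intro b _
    have : ¬ ((Finsupp.single 0 (b.1 : ℕ) + Finsupp.single 1 (b.2 : ℕ) : Fin 2 →₀ ℕ) = m) := by
      rw [hm]
      rintro ⟨h1, h2⟩
      apply hmk
      have := b.1.2; have := b.2.2
      omega
    simp [this]

open scoped MatrixOrder in
/-- Gram reduction: a sum of squares of degree at most `2k` is a sum of squares indexed by `Ix k`
(on the level of values). -/
lemma sos_bounded {s : P2} (hs : IsSumSq s) {k : ℕ} (hk : s.totalDegree ≤ 2 * k) :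
    ∃ c : Ix k → Ix k → ℝ, ∀ z, eval z s = ∑ r, (val (c r) z) ^ 2 := by
  classical
  obtain ⟨n, a, ha, hsum⟩ := sos_family hs hk
  choose c hc using fun i => exists_coeffs (ha i)
  let M : Matrix (Fin n) (Ix k) ℝ := fun j i => c j i
  have hpsd : (M.conjTranspose * M).PosSemidef := Matrix.posSemidef_conjTranspose_mul_self M
  obtain ⟨B, hB⟩ := CStarAlgebra.nonneg_iff_eq_star_mul_self.mp hpsd.nonneg
  refine ⟨fun r i => B r i, fun z => ?_⟩
  have key : ∀ (κ : Type) [Fintype κ] (N : Matrix κ (Ix k) ℝ) (v : Ix k → ℝ),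
      ∑ r, (∑ i, N r i * v i) ^ 2 = ∑ i, ∑ l, (N.conjTranspose * N) i l * (v i * v l) := by
    intro κ _ N v
    simp only [Matrix.mul_apply, Matrix.conjTranspose_apply, star_trivial, Finset.sum_mul]
    rw [Finset.sum_congr rfl (fun r _ => sq (∑ i, N r i * v i))]
    simp_rw [Finset.sum_mul_sum]
    rw [Finset.sum_comm]
    refine Finset.sum_congr rfl fun i _ => ?_
    rw [Finset.sum_comm]
    refine Finset.sum_congr rfl fun l _ => ?_
    refine Finset.sum_congr rfl fun r _ => ?_
    ring
  have h1 : eval z s = ∑ j, (∑ i, M j i * (z 0 ^ (i.1 : ℕ) * z 1 ^ (i.2 : ℕ))) ^ 2 := by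
    rw [hsum, map_sum]
    refine Finset.sum_congr rfl fun j _ => ?_
    rw [map_mul, hc j, eval_toPoly, val, sq]
  rw [h1, key]
  have h2 := key _ B (fun i => z 0 ^ (i.1 : ℕ) * z 1 ^ (i.2 : ℕ))
  simp only [val]
  rw [h2, hB]
  rfl

end Pool.Agent.H685_stab
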