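import Pool.Agent.H685_stab.Netz

/-!
Leading forms with respect to integer weights and growth along monomial curves.
-/

set_option linter.unusedSectionVars false

namespace Pool.Agent.H685_stab

open MvPolynomial Filter Topology

/-- The weight of an exponent. -/
def wt (w : ℤ × ℤ) (m : Fin 2 →₀ ℕ) : ℤ := w.1 * m 0 + w.2 * m 1

/-- The exponents of maximal weight. -/
noncomputable def lsup (w : ℤ × ℤ) (g : P2) : Finset (Fin 2 →₀ ℕ) :=
  open Classical in g.support.filter (fun m => ∀ m' ∈ g.support, wt w m' ≤ wt w m)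

/-- The leading form. -/
noncomputable def lform (w : ℤ × ℤ) (g : P2) : P2 :=
  ∑ m ∈ lsup w g, monomial m (coeff m g)

/-- The leading form is positive at some point of the torus. -/
def PosDir (g : P2) (w : ℤ × ℤ) : Prop :=
  ∃ a b : ℝ, a ≠ 0 ∧ b ≠ 0 ∧ 0 < eval ![a, b] (lform w g)

/-- The leading form is negative on the whole torus. -/
def NegDir (g : P2) (w : ℤ × ℤ) : Prop :=
  ∀ a b : ℝ, a ≠ 0 → b ≠ 0 → eval ![a, b] (lform w g) < 0

lemma mem_lsup {w : ℤ × ℤ} {g : P2} {m : Fin 2 →₀ ℕ} :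
    m ∈ lsup w g ↔ m ∈ g.support ∧ ∀ m' ∈ g.support, wt w m' ≤ wt w m := by
  classical
  rw [lsup, Finset.mem_filter]

lemma exists_lsup {w : ℤ × ℤ} {g : P2} (hg : g ≠ 0) : ∃ m, m ∈ lsup w g := by
  obtain ⟨m, hm, hmax⟩ := Finset.exists_max_image g.support (wt w)
    (by rwa [Finset.nonempty_iff_ne_empty, Ne, support_eq_empty])
  exact ⟨m, mem_lsup.mpr ⟨hm, hmax⟩⟩

lemma coeff_lform {w : ℤ × ℤ} {g : P2} (m : Fin 2 →₀ ℕ) :
    coeff m (lform w g) = if m ∈ lsup w g then coeff m g else 0 := by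
  classical
  rw [lform, coeff_sum]
  simp only [coeff_monomial]
  rw [Finset.sum_ite_eq']

lemma lform_ne_zero {w : ℤ × ℤ} {g : P2} (hg : g ≠ 0) : lform w g ≠ 0 := by
  obtain ⟨m, hm⟩ := exists_lsup (w := w) hg
  intro h
  have h1 := coeff_lform (w := w) (g := g) m
  rw [h, coeff_zero, if_pos hm] at h1
  exact (mem_support_iff.mp (mem_lsup.mp hm).1) h1.symm

/-- The point on a monomial curve. -/
noncomputable def cur (w : ℤ × ℤ) (a b s : ℝ) : Fin 2 → ℝ := ![a * s ^ w.1, b * s ^ w.2]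

lemma eval_cur {w : ℤ × ℤ} {a b s : ℝ} (hs : s ≠ 0) (f : P2) :
    eval (cur w a b s) f
      = ∑ m ∈ f.support, coeff m f * (a ^ m 0 * b ^ m 1) * s ^ (wt w m) := by
  rw [eval_eq']
  refine Finset.sum_congr rfl fun m _ => ?_
  rw [Fin.prod_univ_two]
  simp only [cur, Matrix.cons_val_zero, Matrix.cons_val_one]
  rw [mul_pow, mul_pow, wt, zpow_add₀ hs, zpow_mul, zpow_mul, zpow_natCast, zpow_natCast]
  ring

lemma tendsto_lform {w : ℤ × ℤ} {f : P2} {m0 : Fin 2 →₀ ℕ} (hm0 : m0 ∈ lsup w f) (a b : ℝ) :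
    Tendsto (fun s : ℝ => s ^ (-wt w m0) * eval (cur w a b s) f) atTop
      (𝓝 (eval ![a, b] (lform w f))) := by
  classical
  obtain ⟨hm0s, hmax⟩ := mem_lsup.mp hm0
  have h1 : ∀ m ∈ f.support, Tendsto
      (fun s : ℝ => coeff m f * (a ^ m 0 * b ^ m 1) * s ^ (wt w m - wt w m0)) atTop
      (𝓝 (if m ∈ lsup w f then coeff m f * (a ^ m 0 * b ^ m 1) else 0)) := by
    intro m hm
    by_cases h : m ∈ lsup w f
    · rw [if_pos h]
      have e : wt w m - wt w m0 = 0 := by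
        have := (mem_lsup.mp h).2 m0 hm0s
        have := hmax m hm
        omega
      rw [e]
      simp
    · rw [if_neg h]
      have hlt : wt w m < wt w m0 := by
        rcases lt_or_eq_of_le (hmax m hm) with h2 | h2
        · exact h2
        · exfalso
          apply h
          rw [mem_lsup]
          exact ⟨hm, fun m' hm' => by rw [h2]; exact hmax m' hm'⟩
      obtain ⟨k, hk⟩ : ∃ k : ℕ, wt w m - wt w m0 = -((k + 1 : ℕ) : ℤ) :=
        ⟨(wt w m0 - wt w m - 1).toNat, by omega⟩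
      rw [hk]
      have h3 : Tendsto (fun s : ℝ => s ^ (-((k + 1 : ℕ) : ℤ))) atTop (𝓝 0) := by
        have := tendsto_pow_neg_atTop (𝕜 := ℝ) (n := k + 1) (by omega)
        refine this.congr fun s => ?_
        rw [zpow_neg, zpow_natCast]
        try rfl
      have := h3.const_mul (coeff m f * (a ^ m 0 * b ^ m 1))
      rwa [mul_zero] at this
  have h2 := tendsto_finsetSum _ h1
  have e1 : (∑ m ∈ f.support, if m ∈ lsup w f then coeff m f * (a ^ m 0 * b ^ m 1) else 0)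
      = eval ![a, b] (lform w f) := by
    rw [lform, map_sum, ← Finset.sum_filter]
    have e2 : f.support.filter (fun m => m ∈ lsup w f) = lsup w f := by
      ext m
      rw [Finset.mem_filter]
      exact ⟨fun h => h.2, fun h => ⟨(mem_lsup.mp h).1, h⟩⟩
    rw [e2]
    refine Finset.sum_congr rfl fun m _ => ?_
    rw [eval_monomial, Finsupp.prod_fintype _ _ (by simp), Fin.prod_univ_two]
    simp
  rw [e1] at h2
  refine h2.congr' ?_
  filter_upwards [eventually_gt_atTop 0] with s hs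
  rw [eval_cur hs.ne', Finset.mul_sum]
  refine Finset.sum_congr rfl fun m _ => ?_
  rw [zpow_sub₀ hs.ne', zpow_neg, div_eq_mul_inv]
  ring

lemma cur_growth (w : ℤ × ℤ) (a b : ℝ) {M : ℕ} (h1 : w.1 ≤ M) (h2 : w.2 ≤ M) {s : ℝ} (hs : 1 ≤ s) :
    eval (cur w a b s) hq ≤ (1 + a ^ 2 + b ^ 2) * s ^ (2 * M) := by
  rw [eval_hq]
  simp only [cur, Matrix.cons_val_zero, Matrix.cons_val_one]
  have hs0 : (0 : ℝ) < s := by linarith
  have e : ∀ k : ℤ, k ≤ M → (s ^ k) ^ 2 ≤ s ^ (2 * M) := by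
    intro k hk
    have h3 : s ^ k ≤ s ^ (M : ℤ) := zpow_le_zpow_right₀ hs hk
    have h4 : (s ^ k) ^ 2 ≤ (s ^ (M : ℤ)) ^ 2 := pow_le_pow_left₀ (by positivity) h3 2
    rw [zpow_natCast, ← pow_mul] at h4
    rwa [mul_comm 2 M]
  have h5 : (1 : ℝ) ≤ s ^ (2 * M) := one_le_pow₀ hs
  have h6 := mul_le_mul_of_nonneg_left (e w.1 h1) (sq_nonneg a)
  have h7 := mul_le_mul_of_nonneg_left (e w.2 h2) (sq_nonneg b)
  nlinarith

/-- Growth bounds the weights. -/
theorem wt_le_of_grow {g f : P2} {w : ℤ × ℤ} (hw : PosDir g w) {d : ℕ} (hf : Grow g d f)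
    {M : ℕ} (h1 : w.1 ≤ M) (h2 : w.2 ≤ M) {m : Fin 2 →₀ ℕ} (hm : m ∈ f.support) :
    wt w m ≤ M * d := by
  have hf0 : f ≠ 0 := by
    rintro rfl
    simp at hm
  obtain ⟨m0, hm0⟩ := exists_lsup (w := w) hf0
  have hmm0 := (mem_lsup.mp hm0).2 m hm
  refine hmm0.trans ?_
  obtain ⟨a0, b0, ha0, hb0, hpos⟩ := hw
  have hg0 : lform w g ≠ 0 := by
    intro h
    rw [h] at hpos
    simp at hpos
  -- choose a good point
  obtain ⟨P, hP1, hP2⟩ := exists_ne_zero (g := lform w g) (h := lform w f)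
    (lform_ne_zero hf0) ⟨![a0, b0], hpos⟩
  have hPe : ![P 0, P 1] = P := by
    ext i; fin_cases i <;> rfl
  set a := P 0 with ha
  set b := P 1 with hb
  rw [← hPe] at hP1 hP2
  have hg0' : g ≠ 0 := by
    rintro rfl
    apply hg0
    rw [lform]
    have : lsup w (0 : P2) = ∅ := by
      ext m
      rw [mem_lsup]
      simp
    rw [this, Finset.sum_empty]
  obtain ⟨mg, hmg⟩ := exists_lsup (w := w) hg0'
  have t1 := tendsto_lform hmg a b
  have t2 := tendsto_lform hm0 a b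
  have ev1 := t1.eventually_const_lt hP1
  obtain ⟨c, hc⟩ := hf
  set L := eval ![a, b] (lform w f) with hL
  have hL2 : 0 < L ^ 2 / 2 := by positivity
  have t3 := t2.pow 2
  have ev2 := t3.eventually_const_lt (show L ^ 2 / 2 < L ^ 2 by linarith)
  -- compare
  by_contra hcon
  push Not at hcon
  obtain ⟨k, hk⟩ : ∃ k : ℕ, wt w m0 = M * d + (k + 1 : ℕ) := ⟨(wt w m0 - M * d - 1).toNat, by omega⟩
  have t4 : Tendsto (fun s : ℝ => s ^ (2 * (k + 1)) * (L ^ 2 / 2)) atTop atTop :=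
    (tendsto_pow_atTop (by omega)).atTop_mul_const hL2
  have ev3 := t4.eventually_gt_atTop (|c| * (1 + a ^ 2 + b ^ 2) ^ d)
  obtain ⟨s, hs1, hs2, hs3, hs4⟩ := (ev1.and (ev2.and (ev3.and (eventually_ge_atTop (1 : ℝ))))).exists
  have hs0 : (0 : ℝ) < s := by linarith
  have hgpos : 0 < eval (cur w a b s) g := by
    have : 0 < s ^ (-wt w mg) := zpow_pos hs0 _
    by_contra hneg
    push Not at hneg
    have := mul_nonpos_of_nonneg_of_nonpos this.le hneg
    linarith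
  have h3 := hc _ hgpos
  have h4 := cur_growth w a b h1 h2 hs4
  have h5 : (eval (cur w a b s) hq) ^ d ≤ ((1 + a ^ 2 + b ^ 2) * s ^ (2 * M)) ^ d :=
    pow_le_pow_left₀ (by have := one_le_hq (cur w a b s); linarith) h4 d
  have h6 : c * (eval (cur w a b s) hq) ^ d ≤ |c| * ((1 + a ^ 2 + b ^ 2) * s ^ (2 * M)) ^ d := by
    have h7 : 0 ≤ (eval (cur w a b s) hq) ^ d := by
      have := one_le_hq (cur w a b s); positivity
    calc c * (eval (cur w a b s) hq) ^ d ≤ |c| * (eval (cur w a b s) hq) ^ d :=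
          mul_le_mul_of_nonneg_right (le_abs_self c) h7
      _ ≤ _ := mul_le_mul_of_nonneg_left h5 (abs_nonneg c)
  have h8 : (s ^ (-wt w m0) * eval (cur w a b s) f) ^ 2
      = (s ^ (-wt w m0)) ^ 2 * (eval (cur w a b s) f) ^ 2 := by ring
  rw [h8] at hs2
  have h9 : (s ^ (-wt w m0)) ^ 2 * s ^ (2 * M * d) * s ^ (2 * (k + 1)) = 1 := by
    rw [hk, ← zpow_natCast s (2 * M * d), ← zpow_natCast s (2 * (k + 1)),
      ← zpow_natCast (s ^ (-((M : ℤ) * d + (k + 1 : ℕ)))) 2, ← zpow_mul, ← zpow_add₀ hs0.ne',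
      ← zpow_add₀ hs0.ne']
    have : -((M : ℤ) * d + (k + 1 : ℕ)) * (2 : ℕ) + ((2 * M * d : ℕ) : ℤ)
        + ((2 * (k + 1) : ℕ) : ℤ) = 0 := by push_cast; ring
    rw [this, zpow_zero]
  have h10 : (s ^ (-wt w m0)) ^ 2 * (eval (cur w a b s) f) ^ 2
      ≤ (s ^ (-wt w m0)) ^ 2 * (|c| * ((1 + a ^ 2 + b ^ 2) * s ^ (2 * M)) ^ d) :=
    mul_le_mul_of_nonneg_left (h3.trans h6) (by positivity)
  have h11 : (s ^ (-wt w m0)) ^ 2 * (|c| * ((1 + a ^ 2 + b ^ 2) * s ^ (2 * M)) ^ d)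
      * s ^ (2 * (k + 1)) = |c| * (1 + a ^ 2 + b ^ 2) ^ d := by
    rw [mul_pow, ← pow_mul]
    calc _ = |c| * (1 + a ^ 2 + b ^ 2) ^ d
          * ((s ^ (-wt w m0)) ^ 2 * s ^ (2 * M * d) * s ^ (2 * (k + 1))) := by ring
      _ = _ := by rw [h9, mul_one]
  have h12 : s ^ (2 * (k + 1)) * (L ^ 2 / 2) < |c| * (1 + a ^ 2 + b ^ 2) ^ d := by
    rw [← h11]
    have hsp : 0 < s ^ (2 * (k + 1)) := by positivity
    calc s ^ (2 * (k + 1)) * (L ^ 2 / 2) < s ^ (2 * (k + 1)) *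
          ((s ^ (-wt w m0)) ^ 2 * (eval (cur w a b s) f) ^ 2) := by
            exact mul_lt_mul_of_pos_left hs2 hsp
      _ ≤ s ^ (2 * (k + 1)) * ((s ^ (-wt w m0)) ^ 2
          * (|c| * ((1 + a ^ 2 + b ^ 2) * s ^ (2 * M)) ^ d)) :=
            mul_le_mul_of_nonneg_left h10 hsp.le
      _ = _ := by ring
  linarith

/-- **Toric sufficient condition for stability.** -/
theorem stable_of_cone {g : P2} {w w' : ℤ × ℤ} (hw : PosDir g w) (hw' : PosDir g w') {l l' : ℕ}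
    (h1 : 0 < l * w.1 + l' * w'.1) (h2 : 0 < l * w.2 + l' * w'.2) (hU : ∃ P, 0 < eval P g) :
    StableQM g := by
  apply stable_of_growth hU
  intro d
  set M : ℕ := w.1.natAbs + w.2.natAbs + w'.1.natAbs + w'.2.natAbs with hM
  refine ⟨(l * (M * d) + l' * (M * d)), fun f hf => ?_⟩
  rw [totalDegree, Finset.sup_le_iff]
  intro m hm
  rw [Finsupp.sum_fintype _ _ (by simp), Fin.sum_univ_two]
  have h3 := wt_le_of_grow hw hf (M := M) (by omega) (by omega) hm
  have h4 := wt_le_of_grow hw' hf (M := M) (by omega) (by omega) hm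
  simp only [wt] at h3 h4
  have h5 : (l : ℤ) * (w.1 * m 0 + w.2 * m 1) ≤ l * (M * d) :=
    mul_le_mul_of_nonneg_left h3 (by positivity)
  have h6 : (l' : ℤ) * (w'.1 * m 0 + w'.2 * m 1) ≤ l' * (M * d) :=
    mul_le_mul_of_nonneg_left h4 (by positivity)
  have h7 : (m 0 : ℤ) ≤ (l * w.1 + l' * w'.1) * m 0 := by
    have : (0 : ℤ) ≤ m 0 := by positivity
    nlinarith
  have h8 : (m 1 : ℤ) ≤ (l * w.2 + l' * w'.2) * m 1 := by
    have : (0 : ℤ) ≤ m 1 := by positivity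
    nlinarith
  have h9 : ((m 0 + m 1 : ℕ) : ℤ) ≤ ((l * (M * d) + l' * (M * d) : ℕ) : ℤ) := by
    push_cast
    nlinarith
  exact_mod_cast h9

end Pool.Agent.H685_stab
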