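import Pool.Agent.H685_stab.Lang
import Pool.Agent.H685_stab.Toric

/-!
If `{g > 0}` contains a vertical half-strip and `x` is unbounded on `{g > 0}`, then the growth
spaces are finite-dimensional.
-/

set_option linter.unusedSectionVars false

namespace Pool.Agent.H685_stab

open Filter Topology

/-- A real closed model containing the limit point of a sequence. -/
theorem exists_model (P : ℕ → Fin 2 → ℝ) :
    ∃ (R : Type) (_ : Field R) (_ : LinearOrder R) (_ : IsStrictOrderedRing R) (_ : Algebra ℝ R)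
      (x y : R), PolyIVT R ∧ ∀ f : P2, (∀ᶠ n in (hyperfilter ℕ : Filter ℕ),
        0 < MvPolynomial.eval (P n) f) → 0 < MvPolynomial.aeval ![x, y] f := by
  let K := Germ (hyperfilter ℕ : Filter ℕ) ℝ
  let T : Set K := {z | 0 ≤ z}
  have hT : ∀ a ∈ T, ∀ b ∈ T, a * b ∈ T := by
    intro a ha b hb
    change (0 : K) ≤ a * b
    exact mul_nonneg ha hb
  have h1 : (1 : K) ∈ T := by
    change (0 : K) ≤ 1
    exact zero_le_one
  have hneg : (-1 : K) ∉ AddSubmonoid.closure {z | ∃ t ∈ T, ∃ l : K, z = t * l ^ 2} := by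
    intro h
    have h2 : (0 : K) ≤ -1 := by
      refine AddSubmonoid.closure_induction (motive := fun z _ => (0 : K) ≤ z) ?_ ?_ ?_ h
      · rintro z ⟨t, ht, l, rfl⟩
        exact mul_nonneg ht (sq_nonneg l)
      · exact le_refl _
      · intro a b _ _ ha hb
        exact add_nonneg ha hb
    have h3 : (-1 : K) < 0 := by simp
    exact absurd h2 (not_le.mpr h3)
  obtain ⟨R, _, _, _, φ, hφ, hR⟩ := exists_rc T hT h1 hneg
  let ι : P2 →+* K := (Germ.coeRingHom (hyperfilter ℕ : Filter ℕ)).comp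
    (RingHom.pi (fun n => MvPolynomial.eval (P n)))
  set ψ : P2 →+* R := φ.comp ι with hψ
  let _ : Algebra ℝ R := (ψ.comp MvPolynomial.C).toAlgebra
  have halg : ∀ r : ℝ, algebraMap ℝ R r = ψ (MvPolynomial.C r) := fun r => rfl
  have haev : ∀ f : P2, MvPolynomial.aeval ![ψ (MvPolynomial.X 0), ψ (MvPolynomial.X 1)] f
      = ψ f := by
    intro f
    induction f using MvPolynomial.induction_on with
    | C a => rw [MvPolynomial.aeval_C, halg]
    | add p q hp hq => rw [map_add, map_add, hp, hq]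
    | mul_X p i hp =>
      rw [map_mul, map_mul, hp, MvPolynomial.aeval_X]
      congr 1
      fin_cases i <;> rfl
  refine ⟨R, inferInstance, inferInstance, inferInstance, inferInstance,
    ψ (MvPolynomial.X 0), ψ (MvPolynomial.X 1), hR, fun f hf => ?_⟩
  rw [haev]
  have hι : (0 : K) < ι f := by
    change (0 : K) < ((fun n => MvPolynomial.eval (P n) f : ℕ → ℝ) : K)
    have : (0 : K) = ((fun _ => (0 : ℝ) : ℕ → ℝ) : K) := rfl
    rw [this, Germ.coe_lt]
    exact hf
  refine lt_of_le_of_ne (hφ _ hι.le) ?_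
  intro h
  have : ι f = 0 := φ.injective (h.symm.trans (map_zero _).symm)
  exact hι.ne' this

section Model

open Polynomial

variable {R : Type} [Field R] [LinearOrder R] [IsStrictOrderedRing R] [Algebra ℝ R]

lemma not_bdd_of_inf {x : R} (hx : ∀ r : ℝ, algebraMap ℝ R r < |x|) : ¬ Bdd x := by
  rintro ⟨c, hc⟩
  exact absurd hc (not_le.mpr (hx c))

lemma pb_of_alg {x : R} (hx : ∀ r : ℝ, algebraMap ℝ R r < |x|) {w : R}
    (hw : IsAlgebraic (IntermediateField.adjoin ℝ {x}) w) : ∃ N : ℕ, |w| ≤ |x| ^ N := by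
  by_cases hw0 : w = 0
  · exact ⟨0, by rw [hw0]; simp⟩
  have hx1 : (1 : R) < |x| := by have := hx 1; rwa [map_one] at this
  have hx0 : x ≠ 0 := by
    intro h; rw [h, abs_zero] at hx1; linarith
  have hInf : Infl x⁻¹ := infl_inv_of_not_bdd (not_bdd_of_inf hx)
  have hle : IntermediateField.adjoin ℝ {x} ≤ IntermediateField.adjoin ℝ {x⁻¹} := by
    rw [IntermediateField.adjoin_simple_le_iff]
    have h1 := IntermediateField.mem_adjoin_simple_self ℝ (x⁻¹)
    have := inv_mem h1
    rwa [inv_inv] at this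
  have hFv : ∀ z ∈ IntermediateField.adjoin ℝ {x}, z ≠ 0 → ∃ k : ℤ, Uni (z * (x⁻¹) ^ k) :=
    fun z hz hz0 => val_adjoin hInf (inv_ne_zero hx0) (hle hz) hz0
  obtain ⟨p, hp, hpw⟩ := hw
  obtain ⟨n, hn, -, m, hm⟩ := val_alg (inv_ne_zero hx0) hFv hw0 hp hpw
  obtain ⟨c, hc0, hc⟩ := hm.2.1.exists_pos
  have hax : 0 < |x| := by linarith
  have h1 : |w| ^ n ≤ |x| ^ (m.natAbs + 1) := by
    have h2 : |w| ^ n = |w ^ n * (x⁻¹) ^ m| * |x| ^ m := by
      rw [abs_mul, abs_pow, abs_zpow, abs_inv, mul_assoc, ← mul_zpow,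
        inv_mul_cancel₀ hax.ne', one_zpow, mul_one]
    rw [h2]
    have h3 : |x| ^ m ≤ |x| ^ m.natAbs := by
      rw [← zpow_natCast]
      exact zpow_le_zpow_right₀ hx1.le (by omega)
    have h4 : |w ^ n * (x⁻¹) ^ m| ≤ |x| := (hc.trans (hx c)).le
    calc |w ^ n * (x⁻¹) ^ m| * |x| ^ m ≤ |x| * |x| ^ m.natAbs :=
          mul_le_mul h4 h3 (zpow_pos hax m).le hax.le
      _ = |x| ^ (m.natAbs + 1) := by rw [pow_succ]; ring
  refine ⟨m.natAbs + 1, ?_⟩
  have h5 : |w| ^ n ≤ (|x| ^ (m.natAbs + 1)) ^ n := by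
    refine h1.trans ?_
    have h6 : (1 : R) ≤ |x| ^ (m.natAbs + 1) := one_le_pow₀ hx1.le
    exact le_self_pow₀ h6 hn.ne'
  exact le_of_pow_le_pow_left₀ hn.ne' (by positivity) h5

lemma exists_points (hR : PolyIVT R) {x y : R} {g : P2}
    (hg : 0 < MvPolynomial.aeval ![x, y] g) (n : ℕ) :
    ∃ v : Fin n → R, Function.Injective v ∧
      (∀ i, IsAlgebraic (IntermediateField.adjoin ℝ {x}) (v i)) ∧
      ∀ i, 0 < MvPolynomial.aeval ![x, v i] g := by
  classical
  set F := IntermediateField.adjoin ℝ {x} with hF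
  have hxF : x ∈ F := IntermediateField.mem_adjoin_simple_self ℝ x
  obtain ⟨η, hη, hηg⟩ := change_second hR (⟨x, hxF⟩ : F) y (fun _ : Unit => g) (fun _ => hg)
  have hηg' : 0 < MvPolynomial.aeval ![x, η] g := hηg ()
  set p : F[X] := fib (⟨x, hxF⟩ : F) g with hp
  have hpe : ∀ z : R, aeval z p = MvPolynomial.aeval ![x, z] g := fun z => aeval_fib _ _ _
  have hp0 : p ≠ 0 := by
    intro h
    rw [← hpe, h, map_zero] at hηg'
    exact lt_irrefl _ hηg'
  set Z : Finset R := (p.aroots R).toFinset.filter (fun z => η < z) with hZ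
  have hmemZ : ∀ z, z ∈ Z ↔ MvPolynomial.aeval ![x, z] g = 0 ∧ η < z := by
    intro z
    rw [hZ, Finset.mem_filter, Multiset.mem_toFinset, mem_aroots, hpe]
    exact ⟨fun h => ⟨h.1.2, h.2⟩, fun h => ⟨⟨hp0, h.1⟩, h.2⟩⟩
  obtain ⟨ε, hε0, hεalg, hεZ⟩ : ∃ ε : R, 0 < ε ∧ IsAlgebraic F ε ∧
      ∀ z ∈ Z, η + ε * n < z := by
    rcases Z.eq_empty_or_nonempty with h | h
    · exact ⟨1, one_pos, isAlgebraic_one, fun z hz => by rw [h] at hz; simp at hz⟩
    · obtain ⟨z0, hz0, hmin⟩ := Finset.exists_min_image Z id h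
      have hz0' := (hmemZ z0).mp hz0
      have hz0alg : IsAlgebraic F z0 := ⟨p, hp0, by rw [hpe]; exact hz0'.1⟩
      have hn1 : (0 : R) < (n : R) + 1 := by positivity
      refine ⟨(z0 - η) / ((n : R) + 1), div_pos (by linarith [hz0'.2]) hn1, ?_, ?_⟩
      · rw [div_eq_mul_inv]
        refine (hz0alg.sub hη).mul ?_
        have h22 : IsAlgebraic F (algebraMap F R ((n : F) + 1)) := isAlgebraic_algebraMap _
        rw [map_add, map_natCast, map_one] at h22
        exact h22.inv
      · intro z hz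
        have h1 := hmin z hz
        simp only [id] at h1
        refine lt_of_lt_of_le ?_ h1
        have h2 : (z0 - η) / ((n : R) + 1) * n < z0 - η := by
          rw [div_mul_eq_mul_div, div_lt_iff₀ hn1]
          have : 0 < z0 - η := by linarith [hz0'.2]
          nlinarith
        linarith
  refine ⟨fun i => η + ε * ((i : ℕ) : R), ?_, ?_, ?_⟩
  · intro i j hij
    have h1 : ε * ((i : ℕ) : R) = ε * ((j : ℕ) : R) := by
      have : η + ε * ((i : ℕ) : R) = η + ε * ((j : ℕ) : R) := hij
      linarith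
    have h2 := mul_left_cancel₀ hε0.ne' h1
    exact Fin.ext (by exact_mod_cast h2)
  · intro i
    have h22 : IsAlgebraic F (algebraMap F R (((i : ℕ) : F))) := isAlgebraic_algebraMap _
    rw [map_natCast] at h22
    exact hη.add (hεalg.mul h22)
  · intro i
    have hle : ε * ((i : ℕ) : R) ≤ ε * n := by
      apply mul_le_mul_of_nonneg_left _ hε0.le
      exact_mod_cast i.2.le
    have hge : 0 ≤ ε * ((i : ℕ) : R) := by positivity
    by_contra hcon
    push Not at hcon
    set c := η + ε * ((i : ℕ) : R) with hc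
    set φ : R[X] := p.map (algebraMap F R) with hφ
    have hφe : ∀ z, φ.eval z = MvPolynomial.aeval ![x, z] g := by
      intro z
      rw [hφ, eval_map_algebraMap, hpe]
    have hηc : η < c := by
      rcases eq_or_lt_of_le hge with h | h
      · exfalso
        rw [hc, ← h, add_zero] at hcon
        linarith
      · linarith
    have hcne : MvPolynomial.aeval ![x, c] g ≠ 0 := by
      intro h
      have := hεZ c ((hmemZ c).mpr ⟨h, hηc⟩)
      linarith
    have hcneg : MvPolynomial.aeval ![x, c] g < 0 := lt_of_le_of_ne hcon hcne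
    obtain ⟨r, hr1, hr2, hr3⟩ := hR φ η c hηc (by
      rw [hφe, hφe]; exact mul_neg_of_pos_of_neg hηg' hcneg)
    rw [hφe] at hr3
    have := hεZ r ((hmemZ r).mpr ⟨hr3, hr1⟩)
    linarith

lemma transfer (hR : PolyIVT R) {x y : R} (hx : ∀ r : ℝ, algebraMap ℝ R r < |x|) {g f : P2}
    {c : ℝ} {d : ℕ} (h : ∀ P : Fin 2 → ℝ, 0 < MvPolynomial.eval P g →
      (MvPolynomial.eval P f) ^ 2 ≤ c * (MvPolynomial.eval P hq) ^ d)
    (hg : 0 < MvPolynomial.aeval ![x, y] g) :
    (MvPolynomial.aeval ![x, y] f) ^ 2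
      ≤ algebraMap ℝ R c * (MvPolynomial.aeval ![x, y] hq) ^ d := by
  by_contra hcon
  push Not at hcon
  have hxr : ∀ r : ℝ, x ≠ algebraMap ℝ R r := by
    rintro r rfl
    have := hx |r|
    rw [am_abs] at this
    exact lt_irrefl _ this
  obtain ⟨z, hz⟩ := artin_lang hR hxr ![g, f ^ 2 - MvPolynomial.C c * hq ^ d] (by
    intro j
    fin_cases j
    · exact hg
    · change 0 < MvPolynomial.aeval ![x, y] (f ^ 2 - MvPolynomial.C c * hq ^ d)
      rw [map_sub, map_mul, map_pow, map_pow, MvPolynomial.aeval_C]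
      linarith)
  have h0 := hz 0
  have h1 := hz 1
  simp only [Matrix.cons_val_zero, Matrix.cons_val_one, map_sub, map_mul, map_pow,
    MvPolynomial.eval_C] at h0 h1
  have := h z h0
  linarith

/-- The coefficient of `y ^ j` as a polynomial in `x`. -/
noncomputable def cf (f : P2) (j : ℕ) : ℝ[X] :=
  ∑ m ∈ f.support, if m 1 = j then monomial (m 0) (MvPolynomial.coeff m f) else 0

lemma coeff_cf (f : P2) (m : Fin 2 →₀ ℕ) : (cf f (m 1)).coeff (m 0) = MvPolynomial.coeff m f := by
  classical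
  rw [cf, finsetSum_coeff]
  by_cases hm : m ∈ f.support
  · rw [Finset.sum_eq_single m]
    · rw [if_pos rfl, coeff_monomial, if_pos rfl]
    · intro b _ hb
      by_cases h : b 1 = m 1
      · rw [if_pos h, coeff_monomial, if_neg]
        intro h0
        apply hb
        ext k
        fin_cases k
        · exact h0
        · exact h
      · rw [if_neg h, coeff_zero]
    · intro h
      exact absurd hm h
  · rw [MvPolynomial.notMem_support_iff.mp hm]
    apply Finset.sum_eq_zero
    intro b hb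
    by_cases h : b 1 = m 1
    · rw [if_pos h, coeff_monomial, if_neg]
      intro h0
      apply hm
      have : b = m := by
        ext k
        fin_cases k
        · exact h0
        · exact h
      rwa [← this]
    · rw [if_neg h, coeff_zero]

lemma aeval_cf {f : P2} {d : ℕ} (hd : ∀ m ∈ f.support, m 1 ≤ d) (x y : R) :
    MvPolynomial.aeval ![x, y] f = ∑ j ∈ Finset.range (d + 1), aeval x (cf f j) * y ^ j := by
  classical
  have h1 : ∀ j ∈ Finset.range (d + 1), aeval x (cf f j) * y ^ j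
      = ∑ m ∈ f.support, if m 1 = j then
          algebraMap ℝ R (MvPolynomial.coeff m f) * x ^ m 0 * y ^ m 1 else 0 := by
    intro j _
    rw [cf, map_sum, Finset.sum_mul]
    refine Finset.sum_congr rfl fun m _ => ?_
    split_ifs with h
    · rw [aeval_monomial, h]
    · simp
  rw [Finset.sum_congr rfl h1, Finset.sum_comm]
  rw [MvPolynomial.aeval_def, MvPolynomial.eval₂_eq']
  refine Finset.sum_congr rfl fun m hm => ?_
  rw [Finset.sum_ite_eq, if_pos (Finset.mem_range.mpr (Nat.lt_succ_of_le (hd m hm)))]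
  rw [Fin.prod_univ_two]
  simp [mul_assoc]

lemma alg_coeff_prod {F : IntermediateField ℝ R} {ι : Type*} (s : Finset ι) (p : ι → R[X])
    (h : ∀ i ∈ s, ∀ n, IsAlgebraic F ((p i).coeff n)) (n : ℕ) :
    IsAlgebraic F ((∏ i ∈ s, p i).coeff n) := by
  classical
  induction s using Finset.induction_on generalizing n with
  | empty =>
    rw [Finset.prod_empty, coeff_one]
    split_ifs
    · exact isAlgebraic_one
    · exact isAlgebraic_zero
  | insert a s ha ih =>
    rw [Finset.prod_insert ha, coeff_mul]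
    have h1 : ∀ q ∈ Finset.HasAntidiagonal.antidiagonal n,
        (p a).coeff q.1 * (∏ i ∈ s, p i).coeff q.2 ∈ algebraicClosure F R := by
      intro q _
      rw [mem_algebraicClosure_iff]
      exact (h a (Finset.mem_insert_self a s) q.1).mul
        (ih (fun i hi => h i (Finset.mem_insert_of_mem hi)) q.2)
    have := sum_mem h1
    rwa [mem_algebraicClosure_iff] at this

lemma basis_alg {F : IntermediateField ℝ R} {n : ℕ} {v : Fin n → R}
    (hv : ∀ i, IsAlgebraic F (v i)) (i : Fin n) (j : ℕ) :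
    IsAlgebraic F ((Lagrange.basis Finset.univ v i).coeff j) := by
  rw [Lagrange.basis]
  apply alg_coeff_prod
  intro k _ l
  rw [Lagrange.basisDivisor, coeff_C_mul, coeff_sub, coeff_X, coeff_C]
  refine IsAlgebraic.mul ((hv i).sub (hv k)).inv (IsAlgebraic.sub ?_ ?_)
  · split_ifs
    · exact isAlgebraic_one
    · exact isAlgebraic_zero
  · split_ifs
    · exact hv k
    · exact isAlgebraic_zero

lemma lower_bound {x : R} (hx : ∀ r : ℝ, algebraMap ℝ R r < |x|) {p : ℝ[X]} {N : ℕ}
    (h : |aeval x p| ≤ |x| ^ N) : p.natDegree ≤ N := by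
  by_contra hcon
  push Not at hcon
  have hp0 : p ≠ 0 := by
    rintro rfl
    simp at hcon
  have hx1 : (1 : R) < |x| := by have := hx 1; rwa [map_one] at this
  have hax : 0 < |x| := by linarith
  set n := p.natDegree with hn
  set a := p.leadingCoeff with ha
  have ha0 : a ≠ 0 := leadingCoeff_ne_zero.mpr hp0
  -- the lower terms
  have h1 : aeval x p = algebraMap ℝ R a * x ^ n + aeval x p.eraseLead := by
    conv_lhs => rw [← eraseLead_add_monomial_natDegree_leadingCoeff p]
    rw [map_add, aeval_monomial]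
    ring
  have h2 : |aeval x p.eraseLead| ≤ algebraMap ℝ R (∑ k ∈ Finset.range n, |p.coeff k|)
      * |x| ^ (n - 1) := by
    have h3 : aeval x p.eraseLead = ∑ k ∈ Finset.range n, algebraMap ℝ R (p.coeff k) * x ^ k := by
      rw [aeval_eq_sum_range' (n := n) ?_]
      · refine Finset.sum_congr rfl fun k hk => ?_
        rw [eraseLead_coeff_of_ne k (Finset.mem_range.mp hk).ne, Algebra.smul_def]
      · by_cases h4 : p.eraseLead = 0
        · rw [h4]; simp; omega
        · have := eraseLead_natDegree_lt_or_eraseLead_eq_zero p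
          rcases this with h5 | h5
          · exact h5
          · exact absurd h5 h4
    rw [h3, map_sum, Finset.sum_mul]
    refine (Finset.abs_sum_le_sum_abs _ _).trans ?_
    apply Finset.sum_le_sum
    intro k hk
    rw [abs_mul, am_abs, abs_pow]
    apply mul_le_mul_of_nonneg_left _ (am_nonneg (abs_nonneg _))
    exact pow_le_pow_right₀ hx1.le (by have := Finset.mem_range.mp hk; omega)
  set S := ∑ k ∈ Finset.range n, |p.coeff k| with hS
  have hS0 : 0 ≤ S := by positivity
  have h6 : algebraMap ℝ R |a| * |x| ^ n ≤ |x| ^ N + algebraMap ℝ R S * |x| ^ (n - 1) := by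
    have h7 : algebraMap ℝ R a * x ^ n = aeval x p - aeval x p.eraseLead := by rw [h1]; ring
    have h8 : |algebraMap ℝ R a * x ^ n| = algebraMap ℝ R |a| * |x| ^ n := by
      rw [abs_mul, am_abs, abs_pow]
    rw [← h8, h7]
    exact (abs_sub _ _).trans (add_le_add h h2)
  have h9 : |x| ^ N ≤ |x| ^ (n - 1) := pow_le_pow_right₀ hx1.le (by omega)
  have h10 : algebraMap ℝ R |a| * |x| ^ n ≤ (1 + algebraMap ℝ R S) * |x| ^ (n - 1) := by
    linarith
  have h11 : |x| ^ n = |x| * |x| ^ (n - 1) := by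
    rw [← pow_succ']; congr 1; omega
  rw [h11, ← mul_assoc] at h10
  have h12 : algebraMap ℝ R |a| * |x| ≤ 1 + algebraMap ℝ R S :=
    le_of_mul_le_mul_right h10 (by positivity)
  have h13 := hx ((1 + S) / |a|)
  have h14 : algebraMap ℝ R |a| * algebraMap ℝ R ((1 + S) / |a|) = 1 + algebraMap ℝ R S := by
    rw [← map_mul, mul_div_cancel₀ _ (abs_pos.mpr ha0).ne', map_add, map_one]
  have h15 : 0 < algebraMap ℝ R |a| := am_pos (abs_pos.mpr ha0)
  have h16 := mul_lt_mul_of_pos_left h13 h15
  rw [h14] at h16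
  linarith

/-- The bound in a model. -/
lemma strip_model (hR : PolyIVT R) {x y : R} (hx : ∀ r : ℝ, algebraMap ℝ R r < |x|) {g : P2}
    (hg : 0 < MvPolynomial.aeval ![x, y] g) (d D : ℕ) :
    ∃ N : ℕ, ∀ f : P2, (∀ m ∈ f.support, m 1 ≤ d) → Grow g D f → ∀ m ∈ f.support, m 0 ≤ N := by
  classical
  set F := IntermediateField.adjoin ℝ {x} with hF
  have hx1 : (1 : R) < |x| := by have := hx 1; rwa [map_one] at this
  obtain ⟨v, hvinj, hvalg, hvg⟩ := exists_points hR hg (d + 1)
  choose N1 hN1 using fun (i : Fin (d + 1)) (j : ℕ) => pb_of_alg hx (basis_alg hvalg i j)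
  have hhalg : ∀ i, ∃ N : ℕ, |MvPolynomial.aeval ![x, v i] hq| ≤ |x| ^ N := by
    intro i
    apply pb_of_alg hx
    have hxa : IsAlgebraic F x := by
      have h1 : x ∈ F := IntermediateField.mem_adjoin_simple_self ℝ x
      have := isAlgebraic_algebraMap (R := F) (A := R) ⟨x, h1⟩
      exact this
    have e : MvPolynomial.aeval ![x, v i] hq = 1 + x * x + v i * v i := by
      simp [hq]; ring
    rw [e]
    exact (isAlgebraic_one.add (hxa.mul hxa)).add ((hvalg i).mul (hvalg i))
  choose N2 hN2 using hhalg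
  set A : ℕ := ∑ i : Fin (d + 1), ∑ j ∈ Finset.range (d + 1), N1 i j with hA
  set B : ℕ := ∑ i : Fin (d + 1), N2 i with hB
  have hA1 : ∀ i, ∀ j ∈ Finset.range (d + 1), N1 i j ≤ A := by
    intro i j hj
    have h1 : N1 i j ≤ ∑ j ∈ Finset.range (d + 1), N1 i j :=
      Finset.single_le_sum (f := fun j => N1 i j) (fun _ _ => Nat.zero_le _) hj
    have h2 : (∑ j ∈ Finset.range (d + 1), N1 i j) ≤ A :=
      Finset.single_le_sum (f := fun i => ∑ j ∈ Finset.range (d + 1), N1 i j)
        (fun _ _ => Nat.zero_le _) (Finset.mem_univ i)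
    omega
  have hB1 : ∀ i, N2 i ≤ B := fun i =>
    Finset.single_le_sum (f := N2) (fun _ _ => Nat.zero_le _) (Finset.mem_univ i)
  refine ⟨A + (B * D + 1) + 1, fun f hf hgrow m hm => ?_⟩
  obtain ⟨c, hc⟩ := hgrow
  -- values at the nodes
  have hval : ∀ i, |MvPolynomial.aeval ![x, v i] f| ≤ |x| ^ (B * D + 1) := by
    intro i
    have h1 := transfer hR hx hc (hvg i)
    have h2 : |MvPolynomial.aeval ![x, v i] hq| ≤ |x| ^ B :=
      (hN2 i).trans (pow_le_pow_right₀ hx1.le (hB1 i))
    have h3 : (MvPolynomial.aeval ![x, v i] hq) ^ D ≤ (|x| ^ B) ^ D := by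
      refine (le_abs_self _).trans ?_
      rw [abs_pow]
      exact pow_le_pow_left₀ (abs_nonneg _) h2 D
    have h0 : 0 ≤ (MvPolynomial.aeval ![x, v i] hq) ^ D := by
      have : MvPolynomial.aeval ![x, v i] hq = 1 + x ^ 2 + v i ^ 2 := by simp [hq]
      rw [this]; positivity
    have h4 : (MvPolynomial.aeval ![x, v i] f) ^ 2 ≤ |x| * (|x| ^ B) ^ D := by
      refine h1.trans ?_
      exact mul_le_mul (hx c).le h3 h0 (by positivity)
    have h5 : |x| * (|x| ^ B) ^ D ≤ (|x| ^ (B * D + 1)) ^ 2 := by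
      rw [← pow_mul, ← pow_succ', ← pow_mul]
      exact pow_le_pow_right₀ hx1.le (by nlinarith)
    exact abs_le_of_sq_le_sq (h4.trans h5) (by positivity)
  -- interpolation
  set φ : R[X] := ∑ j ∈ Finset.range (d + 1), C (aeval x (cf f j)) * X ^ j with hφ
  have hφe : ∀ z, φ.eval z = MvPolynomial.aeval ![x, z] f := by
    intro z
    rw [aeval_cf hf, hφ, eval_finsetSum]
    refine Finset.sum_congr rfl fun j _ => ?_
    simp
  have hφc : ∀ j ∈ Finset.range (d + 1), φ.coeff j = aeval x (cf f j) := by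
    intro j hj
    rw [hφ, finsetSum_coeff, Finset.sum_eq_single j]
    · simp
    · intro b _ hb
      rw [coeff_C_mul, coeff_X_pow, if_neg (Ne.symm hb), mul_zero]
    · intro h; exact absurd hj h
  have hφd : φ.degree < (Finset.univ : Finset (Fin (d + 1))).card := by
    rw [Finset.card_univ, Fintype.card_fin]
    refine (degree_sum_le _ _).trans_lt ?_
    rw [Finset.sup_lt_iff (by exact WithBot.bot_lt_coe _)]
    intro j hj
    refine (degree_C_mul_X_pow_le _ _).trans_lt ?_
    exact_mod_cast Finset.mem_range.mp hj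
  have hint := Lagrange.eq_interpolate_of_eval_eq (s := Finset.univ) (v := v)
    (fun i => MvPolynomial.aeval ![x, v i] f) (hvinj.injOn) hφd (fun i _ => hφe (v i))
  have hm1 : m 1 ∈ Finset.range (d + 1) := Finset.mem_range.mpr (Nat.lt_succ_of_le (hf m hm))
  have hcoef : aeval x (cf f (m 1)) = ∑ i, MvPolynomial.aeval ![x, v i] f
      * (Lagrange.basis Finset.univ v i).coeff (m 1) := by
    rw [← hφc _ hm1, hint, Lagrange.interpolate_apply, finsetSum_coeff]
    refine Finset.sum_congr rfl fun i _ => ?_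
    rw [coeff_C_mul]
  have hbound : |aeval x (cf f (m 1))| ≤ |x| ^ (A + (B * D + 1) + 1) := by
    rw [hcoef]
    refine (Finset.abs_sum_le_sum_abs _ _).trans ?_
    have h1 : ∀ i ∈ (Finset.univ : Finset (Fin (d + 1))), |MvPolynomial.aeval ![x, v i] f
        * (Lagrange.basis Finset.univ v i).coeff (m 1)| ≤ |x| ^ (A + (B * D + 1)) := by
      intro i _
      rw [abs_mul, pow_add, mul_comm (|x| ^ A)]
      apply mul_le_mul (hval i) _ (abs_nonneg _) (by positivity)
      exact (hN1 i (m 1)).trans (pow_le_pow_right₀ hx1.le (hA1 i _ hm1))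
    refine (Finset.sum_le_sum h1).trans ?_
    rw [Finset.sum_const, Finset.card_univ, Fintype.card_fin, nsmul_eq_mul, pow_succ,
      mul_comm (|x| ^ (A + (B * D + 1)))]
    apply mul_le_mul_of_nonneg_right _ (by positivity)
    have := hx ((d + 1 : ℕ) : ℝ)
    rw [map_natCast] at this
    exact this.le
  have hdeg := lower_bound hx hbound
  refine le_trans ?_ hdeg
  apply le_natDegree_of_ne_zero
  rw [coeff_cf]
  exact MvPolynomial.mem_support_iff.mp hm

end Model

/-- If `x` is unbounded on `{g > 0}`, then polynomials of bounded `y`-degree and bounded growth have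
bounded `x`-degree. -/
theorem strip_bound {g : P2} (hU : ∀ N : ℝ, ∃ P : Fin 2 → ℝ, 0 < MvPolynomial.eval P g ∧ N < |P 0|)
    (d D : ℕ) :
    ∃ N : ℕ, ∀ f : P2, (∀ m ∈ f.support, m 1 ≤ d) → Grow g D f → ∀ m ∈ f.support, m 0 ≤ N := by
  choose P hPg hPN using fun n : ℕ => hU n
  obtain ⟨R, _, _, _, _, x, y, hR, hmod⟩ := exists_model P
  have hx : ∀ r : ℝ, algebraMap ℝ R r < |x| := by
    intro r
    have h1 : 0 < MvPolynomial.aeval ![x, y] (MvPolynomial.X 0 ^ 2 - MvPolynomial.C (r ^ 2) : P2) := by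
      apply hmod
      have h2 : ∀ᶠ n : ℕ in (hyperfilter ℕ : Filter ℕ), |r| < n :=
        Nat.hyperfilter_le_atTop (tendsto_natCast_atTop_atTop.eventually_gt_atTop |r|)
      filter_upwards [h2] with n hn
      rw [map_sub, map_pow, MvPolynomial.eval_X, MvPolynomial.eval_C]
      have h3 : |r| < |P n 0| := hn.trans (hPN n)
      have h4 := sq_lt_sq.mpr h3
      linarith
    rw [map_sub, map_pow, MvPolynomial.aeval_X, MvPolynomial.aeval_C, map_pow] at h1
    have h5 : (algebraMap ℝ R r) ^ 2 < x ^ 2 := by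
      have : (![x, y] : Fin 2 → R) 0 = x := rfl
      rw [this] at h1
      linarith
    exact lt_of_le_of_lt (le_abs_self _) (sq_lt_sq.mp h5)
  exact strip_model hR hx (hmod g (Eventually.of_forall hPg)) d D

end Pool.Agent.H685_stab
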