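import Pool.Agent.H685_stab.Laur
import Pool.Agent.H685_stab.SOS

/-!
The three tentacles, and the realisation of principal parts.
-/

set_option linter.unusedSectionVars false

namespace Pool.Agent.H685_stab

open MvPolynomial

/-- The variable `x`. -/
noncomputable abbrev vx : P2 := X 0

/-- The variable `y`. -/
noncomputable abbrev vy : P2 := X 1

/-- The polynomial `c = x y (x - y)`. -/
noncomputable def pc : P2 := vx * vy * (vx - vy)

/-- The polynomial `a = y - c`. -/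
noncomputable def pa : P2 := vy - pc

/-- The polynomial `b = x - c`. -/
noncomputable def pb : P2 := vx - pc

/-- First coordinate of the three tentacles. -/
noncomputable def tx : Fin 3 → Lr := ![mon 2 1, mon (-1) 0, mon (-1) 0 + (mon 1 0 + mon 2 1)]

/-- Second coordinate of the three tentacles. -/
noncomputable def ty : Fin 3 → Lr := ![mon (-1) 0, mon 2 1, mon (-1) 0]

/-- The three tentacles as ring homomorphisms. -/
noncomputable def ph (i : Fin 3) : P2 →ₐ[ℝ] Lr := aeval ![tx i, ty i]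

lemma ph_x (i : Fin 3) : ph i vx = tx i := by simp [ph]

lemma ph_y (i : Fin 3) : ph i vy = ty i := by simp [ph]

lemma ph0_x : ph 0 vx = mon 2 1 := by rw [ph_x]; rfl
lemma ph1_x : ph 1 vx = mon (-1) 0 := by rw [ph_x]; rfl
lemma ph2_x : ph 2 vx = mon (-1) 0 + (mon 1 0 + mon 2 1) := by rw [ph_x]; rfl
lemma ph0_y : ph 0 vy = mon (-1) 0 := by rw [ph_y]; rfl
lemma ph1_y : ph 1 vy = mon 2 1 := by rw [ph_y]; rfl
lemma ph2_y : ph 2 vy = mon (-1) 0 := by rw [ph_y]; rfl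

lemma ph0_c : ph 0 pc = mon 3 2 - mon 0 1 := by
  rw [pc, map_mul, map_mul, map_sub, ph0_x, ph0_y, mon_mul, mul_sub, mon_mul, mon_mul]
  norm_num

lemma ph1_c : ph 1 pc = mon 0 1 - mon 3 2 := by
  rw [pc, map_mul, map_mul, map_sub, ph1_x, ph1_y, mon_mul, mul_sub, mon_mul, mon_mul]
  norm_num

lemma ph2_c : ph 2 pc = mon (-1) 0 + mon 0 1 + mon 1 0 + 2 * mon 2 1 + mon 3 2 := by
  rw [pc, map_mul, map_mul, map_sub, ph2_x, ph2_y]
  have : (mon (-1) 0 + (mon 1 0 + mon 2 1)) * mon (-1) 0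
      * (mon (-1) 0 + (mon 1 0 + mon 2 1) - mon (-1) 0)
      = mon (-1) 0 * mon (-1) 0 * mon 1 0 + mon (-1) 0 * mon (-1) 0 * mon 2 1
        + mon (-1) 0 * mon 1 0 * mon 1 0 + 2 * (mon (-1) 0 * mon 1 0 * mon 2 1)
        + mon (-1) 0 * mon 2 1 * mon 2 1 := by ring
  rw [this]
  simp only [mon_mul]
  norm_num

lemma ph0_a : ph 0 pa = mon (-1) 0 + mon 0 1 - mon 3 2 := by
  rw [pa, map_sub, ph0_y, ph0_c]; ring

lemma ph0_b : ph 0 pb = mon 0 1 + mon 2 1 - mon 3 2 := by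
  rw [pb, map_sub, ph0_x, ph0_c]; ring

lemma ph1_a : ph 1 pa = -mon 0 1 + mon 2 1 + mon 3 2 := by
  rw [pa, map_sub, ph1_y, ph1_c]; ring

lemma ph1_b : ph 1 pb = mon (-1) 0 - mon 0 1 + mon 3 2 := by
  rw [pb, map_sub, ph1_x, ph1_c]; ring

lemma ph2_a : ph 2 pa = -mon 0 1 - mon 1 0 - 2 * mon 2 1 - mon 3 2 := by
  rw [pa, map_sub, ph2_y, ph2_c]; ring

lemma ph2_b : ph 2 pb = -mon 0 1 - mon 2 1 - mon 3 2 := by
  rw [pb, map_sub, ph2_x, ph2_c]; ring

/-- The filtration of the polynomial ring by degree in `x, y, c`. -/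
noncomputable def An (n : ℕ) : Submodule ℝ P2 :=
  Submodule.span ℝ {f | ∃ i j k : ℕ, i + j + k ≤ n ∧ f = vx ^ i * vy ^ j * pc ^ k}

lemma An_mono {n m : ℕ} (h : n ≤ m) : An n ≤ An m := by
  apply Submodule.span_mono
  rintro f ⟨i, j, k, hijk, rfl⟩
  exact ⟨i, j, k, hijk.trans h, rfl⟩

lemma An_mul {n m : ℕ} {f g : P2} (hf : f ∈ An n) (hg : g ∈ An m) : f * g ∈ An (n + m) := by
  have h1 : f * g ∈ An n * An m := Submodule.mul_mem_mul hf hg
  rw [An, An, Submodule.span_mul_span] at h1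
  apply Submodule.span_mono _ h1
  rintro _ ⟨_, ⟨i, j, k, hijk, rfl⟩, _, ⟨i', j', k', hijk', rfl⟩, rfl⟩
  refine ⟨i + i', j + j', k + k', by omega, ?_⟩
  simp only [pow_add]; ring

lemma one_mem_An (n : ℕ) : (1 : P2) ∈ An n :=
  Submodule.subset_span ⟨0, 0, 0, by omega, by simp⟩

lemma An_pow {n : ℕ} {f : P2} (hf : f ∈ An n) (k : ℕ) : f ^ k ∈ An (k * n) := by
  induction k with
  | zero => simpa using one_mem_An 0
  | succ k ih =>
    rw [pow_succ]
    have := An_mul ih hf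
    convert this using 2
    ring

lemma vx_mem_An : vx ∈ An 1 := Submodule.subset_span ⟨1, 0, 0, by omega, by simp⟩
lemma vy_mem_An : vy ∈ An 1 := Submodule.subset_span ⟨0, 1, 0, by omega, by simp⟩
lemma pc_mem_An : pc ∈ An 1 := Submodule.subset_span ⟨0, 0, 1, by omega, by simp⟩
lemma pa_mem_An : pa ∈ An 1 := sub_mem vy_mem_An pc_mem_An
lemma pb_mem_An : pb ∈ An 1 := sub_mem vx_mem_An pc_mem_An

/-- The triples of Laurent polynomials whose principal parts are realised by elements of `An n`. -/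
def Rn (n : ℕ) : Submodule ℝ (Fin 3 → Lr) where
  carrier := {F | ∃ f ∈ An n, ∀ i, ph i f - F i ∈ Gr 0}
  add_mem' := by
    rintro F G ⟨f, hf, hfF⟩ ⟨g, hg, hgG⟩
    refine ⟨f + g, add_mem hf hg, fun i => ?_⟩
    have := add_mem (hfF i) (hgG i)
    convert this using 1
    rw [map_add, Pi.add_apply]; ring
  zero_mem' := ⟨0, zero_mem _, fun i => by simp⟩
  smul_mem' := by
    rintro c F ⟨f, hf, hfF⟩
    refine ⟨c • f, Submodule.smul_mem _ c hf, fun i => ?_⟩
    have := Submodule.smul_mem _ c (hfF i)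
    convert this using 1
    rw [map_smul, Pi.smul_apply, smul_sub]

lemma Rn_mono {n m : ℕ} (h : n ≤ m) : Rn n ≤ Rn m := by
  rintro F ⟨f, hf, hfF⟩
  exact ⟨f, An_mono h hf, hfF⟩

lemma Rn_of_Gr {n : ℕ} {F : Fin 3 → Lr} (hF : ∀ i, F i ∈ Gr 0) : F ∈ Rn n :=
  ⟨0, zero_mem _, fun i => by rw [map_zero, zero_sub]; exact neg_mem (hF i)⟩

lemma Rn_of_An {n : ℕ} {f : P2} (hf : f ∈ An n) : (fun i => ph i f) ∈ Rn n :=
  ⟨f, hf, fun i => by simp⟩

end Pool.Agent.H685_stab
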