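import Pool.Agent.H685_stab.ML

/-!
Top parts with respect to the degree filtration, and the kernel of the top part.
-/

set_option linter.unusedSectionVars false

namespace Pool.Agent.H685_stab

open Polynomial

/-- The part of weight `n`, with `1/τ` set to `1`. -/
noncomputable def dh (n : ℤ) : Lr →ₗ[ℝ] Polynomial ℝ where
  toFun F := ∑ q ∈ F.coeff.support, if wD q = n then Polynomial.monomial q.2 (F.coeff q) else 0
  map_add' F G := by
    ext k
    have key : ∀ F : Lr, (∑ q ∈ F.coeff.support, if wD q = n then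
        Polynomial.monomial q.2 (F.coeff q) else 0 : Polynomial ℝ).coeff k
          = F.coeff ((k : ℤ) - n, k) := by
      intro F
      rw [Polynomial.finsetSum_coeff]
      rw [Finset.sum_eq_single ((k : ℤ) - n, k)]
      · simp [wD]
      · rintro ⟨a, b⟩ _ hb
        by_cases h : wD (a, b) = n
        · have : b ≠ k := by
            rintro rfl
            apply hb
            simp only [wD] at h
            ext
            · change a = _; omega
            · rfl
          rw [if_pos h, Polynomial.coeff_monomial, if_neg this]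
        · simp [h]
      · intro h
        rw [Finsupp.notMem_support_iff] at h
        simp [h]
    rw [Polynomial.coeff_add, key, key, key]
    rfl
  map_smul' c F := by
    ext k
    have key : ∀ F : Lr, (∑ q ∈ F.coeff.support, if wD q = n then
        Polynomial.monomial q.2 (F.coeff q) else 0 : Polynomial ℝ).coeff k
          = F.coeff ((k : ℤ) - n, k) := by
      intro F
      rw [Polynomial.finsetSum_coeff]
      rw [Finset.sum_eq_single ((k : ℤ) - n, k)]
      · simp [wD]
      · rintro ⟨a, b⟩ _ hb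
        by_cases h : wD (a, b) = n
        · have : b ≠ k := by
            rintro rfl
            apply hb
            simp only [wD] at h
            ext
            · change a = _; omega
            · rfl
          rw [if_pos h, Polynomial.coeff_monomial, if_neg this]
        · simp [h]
      · intro h
        rw [Finsupp.notMem_support_iff] at h
        simp [h]
    rw [RingHom.id_apply, Polynomial.coeff_smul, key, key]
    rfl

lemma coeff_dh (n : ℤ) (F : Lr) (k : ℕ) : (dh n F).coeff k = F.coeff ((k : ℤ) - n, k) := by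
  change (∑ q ∈ F.coeff.support, if wD q = n then
        Polynomial.monomial q.2 (F.coeff q) else 0 : Polynomial ℝ).coeff k = _
  rw [Polynomial.finsetSum_coeff]
  rw [Finset.sum_eq_single ((k : ℤ) - n, k)]
  · simp [wD]
  · rintro ⟨a, b⟩ _ hb
    by_cases h : wD (a, b) = n
    · have : b ≠ k := by
        rintro rfl
        apply hb
        simp only [wD] at h
        ext
        · change a = _; omega
        · rfl
      rw [if_pos h, Polynomial.coeff_monomial, if_neg this]
    · simp [h]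
  · intro h
    rw [Finsupp.notMem_support_iff] at h
    simp [h]

lemma dh_mon (n p : ℤ) (k : ℕ) :
    dh n (mon p k) = if (k : ℤ) - p = n then Polynomial.X ^ k else 0 := by
  ext l
  rw [coeff_dh, coeff_mon]
  by_cases h : (k : ℤ) - p = n
  · subst h
    rw [if_pos rfl, Polynomial.coeff_X_pow]
    by_cases hl : l = k
    · subst hl; simp
    · rw [if_neg, if_neg hl]
      rintro h
      exact hl (congrArg Prod.snd h).symm
  · rw [if_neg h, if_neg, Polynomial.coeff_zero]
    rintro h2
    apply h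
    have h3 := congrArg Prod.snd h2
    have h4 := congrArg Prod.fst h2
    simp only at h3 h4
    subst h3
    omega

lemma dh_of_mem {m n : ℤ} {F : Lr} (hF : F ∈ Fl m) (h : m < n) : dh n F = 0 := by
  ext k
  rw [coeff_dh, Polynomial.coeff_zero]
  by_contra hne
  have := hF _ hne
  simp only [wD] at this
  omega

lemma dh_mul {m n : ℤ} {F G : Lr} (hF : F ∈ Fl m) (hG : G ∈ Fl n) :
    dh (m + n) (F * G) = dh m F * dh n G := by
  have key : ∀ q ∈ F.coeff.support, ∀ r ∈ G.coeff.support,
      dh (m + n) (mon q.1 q.2 * mon r.1 r.2) = dh m (mon q.1 q.2) * dh n (mon r.1 r.2) := by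
    intro q hq r hr
    have h1 := hF q (Finsupp.mem_support_iff.mp hq)
    have h2 := hG r (Finsupp.mem_support_iff.mp hr)
    simp only [wD] at h1 h2
    rw [mon_mul, dh_mon, dh_mon, dh_mon]
    by_cases h3 : (q.2 : ℤ) - q.1 = m
    · by_cases h4 : (r.2 : ℤ) - r.1 = n
      · rw [if_pos (by push_cast; omega), if_pos h3, if_pos h4, pow_add]
      · rw [if_neg (by push_cast; omega), if_neg h4, mul_zero]
    · rw [if_neg (by push_cast; omega), if_neg h3, zero_mul]
  conv_lhs => rw [eq_sum_mon F, eq_sum_mon G]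
  conv_rhs => rw [eq_sum_mon F, eq_sum_mon G]
  rw [Finset.sum_mul_sum, map_sum, map_sum, map_sum, Finset.sum_mul_sum]
  refine Finset.sum_congr rfl fun q hq => ?_
  rw [map_sum]
  refine Finset.sum_congr rfl fun r hr => ?_
  rw [smul_mul_smul_comm, map_smul, map_smul, map_smul, smul_mul_smul_comm, key q hq r hr]

lemma dh_one : dh 0 1 = 1 := by
  rw [← mon_zero, dh_mon]; simp

lemma dh_pow {F : Lr} (hF : F ∈ Fl 1) (k : ℕ) : dh k (F ^ k) = (dh 1 F) ^ k := by
  induction k with
  | zero => simpa using dh_one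
  | succ k ih =>
    rw [pow_succ, pow_succ, ← ih]
    have h : F ^ k ∈ Fl k := by simpa using Fl_pow hF k
    have := dh_mul h hF
    push_cast
    exact this

lemma dh_congr {n : ℤ} {F G : Lr} (h : F - G ∈ Fl (n - 1)) : dh n F = dh n G := by
  have h1 := dh_of_mem h (show n - 1 < n by omega)
  rw [map_sub, sub_eq_zero] at h1
  exact h1

/-- Top part of `x`. -/
noncomputable def dx : Fin 3 → ℝ[X] := ![0, 1, 1]

/-- Top part of `y`. -/
noncomputable def dy : Fin 3 → ℝ[X] := ![1, 0, 1]

/-- Top part of `c`. -/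
noncomputable def dc : Fin 3 → ℝ[X] := ![-X, X, 1 + X]

lemma dh_rr : dh 1 rr = 1 := by rw [dh_mon]; norm_num
lemma dh_uu : dh 1 uu = Polynomial.X := by rw [dh_mon]; norm_num

lemma dh_x (i : Fin 3) : dh 1 (ph i vx) = dx i := by
  rw [dh_congr (G := topx i) (FW_mono (by norm_num) (cx i))]
  fin_cases i
  · exact map_zero _
  · exact dh_rr
  · exact dh_rr

lemma dh_y (i : Fin 3) : dh 1 (ph i vy) = dy i := by
  rw [dh_congr (G := topy i) (FW_mono (by norm_num) (cy i))]
  fin_cases i
  · exact dh_rr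
  · exact map_zero _
  · exact dh_rr

lemma dh_c (i : Fin 3) : dh 1 (ph i pc) = dc i := by
  rw [dh_congr (G := topc i) (FW_mono (by norm_num) (cc i))]
  fin_cases i
  · change dh 1 (-uu) = -Polynomial.X
    rw [map_neg, dh_uu]
  · exact dh_uu
  · change dh 1 (rr + uu) = 1 + Polynomial.X
    rw [map_add, dh_uu, dh_rr]

lemma ph_An {n : ℕ} {f : P2} (hf : f ∈ An n) (i : Fin 3) : ph i f ∈ Fl n := by
  have h : An n ≤ (Fl n).comap (ph i).toLinearMap := by
    rw [An, Submodule.span_le]
    rintro _ ⟨a, b, c, habc, rfl⟩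
    change ph i (vx ^ a * vy ^ b * pc ^ c) ∈ Fl n
    rw [map_mul, map_mul, map_pow, map_pow, map_pow]
    have := Fl_mul (Fl_mul (Fl_pow (phx_mem i) a) (Fl_pow (phy_mem i) b)) (Fl_pow (phc_mem i) c)
    exact FW_mono (by omega) this
  exact h hf

/-- A homogeneous sum. -/
noncomputable def Sm {A : Type*} [CommRing A] [Algebra ℝ A] (N : ℕ) (α : ℕ → ℝ) (F G : A) : A :=
  ∑ e ∈ Finset.range N, α e • (F ^ e * G ^ (N - 1 - e))

lemma Sm_add {A : Type*} [CommRing A] [Algebra ℝ A] (N : ℕ) (α β : ℕ → ℝ) (F G : A) :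
    Sm N (α + β) F G = Sm N α F G + Sm N β F G := by
  simp [Sm, add_smul, Finset.sum_add_distrib]

lemma Sm_smul {A : Type*} [CommRing A] [Algebra ℝ A] (N : ℕ) (c : ℝ) (α : ℕ → ℝ) (F G : A) :
    Sm N (c • α) F G = c • Sm N α F G := by
  simp [Sm, mul_smul, Finset.smul_sum]

lemma Sm_zero {A : Type*} [CommRing A] [Algebra ℝ A] (N : ℕ) (F G : A) :
    Sm N 0 F G = 0 := by
  simp [Sm]

lemma Sm_single {A : Type*} [CommRing A] [Algebra ℝ A] (N : ℕ) (e : ℕ) (he : e < N) (F G : A) :
    Sm N (Pi.single e 1) F G = F ^ e * G ^ (N - 1 - e) := by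
  rw [Sm, Finset.sum_eq_single e]
  · simp
  · intro b _ hb
    rw [Pi.single_eq_of_ne hb, zero_smul]
  · intro h
    exact absurd (Finset.mem_range.mpr he) h

lemma mono_swap (i j k : ℕ) :
    vx ^ (i + 1) * vy ^ (j + 1) * pc ^ k - vx ^ (i + j + 1) * vy * pc ^ k
      ∈ An (i + j + k + 1) := by
  induction j generalizing i with
  | zero => simp
  | succ j ih =>
    have h1 := ih (i + 1)
    have h2 : vx ^ i * vy ^ j * pc ^ (k + 1) ∈ An (i + (j + 1) + k + 1) :=
      Submodule.subset_span ⟨i, j, k + 1, by omega, rfl⟩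
    have e : vx ^ (i + 1) * vy ^ (j + 1 + 1) * pc ^ k - vx ^ (i + (j + 1) + 1) * vy * pc ^ k
        = (vx ^ (i + 1 + 1) * vy ^ (j + 1) * pc ^ k - vx ^ (i + 1 + j + 1) * vy * pc ^ k)
          - vx ^ i * vy ^ j * pc ^ (k + 1) := by
      have : pc ^ (k + 1) = pc ^ k * (vx * vy * (vx - vy)) := by rw [pow_succ]; rfl
      rw [this]
      ring
    rw [e]
    exact sub_mem (An_mono (by omega) h1) h2

/-- The normal form. -/
noncomputable def NFm (m : ℕ) (α β γ : ℕ → ℝ) : P2 :=
  Sm (m + 2) α vx pc + vy * Sm (m + 1) β vy pc + vx * vy * Sm m γ vx pc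

lemma decomp {m : ℕ} {f : P2} (hf : f ∈ An (m + 1)) :
    ∃ α β γ : ℕ → ℝ, f - NFm m α β γ ∈ An m := by
  refine Submodule.span_induction (p := fun f _ => ∃ α β γ : ℕ → ℝ, f - NFm m α β γ ∈ An m)
    ?_ ?_ ?_ ?_ hf
  · rintro f ⟨i, j, k, hijk, rfl⟩
    rcases lt_or_eq_of_le hijk with h | h
    · refine ⟨0, 0, 0, ?_⟩
      have : NFm m 0 0 0 = 0 := by simp [NFm, Sm_zero]
      rw [this, sub_zero]
      exact Submodule.subset_span ⟨i, j, k, by omega, rfl⟩
    rcases j with _ | j
    · refine ⟨Pi.single i 1, 0, 0, ?_⟩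
      have : NFm m (Pi.single i 1) 0 0 = vx ^ i * vy ^ 0 * pc ^ k := by
        rw [NFm, Sm_zero, Sm_zero, Sm_single _ _ (by omega)]
        have : m + 2 - 1 - i = k := by omega
        rw [this]; ring
      rw [this, sub_self]; exact zero_mem _
    rcases i with _ | i
    · refine ⟨0, Pi.single j 1, 0, ?_⟩
      have : NFm m 0 (Pi.single j 1) 0 = vx ^ 0 * vy ^ (j + 1) * pc ^ k := by
        rw [NFm, Sm_zero, Sm_zero, Sm_single _ _ (by omega)]
        have : m + 1 - 1 - j = k := by omega
        rw [this]; ring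
      rw [this, sub_self]; exact zero_mem _
    · refine ⟨0, 0, Pi.single (i + j) 1, ?_⟩
      have : NFm m 0 0 (Pi.single (i + j) 1) = vx ^ (i + j + 1) * vy * pc ^ k := by
        rw [NFm, Sm_zero, Sm_zero, Sm_single _ _ (by omega)]
        have : m - 1 - (i + j) = k := by omega
        rw [this]; ring
      rw [this]
      exact An_mono (by omega) (mono_swap i j k)
  · refine ⟨0, 0, 0, ?_⟩
    have : NFm m 0 0 0 = 0 := by simp [NFm, Sm_zero]
    rw [this, sub_zero]; exact zero_mem _
  · rintro f g _ _ ⟨α, β, γ, h⟩ ⟨α', β', γ', h'⟩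
    refine ⟨α + α', β + β', γ + γ', ?_⟩
    have e : f + g - NFm m (α + α') (β + β') (γ + γ')
        = (f - NFm m α β γ) + (g - NFm m α' β' γ') := by
      simp only [NFm, Sm_add]; ring
    rw [e]; exact add_mem h h'
  · rintro c f _ ⟨α, β, γ, h⟩
    refine ⟨c • α, c • β, c • γ, ?_⟩
    have e : c • f - NFm m (c • α) (c • β) (c • γ) = c • (f - NFm m α β γ) := by
      simp only [NFm, Sm_smul, smul_sub, smul_add, mul_smul_comm]
    rw [e]; exact Submodule.smul_mem _ _ h

lemma ph_Sm (i : Fin 3) (N : ℕ) (α : ℕ → ℝ) (f g : P2) :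
    ph i (Sm N α f g) = Sm N α (ph i f) (ph i g) := by
  simp [Sm, map_sum]

lemma dh_Sm (N : ℕ) (α : ℕ → ℝ) {F G : Lr} (hF : F ∈ Fl 1) (hG : G ∈ Fl 1) :
    dh ((N : ℤ) - 1) (Sm N α F G) = Sm N α (dh 1 F) (dh 1 G) := by
  rw [Sm, map_sum]
  refine Finset.sum_congr rfl fun e he => ?_
  have he' := Finset.mem_range.mp he
  rw [map_smul, ← dh_pow hF, ← dh_pow hG, ← dh_mul]
  · congr 2
    push_cast [Nat.cast_sub (show e ≤ N - 1 by omega), Nat.cast_sub (show 1 ≤ N by omega)]
    ring
  · simpa using Fl_pow hF e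
  · simpa using Fl_pow hG (N - 1 - e)

lemma Sm_mem (N : ℕ) (α : ℕ → ℝ) {F G : Lr} (hF : F ∈ Fl 1) (hG : G ∈ Fl 1) :
    Sm N α F G ∈ Fl ((N : ℤ) - 1) := by
  apply sum_mem
  intro e he
  have he' := Finset.mem_range.mp he
  apply Submodule.smul_mem
  have := Fl_mul (Fl_pow hF e) (Fl_pow hG (N - 1 - e))
  apply FW_mono _ this
  push_cast [Nat.cast_sub (show e ≤ N - 1 by omega), Nat.cast_sub (show 1 ≤ N by omega)]
  linarith

lemma dh_NFm (m : ℕ) (α β γ : ℕ → ℝ) (i : Fin 3) :
    dh ((m + 1 : ℕ) : ℤ) (ph i (NFm m α β γ)) = Sm (m + 2) α (dx i) (dc i)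
      + dy i * Sm (m + 1) β (dy i) (dc i) + dx i * dy i * Sm m γ (dx i) (dc i) := by
  have e0 : ph i (NFm m α β γ) = Sm (m + 2) α (ph i vx) (ph i pc)
      + ph i vy * Sm (m + 1) β (ph i vy) (ph i pc)
      + ph i vx * ph i vy * Sm m γ (ph i vx) (ph i pc) := by
    rw [NFm, map_add, map_add, map_mul, map_mul, map_mul, ph_Sm, ph_Sm, ph_Sm]
  rw [e0, map_add, map_add]
  have hx := phx_mem i
  have hy := phy_mem i
  have hc := phc_mem i
  congr 1
  · congr 1
    · have := dh_Sm (m + 2) α hx hc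
      rw [dh_x, dh_c] at this
      rw [← this]; congr 2; push_cast; ring
    · have h1 := dh_Sm (m + 1) β hy hc
      have h2 := dh_mul hy (Sm_mem (m + 1) β hy hc)
      rw [h1, dh_y, dh_c] at h2
      rw [← h2]; congr 2; push_cast; ring
  · have h1 := dh_Sm m γ hx hc
    have h2 := dh_mul (Fl_mul hx hy) (Sm_mem m γ hx hc)
    rw [dh_mul hx hy, h1, dh_x, dh_y, dh_c] at h2
    rw [← h2]; congr 2; push_cast; ring

/-- **The kernel of the top part.** -/
theorem lemT {m : ℕ} {f : P2} (hf : f ∈ An (m + 1))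
    (h : ∀ i, ∀ k < m + 1, (dh ((m + 1 : ℕ) : ℤ) (ph i f)).coeff k = 0) : f ∈ An m := by
  obtain ⟨α, β, γ, hd⟩ := decomp hf
  have h1 : ∀ i, dh ((m + 1 : ℕ) : ℤ) (ph i f) = dh ((m + 1 : ℕ) : ℤ) (ph i (NFm m α β γ)) := by
    intro i
    have := dh_of_mem (ph_An hd i) (show (m : ℤ) < ((m + 1 : ℕ) : ℤ) by push_cast; omega)
    rw [map_sub, map_sub, sub_eq_zero] at this
    exact this
  simp only [h1, dh_NFm] at h
  -- tentacle 0
  have hβ : ∀ e < m + 1, β e = 0 := by
    intro e he
    have h2 := h 0 (m - e) (by omega)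
    change ((Sm (m + 2) α 0 (-X) + 1 * Sm (m + 1) β 1 (-X) + 0 * 1 * Sm m γ 0 (-X) : ℝ[X])).coeff
      (m - e) = 0 at h2
    rw [zero_mul, zero_mul, add_zero, one_mul, coeff_add] at h2
    have h3 : (Sm (m + 2) α 0 (-X) : ℝ[X]).coeff (m - e) = 0 := by
      rw [Sm, Finset.sum_eq_single 0]
      · rw [pow_zero, one_mul, neg_pow, coeff_smul]
        have : ((-1 : ℝ[X]) ^ (m + 2 - 1 - 0)) = C ((-1) ^ (m + 2 - 1 - 0)) := by simp
        rw [this, coeff_C_mul, coeff_X_pow, if_neg (by omega)]; simp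
      · intro b _ hb
        rw [zero_pow hb, zero_mul, smul_zero]
      · intro hh; simp at hh
    rw [h3, zero_add, Sm, finsetSum_coeff, Finset.sum_eq_single e] at h2
    · rw [one_pow, one_mul, neg_pow, coeff_smul] at h2
      have : ((-1 : ℝ[X]) ^ (m + 1 - 1 - e)) = C ((-1) ^ (m + 1 - 1 - e)) := by simp
      rw [this, coeff_C_mul, coeff_X_pow, if_pos (by omega)] at h2
      simpa using h2
    · intro b hb hbe
      have hb' := Finset.mem_range.mp hb
      rw [one_pow, one_mul, neg_pow, coeff_smul]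
      have : ((-1 : ℝ[X]) ^ (m + 1 - 1 - b)) = C ((-1) ^ (m + 1 - 1 - b)) := by simp
      rw [this, coeff_C_mul, coeff_X_pow, if_neg (by omega)]; simp
    · intro hh
      exact absurd (Finset.mem_range.mpr he) hh
  -- tentacle 1
  have hα : ∀ e < m + 2, 1 ≤ e → α e = 0 := by
    intro e he he1
    have h2 := h 1 (m + 1 - e) (by omega)
    change ((Sm (m + 2) α 1 X + 0 * Sm (m + 1) β 0 X + 1 * 0 * Sm m γ 1 X : ℝ[X])).coeff
      (m + 1 - e) = 0 at h2
    rw [zero_mul, mul_zero, zero_mul, add_zero, add_zero, Sm, finsetSum_coeff,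
      Finset.sum_eq_single e] at h2
    · rw [one_pow, one_mul, coeff_smul, coeff_X_pow, if_pos (by omega)] at h2
      simpa using h2
    · intro b hb hbe
      have hb' := Finset.mem_range.mp hb
      rw [one_pow, one_mul, coeff_smul, coeff_X_pow, if_neg (by omega)]; simp
    · intro hh
      exact absurd (Finset.mem_range.mpr he) hh
  -- tentacle 2
  have hT2 : ∀ k < m + 1, (C (α 0) * (X + 1) ^ (m + 1)
      + ∑ e ∈ Finset.range m, C (γ e) * (X + 1) ^ (m - 1 - e) : ℝ[X]).coeff k = 0 := by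
    intro k hk
    have h2 := h 2 k hk
    change ((Sm (m + 2) α 1 (1 + X) + 1 * Sm (m + 1) β 1 (1 + X)
      + 1 * 1 * Sm m γ 1 (1 + X) : ℝ[X])).coeff k = 0 at h2
    have h3 : (Sm (m + 1) β 1 (1 + X) : ℝ[X]) = 0 := by
      rw [Sm]
      apply Finset.sum_eq_zero
      intro e he
      rw [hβ e (Finset.mem_range.mp he), zero_smul]
    have h4 : (Sm (m + 2) α 1 (1 + X) : ℝ[X]) = C (α 0) * (X + 1) ^ (m + 1) := by
      rw [Sm, Finset.sum_eq_single 0]
      · rw [one_pow, one_mul, smul_eq_C_mul, add_comm]; rfl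
      · intro b hb hb0
        rw [hα b (Finset.mem_range.mp hb) (by omega), zero_smul]
      · intro hh; simp at hh
    have h5 : (Sm m γ 1 (1 + X) : ℝ[X])
        = ∑ e ∈ Finset.range m, C (γ e) * (X + 1) ^ (m - 1 - e) := by
      rw [Sm]
      refine Finset.sum_congr rfl fun e _ => ?_
      rw [one_pow, one_mul, smul_eq_C_mul, add_comm]
    rw [h3, h4, h5] at h2
    simpa using h2
  have hdeg : ∀ k, m ≤ k → (∑ e ∈ Finset.range m, C (γ e) * (X + 1) ^ (m - 1 - e) : ℝ[X]).coeff k
      = 0 := by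
    intro k hk
    rw [finsetSum_coeff]
    apply Finset.sum_eq_zero
    intro e he
    have he' := Finset.mem_range.mp he
    rw [coeff_C_mul, coeff_eq_zero_of_natDegree_lt, mul_zero]
    have h1 : ((X + 1 : ℝ[X]) ^ (m - 1 - e)).natDegree ≤ (m - 1 - e) * (X + 1 : ℝ[X]).natDegree :=
      natDegree_pow_le
    have h2 : (X + 1 : ℝ[X]).natDegree = 1 := by
      have := natDegree_X_add_C (1 : ℝ)
      simpa using this
    rw [h2] at h1
    omega
  have hα0 : α 0 = 0 := by
    have h2 := hT2 m (by omega)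
    rw [coeff_add, hdeg m le_rfl, add_zero, coeff_C_mul, coeff_X_add_one_pow] at h2
    rcases mul_eq_zero.mp h2 with h3 | h3
    · exact h3
    · exfalso
      have : (m + 1).choose m = m + 1 := Nat.choose_succ_self_right m
      rw [this] at h3
      have : (0 : ℝ) ≤ m := Nat.cast_nonneg m
      push_cast at h3
      linarith
  have hγsum : (∑ e ∈ Finset.range m, C (γ e) * (X + 1) ^ (m - 1 - e) : ℝ[X]) = 0 := by
    ext k
    by_cases hk : k < m + 1
    · have := hT2 k hk
      rw [hα0, C_0, zero_mul, zero_add] at this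
      rw [this, coeff_zero]
    · rw [hdeg k (by omega), coeff_zero]
  have hγ : ∀ e < m, γ e = 0 := by
    intro e he
    have h2 := congrArg (fun q : ℝ[X] => (q.comp (X - 1)).coeff (m - 1 - e)) hγsum
    simp only [zero_comp, coeff_zero] at h2
    rw [show (∑ e ∈ Finset.range m, C (γ e) * (X + 1) ^ (m - 1 - e) : ℝ[X]).comp (X - 1)
      = ∑ e ∈ Finset.range m, C (γ e) * X ^ (m - 1 - e) by
        rw [sum_comp]
        refine Finset.sum_congr rfl fun e _ => ?_
        simp] at h2
    rw [finsetSum_coeff, Finset.sum_eq_single e] at h2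
    · rw [coeff_C_mul, coeff_X_pow, if_pos rfl, mul_one] at h2
      exact h2
    · intro b hb hbe
      have hb' := Finset.mem_range.mp hb
      rw [coeff_C_mul, coeff_X_pow, if_neg (by omega), mul_zero]
    · intro hh
      exact absurd (Finset.mem_range.mpr he) hh
  have hNF : NFm m α β γ = 0 := by
    have h1 : (Sm (m + 2) α vx pc : P2) = 0 := by
      rw [Sm]
      apply Finset.sum_eq_zero
      intro e he
      have : α e = 0 := by
        rcases Nat.eq_zero_or_pos e with h0 | h0
        · rw [h0]; exact hα0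
        · exact hα e (Finset.mem_range.mp he) h0
      rw [this, zero_smul]
    have h2 : (Sm (m + 1) β vy pc : P2) = 0 := by
      rw [Sm]
      apply Finset.sum_eq_zero
      intro e he
      rw [hβ e (Finset.mem_range.mp he), zero_smul]
    have h3 : (Sm m γ vx pc : P2) = 0 := by
      rw [Sm]
      apply Finset.sum_eq_zero
      intro e he
      rw [hγ e (Finset.mem_range.mp he), zero_smul]
    rw [NFm, h1, h2, h3]; ring
  rw [hNF, sub_zero] at hd
  exact hd

end Pool.Agent.H685_stab
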