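import Mathlib

/-!
Univariate facts: the quadratic module of an interval, and the positivity
certificates for a perturbed Choi-Lam polynomial over a strip.
-/

namespace Pool.Agent.H685_stab

open Polynomial

/-- Membership in the quadratic module generated by one element `g`. -/
def InQM {A : Type*} [CommRing A] (g f : A) : Prop :=
  ∃ σ τ : A, IsSumSq σ ∧ IsSumSq τ ∧ f = σ + τ * g

section QM

variable {A : Type*} [CommRing A] {g f f' s : A}

lemma InQM.of_sos (h : IsSumSq f) : InQM g f := ⟨f, 0, h, IsSumSq.zero, by ring⟩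

lemma InQM.gen : InQM g g := ⟨0, 1, IsSumSq.zero, IsSumSq.one, by ring⟩

lemma InQM.add (h : InQM g f) (h' : InQM g f') : InQM g (f + f') := by
  obtain ⟨σ, τ, hσ, hτ, rfl⟩ := h
  obtain ⟨σ', τ', hσ', hτ', rfl⟩ := h'
  exact ⟨σ + σ', τ + τ', hσ.add hσ', hτ.add hτ', by ring⟩

lemma InQM.smul (hs : IsSumSq s) (h : InQM g f) : InQM g (s * f) := by
  obtain ⟨σ, τ, hσ, hτ, rfl⟩ := h
  exact ⟨s * σ, s * τ, hs.mul hσ, hs.mul hτ, by ring⟩

lemma InQM.mul (h : InQM g f) (h' : InQM g f') : InQM g (f * f') := by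
  obtain ⟨σ, τ, hσ, hτ, rfl⟩ := h
  obtain ⟨σ', τ', hσ', hτ', rfl⟩ := h'
  refine ⟨σ * σ' + τ * τ' * (g * g), σ * τ' + τ * σ', ?_, ?_, by ring⟩
  · exact (hσ.mul hσ').add ((hτ.mul hτ').mul (IsSumSq.mul_self g))
  · exact (hσ.mul hτ').add (hτ.mul hσ')

end QM

lemma isSumSq_C {c : ℝ} (hc : 0 ≤ c) : IsSumSq (C c : ℝ[X]) := by
  have : (C c : ℝ[X]) = C (Real.sqrt c) * C (Real.sqrt c) := by
    rw [← C_mul, Real.mul_self_sqrt hc]
  rw [this]
  exact IsSumSq.mul_self _

/-- `R - X` is in the quadratic module of `R² - X²`. -/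
lemma inQM_sub {R : ℝ} (hR : 0 < R) : InQM (C (R ^ 2) - X ^ 2 : ℝ[X]) (C R - X) := by
  have h : (C R - X : ℝ[X]) = C (1 / (2 * R)) * ((C R - X) * (C R - X) + (C (R ^ 2) - X ^ 2)) := by
    have h1 : ((C R - X) * (C R - X) + (C (R ^ 2) - X ^ 2) : ℝ[X]) = C (2 * R) * (C R - X) := by
      simp only [C_mul, C_pow]
      have : (C 2 : ℝ[X]) = 2 := rfl
      rw [this]; ring
    rw [h1, ← mul_assoc, ← C_mul]
    have : 1 / (2 * R) * (2 * R) = 1 := by field_simp
    rw [this]; simp
  rw [h]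
  apply InQM.smul (isSumSq_C (by positivity))
  exact (InQM.of_sos (IsSumSq.mul_self _)).add InQM.gen

lemma inQM_add {R : ℝ} (hR : 0 < R) : InQM (C (R ^ 2) - X ^ 2 : ℝ[X]) (X + C R) := by
  have h : (X + C R : ℝ[X]) = C (1 / (2 * R)) * ((X + C R) * (X + C R) + (C (R ^ 2) - X ^ 2)) := by
    have h1 : ((X + C R) * (X + C R) + (C (R ^ 2) - X ^ 2) : ℝ[X]) = C (2 * R) * (X + C R) := by
      simp only [C_mul, C_pow]
      have : (C 2 : ℝ[X]) = 2 := rfl
      rw [this]; ring
    rw [h1, ← mul_assoc, ← C_mul]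
    have : 1 / (2 * R) * (2 * R) = 1 := by field_simp
    rw [this]; simp
  rw [h]
  apply InQM.smul (isSumSq_C (by positivity))
  exact (InQM.of_sos (IsSumSq.mul_self _)).add InQM.gen

lemma sign_linear {R : ℝ} (hR : 0 < R) {a r : ℝ} (hr : r ∉ Set.Icc (-R) R) :
    InQM (C (R ^ 2) - X ^ 2 : ℝ[X]) (C a * (X - C r)) ∨
    InQM (C (R ^ 2) - X ^ 2 : ℝ[X]) (-(C a * (X - C r))) := by
  have hcase : r < -R ∨ R < r := by
    by_contra hcon
    push Not at hcon
    exact hr ⟨hcon.1, hcon.2⟩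
  rcases hcase with h | h
  · -- X - r in T
    have h1 : InQM (C (R ^ 2) - X ^ 2 : ℝ[X]) (X - C r) := by
      have : (X - C r : ℝ[X]) = C (-R - r) + (X + C R) := by
        simp only [C_sub, C_neg]; ring
      rw [this]
      exact (InQM.of_sos (isSumSq_C (by linarith))).add (inQM_add hR)
    rcases le_total 0 a with ha | ha
    · left; exact InQM.smul (isSumSq_C ha) h1
    · right
      have : -(C a * (X - C r) : ℝ[X]) = C (-a) * (X - C r) := by
        simp only [C_neg]; ring
      rw [this]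
      exact InQM.smul (isSumSq_C (by linarith)) h1
  · have h1 : InQM (C (R ^ 2) - X ^ 2 : ℝ[X]) (C r - X) := by
      have : (C r - X : ℝ[X]) = C (r - R) + (C R - X) := by
        simp only [C_sub]; ring
      rw [this]
      exact (InQM.of_sos (isSumSq_C (by linarith))).add (inQM_sub hR)
    rcases le_total 0 a with ha | ha
    · right
      have : -(C a * (X - C r) : ℝ[X]) = C a * (C r - X) := by ring
      rw [this]
      exact InQM.smul (isSumSq_C ha) h1
    · left
      have : (C a * (X - C r) : ℝ[X]) = C (-a) * (C r - X) := by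
        simp only [C_neg]; ring
      rw [this]
      exact InQM.smul (isSumSq_C (by linarith)) h1

lemma sign_quadratic {f : ℝ[X]} (hi : Irreducible f) (hd : f.natDegree = 2) :
    IsSumSq f ∨ IsSumSq (-f) := by
  set a := f.coeff 2
  set b := f.coeff 1
  set c := f.coeff 0
  have ha : a ≠ 0 := by
    have : f.leadingCoeff ≠ 0 := leadingCoeff_ne_zero.mpr hi.ne_zero
    rwa [leadingCoeff, hd] at this
  have hf : f = C a * X ^ 2 + C b * X + C c := by
    conv_lhs => rw [f.as_sum_range' 3 (by omega)]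
    simp [Finset.sum_range_succ, ← C_mul_X_pow_eq_monomial, a, b, c]
    ring
  have hdisc : b ^ 2 - 4 * a * c < 0 := by
    by_contra hcon
    push Not at hcon
    have hroot : f.IsRoot ((-b + Real.sqrt (b ^ 2 - 4 * a * c)) / (2 * a)) := by
      rw [IsRoot, hf]
      simp only [eval_add, eval_mul, eval_C, eval_pow, eval_X]
      have hs := Real.mul_self_sqrt hcon
      set s := Real.sqrt (b ^ 2 - 4 * a * c)
      have : a * ((-b + s) / (2 * a)) ^ 2 + b * ((-b + s) / (2 * a)) + c
          = (s * s - (b ^ 2 - 4 * a * c)) / (4 * a) := by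
        field_simp; ring
      rw [this, hs]; simp
    have h1 := degree_eq_one_of_irreducible_of_root hi hroot
    have h2 : f.degree = 2 := by
      rw [degree_eq_natDegree hi.ne_zero, hd]; rfl
    rw [h1] at h2
    exact absurd h2 (by decide)
  -- a f = (aX + b/2)^2 + (ac - b²/4)
  have key : f = C (1 / a) * ((C a * X + C (b / 2)) * (C a * X + C (b / 2))
      + C (a * c - b ^ 2 / 4)) := by
    have e1 : (C a * X + C (b / 2)) * (C a * X + C (b / 2)) + C (a * c - b ^ 2 / 4)
        = C a * f := by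
      rw [hf]
      have : (C b : ℝ[X]) = 2 * C (b / 2) := by
        have : (2 : ℝ[X]) = C 2 := rfl
        rw [this, ← C_mul]; congr 1; ring
      have h3 : (C (a * c - b ^ 2 / 4) : ℝ[X]) = C a * C c - C (b / 2) ^ 2 := by
        rw [← C_mul, ← C_pow, ← C_sub]; congr 1; ring
      rw [this, h3]; ring
    rw [e1, ← mul_assoc, ← C_mul]
    have : 1 / a * a = 1 := by field_simp
    rw [this]; simp
  have hsos : IsSumSq ((C a * X + C (b / 2)) * (C a * X + C (b / 2))
      + C (a * c - b ^ 2 / 4) : ℝ[X]) :=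
    (IsSumSq.mul_self _).add (isSumSq_C (by nlinarith))
  rcases lt_or_gt_of_ne ha with h | h
  · right
    rw [key]
    have : -(C (1 / a) * ((C a * X + C (b / 2)) * (C a * X + C (b / 2))
      + C (a * c - b ^ 2 / 4)) : ℝ[X]) = C (-(1 / a)) * ((C a * X + C (b / 2)) *
        (C a * X + C (b / 2)) + C (a * c - b ^ 2 / 4)) := by
      simp only [C_neg]; ring
    rw [this]
    refine (isSumSq_C ?_).mul hsos
    have : 1 / a < 0 := one_div_neg.mpr h
    linarith
  · left
    rw [key]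
    exact (isSumSq_C (by positivity)).mul hsos

lemma sign_irreducible {R : ℝ} (hR : 0 < R) {f : ℝ[X]} (hi : Irreducible f)
    (h0 : ∀ x ∈ Set.Icc (-R) R, f.eval x ≠ 0) :
    InQM (C (R ^ 2) - X ^ 2 : ℝ[X]) f ∨ InQM (C (R ^ 2) - X ^ 2 : ℝ[X]) (-f) := by
  have hd := hi.natDegree_le_two
  have hd0 : 0 < f.natDegree := hi.natDegree_pos
  rcases (by omega : f.natDegree = 1 ∨ f.natDegree = 2) with h | h
  · -- linear
    have ha : f.coeff 1 ≠ 0 := by
      have : f.leadingCoeff ≠ 0 := leadingCoeff_ne_zero.mpr hi.ne_zero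
      rwa [leadingCoeff, h] at this
    have hf : f = C (f.coeff 1) * (X - C (-(f.coeff 0) / f.coeff 1)) := by
      conv_lhs => rw [f.as_sum_range' 2 (by omega)]
      simp only [Finset.sum_range_succ, ← C_mul_X_pow_eq_monomial, Finset.sum_range_zero]
      rw [mul_sub, ← C_mul]
      have : f.coeff 1 * (-(f.coeff 0) / f.coeff 1) = -(f.coeff 0) := by field_simp
      rw [this]
      simp only [C_neg]
      ring
    have hr : (-(f.coeff 0) / f.coeff 1) ∉ Set.Icc (-R) R := by
      intro hmem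
      apply h0 _ hmem
      have h5 := congrArg (eval (-(f.coeff 0) / f.coeff 1)) hf
      rw [h5]
      simp only [eval_mul, eval_C, eval_sub, eval_X, sub_self, mul_zero]
    rw [hf]
    exact sign_linear hR hr
  · rcases sign_quadratic hi h with h1 | h1
    · left; exact InQM.of_sos h1
    · right; exact InQM.of_sos h1

lemma sign_poly {R : ℝ} (hR : 0 < R) (f : ℝ[X]) :
    f ≠ 0 → (∀ x ∈ Set.Icc (-R) R, f.eval x ≠ 0) →
    InQM (C (R ^ 2) - X ^ 2 : ℝ[X]) f ∨ InQM (C (R ^ 2) - X ^ 2 : ℝ[X]) (-f) := by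
  induction f using WfDvdMonoid.induction_on_irreducible with
  | zero => intro h; exact absurd rfl h
  | unit u hu =>
    intro _ _
    obtain ⟨c, hc, rfl⟩ := Polynomial.isUnit_iff.mp hu
    rcases le_total 0 c with h | h
    · left; exact InQM.of_sos (isSumSq_C h)
    · right
      rw [← C_neg]
      exact InQM.of_sos (isSumSq_C (by linarith))
  | mul a i ha hi ih =>
    intro _ h0
    have h1 : ∀ x ∈ Set.Icc (-R) R, a.eval x ≠ 0 := by
      intro x hx h
      exact h0 x hx (by rw [eval_mul, h, mul_zero])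
    have h2 : ∀ x ∈ Set.Icc (-R) R, i.eval x ≠ 0 := by
      intro x hx h
      exact h0 x hx (by rw [eval_mul, h, zero_mul])
    rcases ih ha h1 with h3 | h3 <;> rcases sign_irreducible hR hi h2 with h4 | h4
    · left; exact h4.mul h3
    · right
      have : -(i * a) = (-i) * a := by ring
      rw [this]; exact h4.mul h3
    · right
      have : -(i * a) = i * (-a) := by ring
      rw [this]; exact h4.mul h3
    · left
      have : i * a = (-i) * (-a) := by ring
      rw [this]; exact h4.mul h3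

lemma eval_nonneg_of_sos {s : ℝ[X]} (hs : IsSumSq s) (x : ℝ) : 0 ≤ s.eval x := by
  induction hs with
  | zero => simp
  | sq_add a _ ih =>
    simp only [eval_add, eval_mul]
    nlinarith [mul_self_nonneg (eval x a)]

lemma eval_nonneg_of_inQM {R : ℝ} {f : ℝ[X]}
    (h : InQM (C (R ^ 2) - X ^ 2 : ℝ[X]) f) {x : ℝ} (hx : x ∈ Set.Icc (-R) R) :
    0 ≤ f.eval x := by
  obtain ⟨σ, τ, hσ, hτ, rfl⟩ := h
  simp only [eval_add, eval_mul, eval_sub, eval_C, eval_pow, eval_X]
  have h1 := eval_nonneg_of_sos hσ x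
  have h2 := eval_nonneg_of_sos hτ x
  have h3 : 0 ≤ R ^ 2 - x ^ 2 := by nlinarith [hx.1, hx.2]
  positivity

/-- A univariate polynomial which is strictly positive on `[-R, R]` lies in the quadratic module
generated by `R² - X²`. -/
theorem pos_interval {R : ℝ} (hR : 0 < R) {f : ℝ[X]}
    (h : ∀ x ∈ Set.Icc (-R) R, 0 < f.eval x) : InQM (C (R ^ 2) - X ^ 2 : ℝ[X]) f := by
  have h0 : (0 : ℝ) ∈ Set.Icc (-R) R := ⟨by linarith, hR.le⟩
  have hf : f ≠ 0 := by
    intro hf
    have := h 0 h0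
    rw [hf] at this
    simp at this
  rcases sign_poly hR f hf (fun x hx => (h x hx).ne') with h1 | h1
  · exact h1
  · exfalso
    have h2 := eval_nonneg_of_inQM h1 h0
    have h3 := h 0 h0
    rw [eval_neg] at h2
    linarith

/-- The separating polynomial `lam` used for the perturbed Choi-Lam polynomial. -/
lemma exists_lam (R : ℝ) (hR : 0 < R) : ∃ lam : ℝ[X], ∀ s ∈ Set.Icc (-R) R,
    0 < s ^ 4 - 3 * s ^ 2 + 1 / 2 - 2 * lam.eval s ∧ 0 < s ^ 2 + 1 / 4 - (lam.eval s) ^ 2 := by
  obtain ⟨lam, hlam⟩ := exists_polynomial_near_of_continuousOn (-R) R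
    (fun s => min ((s ^ 4 - 3 * s ^ 2) / 2 + 1 / 8) 0) (by fun_prop) (1 / (16 * (R + 1)))
    (by positivity)
  refine ⟨lam, fun s hs => ?_⟩
  have h1 := hlam s hs
  set δ := 1 / (16 * (R + 1)) with hδ
  have hδ1 : δ < 1 / 8 := by
    rw [hδ, div_lt_div_iff₀ (by positivity) (by norm_num)]
    linarith
  have hδ0 : 0 < δ := by positivity
  have hδR : δ * R ≤ 1 / 16 := by
    rw [hδ, div_mul_eq_mul_div, div_le_div_iff₀ (by positivity) (by norm_num)]
    nlinarith
  set m := min ((s ^ 4 - 3 * s ^ 2) / 2 + 1 / 8) 0 with hm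
  have hm1 : m ≤ (s ^ 4 - 3 * s ^ 2) / 2 + 1 / 8 := min_le_left _ _
  have hm0 : m ≤ 0 := min_le_right _ _
  have habs : -|s| ≤ (s ^ 4 - 3 * s ^ 2) / 2 := by
    have h4 : s ^ 4 = |s| ^ 4 := by
      have : |s| ^ 4 = (|s| ^ 2) ^ 2 := by ring
      rw [this, sq_abs]; ring
    have h2 : s ^ 2 = |s| ^ 2 := (sq_abs s).symm
    rw [h4, h2]
    have h0 : 0 ≤ |s| := abs_nonneg s
    have : 0 ≤ |s| * (|s| - 1) ^ 2 * (|s| + 2) := by positivity
    nlinarith
  have hm2 : -|s| ≤ m := by
    rw [hm]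
    apply le_min
    · linarith
    · linarith [abs_nonneg s]
  rw [abs_lt] at h1
  constructor
  · linarith
  · have hsR : |s| ≤ R := abs_le.mpr hs
    have h5 : |lam.eval s| < |s| + δ := by
      rw [abs_lt]
      constructor <;> linarith
    have h6 : (lam.eval s) ^ 2 < (|s| + δ) ^ 2 := by
      rw [← sq_abs (lam.eval s)]
      have := abs_nonneg (lam.eval s)
      nlinarith
    have h7 : (|s| + δ) ^ 2 = s ^ 2 + 2 * (δ * |s|) + δ ^ 2 := by
      have := sq_abs s
      nlinarith
    have h8 : δ * |s| ≤ δ * R := mul_le_mul_of_nonneg_left hsR hδ0.le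
    nlinarith

end Pool.Agent.H685_stab
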